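import Pool.Agent.NDG.Weak

/-! # The basic inequality for finite differences -/

open MeasureTheory Filter Topology Set

noncomputable section

namespace NDG

variable {d : ℕ} {s c : ℝ}

/-- the vector of the differences -/
def Dv {d k : ℕ} (u : E d → ℝ) (h : Fin k → E d) (x : E d) : EuclideanSpace ℝ (Fin k) :=
  WithLp.toLp 2 (fun i => u (x + h i) - u x)

/-- `(χ x - χ y) ^ 2 K (x - y)` -/
def kap (d : ℕ) (s : ℝ) (χ : E d → ℝ) (x y : E d) : ℝ := (χ x - χ y) ^ 2 * K d s (x - y)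

/-- the mixed second difference of `kap` -/
def dkap (d : ℕ) (s : ℝ) (χ : E d → ℝ) (h x y : E d) : ℝ :=
  kap d s χ (x - h) (y - h) - kap d s χ (x - h) y - kap d s χ x (y - h) + kap d s χ x y

/-- MODULE ea. Expand everything. -/
theorem bracket {k : ℕ} (a b : EuclideanSpace ℝ (Fin k)) (α β : ℝ) :
    (‖a‖ * α - ‖b‖ * β) ^ 2 - ∑ i, (a i - b i) * (a i * α ^ 2 - b i * β ^ 2) =
      -2 * ((‖a‖ * ‖b‖ - inner ℝ a b) * (α * β)) + inner ℝ a b * (α - β) ^ 2 := by
  have ha : ‖a‖ ^ 2 = ∑ i, a i ^ 2 := by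
    rw [EuclideanSpace.norm_sq_eq]; simp
  have hb : ‖b‖ ^ 2 = ∑ i, b i ^ 2 := by
    rw [EuclideanSpace.norm_sq_eq]; simp
  have hi : inner ℝ a b = ∑ i, a i * b i := by
    rw [PiLp.inner_apply]
    refine Finset.sum_congr rfl fun i _ => ?_
    simp [mul_comm]
  have hs : ∑ i, (a i - b i) * (a i * α ^ 2 - b i * β ^ 2) =
      ‖a‖ ^ 2 * α ^ 2 + ‖b‖ ^ 2 * β ^ 2 - inner ℝ a b * (α ^ 2 + β ^ 2) := by
    rw [ha, hb, hi, Finset.sum_mul, Finset.sum_mul, Finset.sum_mul, ← Finset.sum_add_distrib, ← Finset.sum_sub_distrib]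
    refine Finset.sum_congr rfl fun i _ => ?_
    ring
  rw [hs]
  ring

/-- MODULE ea. `2 (‖a‖ ‖b‖ - ⟨a, b⟩) ≤ ‖a - b‖ ^ 2`, and it is nonnegative. -/
theorem gap_le {k : ℕ} (a b : EuclideanSpace ℝ (Fin k)) :
    0 ≤ ‖a‖ * ‖b‖ - inner ℝ a b ∧ 2 * (‖a‖ * ‖b‖ - inner ℝ a b) ≤ ‖a - b‖ ^ 2 := by
  refine ⟨sub_nonneg.2 (real_inner_le_norm a b), ?_⟩
  have h := norm_sub_sq_real a b
  nlinarith [sq_nonneg (‖a‖ - ‖b‖)]

private theorem eb_D {u : E d → ℝ} (hu : Continuous u) {k : ℕ} (h : Fin k → E d) :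
    Continuous (Dv u h) := by
  unfold Dv
  refine (PiLp.continuous_toLp 2 _).comp (continuous_pi fun i => ?_)
  exact (hu.comp (continuous_id.add continuous_const)).sub hu

private theorem eb_diff {u : E d → ℝ} (hu : LocLip u) (hB : ∀ x, |u x| ≤ 1) {k : ℕ}
    (h : Fin k → E d) (ρ : ℝ) : ∃ C : ℝ, 0 ≤ C ∧ ∀ x y : E d, ‖x‖ ≤ ρ →
      ‖Dv u h x - Dv u h y‖ ^ 2 ≤ C * min 1 (‖x - y‖ ^ 2) := by
  have h1 : ∀ i, ∃ L : ℝ, 0 ≤ L ∧ ∀ x y : E d, ‖x‖ ≤ ρ →
      |(u (x + h i) - u x) - (u (y + h i) - u y)| ≤ L * min 1 ‖x - y‖ := fun i =>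
    ((hu.comp_add (h i)).sub hu).bd (B := 2) (fun x => by
      have := abs_sub (u (x + h i)) (u x)
      linarith [hB (x + h i), hB x]) ρ
  choose L hL0 hL using h1
  refine ⟨∑ i, L i ^ 2, Finset.sum_nonneg fun i _ => sq_nonneg _, fun x y hx => ?_⟩
  rw [EuclideanSpace.norm_sq_eq, Finset.sum_mul]
  refine Finset.sum_le_sum fun i _ => ?_
  have h2 := hL i x y hx
  have h3 : ‖(Dv u h x - Dv u h y) i‖ = |(u (x + h i) - u x) - (u (y + h i) - u y)| := rfl
  have h4 : (min 1 ‖x - y‖) ^ 2 = min 1 (‖x - y‖ ^ 2) := by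
    rcases le_total 1 ‖x - y‖ with h5 | h5
    · rw [min_eq_left h5, min_eq_left (by nlinarith)]
      norm_num
    · rw [min_eq_right h5, min_eq_right (by nlinarith [norm_nonneg (x - y)])]
  rw [h3, ← h4, ← mul_pow]
  exact pow_le_pow_left₀ (abs_nonneg _) h2 2

/-- MODULE eb. Domination as in `form_int` (`gap_le`, `LocLip.bd`). -/
theorem gap_int (hd : 1 ≤ d) (hs0 : 0 < s) (hs1 : s < 1) {u : E d → ℝ} (hu : LocLip u) (hB : ∀ x, |u x| ≤ 1) {k : ℕ} (h : Fin k → E d)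
    {χ : E d → ℝ} (hχ : Test χ) : Integrable (fun p : E d × E d =>
      (‖Dv u h p.1‖ * ‖Dv u h p.2‖ - inner ℝ (Dv u h p.1) (Dv u h p.2)) * (χ p.1 * χ p.2) * K d s (p.1 - p.2)) := by
  obtain ⟨ρ, L, hρ0, hL0, hρ, hχb, -⟩ := hχ.bd
  obtain ⟨C, hC0, hC⟩ := eb_diff hu hB h ρ
  obtain ⟨L', hL'⟩ := hχ.lip
  have hχc : Continuous χ := hL'.continuous
  have hDc := eb_D hu.continuous h
  have hW : Integrable ((Metric.closedBall (0 : E d) ρ).indicator (fun _ => C * L ^ 2)) := by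
    refine (integrableOn_const ?_).integrable_indicator Metric.isClosed_closedBall.measurableSet
    exact (isCompact_closedBall _ _).measure_lt_top.ne
  have hdom := (prod_int hW (minK_int hd hs0 hs1)).1
  refine Integrable.mono' hdom ?_ (Eventually.of_forall fun p => ?_)
  · refine AEStronglyMeasurable.mul ?_ ?_
    · refine Continuous.aestronglyMeasurable ?_
      refine Continuous.mul ?_ ?_
      · exact ((hDc.comp continuous_fst).norm.mul (hDc.comp continuous_snd).norm).sub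
          ((hDc.comp continuous_fst).inner (hDc.comp continuous_snd))
      · exact (hχc.comp continuous_fst).mul (hχc.comp continuous_snd)
    · exact (K_meas.comp (measurable_fst.sub measurable_snd)).aestronglyMeasurable
  · have hK := K_nonneg (s := s) (p.1 - p.2)
    by_cases hp : ‖p.1‖ ≤ ρ
    · rw [indicator_of_mem (show p.1 ∈ Metric.closedBall (0 : E d) ρ by
        rw [mem_closedBall_zero_iff]; exact hp)]
      obtain ⟨g1, g2⟩ := gap_le (Dv u h p.1) (Dv u h p.2)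
      have g3 := hC p.1 p.2 hp
      have g4 : |χ p.1 * χ p.2| ≤ L ^ 2 := by
        rw [abs_mul, sq]
        exact mul_le_mul (hχb _) (hχb _) (abs_nonneg _) hL0
      rw [Real.norm_eq_abs, abs_mul, abs_mul, abs_of_nonneg g1, abs_of_nonneg hK]
      have hm : 0 ≤ min 1 (‖p.1 - p.2‖ ^ 2) := le_min zero_le_one (sq_nonneg _)
      have g5 : ‖Dv u h p.1‖ * ‖Dv u h p.2‖ - inner ℝ (Dv u h p.1) (Dv u h p.2) ≤
          C * min 1 (‖p.1 - p.2‖ ^ 2) := by nlinarith
      calc (‖Dv u h p.1‖ * ‖Dv u h p.2‖ - inner ℝ (Dv u h p.1) (Dv u h p.2)) * |χ p.1 * χ p.2| *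
            K d s (p.1 - p.2)
          ≤ (C * min 1 (‖p.1 - p.2‖ ^ 2)) * L ^ 2 * K d s (p.1 - p.2) := by
            refine mul_le_mul_of_nonneg_right ?_ hK
            exact mul_le_mul g5 g4 (abs_nonneg _) (mul_nonneg hC0 hm)
        _ = C * L ^ 2 * (min 1 (‖p.1 - p.2‖ ^ 2) * K d s (p.1 - p.2)) := by ring
    · have h0 : χ p.1 = 0 := hρ _ (not_le.1 hp)
      rw [h0, zero_mul, mul_zero, zero_mul, norm_zero]
      refine mul_nonneg ?_ ?_
      · exact indicator_nonneg (fun _ _ => mul_nonneg hC0 (sq_nonneg _)) _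
      · exact mul_nonneg (le_min zero_le_one (sq_nonneg _)) hK

private theorem ec_dv {k : ℕ} (u : E d → ℝ) (h : Fin k → E d) (x : E d) (i : Fin k) : Dv u h x i = u (x + h i) - u x := rfl

private theorem ec_inner {k : ℕ} (u : E d → ℝ) (h : Fin k → E d) (x y : E d) :
    inner ℝ (Dv u h x) (Dv u h y) = ∑ i, (u (x + h i) - u x) * (u (y + h i) - u y) := by
  rw [PiLp.inner_apply]
  refine Finset.sum_congr rfl fun i _ => ?_
  simp only [ec_dv]
  simp [mul_comm]

private theorem ec_norm {k : ℕ} (u : E d → ℝ) (h : Fin k → E d) (x : E d) :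
    ‖Dv u h x‖ ^ 2 = ∑ i, (u (x + h i) - u x) ^ 2 := by
  rw [← real_inner_self_eq_norm_sq, ec_inner]
  exact Finset.sum_congr rfl fun i _ => by ring

private theorem ec_sum {k : ℕ} (u : E d → ℝ) (hB : ∀ x, |u x| ≤ 1) (h : Fin k → E d) (x y : E d) :
    |inner ℝ (Dv u h x) (Dv u h y)| ≤ 4 * k := by
  rw [ec_inner]
  refine (Finset.abs_sum_le_sum_abs _ _).trans ?_
  have : ∀ i ∈ (Finset.univ : Finset (Fin k)), |(u (x + h i) - u x) * (u (y + h i) - u y)| ≤ 4 := by
    intro i _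
    rw [abs_mul]
    have h1 : |u (x + h i) - u x| ≤ 2 := (abs_sub _ _).trans (by linarith [hB (x + h i), hB x])
    have h2 : |u (y + h i) - u y| ≤ 2 := (abs_sub _ _).trans (by linarith [hB (y + h i), hB y])
    nlinarith [abs_nonneg (u (x + h i) - u x), abs_nonneg (u (y + h i) - u y)]
  refine (Finset.sum_le_sum this).trans ?_
  simp [mul_comm]

/-- MODULE ec. Let `D = Dv u h`.  `weak_diff` for `h i` with the test function `D_i χ ^ 2`, summed over `i`, and stability for `ψ = ‖D‖ χ` (`LocLip.norm`); subtract and use `bracket` (all parts are integrable: `form_int`, `form_int2`, `gap_int`).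
`(1 - (b ^ 2 + b a + a ^ 2)) - (1 - 3 a ^ 2) = - (b - a) (b + 2 a)` with `|b + 2 a| ≤ 3`, so the error is at most `3 ∑ |D_i| ^ 3 χ ^ 2`. -/
theorem dir_ineq (hd : 1 ≤ d) (hs0 : 0 < s) (hs1 : s < 1) (hc : 0 < c) {u : E d → ℝ} (hu : Entire d s c u) (hst : Stable d s c u)
    {k : ℕ} (h : Fin k → E d) {χ : E d → ℝ} (hχ : Test χ) :
    ∫ p : E d × E d, (‖Dv u h p.1‖ * ‖Dv u h p.2‖ - inner ℝ (Dv u h p.1) (Dv u h p.2)) * (χ p.1 * χ p.2) * K d s (p.1 - p.2) ≤
      1 / 2 * (∫ p : E d × E d, inner ℝ (Dv u h p.1) (Dv u h p.2) * (χ p.1 - χ p.2) ^ 2 * K d s (p.1 - p.2)) +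
      3 / c * ∑ i, ∫ x, |u (x + h i) - u x| ^ 3 * χ x ^ 2 := by
  have huB : ∀ x, |u x| ≤ 1 := fun x => (hu.bound x).le
  have huc : Continuous u := hu.smooth.continuous
  have hχc : Continuous χ := hχ.locLip.continuous
  have hDl : ∀ i, LocLip (fun x => u (x + h i) - u x) := fun i => (hu.locLip.comp_add (h i)).sub hu.locLip
  have hDB : ∀ i x, |u (x + h i) - u x| ≤ 2 := fun i x => (abs_sub _ _).trans (by linarith [huB (x + h i), huB x])
  have hψ : ∀ i, Test (fun x => (u (x + h i) - u x) * χ x * χ x) := fun i =>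
    Test.mul_left ((hDl i).mul hχ.locLip) hχ
  have hN : LocLip (fun x => ‖Dv u h x‖) := LocLip.norm hDl
  have hΨ : Test (fun x => ‖Dv u h x‖ * χ x) := Test.mul_left hN hχ
  have hDc : ∀ i, Continuous (fun x => u (x + h i) - u x) := fun i => (hDl i).continuous
  -- integrals over the space
  have hb : ∀ g : E d → ℝ, Continuous g → ∀ B : ℝ, (∀ x, |g x| ≤ B) → Integrable (fun x => g x * χ x ^ 2) := by
    intro g hg B hgB
    have h2 : Integrable (fun x => χ x ^ 2) := by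
      have := (Test.mul_left hχ.locLip hχ).integrable
      refine this.congr (ae_of_all _ fun x => ?_)
      ring
    exact h2.bdd_mul hg.aestronglyMeasurable (ae_of_all _ fun p => by rw [Real.norm_eq_abs]; exact hgB p)
  have huu : ∀ x, u x ^ 2 ≤ 1 := fun x => by
    have := huB x; rw [abs_le] at this; nlinarith [this.1, this.2]
  -- stability
  have hS := hst _ hΨ
  have hS1 : ∫ x, (1 - 3 * u x ^ 2) * (‖Dv u h x‖ * χ x) ^ 2 =
      ∑ i, ∫ x, ((1 - 3 * u x ^ 2) * (u (x + h i) - u x) ^ 2) * χ x ^ 2 := by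
    rw [← integral_finsetSum]
    · refine integral_congr_ae (ae_of_all _ fun x => ?_)
      show (1 - 3 * u x ^ 2) * (‖Dv u h x‖ * χ x) ^ 2 = ∑ i, ((1 - 3 * u x ^ 2) * (u (x + h i) - u x) ^ 2) * χ x ^ 2
      rw [mul_pow, ec_norm, Finset.sum_mul, Finset.mul_sum]
      exact Finset.sum_congr rfl fun i _ => by ring
    · intro i _
      refine hb _ (by have := hDc i; fun_prop) 8 fun x => ?_
      rw [abs_mul]
      have h1 : |1 - 3 * u x ^ 2| ≤ 2 := by
        rw [abs_le]; constructor <;> nlinarith [huu x, sq_nonneg (u x)]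
      have h2 : |(u (x + h i) - u x) ^ 2| ≤ 4 := by
        rw [abs_pow]; nlinarith [hDB i x, abs_nonneg (u (x + h i) - u x)]
      nlinarith [abs_nonneg (1 - 3 * u x ^ 2), abs_nonneg ((u (x + h i) - u x) ^ 2)]
  -- the equation
  have hE : ∀ i, c / 2 * ∫ p : E d × E d, ((u (p.1 + h i) - u p.1) - (u (p.2 + h i) - u p.2)) *
      ((u (p.1 + h i) - u p.1) * χ p.1 * χ p.1 - (u (p.2 + h i) - u p.2) * χ p.2 * χ p.2) * K d s (p.1 - p.2) =
      ∫ x, ((u (x + h i) - u x) ^ 2 * (1 - (u (x + h i) ^ 2 + u (x + h i) * u x + u x ^ 2))) * χ x ^ 2 := by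
    intro i
    rw [weak_diff hd hs0 hs1 hu (h i) (hψ i)]
    refine integral_congr_ae (ae_of_all _ fun x => ?_)
    beta_reduce
    ring
  -- the pointwise error
  have hpt : ∀ i, (∫ x, ((u (x + h i) - u x) ^ 2 * (1 - (u (x + h i) ^ 2 + u (x + h i) * u x + u x ^ 2))) * χ x ^ 2) -
      3 * (∫ x, |u (x + h i) - u x| ^ 3 * χ x ^ 2) ≤ ∫ x, ((1 - 3 * u x ^ 2) * (u (x + h i) - u x) ^ 2) * χ x ^ 2 := by
    intro i
    rw [← integral_const_mul, ← integral_sub]
    · refine integral_mono ?_ ?_ fun x => ?_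
      · refine Integrable.sub (hb _ (by have := hDc i; fun_prop) 16 fun x => ?_) ((hb _ (by have := hDc i; fun_prop) 8 fun x => ?_).const_mul _)
        · rw [abs_mul]
          have h1 : |1 - (u (x + h i) ^ 2 + u (x + h i) * u x + u x ^ 2)| ≤ 4 := by
            have e1 := huu x
            have e2 := huu (x + h i)
            rw [abs_le]; constructor <;> nlinarith [sq_nonneg (u x + u (x + h i)), sq_nonneg (u x - u (x + h i)), sq_nonneg (u x), sq_nonneg (u (x + h i))]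
          have h2 : |(u (x + h i) - u x) ^ 2| ≤ 4 := by
            rw [abs_pow]; nlinarith [hDB i x, abs_nonneg (u (x + h i) - u x)]
          nlinarith [abs_nonneg (1 - (u (x + h i) ^ 2 + u (x + h i) * u x + u x ^ 2)), abs_nonneg ((u (x + h i) - u x) ^ 2)]
        · rw [abs_pow, abs_abs]
          calc |u (x + h i) - u x| ^ 3 ≤ 2 ^ 3 := pow_le_pow_left₀ (abs_nonneg _) (hDB i x) 3
            _ = 8 := by norm_num
      · refine hb _ (by have := hDc i; fun_prop) 8 fun x => ?_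
        rw [abs_mul]
        have h1 : |1 - 3 * u x ^ 2| ≤ 2 := by
          rw [abs_le]; constructor <;> nlinarith [huu x, sq_nonneg (u x)]
        have h2 : |(u (x + h i) - u x) ^ 2| ≤ 4 := by
          rw [abs_pow]; nlinarith [hDB i x, abs_nonneg (u (x + h i) - u x)]
        nlinarith [abs_nonneg (1 - 3 * u x ^ 2), abs_nonneg ((u (x + h i) - u x) ^ 2)]
      · show (u (x + h i) - u x) ^ 2 * (1 - (u (x + h i) ^ 2 + u (x + h i) * u x + u x ^ 2)) * χ x ^ 2 -
          3 * (|u (x + h i) - u x| ^ 3 * χ x ^ 2) ≤ (1 - 3 * u x ^ 2) * (u (x + h i) - u x) ^ 2 * χ x ^ 2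
        set a := u x with ha
        set b := u (x + h i) with hb'
        have e1 : |b + 2 * a| ≤ 3 := by
          have := huB x; have := huB (x + h i)
          rw [← ha] at *; rw [← hb'] at *
          calc |b + 2 * a| ≤ |b| + |2 * a| := abs_add_le _ _
            _ = |b| + 2 * |a| := by rw [abs_mul]; norm_num
            _ ≤ 3 := by linarith
        have e2 : -((b - a) ^ 2 * ((b - a) * (b + 2 * a))) ≤ 3 * |b - a| ^ 3 := by
          have : |(b - a) ^ 2 * ((b - a) * (b + 2 * a))| ≤ 3 * |b - a| ^ 3 := by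
            rw [abs_mul, abs_mul, abs_pow]
            have h3 : 0 ≤ |b - a| ^ 3 := by positivity
            calc |b - a| ^ 2 * (|b - a| * |b + 2 * a|) = |b - a| ^ 3 * |b + 2 * a| := by ring
              _ ≤ |b - a| ^ 3 * 3 := mul_le_mul_of_nonneg_left e1 h3
              _ = 3 * |b - a| ^ 3 := by ring
          linarith [neg_abs_le ((b - a) ^ 2 * ((b - a) * (b + 2 * a)))]
        have e3 : 0 ≤ χ x ^ 2 := sq_nonneg _
        nlinarith [mul_le_mul_of_nonneg_right e2 e3]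
    · refine hb _ (by have := hDc i; fun_prop) 16 fun x => ?_
      rw [abs_mul]
      have h1 : |1 - (u (x + h i) ^ 2 + u (x + h i) * u x + u x ^ 2)| ≤ 4 := by
        have e1 := huu x
        have e2 := huu (x + h i)
        rw [abs_le]; constructor <;> nlinarith [sq_nonneg (u x + u (x + h i)), sq_nonneg (u x - u (x + h i)), sq_nonneg (u x), sq_nonneg (u (x + h i))]
      have h2 : |(u (x + h i) - u x) ^ 2| ≤ 4 := by
        rw [abs_pow]; nlinarith [hDB i x, abs_nonneg (u (x + h i) - u x)]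
      nlinarith [abs_nonneg (1 - (u (x + h i) ^ 2 + u (x + h i) * u x + u x ^ 2)), abs_nonneg ((u (x + h i) - u x) ^ 2)]
    · refine (hb _ (by have := hDc i; fun_prop) 8 fun x => ?_).const_mul _
      rw [abs_pow, abs_abs]
      calc |u (x + h i) - u x| ^ 3 ≤ 2 ^ 3 := pow_le_pow_left₀ (abs_nonneg _) (hDB i x) 3
        _ = 8 := by norm_num
  -- the double integrals
  have hI1 : Integrable (fun p : E d × E d => (‖Dv u h p.1‖ * χ p.1 - ‖Dv u h p.2‖ * χ p.2) ^ 2 * K d s (p.1 - p.2)) := by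
    have := form_int2 (g := fun _ => (1 : ℝ)) hd hs0 hs1 hΨ continuous_const (B := 1) (fun _ => by simp)
    refine this.congr (ae_of_all _ fun p => ?_)
    simp
  have hI2 : ∀ i, Integrable (fun p : E d × E d => ((u (p.1 + h i) - u p.1) - (u (p.2 + h i) - u p.2)) *
      ((u (p.1 + h i) - u p.1) * χ p.1 * χ p.1 - (u (p.2 + h i) - u p.2) * χ p.2 * χ p.2) * K d s (p.1 - p.2)) :=
    fun i => form_int hd hs0 hs1 (hDl i) (hDB i) (hψ i)
  have hI3 := gap_int hd hs0 hs1 hu.locLip huB h hχ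
  have hinc : Continuous (fun p : E d × E d => (inner ℝ (Dv u h p.1) (Dv u h p.2) : ℝ)) := by
    simp only [ec_inner]
    refine continuous_finsetSum _ fun i _ => ?_
    have := hDc i
    exact (this.comp continuous_fst).mul (this.comp continuous_snd)
  have hI4 := form_int2 hd hs0 hs1 hχ hinc (B := 4 * k) (fun p => ec_sum u huB h p.1 p.2)
  have hsum : (∫ p : E d × E d, (‖Dv u h p.1‖ * χ p.1 - ‖Dv u h p.2‖ * χ p.2) ^ 2 * K d s (p.1 - p.2)) -
      ∑ i, ∫ p : E d × E d, ((u (p.1 + h i) - u p.1) - (u (p.2 + h i) - u p.2)) *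
      ((u (p.1 + h i) - u p.1) * χ p.1 * χ p.1 - (u (p.2 + h i) - u p.2) * χ p.2 * χ p.2) * K d s (p.1 - p.2) =
      -2 * (∫ p : E d × E d, (‖Dv u h p.1‖ * ‖Dv u h p.2‖ - inner ℝ (Dv u h p.1) (Dv u h p.2)) * (χ p.1 * χ p.2) * K d s (p.1 - p.2)) +
      ∫ p : E d × E d, inner ℝ (Dv u h p.1) (Dv u h p.2) * (χ p.1 - χ p.2) ^ 2 * K d s (p.1 - p.2) := by
    rw [← integral_finsetSum _ (fun i _ => hI2 i), ← integral_sub hI1 (integrable_finsetSum _ fun i _ => hI2 i),
      ← integral_const_mul, ← integral_add (hI3.const_mul _) hI4]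
    refine integral_congr_ae (ae_of_all _ fun p => ?_)
    beta_reduce
    have hbr := bracket (Dv u h p.1) (Dv u h p.2) (χ p.1) (χ p.2)
    simp only [ec_dv] at hbr
    have : ∑ i, ((u (p.1 + h i) - u p.1) - (u (p.2 + h i) - u p.2)) *
      ((u (p.1 + h i) - u p.1) * χ p.1 * χ p.1 - (u (p.2 + h i) - u p.2) * χ p.2 * χ p.2) * K d s (p.1 - p.2) =
      (∑ i, ((u (p.1 + h i) - u p.1) - (u (p.2 + h i) - u p.2)) *
      ((u (p.1 + h i) - u p.1) * χ p.1 ^ 2 - (u (p.2 + h i) - u p.2) * χ p.2 ^ 2)) * K d s (p.1 - p.2) := by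
      rw [Finset.sum_mul]
      exact Finset.sum_congr rfl fun i _ => by ring
    rw [this, ← sub_mul, hbr]
    ring
  have hEs : c / 2 * ∑ i, ∫ p : E d × E d, ((u (p.1 + h i) - u p.1) - (u (p.2 + h i) - u p.2)) *
      ((u (p.1 + h i) - u p.1) * χ p.1 * χ p.1 - (u (p.2 + h i) - u p.2) * χ p.2 * χ p.2) * K d s (p.1 - p.2) =
      ∑ i, ∫ x, ((u (x + h i) - u x) ^ 2 * (1 - (u (x + h i) ^ 2 + u (x + h i) * u x + u x ^ 2))) * χ x ^ 2 := by
    rw [Finset.mul_sum]
    exact Finset.sum_congr rfl fun i _ => hE i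
  have hps := Finset.sum_le_sum (fun i (_ : i ∈ Finset.univ) => hpt i)
  rw [Finset.sum_sub_distrib, ← Finset.mul_sum] at hps
  rw [hS1] at hS
  set A := ∫ p : E d × E d, (‖Dv u h p.1‖ * χ p.1 - ‖Dv u h p.2‖ * χ p.2) ^ 2 * K d s (p.1 - p.2) with hA
  set B := ∑ i, ∫ p : E d × E d, ((u (p.1 + h i) - u p.1) - (u (p.2 + h i) - u p.2)) *
      ((u (p.1 + h i) - u p.1) * χ p.1 * χ p.1 - (u (p.2 + h i) - u p.2) * χ p.2 * χ p.2) * K d s (p.1 - p.2) with hBd
  set G := ∫ p : E d × E d, (‖Dv u h p.1‖ * ‖Dv u h p.2‖ - inner ℝ (Dv u h p.1) (Dv u h p.2)) * (χ p.1 * χ p.2) * K d s (p.1 - p.2) with hG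
  set H := ∫ p : E d × E d, inner ℝ (Dv u h p.1) (Dv u h p.2) * (χ p.1 - χ p.2) ^ 2 * K d s (p.1 - p.2) with hH
  set T := ∑ i, ∫ x, |u (x + h i) - u x| ^ 3 * χ x ^ 2 with hT
  have hfin : c * G ≤ c * (1 / 2 * H) + 3 * T := by
    have e1 : c / 2 * (A - B) = c / 2 * (-2 * G + H) := by rw [hsum]
    nlinarith
  have : c * G ≤ c * (1 / 2 * H + 3 / c * T) := by
    have e2 : c * (1 / 2 * H + 3 / c * T) = c * (1 / 2 * H) + 3 * T := by field_simp
    rw [e2]; exact hfin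
  exact le_of_mul_le_mul_left this hc

/-- MODULE ed. `kap` is integrable (`form_int2` with `g = 1`), and so are its translates. -/
theorem kap_int (hd : 1 ≤ d) (hs0 : 0 < s) (hs1 : s < 1) {χ : E d → ℝ} (hχ : Test χ) (a b : E d) :
    Integrable (fun p : E d × E d => kap d s χ (p.1 - a) (p.2 - b)) := by
  have h1 : Integrable (fun p : E d × E d => kap d s χ p.1 p.2) := by
    have := form_int2 (g := fun _ => (1 : ℝ)) hd hs0 hs1 hχ continuous_const (B := 1) (fun _ => by simp)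
    refine this.congr (ae_of_all _ fun p => ?_)
    simp [kap]
  have h2 : Integrable (fun p : E d × E d => kap d s χ p.1 p.2) ((volume : Measure (E d)).prod volume) := h1
  exact h2.comp_sub_right ((a, b) : E d × E d)

/-- MODULE ed. A bounded continuous function times `dkap` is integrable. -/
theorem dkap_int (hd : 1 ≤ d) (hs0 : 0 < s) (hs1 : s < 1) {χ : E d → ℝ} (hχ : Test χ) (h : E d) {g : E d × E d → ℝ} (hg : Continuous g)
    {B : ℝ} (hB : ∀ p, |g p| ≤ B) : Integrable (fun p : E d × E d => g p * dkap d s χ h p.1 p.2) := by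
  have h1 : Integrable (fun p : E d × E d => dkap d s χ h p.1 p.2) := by
    have e1 := kap_int hd hs0 hs1 hχ h h
    have e2 := kap_int hd hs0 hs1 hχ h 0
    have e3 := kap_int hd hs0 hs1 hχ 0 h
    have e4 := kap_int hd hs0 hs1 hχ 0 0
    refine (((e1.sub e2).sub e3).add e4).congr (ae_of_all _ fun p => ?_)
    simp [dkap]
  exact h1.bdd_mul hg.aestronglyMeasurable (ae_of_all _ fun p => by rw [Real.norm_eq_abs]; exact hB p)

private theorem ee_int (hd : 1 ≤ d) (hs0 : 0 < s) (hs1 : s < 1) {χ : E d → ℝ} (hχ : Test χ) (a b : E d)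
    {g : E d × E d → ℝ} (hg : Continuous g) {B : ℝ} (hB : ∀ p, |g p| ≤ B) :
    Integrable (fun p : E d × E d => g p * kap d s χ (p.1 - a) (p.2 - b)) :=
  (kap_int hd hs0 hs1 hχ a b).bdd_mul hg.aestronglyMeasurable (Eventually.of_forall hB)

private theorem ee_shift (a b : E d) (g : E d × E d → ℝ) :
    ∫ p : E d × E d, g (p.1 + a, p.2 + b) = ∫ p : E d × E d, g p := by
  have h1 : MeasurePreserving (fun p : E d × E d => (p.1 + a, p.2 + b)) volume volume := by
    rw [Measure.volume_eq_prod]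
    exact (measurePreserving_add_right volume a).prod (measurePreserving_add_right volume b)
  exact h1.integral_comp ((MeasurableEquiv.addRight a).prodCongr
    (MeasurableEquiv.addRight b)).measurableEmbedding g

private theorem ee_mul {x y : ℝ} (hx : |x| ≤ 1) (hy : |y| ≤ 1) : |x * y| ≤ 1 := by
  rw [abs_mul]
  exact mul_le_one₀ hx (abs_nonneg _) hy

private theorem ee_split {f1 f2 f3 f4 : E d × E d → ℝ} (h1 : Integrable f1) (h2 : Integrable f2)
    (h3 : Integrable f3) (h4 : Integrable f4) :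
    ∫ p, (f1 p - f2 p - f3 p + f4 p) = (∫ p, f1 p) - (∫ p, f2 p) - (∫ p, f3 p) + ∫ p, f4 p := by
  have i1 : Integrable (fun p => f1 p - f2 p) := h1.sub h2
  have i2 : Integrable (fun p => f1 p - f2 p - f3 p) := i1.sub h3
  rw [integral_add i2 h4, integral_sub i1 h3, integral_sub h1 h2]

/-- MODULE ee. Expand the product of the differences and translate each of the four integrals: the sum is `∫ u x u y dkap`. -/
theorem cost_one (hd : 1 ≤ d) (hs0 : 0 < s) (hs1 : s < 1) {u : E d → ℝ} (hu : Continuous u) (hB : ∀ x, |u x| ≤ 1)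
    {χ : E d → ℝ} (hχ : Test χ) (h : E d) :
    ∫ p : E d × E d, (u (p.1 + h) - u p.1) * (u (p.2 + h) - u p.2) * kap d s χ p.1 p.2 =
      ∫ p : E d × E d, u p.1 * u p.2 * dkap d s χ h p.1 p.2 := by
  have c1 : Continuous (fun p : E d × E d => u p.1) := hu.comp continuous_fst
  have c2 : Continuous (fun p : E d × E d => u p.2) := hu.comp continuous_snd
  have c3 : Continuous (fun p : E d × E d => u (p.1 + h)) := hu.comp (continuous_fst.add continuous_const)
  have c4 : Continuous (fun p : E d × E d => u (p.2 + h)) := hu.comp (continuous_snd.add continuous_const)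
  have m1 : Continuous (fun p : E d × E d => u (p.1 + h) * u (p.2 + h)) := c3.mul c4
  have m2 : Continuous (fun p : E d × E d => u (p.1 + h) * u p.2) := c3.mul c2
  have m3 : Continuous (fun p : E d × E d => u p.1 * u (p.2 + h)) := c1.mul c4
  have m4 : Continuous (fun p : E d × E d => u p.1 * u p.2) := c1.mul c2
  have t1 := ee_int hd hs0 hs1 hχ 0 0 m1 (fun p => ee_mul (hB _) (hB _))
  have t2 := ee_int hd hs0 hs1 hχ 0 0 m2 (fun p => ee_mul (hB _) (hB _))
  have t3 := ee_int hd hs0 hs1 hχ 0 0 m3 (fun p => ee_mul (hB _) (hB _))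
  have t4 := ee_int hd hs0 hs1 hχ 0 0 m4 (fun p => ee_mul (hB _) (hB _))
  have s1 := ee_int hd hs0 hs1 hχ h h m4 (fun p => ee_mul (hB _) (hB _))
  have s2 := ee_int hd hs0 hs1 hχ h 0 m4 (fun p => ee_mul (hB _) (hB _))
  have s3 := ee_int hd hs0 hs1 hχ 0 h m4 (fun p => ee_mul (hB _) (hB _))
  simp only [sub_zero] at t1 t2 t3 t4 s2 s3
  have e1 : ∫ p : E d × E d, u (p.1 + h) * u (p.2 + h) * kap d s χ p.1 p.2 =
      ∫ p : E d × E d, u p.1 * u p.2 * kap d s χ (p.1 - h) (p.2 - h) := by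
    rw [← ee_shift h h (fun p : E d × E d => u p.1 * u p.2 * kap d s χ (p.1 - h) (p.2 - h))]
    simp only [add_sub_cancel_right]
  have e2 : ∫ p : E d × E d, u (p.1 + h) * u p.2 * kap d s χ p.1 p.2 =
      ∫ p : E d × E d, u p.1 * u p.2 * kap d s χ (p.1 - h) p.2 := by
    rw [← ee_shift h 0 (fun p : E d × E d => u p.1 * u p.2 * kap d s χ (p.1 - h) p.2)]
    simp only [add_sub_cancel_right, add_zero]
  have e3 : ∫ p : E d × E d, u p.1 * u (p.2 + h) * kap d s χ p.1 p.2 =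
      ∫ p : E d × E d, u p.1 * u p.2 * kap d s χ p.1 (p.2 - h) := by
    rw [← ee_shift 0 h (fun p : E d × E d => u p.1 * u p.2 * kap d s χ p.1 (p.2 - h))]
    simp only [add_sub_cancel_right, add_zero]
  have l1 : ∫ p : E d × E d, (u (p.1 + h) - u p.1) * (u (p.2 + h) - u p.2) * kap d s χ p.1 p.2 =
      ∫ p : E d × E d, (u (p.1 + h) * u (p.2 + h) * kap d s χ p.1 p.2 -
        u (p.1 + h) * u p.2 * kap d s χ p.1 p.2 - u p.1 * u (p.2 + h) * kap d s χ p.1 p.2 +
        u p.1 * u p.2 * kap d s χ p.1 p.2) := by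
    congr 1
    funext p
    ring
  have l2 : ∫ p : E d × E d, u p.1 * u p.2 * dkap d s χ h p.1 p.2 =
      ∫ p : E d × E d, (u p.1 * u p.2 * kap d s χ (p.1 - h) (p.2 - h) -
        u p.1 * u p.2 * kap d s χ (p.1 - h) p.2 - u p.1 * u p.2 * kap d s χ p.1 (p.2 - h) +
        u p.1 * u p.2 * kap d s χ p.1 p.2) := by
    congr 1
    funext p
    unfold dkap
    ring
  rw [l1, l2, ee_split t1 t2 t3 t4, ee_split s1 s2 s3 t4, e1, e2, e3]

private theorem ef_one (hd : 1 ≤ d) (hs0 : 0 < s) (hs1 : s < 1) {g : E d → ℝ} (hg : Continuous g)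
    (hB : ∀ x, |g x| ≤ 1) {χ : E d → ℝ} (hχ : Test χ) (h : E d) :
    ∫ p : E d × E d, g p.1 * dkap d s χ h p.1 p.2 = 0 := by
  have c1 : Continuous (fun p : E d × E d => g p.1) := hg.comp continuous_fst
  have s1 := ee_int hd hs0 hs1 hχ h h c1 (fun p => hB _)
  have s2 := ee_int hd hs0 hs1 hχ h 0 c1 (fun p => hB _)
  have s3 := ee_int hd hs0 hs1 hχ 0 h c1 (fun p => hB _)
  have s4 := ee_int hd hs0 hs1 hχ 0 0 c1 (fun p => hB _)
  simp only [sub_zero] at s2 s3 s4
  have e1 : ∫ p : E d × E d, g p.1 * kap d s χ (p.1 - h) p.2 =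
      ∫ p : E d × E d, g p.1 * kap d s χ (p.1 - h) (p.2 - h) := by
    rw [← ee_shift 0 h (fun p : E d × E d => g p.1 * kap d s χ (p.1 - h) (p.2 - h))]
    simp only [add_sub_cancel_right, add_zero]
  have e2 : ∫ p : E d × E d, g p.1 * kap d s χ p.1 p.2 =
      ∫ p : E d × E d, g p.1 * kap d s χ p.1 (p.2 - h) := by
    rw [← ee_shift 0 h (fun p : E d × E d => g p.1 * kap d s χ p.1 (p.2 - h))]
    simp only [add_sub_cancel_right, add_zero]
  have l2 : ∫ p : E d × E d, g p.1 * dkap d s χ h p.1 p.2 =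
      ∫ p : E d × E d, (g p.1 * kap d s χ (p.1 - h) (p.2 - h) -
        g p.1 * kap d s χ (p.1 - h) p.2 - g p.1 * kap d s χ p.1 (p.2 - h) +
        g p.1 * kap d s χ p.1 p.2) := by
    congr 1
    funext p
    unfold dkap
    ring
  rw [l2, ee_split s1 s2 s3 s4, e1, e2]
  ring

private theorem ef_two (hd : 1 ≤ d) (hs0 : 0 < s) (hs1 : s < 1) {g : E d → ℝ} (hg : Continuous g)
    (hB : ∀ x, |g x| ≤ 1) {χ : E d → ℝ} (hχ : Test χ) (h : E d) :
    ∫ p : E d × E d, g p.2 * dkap d s χ h p.1 p.2 = 0 := by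
  have c1 : Continuous (fun p : E d × E d => g p.2) := hg.comp continuous_snd
  have s1 := ee_int hd hs0 hs1 hχ h h c1 (fun p => hB _)
  have s2 := ee_int hd hs0 hs1 hχ h 0 c1 (fun p => hB _)
  have s3 := ee_int hd hs0 hs1 hχ 0 h c1 (fun p => hB _)
  have s4 := ee_int hd hs0 hs1 hχ 0 0 c1 (fun p => hB _)
  simp only [sub_zero] at s2 s3 s4
  have e1 : ∫ p : E d × E d, g p.2 * kap d s χ p.1 (p.2 - h) =
      ∫ p : E d × E d, g p.2 * kap d s χ (p.1 - h) (p.2 - h) := by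
    rw [← ee_shift h 0 (fun p : E d × E d => g p.2 * kap d s χ (p.1 - h) (p.2 - h))]
    simp only [add_sub_cancel_right, add_zero]
  have e2 : ∫ p : E d × E d, g p.2 * kap d s χ p.1 p.2 =
      ∫ p : E d × E d, g p.2 * kap d s χ (p.1 - h) p.2 := by
    rw [← ee_shift h 0 (fun p : E d × E d => g p.2 * kap d s χ (p.1 - h) p.2)]
    simp only [add_sub_cancel_right, add_zero]
  have l2 : ∫ p : E d × E d, g p.2 * dkap d s χ h p.1 p.2 =
      ∫ p : E d × E d, (g p.2 * kap d s χ (p.1 - h) (p.2 - h) -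
        g p.2 * kap d s χ (p.1 - h) p.2 - g p.2 * kap d s χ p.1 (p.2 - h) +
        g p.2 * kap d s χ p.1 p.2) := by
    congr 1
    funext p
    unfold dkap
    ring
  rw [l2, ee_split s1 s2 s3 s4, e1, e2]
  ring

/-- MODULE ef. `∫ u x ^ 2 dkap = 0`: integrate first over `y` (Fubini): `∫ kap (x - h) (y - h) dy = ∫ kap (x - h) y dy` and `∫ kap x (y - h) dy = ∫ kap x y dy`. -/
theorem cost_two (hd : 1 ≤ d) (hs0 : 0 < s) (hs1 : s < 1) {u : E d → ℝ} (hu : Continuous u) (hB : ∀ x, |u x| ≤ 1)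
    {χ : E d → ℝ} (hχ : Test χ) (h : E d) :
    ∫ p : E d × E d, u p.1 ^ 2 * dkap d s χ h p.1 p.2 = 0 ∧ ∫ p : E d × E d, u p.2 ^ 2 * dkap d s χ h p.1 p.2 = 0 := by
  have hg : Continuous (fun x => u x ^ 2) := hu.pow 2
  have hgB : ∀ x, |u x ^ 2| ≤ 1 := fun x => by
    rw [abs_pow]
    exact pow_le_one₀ (abs_nonneg _) (hB x)
  exact ⟨ef_one hd hs0 hs1 hg hgB hχ h, ef_two hd hs0 hs1 hg hgB hχ h⟩

/-- MODULE eg. `u x u y = (u x ^ 2 + u y ^ 2 - (u x - u y) ^ 2) / 2`; `cost_one`, `cost_two`. -/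
theorem cost (hd : 1 ≤ d) (hs0 : 0 < s) (hs1 : s < 1) {u : E d → ℝ} (hu : Continuous u) (hB : ∀ x, |u x| ≤ 1)
    {χ : E d → ℝ} (hχ : Test χ) (h : E d) :
    ∫ p : E d × E d, (u (p.1 + h) - u p.1) * (u (p.2 + h) - u p.2) * kap d s χ p.1 p.2 =
      -(1 / 2) * ∫ p : E d × E d, (u p.1 - u p.2) ^ 2 * dkap d s χ h p.1 p.2 := by
  have c1 : Continuous (fun p : E d × E d => u p.1) := hu.comp continuous_fst
  have c2 : Continuous (fun p : E d × E d => u p.2) := hu.comp continuous_snd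
  have hsq : ∀ x, |u x ^ 2| ≤ 1 := fun x => by
    rw [abs_pow]
    exact pow_le_one₀ (abs_nonneg _) (hB x)
  have m1 : Continuous (fun p : E d × E d => u p.1 * u p.2) := c1.mul c2
  have m2 : Continuous (fun p : E d × E d => u p.1 ^ 2) := c1.pow 2
  have m3 : Continuous (fun p : E d × E d => u p.2 ^ 2) := c2.pow 2
  have i1 := dkap_int hd hs0 hs1 hχ h m1 (fun p => ee_mul (hB _) (hB _))
  have i2 := dkap_int hd hs0 hs1 hχ h m2 (fun p => hsq _)
  have i3 := dkap_int hd hs0 hs1 hχ h m3 (fun p => hsq _)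
  obtain ⟨e1, e2⟩ := cost_two hd hs0 hs1 hu hB hχ h
  have l : ∫ p : E d × E d, (u p.1 - u p.2) ^ 2 * dkap d s χ h p.1 p.2 =
      (∫ p : E d × E d, u p.1 ^ 2 * dkap d s χ h p.1 p.2) + (∫ p : E d × E d, u p.2 ^ 2 * dkap d s χ h p.1 p.2)
        - 2 * ∫ p : E d × E d, u p.1 * u p.2 * dkap d s χ h p.1 p.2 := by
    rw [← integral_const_mul]
    have i4 : Integrable (fun p : E d × E d => u p.1 ^ 2 * dkap d s χ h p.1 p.2 +
        u p.2 ^ 2 * dkap d s χ h p.1 p.2) := i2.add i3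
    rw [← integral_add i2 i3, ← integral_sub i4 (i1.const_mul 2)]
    congr 1
    funext p
    ring
  rw [cost_one hd hs0 hs1 hu hB hχ h, l, e1, e2]
  ring

/-- MODULE eh. THE BASIC INEQUALITY.  `dir_ineq` and `cost` for every direction (the inner product is the sum over `i`, all terms are integrable). -/
theorem base (hd : 1 ≤ d) (hs0 : 0 < s) (hs1 : s < 1) (hc : 0 < c) {u : E d → ℝ} (hu : Entire d s c u) (hst : Stable d s c u)
    {k : ℕ} (h : Fin k → E d) {χ : E d → ℝ} (hχ : Test χ) :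
    ∫ p : E d × E d, (‖Dv u h p.1‖ * ‖Dv u h p.2‖ - inner ℝ (Dv u h p.1) (Dv u h p.2)) * (χ p.1 * χ p.2) * K d s (p.1 - p.2) ≤
      -(1 / 4) * (∑ i, ∫ p : E d × E d, (u p.1 - u p.2) ^ 2 * dkap d s χ (h i) p.1 p.2) +
      3 / c * ∑ i, ∫ x, |u (x + h i) - u x| ^ 3 * χ x ^ 2 := by
  have huB : ∀ x, |u x| ≤ 1 := fun x => (hu.bound x).le
  have huc : Continuous u := hu.smooth.continuous
  refine (dir_ineq hd hs0 hs1 hc hu hst h hχ).trans (add_le_add (le_of_eq ?_) le_rfl)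
  have h1 : ∀ i, Integrable (fun p : E d × E d => (u (p.1 + h i) - u p.1) * (u (p.2 + h i) - u p.2) * kap d s χ p.1 p.2) := by
    intro i
    have hg : Continuous (fun p : E d × E d => (u (p.1 + h i) - u p.1) * (u (p.2 + h i) - u p.2)) := by fun_prop
    have := form_int2 hd hs0 hs1 hχ hg (B := 4) (fun p => by
      rw [abs_mul]
      have h1 : |u (p.1 + h i) - u p.1| ≤ 2 := (abs_sub _ _).trans (by linarith [huB (p.1 + h i), huB p.1])
      have h2 : |u (p.2 + h i) - u p.2| ≤ 2 := (abs_sub _ _).trans (by linarith [huB (p.2 + h i), huB p.2])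
      nlinarith [abs_nonneg (u (p.1 + h i) - u p.1), abs_nonneg (u (p.2 + h i) - u p.2)])
    refine this.congr (ae_of_all _ fun p => ?_)
    beta_reduce
    unfold kap; ring
  have h2 : ∫ p : E d × E d, inner ℝ (Dv u h p.1) (Dv u h p.2) * (χ p.1 - χ p.2) ^ 2 * K d s (p.1 - p.2) =
      ∑ i, ∫ p : E d × E d, (u (p.1 + h i) - u p.1) * (u (p.2 + h i) - u p.2) * kap d s χ p.1 p.2 := by
    rw [← integral_finsetSum _ (fun i _ => h1 i)]
    refine integral_congr_ae (ae_of_all _ fun p => ?_)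
    beta_reduce
    rw [ec_inner, Finset.sum_mul, Finset.sum_mul]
    exact Finset.sum_congr rfl fun i _ => by unfold kap; ring
  rw [h2, Finset.sum_congr rfl (fun i _ => cost hd hs0 hs1 huc huB hχ (h i)), ← Finset.mul_sum]
  ring

end NDG
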