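import Pool.Agent.NDG.Gn

/-! # One-dimensional functions, compactness -/

open MeasureTheory Filter Topology Set

noncomputable section

namespace NDG

variable {d : ℕ}

/-- bounded by `1` and Hölder continuous -/
def HolC {d : ℕ} (C a : ℝ) (u : E d → ℝ) : Prop := (∀ x, |u x| ≤ 1) ∧ ∀ x y, |u x - u y| ≤ C * ‖x - y‖ ^ a

/-- MODULE la. If `S` is everything take any unit vector.  Otherwise `S` is a closed convex cone and `z ∉ S` for some `z`: separate (`ProperCone.hyperplane_separation...`, `ConvexCone.hyperplane_separation_of_nonempty_of_isClosed_of_notMem` or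
`geometric_hahn_banach_point_closed`): `b` with `⟨x, b⟩ ≥ 0` on `S`, `⟨z, b⟩ < 0`, `a = b / ‖b‖`.  If `⟨a, x⟩ > 0` then `-x ∉ S`, so `x ∈ S`; then closedness (`x + t a`, `t → 0`). -/
theorem cone_half (hd : 1 ≤ d) {S : Set (E d)} (hcl : IsClosed S) (h0 : (0 : E d) ∈ S) (hadd : ∀ x ∈ S, ∀ y ∈ S, x + y ∈ S)
    (hsm : ∀ x ∈ S, ∀ t : ℝ, 0 ≤ t → t • x ∈ S) (htot : ∀ x, x ∈ S ∨ -x ∈ S) :
    ∃ a : E d, ‖a‖ = 1 ∧ ∀ x, 0 ≤ inner ℝ a x → x ∈ S := by
  by_cases hS : ∃ z, z ∉ S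
  · obtain ⟨z, hz⟩ := hS
    have hconv : Convex ℝ S := by
      intro x hx y hy a b ha hb _
      exact hadd _ (hsm x hx a ha) _ (hsm y hy b hb)
    obtain ⟨f, u, h1, h2⟩ := geometric_hahn_banach_point_closed hconv hcl hz
    have hu : u < 0 := by simpa using h2 0 h0
    have hf0 : ∀ b ∈ S, 0 ≤ f b := by
      intro b hb
      by_contra hneg
      push Not at hneg
      have h3 := h2 (((u / f b)) • b) (hsm b hb _ (div_nonneg_of_nonpos hu.le hneg.le))
      rw [map_smul, smul_eq_mul, div_mul_cancel₀ _ hneg.ne] at h3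
      exact lt_irrefl _ h3
    obtain ⟨w, hw⟩ : ∃ w : E d, ∀ x, f x = inner ℝ w x := by
      refine ⟨(InnerProductSpace.toDual ℝ (E d)).symm f, fun x => ?_⟩
      rw [InnerProductSpace.toDual_symm_apply]
    have hw0 : w ≠ 0 := by
      intro h
      have h4 : f z = 0 := by rw [hw, h, inner_zero_left]
      linarith
    have hwn : 0 < ‖w‖ := norm_pos_iff.2 hw0
    have hpos : ∀ x, 0 < inner ℝ w x → x ∈ S := by
      intro x hx
      rcases htot x with h | h
      · exact h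
      · have h5 := hf0 _ h
        rw [hw, inner_neg_right] at h5
        linarith
    refine ⟨‖w‖⁻¹ • w, ?_, fun x hx => ?_⟩
    · rw [norm_smul, norm_inv, norm_norm, inv_mul_cancel₀ hwn.ne']
    · rw [real_inner_smul_left] at hx
      have hx' : 0 ≤ inner ℝ w x := by
        by_contra h
        push Not at h
        have := mul_neg_of_pos_of_neg (inv_pos.2 hwn) h
        linarith
      have h6 : Tendsto (fun t : ℝ => x + t • w) (𝓝[>] 0) (𝓝 x) := by
        have h7 : Continuous (fun t : ℝ => x + t • w) := by fun_prop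
        have h8 := h7.tendsto 0
        simp only [zero_smul, add_zero] at h8
        exact h8.mono_left nhdsWithin_le_nhds
      refine hcl.mem_of_tendsto h6 ?_
      filter_upwards [self_mem_nhdsWithin] with t ht
      apply hpos
      rw [inner_add_right, real_inner_smul_right, real_inner_self_eq_norm_sq]
      have ht' : 0 < t := ht
      positivity
  · push Not at hS
    refine ⟨EuclideanSpace.single (⟨0, by omega⟩ : Fin d) (1 : ℝ), by simp, fun x _ => hS x⟩

/-- MODULE lb. `S = {h | ∀ x, U x ≤ U (x + h)}` is closed, `0 ∈ S`, `S + S ⊆ S`, `S ∪ -S` is everything.  If `h ∈ S` then `n⁻¹ h ∈ S`: otherwise `-n⁻¹ h ∈ S`, `U x ≤ U (x - n⁻¹ h) ≤ ... ≤ U (x - h) ≤ U x`, so all are equal and `n⁻¹ h ∈ S`.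
So `S` is stable under rational and, by continuity, under real nonnegative multiples.  `cone_half`; `g t = U (t • a)`: `x - ⟨a, x⟩ a` and its negative are in `S`. -/
theorem mono_one (hd : 1 ≤ d) {U : E d → ℝ} (hU : Continuous U)
    (h : ∀ h : E d, (∀ x, U x ≤ U (x + h)) ∨ (∀ x, U (x + h) ≤ U x)) :
    ∃ a : E d, ‖a‖ = 1 ∧ ∃ g : ℝ → ℝ, Monotone g ∧ ∀ x, U x = g (inner ℝ a x) := by
  have hcl : IsClosed {h : E d | ∀ x, U x ≤ U (x + h)} := by
    rw [Set.setOf_forall]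
    exact isClosed_iInter fun x =>
      isClosed_le continuous_const (hU.comp (continuous_const.add continuous_id))
  have h0 : (0 : E d) ∈ {h : E d | ∀ x, U x ≤ U (x + h)} := fun x => by rw [add_zero]
  have hadd : ∀ x ∈ {h : E d | ∀ x, U x ≤ U (x + h)}, ∀ y ∈ {h : E d | ∀ x, U x ≤ U (x + h)},
      x + y ∈ {h : E d | ∀ x, U x ≤ U (x + h)} := by
    intro x hx y hy z
    have h1 := hx z
    have h2 := hy (z + x)
    rw [add_assoc] at h2
    exact h1.trans h2
  have htot : ∀ x, x ∈ {h : E d | ∀ x, U x ≤ U (x + h)} ∨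
      -x ∈ {h : E d | ∀ x, U x ≤ U (x + h)} := by
    intro x
    rcases h x with h1 | h1
    · exact Or.inl h1
    · refine Or.inr fun z => ?_
      have h2 := h1 (z + -x)
      rwa [neg_add_cancel_right] at h2
  have hnat : ∀ x ∈ {h : E d | ∀ x, U x ≤ U (x + h)}, ∀ n : ℕ,
      (n : ℝ) • x ∈ {h : E d | ∀ x, U x ≤ U (x + h)} := by
    intro x hx n
    induction n with
    | zero =>
      rw [Nat.cast_zero, zero_smul]
      exact h0
    | succ k ih =>
      rw [Nat.cast_succ, add_smul, one_smul]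
      exact hadd _ ih _ hx
  have hinv : ∀ x ∈ {h : E d | ∀ x, U x ≤ U (x + h)}, ∀ n : ℕ,
      ((n : ℝ)⁻¹) • x ∈ {h : E d | ∀ x, U x ≤ U (x + h)} := by
    intro x hx n
    rcases Nat.eq_zero_or_pos n with hn | hn
    · rw [hn, Nat.cast_zero, inv_zero, zero_smul]
      exact h0
    · have hn' : (n : ℝ) ≠ 0 := Nat.cast_ne_zero.2 hn.ne'
      rcases htot ((n : ℝ)⁻¹ • x) with h1 | h1
      · exact h1
      · intro z
        have h2 := hx z
        have h3 := hnat _ h1 (n - 1) (z + x)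
        have h4 : z + x + ((n - 1 : ℕ) : ℝ) • -((n : ℝ)⁻¹ • x) = z + (n : ℝ)⁻¹ • x := by
          rw [Nat.cast_sub hn, Nat.cast_one, smul_neg, smul_smul, sub_mul, mul_inv_cancel₀ hn',
            one_mul, sub_smul, one_smul]
          abel
        rw [h4] at h3
        exact h2.trans h3
  have hsm : ∀ x ∈ {h : E d | ∀ x, U x ≤ U (x + h)}, ∀ t : ℝ, 0 ≤ t →
      t • x ∈ {h : E d | ∀ x, U x ≤ U (x + h)} := by
    intro x hx t ht
    have h1 : Tendsto (fun n : ℕ => ((⌊t * (n : ℝ)⌋₊ : ℝ) / (n : ℝ)) • x) atTop (𝓝 (t • x)) :=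
      ((tendsto_nat_floor_mul_div_atTop ht).comp tendsto_natCast_atTop_atTop).smul_const x
    refine hcl.mem_of_tendsto h1 (Eventually.of_forall fun n => ?_)
    have h2 := hnat _ (hinv x hx n) ⌊t * (n : ℝ)⌋₊
    rw [smul_smul] at h2
    rw [div_eq_mul_inv]
    exact h2
  obtain ⟨a, ha, haS⟩ := cone_half hd hcl h0 hadd hsm htot
  have haa : inner ℝ a a = (1 : ℝ) := by
    rw [real_inner_self_eq_norm_sq, ha, one_pow]
  refine ⟨a, ha, fun t => U (t • a), ?_, ?_⟩
  · intro r t hrt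
    have h1 : (t - r) • a ∈ {h : E d | ∀ x, U x ≤ U (x + h)} := by
      apply haS
      rw [inner_smul_right, haa, mul_one]
      exact sub_nonneg.2 hrt
    have h2 := h1 (r • a)
    rwa [← add_smul, add_sub_cancel] at h2
  · intro x
    have h1 : inner ℝ a (x - (inner ℝ a x : ℝ) • a) = (0 : ℝ) := by
      rw [inner_sub_right, inner_smul_right, haa, mul_one, sub_self]
    have h2 : x - (inner ℝ a x : ℝ) • a ∈ {h : E d | ∀ x, U x ≤ U (x + h)} := haS _ h1.ge
    have h3 : -(x - (inner ℝ a x : ℝ) • a) ∈ {h : E d | ∀ x, U x ≤ U (x + h)} := by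
      apply haS
      rw [inner_neg_right, h1, neg_zero]
    refine le_antisymm ?_ ?_
    · have h4 := h3 x
      rwa [neg_sub, add_sub_cancel] at h4
    · have h4 := h2 ((inner ℝ a x : ℝ) • a)
      rwa [add_sub_cancel] at h4

/-- MODULE lc. Limits along the hyperfilter (an ultrafilter) exist in the compact interval `[-1, 1]`; the Hölder bound passes to the limit. -/
theorem ultra_lim {C a : ℝ} {u : ℕ → E d → ℝ} (hu : ∀ n, HolC C a (u n)) :
    ∃ U : E d → ℝ, HolC C a U ∧ ∀ x, Tendsto (fun n => u n x) (hyperfilter ℕ : Filter ℕ) (𝓝 (U x)) := by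
  have h1 : ∀ x : E d, ∃ y : ℝ, |y| ≤ 1 ∧ Tendsto (fun n => u n x) (hyperfilter ℕ : Filter ℕ) (𝓝 y) := by
    intro x
    have hle : ((Ultrafilter.map (fun n => u n x) (hyperfilter ℕ) : Ultrafilter ℝ) : Filter ℝ) ≤ 𝓟 (Icc (-1) 1) := by
      rw [Ultrafilter.coe_map, le_principal_iff, mem_map]
      exact Filter.univ_mem' fun n => abs_le.1 ((hu n).1 x)
    obtain ⟨y, hy, hy'⟩ := isCompact_Icc.ultrafilter_le_nhds _ hle
    exact ⟨y, abs_le.2 hy, hy'⟩
  choose U hU1 hU2 using h1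
  refine ⟨U, ⟨hU1, fun x y => ?_⟩, hU2⟩
  exact le_of_tendsto ((hU2 x).sub (hU2 y)).abs (Filter.univ_mem' fun n => (hu n).2 x y)

private theorem ld_small (C : ℝ) {a : ℝ} (ha : 0 < a) {ε : ℝ} (hε : 0 < ε) :
    ∃ η : ℝ, 0 < η ∧ η ≤ 1 ∧ ∀ t : ℝ, 0 ≤ t → t ≤ η → C * t ^ a ≤ ε := by
  have hc : 0 < |C| + 1 := by positivity
  refine ⟨min 1 ((ε / (|C| + 1)) ^ (1 / a)),
    lt_min one_pos (Real.rpow_pos_of_pos (div_pos hε hc) _), min_le_left _ _, ?_⟩
  intro t ht htη
  have h1 : t ≤ (ε / (|C| + 1)) ^ (1 / a) := htη.trans (min_le_right _ _)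
  have h2 : t ^ a ≤ ε / (|C| + 1) := by
    have h3 := Real.rpow_le_rpow ht h1 ha.le
    rw [← Real.rpow_mul (div_pos hε hc).le, one_div, inv_mul_cancel₀ ha.ne', Real.rpow_one] at h3
    exact h3
  have h4 : 0 ≤ t ^ a := Real.rpow_nonneg ht a
  calc C * t ^ a ≤ |C| * t ^ a := mul_le_mul_of_nonneg_right (le_abs_self C) h4
    _ ≤ (|C| + 1) * (ε / (|C| + 1)) := mul_le_mul (by linarith) h2 h4 hc.le
    _ = ε := by field_simp

/-- MODULE ld. A finite net of the closed ball and the Hölder bounds. -/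
theorem unif_lim {C a : ℝ} (ha : 0 < a) {u : ℕ → E d → ℝ} (hu : ∀ n, HolC C a (u n)) {U : E d → ℝ} (hU : HolC C a U)
    {l : Filter ℕ} (hl : ∀ x, Tendsto (fun n => u n x) l (𝓝 (U x))) (L : ℝ) {δ : ℝ} (hδ : 0 < δ) :
    ∀ᶠ n in l, ∀ x : E d, ‖x‖ ≤ L → |u n x - U x| ≤ δ := by
  obtain ⟨η, hη, _, hs⟩ := ld_small C ha (show 0 < δ / 3 by positivity)
  obtain ⟨t, ht, hcov⟩ := Metric.totallyBounded_iff.1
    (isCompact_closedBall (0 : E d) L).totallyBounded η hη
  have h1 : ∀ᶠ n in l, ∀ y ∈ t, |u n y - U y| ≤ δ / 3 := by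
    refine (Filter.eventually_all_finite ht).2 fun y _ => ?_
    filter_upwards [Metric.tendsto_nhds.1 (hl y) (δ / 3) (by positivity)] with n hn
    rw [Real.dist_eq] at hn
    exact hn.le
  filter_upwards [h1] with n hn x hx
  have hx' : x ∈ Metric.closedBall (0 : E d) L := mem_closedBall_zero_iff.2 hx
  obtain ⟨y, hy, hxy⟩ := Set.mem_iUnion₂.1 (hcov hx')
  have hxy' : ‖x - y‖ < η := mem_ball_iff_norm.1 hxy
  have e1 := ((hu n).2 x y).trans (hs _ (norm_nonneg _) hxy'.le)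
  have e2 := (hU.2 x y).trans (hs _ (norm_nonneg _) hxy'.le)
  have e3 := hn y hy
  rw [abs_le] at e1 e2 e3 ⊢
  constructor <;> linarith [e1.1, e1.2, e2.1, e2.2, e3.1, e3.2]

/-- MODULE le. Choose `η ≤ 1` with `2 |C| (2 η) ^ a ≤ m / 2`: for `‖h' - h‖, ‖x' - x‖, ‖y' - y‖ < η` the differences are at least `m / 2`; so `G ≥ (m / 2) ^ 2 vol (B_η) ^ 3`. -/
theorem G_lower {C a : ℝ} (ha : 0 < a) {m : ℝ} (hm : 0 < m) : ∃ θ : ℝ, 0 < θ ∧ ∀ u : E d → ℝ, HolC C a u →
    ∀ (L : ℝ) (h x y p : E d), ‖h‖ + 1 ≤ L → ‖x - p‖ + 1 ≤ L → ‖y - p‖ + 1 ≤ L →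
      m ≤ u (x + h) - u x → m ≤ u y - u (y + h) → ENNReal.ofReal θ ≤ G L u p := by
  obtain ⟨η₀, hη₀, hη₁, hs⟩ := ld_small C ha (show 0 < m / 4 by positivity)
  obtain ⟨η, hηd⟩ : ∃ η : ℝ, η = η₀ / 2 := ⟨_, rfl⟩
  have hη : 0 < η := by rw [hηd]; positivity
  obtain ⟨V, hV⟩ : ∃ V : ENNReal, V = volume (Metric.ball (0 : E d) η) := ⟨_, rfl⟩
  have V0 : V ≠ 0 := by
    rw [hV]
    exact (Metric.measure_ball_pos volume _ hη).ne'
  have V1 : V ≠ ⊤ := by
    rw [hV]
    exact measure_ball_lt_top.ne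
  have m0 : ENNReal.ofReal (m / 2) ≠ 0 := by
    rw [Ne, ENNReal.ofReal_eq_zero, not_le]
    positivity
  have hc : ∀ z : E d, volume (Metric.ball z η) = V := fun z => by
    rw [hV]
    exact Measure.addHaar_ball_center volume z η
  obtain ⟨W, hW⟩ : ∃ W : ENNReal, W = ENNReal.ofReal (m / 2) * V := ⟨_, rfl⟩
  have W0 : W ≠ 0 := by
    rw [hW]
    exact mul_ne_zero m0 V0
  have W1 : W ≠ ⊤ := by
    rw [hW]
    exact ENNReal.mul_ne_top ENNReal.ofReal_ne_top V1
  have T1 : W * W * V ≠ ⊤ := ENNReal.mul_ne_top (ENNReal.mul_ne_top W1 W1) V1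
  refine ⟨(W * W * V).toReal, ENNReal.toReal_pos (mul_ne_zero (mul_ne_zero W0 W0) V0) T1, ?_⟩
  intro u hu L h x y p hL hx hy h1 h2
  rw [ENNReal.ofReal_toReal T1]
  have key : ∀ z z' : E d, ∀ h' : E d, ‖h' - h‖ < η → ‖z' - z‖ < η →
      |u (z' + h') - u z' - (u (z + h) - u z)| ≤ m / 2 := by
    intro z z' h' e1 e2
    have e3 : ‖(z' + h') - (z + h)‖ ≤ η₀ := by
      have e4 : (z' + h') - (z + h) = (z' - z) + (h' - h) := by abel
      rw [e4]
      refine (norm_add_le _ _).trans ?_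
      linarith
    have f1 := (hu.2 (z' + h') (z + h)).trans (hs _ (norm_nonneg _) e3)
    have f2 := (hu.2 z' z).trans (hs _ (norm_nonneg _) (by linarith))
    rw [abs_le] at f1 f2 ⊢
    constructor <;> linarith [f1.1, f1.2, f2.1, f2.2]
  have sub1 : ∀ z q : E d, ‖z - q‖ + 1 ≤ L → Metric.ball z η ⊆ Metric.ball q L := by
    intro z q hz
    apply Metric.ball_subset_ball'
    rw [dist_eq_norm]
    linarith
  have in1 : ∀ h' : E d, ‖h' - h‖ < η →
      W ≤ ∫⁻ x' in Metric.ball p L, ENNReal.ofReal (u (x' + h') - u x') := by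
    intro h' e1
    calc W = ∫⁻ _ in Metric.ball x η, ENNReal.ofReal (m / 2) := by
          rw [setLIntegral_const, hc, hW]
      _ ≤ ∫⁻ x' in Metric.ball x η, ENNReal.ofReal (u (x' + h') - u x') := by
          refine setLIntegral_mono' measurableSet_ball fun x' hx' => ENNReal.ofReal_le_ofReal ?_
          have e2 := key x x' h' e1 (mem_ball_iff_norm.1 hx')
          rw [abs_le] at e2
          linarith [e2.1, e2.2]
      _ ≤ _ := lintegral_mono_set (sub1 x p hx)
  have in2 : ∀ h' : E d, ‖h' - h‖ < η →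
      W ≤ ∫⁻ x' in Metric.ball p L, ENNReal.ofReal (u x' - u (x' + h')) := by
    intro h' e1
    calc W = ∫⁻ _ in Metric.ball y η, ENNReal.ofReal (m / 2) := by
          rw [setLIntegral_const, hc, hW]
      _ ≤ ∫⁻ x' in Metric.ball y η, ENNReal.ofReal (u x' - u (x' + h')) := by
          refine setLIntegral_mono' measurableSet_ball fun x' hx' => ENNReal.ofReal_le_ofReal ?_
          have e2 := key y x' h' e1 (mem_ball_iff_norm.1 hx')
          rw [abs_le] at e2
          linarith [e2.1, e2.2]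
      _ ≤ _ := lintegral_mono_set (sub1 y p hy)
  unfold G
  calc W * W * V = ∫⁻ _ in Metric.ball h η, W * W := by rw [setLIntegral_const, hc]
    _ ≤ ∫⁻ h' in Metric.ball h η, (∫⁻ x in Metric.ball p L, ENNReal.ofReal (u (x + h') - u x)) *
          ∫⁻ x in Metric.ball p L, ENNReal.ofReal (u x - u (x + h')) :=
        setLIntegral_mono' measurableSet_ball fun h' hh' =>
          mul_le_mul' (in1 h' (mem_ball_iff_norm.1 hh')) (in2 h' (mem_ball_iff_norm.1 hh'))
    _ ≤ _ := lintegral_mono_set (sub1 h 0 (by rw [sub_zero]; exact hL))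

/-- MODULE lf. COMPACTNESS.  Otherwise there are `u n`, `p n` with `G (n + 1) (u n) (p n) < 1 / (n + 1)` and not `Near (u n) (p n) L δ`; put `v n = u n (p n + ·)` (`G_shift`), `ultra_lim`.  If `U (x + h) > U x` and `U (y + h) < U y` then with `m` half of the smaller
difference the hypotheses of `G_lower` hold for `v n`, `p = 0` and almost all `n` (for the hyperfilter, which contains the cofinite sets): contradiction.  So `U` satisfies the hypothesis of `mono_one`, and `unif_lim` gives `Near (u n) (p n) L δ` for some `n`. -/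
theorem near_of_G (hd : 1 ≤ d) (C : ℝ) {a : ℝ} (ha : 0 < a) (L : ℝ) {δ : ℝ} (hδ : 0 < δ) :
    ∃ L' θ : ℝ, 1 ≤ L' ∧ 0 < θ ∧ ∀ u : E d → ℝ, HolC C a u → ∀ p : E d, G L' u p < ENNReal.ofReal θ → Near u p L δ := by
  by_contra hcon
  push Not at hcon
  have hn1 : ∀ n : ℕ, (1:ℝ) ≤ (n:ℝ) + 1 := fun n => by
    have : (0:ℝ) ≤ n := Nat.cast_nonneg n
    linarith
  have hn2 : ∀ n : ℕ, (0:ℝ) < 1 / ((n:ℝ) + 1) := fun n => by positivity
  choose u hu p hG hNear using fun n : ℕ => hcon ((n:ℝ) + 1) (1 / ((n:ℝ) + 1)) (hn1 n) (hn2 n)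
  have hv : ∀ n, HolC C a (fun x => u n (x + p n)) := by
    intro n
    refine ⟨fun x => (hu n).1 _, fun x y => ?_⟩
    have h1 := (hu n).2 (x + p n) (y + p n)
    rwa [add_sub_add_right_eq_sub] at h1
  obtain ⟨U, hU, hl⟩ := ultra_lim hv
  have hUc : Continuous U := by
    rw [continuous_iff_continuousAt]
    intro x
    rw [ContinuousAt, tendsto_iff_dist_tendsto_zero]
    have h1 : Tendsto (fun y : E d => C * ‖y - x‖ ^ a) (𝓝 x) (𝓝 0) := by
      have h2 : Continuous (fun y : E d => C * ‖y - x‖ ^ a) :=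
        continuous_const.mul ((continuous_id.sub continuous_const).norm.rpow_const (fun _ => Or.inr ha.le))
      have h3 := h2.tendsto x
      simpa [Real.zero_rpow ha.ne'] using h3
    refine squeeze_zero (fun y => dist_nonneg) (fun y => ?_) h1
    rw [Real.dist_eq]
    exact hU.2 y x
  have hmono : ∀ h : E d, (∀ x, U x ≤ U (x + h)) ∨ (∀ x, U (x + h) ≤ U x) := by
    intro h
    by_contra hc
    push Not at hc
    obtain ⟨⟨y, hy⟩, ⟨x, hx⟩⟩ := hc
    obtain ⟨m, hm0, hm1, hm2⟩ : ∃ m : ℝ, 0 < m ∧ m < U (x + h) - U x ∧ m < U y - U (y + h) := by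
      refine ⟨min (U (x + h) - U x) (U y - U (y + h)) / 2, ?_, ?_, ?_⟩
      · have : 0 < min (U (x + h) - U x) (U y - U (y + h)) := lt_min (by linarith) (by linarith)
        linarith
      · have h1 : 0 < min (U (x + h) - U x) (U y - U (y + h)) := lt_min (by linarith) (by linarith)
        have h2 := min_le_left (U (x + h) - U x) (U y - U (y + h))
        linarith
      · have h1 : 0 < min (U (x + h) - U x) (U y - U (y + h)) := lt_min (by linarith) (by linarith)
        have h2 := min_le_right (U (x + h) - U x) (U y - U (y + h))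
        linarith
    obtain ⟨θ, hθ, hlow⟩ := G_lower (d := d) (C := C) ha hm0
    have e1 : ∀ᶠ n in (hyperfilter ℕ : Filter ℕ), m < u n (x + h + p n) - u n (x + p n) :=
      Filter.Tendsto.eventually_const_lt hm1 ((hl (x + h)).sub (hl x))
    have e2 : ∀ᶠ n in (hyperfilter ℕ : Filter ℕ), m < u n (y + p n) - u n (y + h + p n) :=
      Filter.Tendsto.eventually_const_lt hm2 ((hl y).sub (hl (y + h)))
    have e3 : ∀ᶠ n : ℕ in (hyperfilter ℕ : Filter ℕ), ‖h‖ + ‖x‖ + ‖y‖ + 1 ≤ (n:ℝ) + 1 := by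
      apply Nat.hyperfilter_le_atTop
      have h1 : Tendsto (fun n : ℕ => (n:ℝ)) atTop atTop := tendsto_natCast_atTop_atTop
      filter_upwards [h1.eventually_ge_atTop (‖h‖ + ‖x‖ + ‖y‖)] with n hn
      linarith
    have e4 : ∀ᶠ n : ℕ in (hyperfilter ℕ : Filter ℕ), 1 / ((n:ℝ) + 1) < θ := by
      apply Nat.hyperfilter_le_atTop
      exact (tendsto_one_div_add_atTop_nhds_zero_nat (𝕜 := ℝ)).eventually_lt_const hθ
    obtain ⟨n, ⟨⟨k1, k2⟩, k3⟩, k4⟩ := (((e1.and e2).and e3).and e4).exists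
    have h5 := hlow (fun x => u n (x + p n)) (hv n) ((n:ℝ) + 1) h x y 0
      (by linarith [norm_nonneg x, norm_nonneg y]) (by rw [sub_zero]; linarith [norm_nonneg h, norm_nonneg y])
      (by rw [sub_zero]; linarith [norm_nonneg h, norm_nonneg x]) k1.le k2.le
    rw [G_shift, zero_add] at h5
    have h6 := h5.trans_lt (hG n)
    have h7 := (ENNReal.ofReal_lt_ofReal_iff (hn2 n)).1 h6
    linarith
  obtain ⟨b, hb, g, hg, hgU⟩ := mono_one hd hUc hmono
  obtain ⟨n, hn⟩ := (unif_lim ha hv hU hl L hδ).exists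
  refine hNear n ⟨b, hb, g, hg, fun x hx => ?_⟩
  have h8 := hn x hx
  rw [hgU x, add_comm x (p n)] at h8
  exact h8

/-- MODULE lg. A function which is close to one-dimensional functions in all balls around `0` is one-dimensional: if `u (x + h) - u x ≥ m` and `u y - u (y + h) ≥ m`, `m > 0`, take `L ≥ ‖x‖ + ‖y‖ + ‖h‖`, `δ = m / 3`: `g` monotone gives
`⟨a, h⟩ > 0` and `⟨a, h⟩ < 0`.  `mono_one`. -/
theorem oneDim_of_near (hd : 1 ≤ d) {u : E d → ℝ} (hu : Continuous u) (h : ∀ L δ : ℝ, 0 < δ → Near u 0 L δ) : OneDim u := by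
  suffices key : ∀ k : E d, (∀ x, u x ≤ u (x + k)) ∨ (∀ x, u (x + k) ≤ u x) by
    obtain ⟨a, ha, g, _, hg⟩ := mono_one hd hu key
    exact ⟨a, ha, g, hg⟩
  intro k
  by_contra hcon
  push Not at hcon
  obtain ⟨⟨x, hx⟩, y, hy⟩ := hcon
  obtain ⟨m, hm, hmx, hmy⟩ : ∃ m : ℝ, 0 < m ∧ u (x + k) + m ≤ u x ∧ u y + m ≤ u (y + k) :=
    ⟨min (u x - u (x + k)) (u (y + k) - u y), lt_min (by linarith) (by linarith),
      by linarith [min_le_left (u x - u (x + k)) (u (y + k) - u y)],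
      by linarith [min_le_right (u x - u (x + k)) (u (y + k) - u y)]⟩
  obtain ⟨a, ha, g, hg, hn⟩ := h (‖x‖ + ‖y‖ + ‖k‖) (m / 3) (by positivity)
  have e1 := hn x (by linarith [norm_nonneg x, norm_nonneg y, norm_nonneg k])
  have e2 := hn y (by linarith [norm_nonneg x, norm_nonneg y, norm_nonneg k])
  have e3 := hn (x + k) (by linarith [norm_add_le x k, norm_nonneg y])
  have e4 := hn (y + k) (by linarith [norm_add_le y k, norm_nonneg x])
  rw [zero_add] at e1 e2 e3 e4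
  rw [inner_add_right] at e3 e4
  rw [abs_le] at e1 e2 e3 e4
  rcases le_total 0 (inner ℝ a k : ℝ) with h0 | h0
  · have := hg (show (inner ℝ a x : ℝ) ≤ inner ℝ a x + inner ℝ a k by linarith)
    linarith [e1.1, e1.2, e3.1, e3.2]
  · have := hg (show (inner ℝ a y : ℝ) + inner ℝ a k ≤ inner ℝ a y by linarith)
    linarith [e2.1, e2.2, e4.1, e4.2]

end NDG
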