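import Pool.Agent.NDG.Gn

/-! # Cylinders around subspaces, logarithmic cutoffs -/

open MeasureTheory Filter Topology Set

noncomputable section

namespace NDG

variable {d : ℕ} {s c : ℝ} {V : Submodule ℝ (E d)}

/-- the cylinder `‖P x‖ ≤ R`, `‖x - P x‖ ≤ ρ`, where `P` is the orthogonal projection on `V` -/
def Cyl {d : ℕ} (V : Submodule ℝ (E d)) (R ρ : ℝ) : Set (E d) :=
  {x | ‖V.starProjection x‖ ≤ R ∧ ‖x - V.starProjection x‖ ≤ ρ}

/-- MODULE ka. -/
theorem cyl_meas (R ρ : ℝ) : MeasurableSet (Cyl V R ρ) := by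
  exact ((isClosed_le V.starProjection.continuous.norm continuous_const).inter
    (isClosed_le (continuous_id.sub V.starProjection.continuous).norm continuous_const)).measurableSet

/-- MODULE ka. -/
theorem cyl_mono {R R' ρ ρ' : ℝ} (h : R ≤ R') (h' : ρ ≤ ρ') : Cyl V R ρ ⊆ Cyl V R' ρ' := by
  exact fun x hx => ⟨hx.1.trans h, hx.2.trans h'⟩

/-- MODULE ka. -/
theorem cyl_norm {R ρ : ℝ} {x : E d} (hx : x ∈ Cyl V R ρ) : ‖x‖ ≤ R + ρ := by
  have e : x = V.starProjection x + (x - V.starProjection x) := by abel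
  calc ‖x‖ = ‖V.starProjection x + (x - V.starProjection x)‖ := by rw [← e]
    _ ≤ ‖V.starProjection x‖ + ‖x - V.starProjection x‖ := norm_add_le _ _
    _ ≤ R + ρ := add_le_add hx.1 hx.2

/-- MODULE ka. The projections on `V` and on its complement do not increase norms. -/
theorem proj_le (x y : E d) : ‖V.starProjection x - V.starProjection y‖ ≤ ‖x - y‖ ∧
    ‖(x - V.starProjection x) - (y - V.starProjection y)‖ ≤ ‖x - y‖ := by
  constructor
  · rw [← map_sub]
    exact V.norm_starProjection_apply_le _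
  · rw [← V.starProjection_orthogonal_val, ← V.starProjection_orthogonal_val, ← map_sub]
    exact Vᗮ.norm_starProjection_apply_le _

/-- MODULE kb. Volume of the cylinders.  The linear map `T x = R⁻¹ P x + ρ⁻¹ (x - P x)` maps the cylinder into the ball of radius `2` and has the determinant `R ^ (-k) ρ ^ (k - d)` (an orthonormal basis adapted to `V`; `Measure.addHaar_preimage_linearMap`);
or use the measure preserving isometry of `E d` with the product of `V` and its complement. The constant depends only on `d`. -/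
theorem cyl_vol (d : ℕ) : ∃ C : ℝ, 0 ≤ C ∧ ∀ (V : Submodule ℝ (E d)) (R ρ : ℝ), 0 < R → 0 < ρ →
    volume (Cyl V R ρ) ≤ ENNReal.ofReal (C * (R ^ Module.finrank ℝ V * ρ ^ (d - Module.finrank ℝ V))) := by
  refine ⟨(volume (Metric.closedBall (0 : E d) 2)).toReal, ENNReal.toReal_nonneg, fun V R ρ hR hρ => ?_⟩
  set e := V.prodEquivOfIsCompl Vᗮ V.isCompl_orthogonal with he
  set S : E d →ₗ[ℝ] E d := e.toLinearMap ∘ₗ
    ((R • LinearMap.id : V →ₗ[ℝ] V).prodMap (ρ • LinearMap.id : Vᗮ →ₗ[ℝ] Vᗮ)) ∘ₗ e.symm.toLinearMap with hS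
  have hdet : LinearMap.det S = R ^ Module.finrank ℝ V * ρ ^ (d - Module.finrank ℝ V) := by
    have h1 := V.finrank_add_finrank_orthogonal
    rw [finrank_euclideanSpace, Fintype.card_fin] at h1
    have h2 : Module.finrank ℝ Vᗮ = d - Module.finrank ℝ V := by omega
    rw [hS, LinearMap.det_conj, LinearMap.det_prodMap, LinearMap.det_smul, LinearMap.det_smul,
      LinearMap.det_id, LinearMap.det_id, mul_one, mul_one, h2]
  have hsub : Cyl V R ρ ⊆ S '' Metric.closedBall 0 2 := by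
    intro x hx
    have hq : x - V.starProjection x ∈ Vᗮ := V.sub_starProjection_mem_orthogonal x
    have hp : V.starProjection x ∈ V := V.starProjection_apply_mem x
    refine ⟨e (R⁻¹ • ⟨V.starProjection x, hp⟩, ρ⁻¹ • ⟨x - V.starProjection x, hq⟩), ?_, ?_⟩
    · rw [Metric.mem_closedBall, dist_zero_right, he, Submodule.coe_prodEquivOfIsCompl']
      refine (norm_add_le _ _).trans ?_
      simp only [Submodule.coe_smul, norm_smul, norm_inv, Real.norm_eq_abs, abs_of_pos hR, abs_of_pos hρ]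
      have h1 : R⁻¹ * ‖V.starProjection x‖ ≤ 1 := by
        rw [inv_mul_le_iff₀ hR, mul_one]
        exact hx.1
      have h2 : ρ⁻¹ * ‖x - V.starProjection x‖ ≤ 1 := by
        rw [inv_mul_le_iff₀ hρ, mul_one]
        exact hx.2
      linarith
    · rw [hS]
      simp only [LinearMap.comp_apply, LinearEquiv.coe_coe, LinearEquiv.symm_apply_apply,
        LinearMap.prodMap_apply, LinearMap.smul_apply, LinearMap.id_apply]
      rw [smul_inv_smul₀ hR.ne', smul_inv_smul₀ hρ.ne', he, Submodule.coe_prodEquivOfIsCompl']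
      exact add_sub_cancel _ _
  calc volume (Cyl V R ρ) ≤ volume (S '' Metric.closedBall 0 2) := measure_mono hsub
    _ = ENNReal.ofReal |LinearMap.det S| * volume (Metric.closedBall (0 : E d) 2) :=
        Measure.addHaar_image_linearMap volume S _
    _ = _ := by
        rw [hdet, abs_of_pos (by positivity), mul_comm, ENNReal.ofReal_mul ENNReal.toReal_nonneg,
          ENNReal.ofReal_toReal measure_closedBall_lt_top.ne]

/-- `3 + ‖x - P x‖` -/
def tau {d : ℕ} (V : Submodule ℝ (E d)) (x : E d) : ℝ := 3 + ‖x - V.starProjection x‖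

/-- the truncation to `[0, 1]` -/
def clp (t : ℝ) : ℝ := max 0 (min 1 t)

/-- the double logarithmic cutoff -/
def chi {d : ℕ} (V : Submodule ℝ (E d)) (R N : ℝ) (x : E d) : ℝ :=
  min (clp (3 - ‖V.starProjection x‖ / R)) (clp (2 - Real.log (Real.log (tau V x)) / N))

open scoped Classical in
/-- its majorant -/

def Wt {d : ℕ} (V : Submodule ℝ (E d)) (R N : ℝ) (x : E d) : ℝ :=
  if x ∈ Cyl V (4 * R) (Real.exp (Real.exp (2 * N))) then
    8 * ((R ^ 2)⁻¹ + (N ^ 2)⁻¹ * ((tau V x * Real.log (tau V x)) ^ 2)⁻¹) else 0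

private theorem kc_log {a : ℝ} (ha : 3 ≤ a) : 1 ≤ Real.log a := by
  rw [Real.le_log_iff_exp_le (by linarith)]
  have := Real.exp_one_lt_d9
  linarith

/-- MODULE kc. `log t ≤ t - 1` for `t = b / a` and for `t = log b / log a`. -/
theorem ll_diff {a b : ℝ} (ha : 3 ≤ a) (hab : a ≤ b) :
    0 ≤ Real.log (Real.log b) - Real.log (Real.log a) ∧
    Real.log (Real.log b) - Real.log (Real.log a) ≤ (b - a) / (a * Real.log a) := by
  have ha0 : 0 < a := by linarith
  have hb0 : 0 < b := by linarith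
  have hla : 1 ≤ Real.log a := kc_log ha
  have hla0 : 0 < Real.log a := by linarith
  have hlab : Real.log a ≤ Real.log b := Real.log_le_log ha0 hab
  have hlb0 : 0 < Real.log b := by linarith
  constructor
  · have := Real.log_le_log hla0 hlab
    linarith
  · rw [← Real.log_div hlb0.ne' hla0.ne']
    have h1 : Real.log (Real.log b / Real.log a) ≤ Real.log b / Real.log a - 1 :=
      Real.log_le_sub_one_of_pos (div_pos hlb0 hla0)
    have h2 : Real.log b - Real.log a ≤ b / a - 1 := by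
      rw [← Real.log_div hb0.ne' ha0.ne']
      exact Real.log_le_sub_one_of_pos (div_pos hb0 ha0)
    have h3 : Real.log b / Real.log a - 1 = (Real.log b - Real.log a) / Real.log a := by
      field_simp
    have h4 : (b - a) / (a * Real.log a) = (b / a - 1) / Real.log a := by
      field_simp
    rw [h4]
    rw [h3] at h1
    exact h1.trans (div_le_div_of_nonneg_right h2 hla0.le)

/-- MODULE kc. `b ≤ (4 / 3) a`, `log b ≤ log a + 1 / 3` and `log a ≥ log 3 ≥ 1`. -/
theorem ll_ratio {a b : ℝ} (ha : 3 ≤ a) (hab : a ≤ b) (hb : b ≤ a + 1) :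
    b * Real.log b ≤ 5 / 2 * (a * Real.log a) := by
  have ha0 : 0 < a := by linarith
  have hb0 : 0 < b := by linarith
  have hla : 1 ≤ Real.log a := kc_log ha
  have h1 : b ≤ 4 / 3 * a := by linarith
  have h2 : Real.log b ≤ Real.log a + 1 / 3 := by
    have h3 : Real.log (b / a) ≤ b / a - 1 := Real.log_le_sub_one_of_pos (div_pos hb0 ha0)
    rw [Real.log_div hb0.ne' ha0.ne'] at h3
    have h4 : b / a ≤ 4 / 3 := by
      rw [div_le_iff₀ ha0]
      exact h1
    linarith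
  have h3 : Real.log b ≤ 4 / 3 * Real.log a := by linarith
  have hlb : 0 ≤ Real.log b := Real.log_nonneg (by linarith)
  calc b * Real.log b ≤ (4 / 3 * a) * (4 / 3 * Real.log a) := mul_le_mul h1 h3 hlb (by positivity)
    _ ≤ 5 / 2 * (a * Real.log a) := by nlinarith [mul_pos ha0 (by linarith : (0 : ℝ) < Real.log a)]

private def kd_D (R N t : ℝ) : ℝ := (R ^ 2)⁻¹ + (N ^ 2)⁻¹ * ((t * Real.log t) ^ 2)⁻¹

private theorem kd_D_nonneg (R N t : ℝ) : 0 ≤ kd_D R N t := by
  unfold kd_D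
  positivity

private theorem kd_clp_nonneg (t : ℝ) : 0 ≤ clp t := le_max_left _ _

private theorem kd_clp_le (t : ℝ) : clp t ≤ 1 := max_le zero_le_one (min_le_left _ _)

private theorem kd_clp0 {t : ℝ} (ht : t ≤ 0) : clp t = 0 :=
  max_eq_left ((min_le_right _ _).trans ht)

private theorem kd_clp1 {t : ℝ} (ht : 1 ≤ t) : clp t = 1 := by
  rw [clp, min_eq_left ht]
  exact max_eq_right zero_le_one

private theorem kd_clp_lip (a b : ℝ) : |clp a - clp b| ≤ |a - b| := by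
  unfold clp
  have h1 : |max 0 (min 1 a) - max 0 (min 1 b)| ≤ |min 1 a - min 1 b| :=
    (abs_max_sub_max_le_max (0 : ℝ) (min 1 a) 0 (min 1 b)).trans (max_le (by simp) le_rfl)
  have h2 : |min 1 a - min 1 b| ≤ |a - b| :=
    (abs_min_sub_min_le_max (1 : ℝ) a 1 b).trans (max_le (by simp) le_rfl)
  exact h1.trans h2

private theorem kd_tau_ge (x : E d) : 3 ≤ tau V x := by
  unfold tau
  linarith [norm_nonneg (x - V.starProjection x)]

private theorem kd_tau_pos (x : E d) : 0 < tau V x := by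
  linarith [kd_tau_ge (V := V) x]

private theorem kd_chi_abs {R N : ℝ} (hR : 0 < R) (hN : 0 < N) (x y : E d) {T : ℝ} (hT : 3 ≤ T)
    (hx : T ≤ tau V x) (hy : T ≤ tau V y) :
    |chi V R N x - chi V R N y| ≤ max (‖x - y‖ / R) (‖x - y‖ / (N * (T * Real.log T))) := by
  have hpr := proj_le (V := V) x y
  have key : ∀ x y : E d, T ≤ tau V x → tau V x ≤ tau V y →
      |Real.log (Real.log (tau V x)) - Real.log (Real.log (tau V y))| ≤ ‖x - y‖ / (T * Real.log T) := by
    intro x y hx hxy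
    have hpr := proj_le (V := V) x y
    have h1 := ll_diff (kd_tau_ge x) hxy
    rw [abs_sub_comm, abs_of_nonneg h1.1]
    refine h1.2.trans ?_
    have h2 : tau V y - tau V x ≤ ‖x - y‖ := by
      unfold tau
      have h3 := abs_norm_sub_norm_le (x - V.starProjection x) (y - V.starProjection y)
      have h4 := (abs_le.1 (h3.trans hpr.2)).1
      linarith
    have hT0 : 0 < T * Real.log T := mul_pos (by linarith) (by linarith [kc_log hT])
    have h5 : T * Real.log T ≤ tau V x * Real.log (tau V x) := by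
      refine mul_le_mul hx (Real.log_le_log (by linarith) hx) (by linarith [kc_log hT]) (kd_tau_pos x).le
    exact div_le_div₀ (norm_nonneg _) h2 hT0 h5
  have key2 : |Real.log (Real.log (tau V x)) - Real.log (Real.log (tau V y))| ≤
      ‖x - y‖ / (T * Real.log T) := by
    rcases le_total (tau V x) (tau V y) with h | h
    · exact key x y hx h
    · rw [abs_sub_comm, norm_sub_rev]
      exact key y x hy h
  unfold chi
  refine (abs_min_sub_min_le_max _ _ _ _).trans (max_le_max ?_ ?_)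
  · refine (kd_clp_lip _ _).trans ?_
    have e : 3 - ‖V.starProjection x‖ / R - (3 - ‖V.starProjection y‖ / R) =
        -((‖V.starProjection x‖ - ‖V.starProjection y‖) / R) := by ring
    rw [e, abs_neg, abs_div, abs_of_pos hR]
    exact div_le_div_of_nonneg_right ((abs_norm_sub_norm_le _ _).trans hpr.1) hR.le
  · refine (kd_clp_lip _ _).trans ?_
    have e : 2 - Real.log (Real.log (tau V x)) / N - (2 - Real.log (Real.log (tau V y)) / N) =
        -((Real.log (Real.log (tau V x)) - Real.log (Real.log (tau V y))) / N) := by ring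
    rw [e, abs_neg, abs_div, abs_of_pos hN, mul_comm N, ← div_div]
    exact div_le_div_of_nonneg_right key2 hN.le

private theorem kd_diff {R N : ℝ} (hR : 0 < R) (hN : 0 < N) (x y : E d) (T : ℝ) (hT : 3 ≤ T)
    (hx : T ≤ tau V x) (hy : T ≤ tau V y) :
    (chi V R N x - chi V R N y) ^ 2 ≤ ‖x - y‖ ^ 2 * kd_D R N T := by
  have h1 := kd_chi_abs hR hN x y hT hx hy
  have hT0 : 0 < T * Real.log T := mul_pos (by linarith) (by linarith [kc_log hT])
  have hn := norm_nonneg (x - y)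
  have e : ‖x - y‖ ^ 2 * kd_D R N T = (‖x - y‖ / R) ^ 2 + (‖x - y‖ / (N * (T * Real.log T))) ^ 2 := by
    unfold kd_D
    rw [div_pow, div_pow, mul_pow N]
    field_simp
  rw [e, ← sq_abs]
  have h2 : 0 ≤ |chi V R N x - chi V R N y| := abs_nonneg _
  rcases le_max_iff.1 h1 with h | h
  · have := pow_le_pow_left₀ h2 h 2
    nlinarith [sq_nonneg (‖x - y‖ / (N * (T * Real.log T)))]
  · have := pow_le_pow_left₀ h2 h 2
    nlinarith [sq_nonneg (‖x - y‖ / R)]

private theorem kd_diff1 {R N : ℝ} (hR : 1 ≤ R) (hN : 1 ≤ N) (x y : E d) :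
    |chi V R N x - chi V R N y| ≤ ‖x - y‖ := by
  have h1 := kd_chi_abs (V := V) (by linarith : (0 : ℝ) < R) (by linarith : (0 : ℝ) < N) x y
    (le_refl (3 : ℝ)) (kd_tau_ge x) (kd_tau_ge y)
  refine h1.trans (max_le (div_le_self (norm_nonneg _) hR) (div_le_self (norm_nonneg _) ?_))
  have h2 := kc_log (le_refl (3 : ℝ))
  nlinarith [mul_le_mul hN (by nlinarith : (1 : ℝ) ≤ 3 * Real.log 3) zero_le_one (by linarith)]

/-- MODULE kd. `chi` vanishes for `‖P x‖ ≥ 3 R` and for `tau x ≥ exp (exp (2 N))`; `|chi x - chi y| ≤ max (‖x - y‖ / R) (‖x - y‖ / (N T log T))`, `T` the smaller one of `tau x`, `tau y` (`ll_diff`, `proj_le`).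
`h1`: let `tau x ≤ tau y` and `chi x ≠ chi y`.  If `x` is in the cylinder of `Wt` then `W x` is enough.  If not then `chi x = 0`, so `chi y ≠ 0`, `tau x ≤ tau y < exp (exp (2 N))`, so `‖P x‖ > 4 R` and `‖x - y‖ ≥ R`, and
`(R ^ 2)⁻¹ ≤ W y` is enough.  `h2`: if `chi (x + v) ≠ chi x` then `x` is in the cylinder of `Wt`, and the smaller one of `tau x`, `tau (x + v)` is at least `tau x - 1` and at least `3`: `ll_ratio`, `(5 / 2) ^ 2 ≤ 8`. -/
theorem cut_chi {R N : ℝ} (hR : 1 ≤ R) (hN : 1 ≤ N) : Cut (chi V R N) (Wt V R N) := by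
  have hR0 : 0 < R := by linarith
  have hN0 : 0 < N := by linarith
  set Y : ℝ := Real.exp (Real.exp (2 * N)) with hY
  have hW8 : ∀ x ∈ Cyl V (4 * R) Y, Wt V R N x = 8 * kd_D R N (tau V x) := by
    intro x hx
    rw [Wt, if_pos hx]
    rfl
  have hW0 : ∀ x, 0 ≤ Wt V R N x := by
    intro x
    unfold Wt
    split_ifs
    · positivity
    · exact le_rfl
  have hzero1 : ∀ x : E d, 3 * R ≤ ‖V.starProjection x‖ → chi V R N x = 0 := by
    intro x hx
    have h1 : clp (3 - ‖V.starProjection x‖ / R) = 0 := by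
      apply kd_clp0
      rw [sub_nonpos, le_div_iff₀ hR0]
      exact hx
    rw [chi, h1]
    exact min_eq_left (kd_clp_nonneg _)
  have hzero2 : ∀ x : E d, Y ≤ tau V x → chi V R N x = 0 := by
    intro x hx
    have h1 : clp (2 - Real.log (Real.log (tau V x)) / N) = 0 := by
      apply kd_clp0
      rw [sub_nonpos, le_div_iff₀ hN0]
      have h2 : Real.exp (2 * N) ≤ Real.log (tau V x) := by
        rw [Real.le_log_iff_exp_le (kd_tau_pos x)]
        exact hx
      rw [Real.le_log_iff_exp_le (lt_of_lt_of_le (Real.exp_pos _) h2)]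
      exact h2
    rw [chi, h1]
    exact min_eq_right (kd_clp_nonneg _)
  have hnz : ∀ x : E d, chi V R N x ≠ 0 → ‖V.starProjection x‖ < 3 * R ∧ tau V x < Y := by
    intro x hx
    constructor
    · by_contra h
      exact hx (hzero1 x (not_lt.1 h))
    · by_contra h
      exact hx (hzero2 x (not_lt.1 h))
  have htau : ∀ x : E d, tau V x = 3 + ‖x - V.starProjection x‖ := fun x => rfl
  have h01 : ∀ x : E d, 0 ≤ chi V R N x ∧ chi V R N x ≤ 1 := by
    intro x
    refine ⟨le_min (kd_clp_nonneg _) (kd_clp_nonneg _), (min_le_left _ _).trans (kd_clp_le _)⟩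
  have hdiff := kd_diff (V := V) hR0 hN0
  refine ⟨⟨⟨1, ?_⟩, ?_⟩, fun x => (h01 x).1, hW0, ?_, ?_, ?_, ?_⟩
  · refine LipschitzWith.of_dist_le_mul fun x y => ?_
    rw [Real.dist_eq, dist_eq_norm, NNReal.coe_one, one_mul]
    have h1 := hdiff x y 3 le_rfl (kd_tau_ge x) (kd_tau_ge y)
    have h2 : kd_D R N 3 ≤ 2 := by
      unfold kd_D
      have h3 : (R ^ 2)⁻¹ ≤ 1 := inv_le_one_of_one_le₀ (by nlinarith)
      have h4 : (N ^ 2)⁻¹ ≤ 1 := inv_le_one_of_one_le₀ (by nlinarith)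
      have h5 : ((3 * Real.log 3) ^ 2)⁻¹ ≤ 1 := by
        apply inv_le_one_of_one_le₀
        have := kc_log (le_refl (3 : ℝ))
        nlinarith
      have h6 : (N ^ 2)⁻¹ * ((3 * Real.log 3) ^ 2)⁻¹ ≤ 1 * 1 :=
        mul_le_mul h4 h5 (by positivity) zero_le_one
      linarith
    have h7 : |chi V R N x - chi V R N y| ≤ ‖x - y‖ := by
      have h8 := kd_diff1 (V := V) hR hN x y
      exact h8
    exact h7
  · refine HasCompactSupport.intro (isCompact_closedBall (0 : E d) (3 * R + Y)) fun x hx => ?_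
    by_contra h
    obtain ⟨h1, h2⟩ := hnz x h
    apply hx
    rw [Metric.mem_closedBall, dist_zero_right]
    refine cyl_norm (V := V) ⟨h1.le, ?_⟩
    rw [htau] at h2
    linarith
  · unfold Wt
    refine Measurable.ite (cyl_meas _ _) ?_ measurable_const
    have ht : Measurable (tau V) :=
      (continuous_const.add (continuous_id.sub V.starProjection.continuous).norm).measurable
    exact measurable_const.mul (measurable_const.add (measurable_const.mul
      ((ht.mul ht.log).pow_const 2).inv))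
  · refine ⟨4 * R + Y, 8 * ((R ^ 2)⁻¹ + (N ^ 2)⁻¹), fun x hx => ?_, fun x => ?_⟩
    · rw [Wt, if_neg]
      intro h
      have := cyl_norm h
      linarith
    · unfold Wt
      split_ifs
      · have h1 := kc_log (kd_tau_ge (V := V) x)
        have h2 : ((tau V x * Real.log (tau V x)) ^ 2)⁻¹ ≤ 1 := by
          apply inv_le_one_of_one_le₀
          have h3 : (1 : ℝ) ≤ tau V x * Real.log (tau V x) := by nlinarith [kd_tau_ge (V := V) x]
          nlinarith
        have h3 : (N ^ 2)⁻¹ * ((tau V x * Real.log (tau V x)) ^ 2)⁻¹ ≤ (N ^ 2)⁻¹ * 1 :=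
          mul_le_mul_of_nonneg_left h2 (by positivity)
        linarith
      · positivity
  · have key : ∀ x y : E d, tau V x ≤ tau V y →
        (chi V R N x - chi V R N y) ^ 2 ≤ ‖x - y‖ ^ 2 * (Wt V R N x + Wt V R N y) := by
      intro x y hxy
      have hn : 0 ≤ ‖x - y‖ ^ 2 := sq_nonneg _
      by_cases hx : x ∈ Cyl V (4 * R) Y
      · have h1 := hdiff x y (tau V x) (kd_tau_ge x) le_rfl hxy
        refine h1.trans (mul_le_mul_of_nonneg_left ?_ hn)
        rw [hW8 x hx]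
        have h2 := kd_D_nonneg R N (tau V x)
        linarith [hW0 y]
      · have h5 : Y < ‖x - V.starProjection x‖ ∨ 4 * R < ‖V.starProjection x‖ := by
          by_contra h
          push Not at h
          exact hx ⟨h.2, h.1⟩
        have hx0 : chi V R N x = 0 := by
          rcases h5 with h | h
          · exact hzero2 x (by rw [htau]; linarith)
          · exact hzero1 x (by linarith)
        by_cases hy : chi V R N y = 0
        · rw [hx0, hy, sub_zero]
          have := mul_nonneg hn (add_nonneg (hW0 x) (hW0 y))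
          nlinarith
        · obtain ⟨h1, h2⟩ := hnz y hy
          have h6 : 4 * R < ‖V.starProjection x‖ := by
            rcases h5 with h | h
            · exfalso
              rw [htau] at h2 hxy
              rw [htau] at hxy
              linarith
            · exact h
          have h7 : R ≤ ‖x - y‖ := by
            have h8 := (proj_le (V := V) x y).1
            have h9 := norm_sub_norm_le (V.starProjection x) (V.starProjection y)
            linarith
          have hyc : y ∈ Cyl V (4 * R) Y := ⟨by linarith, by rw [htau] at h2; linarith⟩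
          have h10 : (R ^ 2)⁻¹ ≤ Wt V R N y := by
            rw [hW8 y hyc]
            unfold kd_D
            have : 0 ≤ (N ^ 2)⁻¹ * ((tau V y * Real.log (tau V y)) ^ 2)⁻¹ := by positivity
            have : 0 ≤ (R ^ 2)⁻¹ := by positivity
            linarith
          have h11 : 1 ≤ ‖x - y‖ ^ 2 * (R ^ 2)⁻¹ := by
            rw [← div_eq_mul_inv, le_div_iff₀ (by positivity), one_mul]
            exact pow_le_pow_left₀ hR0.le h7 2
          have h12 : (chi V R N x - chi V R N y) ^ 2 ≤ 1 := by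
            rw [hx0]
            nlinarith [(h01 y).1, (h01 y).2]
          calc (chi V R N x - chi V R N y) ^ 2 ≤ 1 := h12
            _ ≤ ‖x - y‖ ^ 2 * (R ^ 2)⁻¹ := h11
            _ ≤ ‖x - y‖ ^ 2 * (Wt V R N x + Wt V R N y) :=
                mul_le_mul_of_nonneg_left (by linarith [hW0 x]) hn
    intro x y
    rcases le_total (tau V x) (tau V y) with h | h
    · exact key x y h
    · have h1 := key y x h
      rw [norm_sub_rev, add_comm (Wt V R N y)] at h1
      calc (chi V R N x - chi V R N y) ^ 2 = (chi V R N y - chi V R N x) ^ 2 := by ring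
        _ ≤ _ := h1
  · intro x v hv
    by_cases heq : chi V R N (x + v) = chi V R N x
    · rw [heq, sub_self]
      have := mul_nonneg (sq_nonneg ‖v‖) (hW0 x)
      nlinarith
    · have hpr := proj_le (V := V) (x + v) x
      rw [add_sub_cancel_left] at hpr
      have ha1 := abs_le.1 ((abs_norm_sub_norm_le (V.starProjection (x + v)) (V.starProjection x)).trans hpr.1)
      have ha2 := abs_le.1 ((abs_norm_sub_norm_le (x + v - V.starProjection (x + v))
        (x - V.starProjection x)).trans hpr.2)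
      have hz : ‖V.starProjection x‖ < 3 * R + 1 ∧ tau V x < Y + 1 := by
        by_cases h : chi V R N x = 0
        · have h' : chi V R N (x + v) ≠ 0 := fun h'' => heq (h''.trans h.symm)
          obtain ⟨h1, h2⟩ := hnz _ h'
          rw [htau] at h2 ⊢
          constructor
          · linarith [ha1.1]
          · linarith [ha2.1]
        · obtain ⟨h1, h2⟩ := hnz _ h
          exact ⟨by linarith, by linarith⟩
      have hxc : x ∈ Cyl V (4 * R) Y := by
        refine ⟨by linarith [hz.1], ?_⟩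
        have := hz.2
        rw [htau] at this
        linarith
      rw [hW8 x hxc]
      set T : ℝ := min (tau V (x + v)) (tau V x) with hT
      have hT3 : 3 ≤ T := le_min (kd_tau_ge _) (kd_tau_ge _)
      have hTx : T ≤ tau V x := min_le_right _ _
      have hxT : tau V x ≤ T + 1 := by
        have h0 : tau V x - 1 ≤ T := by
          refine le_min ?_ (by linarith)
          rw [htau, htau]
          linarith [ha2.1]
        linarith
      have h1 := hdiff (x + v) x T hT3 (min_le_left _ _) hTx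
      rw [add_sub_cancel_left] at h1
      refine h1.trans (mul_le_mul_of_nonneg_left ?_ (sq_nonneg _))
      have h2 := ll_ratio hT3 hTx hxT
      have hT0 : 0 < T * Real.log T := mul_pos (by linarith) (by linarith [kc_log hT3])
      have ht0 : 0 < tau V x * Real.log (tau V x) :=
        mul_pos (kd_tau_pos x) (by linarith [kc_log (kd_tau_ge (V := V) x)])
      have h3 : ((T * Real.log T) ^ 2)⁻¹ ≤ 8 * ((tau V x * Real.log (tau V x)) ^ 2)⁻¹ := by
        rw [← div_eq_mul_inv, le_div_iff₀ (by positivity), inv_mul_le_iff₀ (by positivity)]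
        nlinarith
      unfold kd_D
      have h4 : (N ^ 2)⁻¹ * ((T * Real.log T) ^ 2)⁻¹ ≤
          (N ^ 2)⁻¹ * (8 * ((tau V x * Real.log (tau V x)) ^ 2)⁻¹) :=
        mul_le_mul_of_nonneg_left h3 (by positivity)
      have h5 : 0 ≤ (R ^ 2)⁻¹ := by positivity
      nlinarith

/-- MODULE ke. If `Wt ≠ 0` choose `m` with `2 ^ m ≤ tau x < 2 ^ (m + 1)`; `1 ≤ m ≤ M`, `tau log tau ≥ 2 ^ m m log 2`, `8 / (log 2) ^ 2 ≤ 20`. -/
theorem Wt_dyad {R N : ℝ} (hR : 0 < R) (hN : 0 < N) {M : ℕ} (hM : Real.exp (Real.exp (2 * N)) + 3 ≤ 2 ^ M) (x : E d) :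
    Wt V R N x ≤ (Cyl V (4 * R) (2 ^ M)).indicator (fun _ => 8 * (R ^ 2)⁻¹) x +
      ∑ m ∈ Finset.Icc 1 M, (Cyl V (4 * R) (2 ^ (m + 1))).indicator
        (fun _ => 20 * ((N ^ 2)⁻¹ * ((4 : ℝ) ^ m * (m : ℝ) ^ 2)⁻¹)) x := by
  have hnn : ∀ m : ℕ, 0 ≤ (Cyl V (4 * R) (2 ^ (m + 1))).indicator
      (fun _ => 20 * ((N ^ 2)⁻¹ * ((4 : ℝ) ^ m * (m : ℝ) ^ 2)⁻¹)) x := fun m =>
    indicator_nonneg (fun _ _ => by positivity) x
  have hn1 : 0 ≤ (Cyl V (4 * R) (2 ^ M)).indicator (fun _ => 8 * (R ^ 2)⁻¹) x :=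
    indicator_nonneg (fun _ _ => by positivity) x
  by_cases hx : x ∈ Cyl V (4 * R) (Real.exp (Real.exp (2 * N)))
  · rw [Wt, if_pos hx]
    have ht3 := kd_tau_ge (V := V) x
    have htau : tau V x = 3 + ‖x - V.starProjection x‖ := rfl
    have htM : tau V x ≤ 2 ^ M := by
      rw [htau]
      linarith [hx.2]
    obtain ⟨m, hm1, hm2⟩ := exists_nat_pow_near (by linarith : 1 ≤ tau V x) (one_lt_two : (1 : ℝ) < 2)
    have hm0 : 1 ≤ m := by
      by_contra h
      have : m = 0 := by omega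
      rw [this] at hm2
      norm_num at hm2
      linarith
    have hmM : m ≤ M := by
      by_contra h
      have h1 : (2 : ℝ) ^ (M + 1) ≤ 2 ^ m := pow_le_pow_right₀ one_le_two (by omega)
      rw [pow_succ] at h1
      have : (0 : ℝ) < 2 ^ M := by positivity
      linarith
    have hxM : x ∈ Cyl V (4 * R) (2 ^ M) := ⟨hx.1, by rw [htau] at htM; linarith⟩
    have hxm : x ∈ Cyl V (4 * R) (2 ^ (m + 1)) := ⟨hx.1, by rw [htau] at hm2; linarith⟩
    have hterm : 8 * ((N ^ 2)⁻¹ * ((tau V x * Real.log (tau V x)) ^ 2)⁻¹) ≤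
        20 * ((N ^ 2)⁻¹ * ((4 : ℝ) ^ m * (m : ℝ) ^ 2)⁻¹) := by
      have hmr : (1 : ℝ) ≤ m := by exact_mod_cast hm0
      have hl : (m : ℝ) * Real.log 2 ≤ Real.log (tau V x) := by
        rw [← Real.log_pow]
        exact Real.log_le_log (by positivity) hm1
      have hl2 : (0.69 : ℝ) ≤ Real.log 2 := by
        have := Real.log_two_gt_d9
        linarith
      have h1 : (2 : ℝ) ^ m * (m * 0.69) ≤ tau V x * Real.log (tau V x) := by
        refine mul_le_mul hm1 ?_ (by positivity) (by linarith)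
        refine le_trans ?_ hl
        exact mul_le_mul_of_nonneg_left hl2 (by positivity)
      have h2 : (4 : ℝ) ^ m * (m : ℝ) ^ 2 * 0.4761 ≤ (tau V x * Real.log (tau V x)) ^ 2 := by
        have h3 := pow_le_pow_left₀ (by positivity) h1 2
        have e : ((2 : ℝ) ^ m * (m * 0.69)) ^ 2 = (4 : ℝ) ^ m * (m : ℝ) ^ 2 * 0.4761 := by
          have : (4 : ℝ) ^ m = ((2 : ℝ) ^ m) ^ 2 := by
            rw [← pow_mul, mul_comm m 2, pow_mul]
            norm_num
          rw [this]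
          ring
        rw [← e]
        exact h3
      have hpos : 0 < (4 : ℝ) ^ m * (m : ℝ) ^ 2 := by positivity
      have h4 : ((tau V x * Real.log (tau V x)) ^ 2)⁻¹ ≤ ((4 : ℝ) ^ m * (m : ℝ) ^ 2 * 0.4761)⁻¹ :=
        inv_anti₀ (by positivity) h2
      have h5 : ((4 : ℝ) ^ m * (m : ℝ) ^ 2 * 0.4761)⁻¹ = ((4 : ℝ) ^ m * (m : ℝ) ^ 2)⁻¹ * (0.4761)⁻¹ := by
        rw [mul_inv]
      rw [h5] at h4
      have h6 : 0 ≤ (N ^ 2)⁻¹ := by positivity
      have h7 : 0 ≤ ((4 : ℝ) ^ m * (m : ℝ) ^ 2)⁻¹ := by positivity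
      have h8 : 8 * ((tau V x * Real.log (tau V x)) ^ 2)⁻¹ ≤ 20 * ((4 : ℝ) ^ m * (m : ℝ) ^ 2)⁻¹ := by
        have h9 : (8 : ℝ) * (0.4761)⁻¹ ≤ 20 := by norm_num
        nlinarith
      nlinarith [mul_le_mul_of_nonneg_left h8 h6]
    have hsum : (Cyl V (4 * R) (2 ^ (m + 1))).indicator
        (fun _ => 20 * ((N ^ 2)⁻¹ * ((4 : ℝ) ^ m * (m : ℝ) ^ 2)⁻¹)) x ≤
        ∑ m ∈ Finset.Icc 1 M, (Cyl V (4 * R) (2 ^ (m + 1))).indicator
          (fun _ => 20 * ((N ^ 2)⁻¹ * ((4 : ℝ) ^ m * (m : ℝ) ^ 2)⁻¹)) x :=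
      Finset.single_le_sum (f := fun m : ℕ => (Cyl V (4 * R) (2 ^ (m + 1))).indicator
        (fun _ => 20 * ((N ^ 2)⁻¹ * ((4 : ℝ) ^ m * (m : ℝ) ^ 2)⁻¹)) x)
        (fun m _ => hnn m) (Finset.mem_Icc.2 ⟨hm0, hmM⟩)
    rw [indicator_of_mem hxm] at hsum
    rw [indicator_of_mem hxM]
    linarith
  · rw [Wt, if_neg hx]
    exact add_nonneg hn1 (Finset.sum_nonneg fun m _ => hnn m)

/-- growth of the energy in the cylinders around `V` -/
def EG {d : ℕ} (V : Submodule ℝ (E d)) (s C₀ : ℝ) (R₀ : ℝ → ℝ) (u : E d → ℝ) : Prop :=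
  ∀ ρ R : ℝ, 1 ≤ ρ → R₀ ρ ≤ R →
    ∫⁻ x in Cyl V R ρ, en d s u x ≤ ENNReal.ofReal (C₀ * (R ^ Module.finrank ℝ V * (ρ ^ 2 * (1 + Real.log ρ))))

/-- MODULE kf. `Wt_dyad` and `EG` for the cylinders (`log (2 ^ m) ≤ m`). -/
theorem cost_sum {C₀ : ℝ} (hC₀ : 0 ≤ C₀) {R₀ : ℝ → ℝ} {u : E d → ℝ} (hu : Continuous u) (h : EG V s C₀ R₀ u)
    {R N : ℝ} (hR : 1 ≤ R) (hN : 1 ≤ N) {M : ℕ} (hM : Real.exp (Real.exp (2 * N)) + 3 ≤ 2 ^ M)
    (hR' : ∀ m : ℕ, m ≤ M + 1 → R₀ (2 ^ m) ≤ 4 * R) :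
    ∫⁻ x, ENNReal.ofReal (Wt V R N x) * en d s u x ≤
      ENNReal.ofReal (C₀ * ((4 * R) ^ Module.finrank ℝ V * (8 * (R ^ 2)⁻¹ * (4 ^ M * (1 + M)) +
        ∑ m ∈ Finset.Icc 1 M, 20 * ((N ^ 2)⁻¹ * ((4 : ℝ) ^ m * (m : ℝ) ^ 2)⁻¹) * (4 ^ (m + 1) * (2 + m))))) := by
  set k := Module.finrank ℝ V with hk
  have hR0 : 0 < R := by linarith
  have hN0 : 0 < N := by linarith
  have hlog2 : Real.log 2 ≤ 1 := by
    have := Real.log_two_lt_d9
    linarith
  have hEG : ∀ j : ℕ, j ≤ M + 1 → ∫⁻ x in Cyl V (4 * R) (2 ^ j), en d s u x ≤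
      ENNReal.ofReal (C₀ * ((4 * R) ^ k * (4 ^ j * (1 + j)))) := by
    intro j hj
    refine (h (2 ^ j) (4 * R) (one_le_pow₀ one_le_two) (hR' j hj)).trans (ENNReal.ofReal_le_ofReal ?_)
    refine mul_le_mul_of_nonneg_left ?_ hC₀
    refine mul_le_mul_of_nonneg_left ?_ (by positivity)
    have e : ((2 : ℝ) ^ j) ^ 2 = 4 ^ j := by
      rw [← pow_mul, mul_comm j 2, pow_mul]
      norm_num
    rw [e, Real.log_pow]
    refine mul_le_mul_of_nonneg_left ?_ (by positivity)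
    have : (j : ℝ) * Real.log 2 ≤ j * 1 := mul_le_mul_of_nonneg_left hlog2 (by positivity)
    linarith
  have hterm : ∀ (a : ℝ) (j : ℕ), 0 ≤ a → j ≤ M + 1 →
      ∫⁻ x, ENNReal.ofReal ((Cyl V (4 * R) (2 ^ j)).indicator (fun _ => a) x) * en d s u x ≤
      ENNReal.ofReal (a * (C₀ * ((4 * R) ^ k * (4 ^ j * (1 + j))))) := by
    intro a j ha hj
    have e : ∀ x, ENNReal.ofReal ((Cyl V (4 * R) (2 ^ j)).indicator (fun _ => a) x) * en d s u x =
        (Cyl V (4 * R) (2 ^ j)).indicator (fun x => ENNReal.ofReal a * en d s u x) x := by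
      intro x
      by_cases hx : x ∈ Cyl V (4 * R) (2 ^ j)
      · rw [indicator_of_mem hx, indicator_of_mem hx]
      · rw [indicator_of_notMem hx, indicator_of_notMem hx, ENNReal.ofReal_zero, zero_mul]
    simp_rw [e]
    rw [lintegral_indicator (cyl_meas _ _), lintegral_const_mul _ (en_meas hu), ENNReal.ofReal_mul ha]
    exact mul_le_mul_right (hEG j hj) _
  have hind : ∀ (a : ℝ) (j : ℕ), 0 ≤ a → Measurable (fun x => ENNReal.ofReal
      ((Cyl V (4 * R) (2 ^ j)).indicator (fun _ => a) x) * en d s u x) := by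
    intro a j ha
    exact (((measurable_const.indicator (cyl_meas _ _)).ennreal_ofReal)).mul (en_meas hu)
  calc ∫⁻ x, ENNReal.ofReal (Wt V R N x) * en d s u x
      ≤ ∫⁻ x, (ENNReal.ofReal ((Cyl V (4 * R) (2 ^ M)).indicator (fun _ => 8 * (R ^ 2)⁻¹) x) * en d s u x +
        ∑ m ∈ Finset.Icc 1 M, ENNReal.ofReal ((Cyl V (4 * R) (2 ^ (m + 1))).indicator
          (fun _ => 20 * ((N ^ 2)⁻¹ * ((4 : ℝ) ^ m * (m : ℝ) ^ 2)⁻¹)) x) * en d s u x) := by
        refine lintegral_mono fun x => ?_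
        rw [← Finset.sum_mul, ← add_mul]
        refine mul_le_mul_left ?_ _
        rw [← ENNReal.ofReal_sum_of_nonneg (fun m _ => indicator_nonneg (fun _ _ => by positivity) x),
          ← ENNReal.ofReal_add (indicator_nonneg (fun _ _ => by positivity) x)
            (Finset.sum_nonneg fun m _ => indicator_nonneg (fun _ _ => by positivity) x)]
        exact ENNReal.ofReal_le_ofReal (Wt_dyad hR0 hN0 hM x)
    _ = (∫⁻ x, ENNReal.ofReal ((Cyl V (4 * R) (2 ^ M)).indicator (fun _ => 8 * (R ^ 2)⁻¹) x) * en d s u x) +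
        ∑ m ∈ Finset.Icc 1 M, ∫⁻ x, ENNReal.ofReal ((Cyl V (4 * R) (2 ^ (m + 1))).indicator
          (fun _ => 20 * ((N ^ 2)⁻¹ * ((4 : ℝ) ^ m * (m : ℝ) ^ 2)⁻¹)) x) * en d s u x := by
        rw [lintegral_add_left (hind _ _ (by positivity)),
          lintegral_finset_sum _ (fun m _ => hind _ _ (by positivity))]
    _ ≤ ENNReal.ofReal (8 * (R ^ 2)⁻¹ * (C₀ * ((4 * R) ^ k * (4 ^ M * (1 + M))))) +
        ∑ m ∈ Finset.Icc 1 M, ENNReal.ofReal (20 * ((N ^ 2)⁻¹ * ((4 : ℝ) ^ m * (m : ℝ) ^ 2)⁻¹) *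
          (C₀ * ((4 * R) ^ k * (4 ^ (m + 1) * (1 + ((m + 1 : ℕ) : ℝ)))))) := by
        refine add_le_add (hterm (8 * (R ^ 2)⁻¹) M (by positivity) (by omega)) (Finset.sum_le_sum fun m hm => ?_)
        exact hterm (20 * ((N ^ 2)⁻¹ * ((4 : ℝ) ^ m * (m : ℝ) ^ 2)⁻¹)) (m + 1) (by positivity)
          (by have := (Finset.mem_Icc.1 hm).2; omega)
    _ = _ := by
        rw [← ENNReal.ofReal_sum_of_nonneg (fun m _ => by positivity),
          ← ENNReal.ofReal_add (by positivity) (Finset.sum_nonneg fun m _ => by positivity)]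
        congr 1
        symm
        rw [mul_add, mul_add, Finset.mul_sum, Finset.mul_sum]
        congr 1
        · ring
        · refine Finset.sum_congr rfl fun m _ => ?_
          push_cast
          ring

/-- MODULE kg. The sum over `m` is at most `240 (N ^ 2)⁻¹ ∑ 1 / m ≤ 240 (N ^ 2)⁻¹ (1 + log M)`; with `M = ⌈2 exp (2 N)⌉ + 3` (`2 ^ M ≥ exp (exp (2 N)) + 3`), `log M ≤ 2 N + 2`, this tends to `0` for `N → ∞`; then choose `R`. -/
theorem cost_num {C₀ ε : ℝ} (hC₀ : 0 ≤ C₀) (hε : 0 < ε) (N₀ : ℝ) (k : ℕ) : ∃ N : ℝ, 1 ≤ N ∧ N₀ ≤ N ∧ ∃ M : ℕ,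
    Real.exp (Real.exp (2 * N)) + 3 ≤ 2 ^ M ∧ ∃ R₁ : ℝ, 1 ≤ R₁ ∧ ∀ R : ℝ, R₁ ≤ R →
      C₀ * ((4 * R) ^ k * (8 * (R ^ 2)⁻¹ * (4 ^ M * (1 + M)) +
        ∑ m ∈ Finset.Icc 1 M, 20 * ((N ^ 2)⁻¹ * ((4 : ℝ) ^ m * (m : ℝ) ^ 2)⁻¹) * (4 ^ (m + 1) * (2 + m)))) ≤ ε * R ^ k := by
  set A : ℝ := C₀ * 4 ^ k with hA
  have hA0 : 0 ≤ A := by positivity
  -- choice of `N`
  obtain ⟨N, hN1, hNN, hNe⟩ : ∃ N : ℝ, 1 ≤ N ∧ N₀ ≤ N ∧ A * (1200 / N) ≤ ε / 2 := by
    refine ⟨max (max 1 N₀) (2400 * A / ε), (le_max_left _ _).trans (le_max_left _ _),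
      (le_max_right _ _).trans (le_max_left _ _), ?_⟩
    set N : ℝ := max (max 1 N₀) (2400 * A / ε)
    have hN1 : 1 ≤ N := (le_max_left _ _).trans (le_max_left _ _)
    have hN0 : 0 < N := by linarith
    have h1 : 2400 * A / ε ≤ N := le_max_right _ _
    rw [div_le_iff₀ hε] at h1
    rw [← mul_div_assoc, div_le_iff₀ hN0]
    linarith
  have hN0 : 0 < N := by linarith
  set X : ℝ := Real.exp (2 * N) with hX
  have hX1 : 1 ≤ X := Real.one_le_exp (by linarith)
  set M : ℕ := ⌈2 * X⌉₊ + 2 with hM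
  have hMX : (M : ℝ) ≤ 5 * X := by
    have h1 := Nat.ceil_lt_add_one (by linarith : 0 ≤ 2 * X)
    rw [hM]
    push_cast
    linarith
  have hM1 : 1 ≤ M := by omega
  have hM0 : (0 : ℝ) < M := by exact_mod_cast hM1
  have hlogM : Real.log M ≤ 2 * N + 2 := by
    have h1 : Real.log M ≤ Real.log (5 * X) := Real.log_le_log hM0 hMX
    rw [Real.log_mul (by norm_num) (by positivity), hX, Real.log_exp] at h1
    have h2 : Real.log 5 ≤ 2 := by
      rw [Real.log_le_iff_le_exp (by norm_num)]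
      have h3 : Real.exp 2 = Real.exp 1 * Real.exp 1 := by
        rw [← Real.exp_add]
        norm_num
      have h4 := Real.exp_one_gt_d9
      rw [h3]
      nlinarith
    linarith
  have hpow : Real.exp X + 3 ≤ 2 ^ M := by
    have h1 : Real.exp X ≤ (2 : ℝ) ^ ⌈2 * X⌉₊ := by
      have h2 : (2 : ℝ) ^ ⌈2 * X⌉₊ = Real.exp (⌈2 * X⌉₊ * Real.log 2) := by
        rw [← Real.log_pow, Real.exp_log (by positivity)]
      rw [h2]
      apply Real.exp_le_exp.2
      have h3 := Nat.le_ceil (2 * X)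
      have h4 := Real.log_two_gt_d9
      nlinarith
    have h5 : (1 : ℝ) ≤ Real.exp X := Real.one_le_exp (by linarith)
    rw [hM, pow_add]
    linarith
  refine ⟨N, hN1, hNN, M, hpow, ?_⟩
  set B : ℝ := A * (8 * (4 ^ M * (1 + M))) with hB
  have hB0 : 0 ≤ B := by positivity
  refine ⟨max 1 (2 * B / ε), le_max_left _ _, fun R hR => ?_⟩
  have hR1 : 1 ≤ R := (le_max_left _ _).trans hR
  have hR0 : 0 < R := by linarith
  have hS : ∑ m ∈ Finset.Icc 1 M, 20 * ((N ^ 2)⁻¹ * ((4 : ℝ) ^ m * (m : ℝ) ^ 2)⁻¹) * (4 ^ (m + 1) * (2 + m)) ≤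
      1200 / N := by
    have h1 : ∀ m ∈ Finset.Icc 1 M, 20 * ((N ^ 2)⁻¹ * ((4 : ℝ) ^ m * (m : ℝ) ^ 2)⁻¹) * (4 ^ (m + 1) * (2 + m)) ≤
        240 * (N ^ 2)⁻¹ * (m : ℝ)⁻¹ := by
      intro m hm
      have hm1 : (1 : ℝ) ≤ m := by exact_mod_cast (Finset.mem_Icc.1 hm).1
      have hm0 : (0 : ℝ) < m := by linarith
      have e : 20 * ((N ^ 2)⁻¹ * ((4 : ℝ) ^ m * (m : ℝ) ^ 2)⁻¹) * (4 ^ (m + 1) * (2 + m)) =
          80 * (N ^ 2)⁻¹ * ((2 + m) * ((m : ℝ) ^ 2)⁻¹) := by
        rw [mul_inv, pow_succ]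
        have h4 : (4 : ℝ) ^ m ≠ 0 := by positivity
        field_simp
        try ring
      rw [e]
      have h2 : (2 + m) * ((m : ℝ) ^ 2)⁻¹ ≤ 3 * (m : ℝ)⁻¹ := by
        rw [← div_eq_mul_inv, ← div_eq_mul_inv, div_le_div_iff₀ (by positivity) hm0]
        nlinarith
      have h3 : 0 ≤ 80 * (N ^ 2)⁻¹ := by positivity
      nlinarith [mul_le_mul_of_nonneg_left h2 h3]
    refine (Finset.sum_le_sum h1).trans ?_
    rw [← Finset.mul_sum]
    have h5 : ∑ m ∈ Finset.Icc 1 M, (m : ℝ)⁻¹ ≤ 1 + Real.log M := by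
      have h6 := harmonic_le_one_add_log M
      rw [harmonic_eq_sum_Icc] at h6
      push_cast at h6
      exact h6
    have h7 : ∑ m ∈ Finset.Icc 1 M, (m : ℝ)⁻¹ ≤ 5 * N := by linarith
    calc 240 * (N ^ 2)⁻¹ * ∑ m ∈ Finset.Icc 1 M, (m : ℝ)⁻¹ ≤ 240 * (N ^ 2)⁻¹ * (5 * N) :=
          mul_le_mul_of_nonneg_left h7 (by positivity)
      _ = 1200 / N := by
          field_simp
          try norm_num
  have hfirst : A * (8 * (R ^ 2)⁻¹ * (4 ^ M * (1 + M))) ≤ ε / 2 := by
    have e : A * (8 * (R ^ 2)⁻¹ * (4 ^ M * (1 + M))) = B * (R ^ 2)⁻¹ := by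
      rw [hB]
      ring
    rw [e, ← div_eq_mul_inv, div_le_iff₀ (by positivity)]
    have h1 : 2 * B / ε ≤ R := (le_max_right _ _).trans hR
    rw [div_le_iff₀ hε] at h1
    have h2 : R ≤ R ^ 2 := by nlinarith
    nlinarith
  have hRk : (0 : ℝ) < R ^ k := by positivity
  calc C₀ * ((4 * R) ^ k * (8 * (R ^ 2)⁻¹ * (4 ^ M * (1 + M)) +
        ∑ m ∈ Finset.Icc 1 M, 20 * ((N ^ 2)⁻¹ * ((4 : ℝ) ^ m * (m : ℝ) ^ 2)⁻¹) * (4 ^ (m + 1) * (2 + m))))
      = (A * (8 * (R ^ 2)⁻¹ * (4 ^ M * (1 + M))) + A *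
        ∑ m ∈ Finset.Icc 1 M, 20 * ((N ^ 2)⁻¹ * ((4 : ℝ) ^ m * (m : ℝ) ^ 2)⁻¹) * (4 ^ (m + 1) * (2 + m))) * R ^ k := by
        rw [mul_pow, hA]
        ring
    _ ≤ (ε / 2 + ε / 2) * R ^ k := by
        refine mul_le_mul_of_nonneg_right (add_le_add hfirst ?_) hRk.le
        exact (mul_le_mul_of_nonneg_left hS hA0).trans hNe
    _ = ε * R ^ k := by ring

/-- MODULE kh. -/
theorem chi_one {L R N : ℝ} (hL : 1 ≤ L) (hR : 2 * L ≤ R) (hN : 1 ≤ N) (hN' : Real.log (Real.log (3 + 2 * L)) ≤ N)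
    {p : E d} (hp : p ∈ V) (hpR : ‖p‖ ≤ R) {x : E d} (hx : x ∈ Metric.ball p (2 * L)) : chi V R N x = 1 := by
  have hR0 : 0 < R := by linarith
  have hN0 : 0 < N := by linarith
  rw [Metric.mem_ball, dist_eq_norm] at hx
  have hPp : V.starProjection p = p := Submodule.starProjection_eq_self_iff.2 hp
  have hpr := proj_le (V := V) x p
  rw [hPp, sub_self, sub_zero] at hpr
  have h1 : ‖V.starProjection x‖ ≤ 2 * R := by
    have h2 := norm_sub_norm_le (V.starProjection x) p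
    linarith [hpr.1]
  have h3 : tau V x ≤ 3 + 2 * L := by
    unfold tau
    linarith [hpr.2]
  have h4 : Real.log (Real.log (tau V x)) ≤ N := by
    refine le_trans ?_ hN'
    have h5 := kc_log (kd_tau_ge (V := V) x)
    exact Real.log_le_log (by linarith) (Real.log_le_log (kd_tau_pos x) h3)
  unfold chi
  rw [kd_clp1, kd_clp1, min_self]
  · have h6 : Real.log (Real.log (tau V x)) / N ≤ 1 := (div_le_one hN0).2 h4
    linarith
  · have h6 : ‖V.starProjection x‖ / R ≤ 2 := (div_le_iff₀ hR0).2 h1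
    linarith

/-- MODULE ki. `gain` with the cutoff `chi`, `cost_sum`, `cost_num` for every dimension `k ≤ d` of `V` (`R₁` = the maximum; also `4 R ≥ R₀ (2 ^ m)` for `m ≤ M + 1`). -/
theorem gain_small (hd : 1 ≤ d) (hs0 : 0 < s) (hs1 : s < 1) {C₀ : ℝ} (hC₀ : 0 ≤ C₀) (R₀ : ℝ → ℝ) {L : ℝ} (hL : 1 ≤ L)
    {ε : ℝ} (hε : 0 < ε) : ∃ R₁ : ℝ, 1 ≤ R₁ ∧ ∀ c : ℝ, 0 < c → ∀ u : E d → ℝ, Entire d s c u → Stable d s c u →
      ∀ V : Submodule ℝ (E d), EG V s C₀ R₀ u → ∀ R : ℝ, R₁ ≤ R → ∀ P : Finset (E d), Sep P →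
        (∀ p ∈ P, p ∈ V ∧ ‖p‖ ≤ R) → ∑ p ∈ P, G L u p ≤ ENNReal.ofReal (ε * R ^ Module.finrank ℝ V) := by
  obtain ⟨C1, hC1, h1⟩ := gain (d := d) (s := s) hd hs0 hs1 hL
  have hε' : 0 < ε / (C1 + 1) := by positivity
  choose N hN1 hN0 M hM R1 hR1 hcost using
    fun k : ℕ => cost_num (C₀ := C₀) hC₀ hε' (Real.log (Real.log (3 + 2 * L))) k
  set F : ℕ → ℝ := fun k => R1 k + 2 * L + ∑ m ∈ Finset.range (M k + 2), |R₀ (2 ^ m)| with hF
  have hF0 : ∀ k, 0 ≤ F k := by
    intro k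
    have h2 : 0 ≤ ∑ m ∈ Finset.range (M k + 2), |R₀ (2 ^ m)| := Finset.sum_nonneg fun _ _ => abs_nonneg _
    have h3 := hR1 k
    simp only [hF]
    linarith
  refine ⟨1 + ∑ k ∈ Finset.range (d + 1), F k, ?_, fun c hc u hu hst V hEG R hR P hP hPV => ?_⟩
  · have := Finset.sum_nonneg (s := Finset.range (d + 1)) (f := F) fun k _ => hF0 k
    linarith
  have hk : Module.finrank ℝ V ≤ d := by
    have := Submodule.finrank_le V
    rwa [finrank_euclideanSpace_fin] at this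
  obtain ⟨k, hkV⟩ : ∃ k, k = Module.finrank ℝ V := ⟨_, rfl⟩
  rw [← hkV] at hk
  have hFk : F k ≤ R := by
    have h2 : F k ≤ ∑ k ∈ Finset.range (d + 1), F k :=
      Finset.single_le_sum (f := F) (fun k _ => hF0 k) (Finset.mem_range.2 (by omega))
    linarith
  have hsum0 : 0 ≤ ∑ m ∈ Finset.range (M k + 2), |R₀ (2 ^ m)| := Finset.sum_nonneg fun _ _ => abs_nonneg _
  have hR1k : R1 k ≤ R := by
    simp only [hF] at hFk
    linarith
  have h2L : 2 * L ≤ R := by
    simp only [hF] at hFk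
    linarith [hR1 k]
  have hRge : 1 ≤ R := by linarith
  have hR' : ∀ m : ℕ, m ≤ M k + 1 → R₀ (2 ^ m) ≤ 4 * R := by
    intro m hm
    have h3 : |R₀ (2 ^ m)| ≤ ∑ m ∈ Finset.range (M k + 2), |R₀ (2 ^ m)| :=
      Finset.single_le_sum (f := fun m : ℕ => |R₀ (2 ^ m)|) (fun _ _ => abs_nonneg _) (Finset.mem_range.2 (by omega))
    have h4 := le_abs_self (R₀ (2 ^ m))
    simp only [hF] at hFk
    linarith [hR1 k]
  have hcs := cost_sum hC₀ hu.smooth.continuous hEG hRge (hN1 k) (hM k) hR'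
  rw [← hkV] at hcs ⊢
  have hcs2 := hcs.trans (ENNReal.ofReal_le_ofReal (hcost k R hR1k))
  have hone : ∀ p ∈ P, ∀ x ∈ Metric.ball p (2 * L), chi V R (N k) x = 1 := fun p hp x hx =>
    chi_one hL h2L (hN1 k) (hN0 k) (hPV p hp).1 (hPV p hp).2 hx
  have h5 := h1 c hc u hu hst _ _ (cut_chi (V := V) hRge (hN1 k)) P hP hone
  calc ∑ p ∈ P, G L u p ≤ ENNReal.ofReal C1 * ∫⁻ x, ENNReal.ofReal (Wt V R (N k) x) * en d s u x := h5
    _ ≤ ENNReal.ofReal C1 * ENNReal.ofReal (ε / (C1 + 1) * R ^ k) := by gcongr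
    _ = ENNReal.ofReal (C1 * (ε / (C1 + 1) * R ^ k)) := (ENNReal.ofReal_mul hC1).symm
    _ ≤ ENNReal.ofReal (ε * R ^ k) := by
        apply ENNReal.ofReal_le_ofReal
        have h6 : C1 / (C1 + 1) ≤ 1 := by
          rw [div_le_one (by linarith)]
          linarith
        have h7 : 0 ≤ ε * R ^ k := by positivity
        calc C1 * (ε / (C1 + 1) * R ^ k) = C1 / (C1 + 1) * (ε * R ^ k) := by ring
          _ ≤ 1 * (ε * R ^ k) := by gcongr
          _ = ε * R ^ k := one_mul _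

/-- MODULE kj. `en_bd` and `cyl_vol`. -/
theorem eg_two (hd : 1 ≤ d) (hs0 : 0 < s) (hs1 : s < 1) (hc : 0 < c) : ∃ C₀ : ℝ, 0 ≤ C₀ ∧ ∀ u : E d → ℝ, Entire d s c u →
    ∀ V : Submodule ℝ (E d), d ≤ Module.finrank ℝ V + 2 → EG V s C₀ (fun _ => 1) u := by
  obtain ⟨C, hC, h1⟩ := en_bd hd hs0 hs1 hc
  obtain ⟨C', hC', h2⟩ := cyl_vol d
  refine ⟨C * C', by positivity, fun u hu V hV ρ R hρ hR => ?_⟩
  have hR1 : (1 : ℝ) ≤ R := hR
  have hR0 : 0 < R := by linarith
  have hρ0 : 0 < ρ := by linarith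
  calc ∫⁻ x in Cyl V R ρ, en d s u x ≤ ∫⁻ _ in Cyl V R ρ, ENNReal.ofReal C := lintegral_mono fun x => h1 u hu x
    _ = ENNReal.ofReal C * volume (Cyl V R ρ) := by rw [setLIntegral_const]
    _ ≤ ENNReal.ofReal C * ENNReal.ofReal (C' * (R ^ Module.finrank ℝ V * ρ ^ (d - Module.finrank ℝ V))) := by
        gcongr
        exact h2 V R ρ hR0 hρ0
    _ = ENNReal.ofReal (C * (C' * (R ^ Module.finrank ℝ V * ρ ^ (d - Module.finrank ℝ V)))) :=
        (ENNReal.ofReal_mul hC).symm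
    _ ≤ ENNReal.ofReal (C * C' * (R ^ Module.finrank ℝ V * (ρ ^ 2 * (1 + Real.log ρ)))) := by
        apply ENNReal.ofReal_le_ofReal
        rw [mul_assoc]
        have h3 : ρ ^ (d - Module.finrank ℝ V) ≤ ρ ^ 2 := pow_le_pow_right₀ hρ (by omega)
        have h4 : 0 ≤ Real.log ρ := Real.log_nonneg hρ
        have h5 : ρ ^ 2 ≤ ρ ^ 2 * (1 + Real.log ρ) := by nlinarith [sq_nonneg ρ]
        have h6 := h3.trans h5
        gcongr

private theorem kk_clp (a b : ℝ) : |clp a - clp b| ≤ |a - b| := by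
  have h1 : |max 0 (min 1 a) - max 0 (min 1 b)| ≤ max |(0:ℝ) - 0| |min 1 a - min 1 b| :=
    abs_max_sub_max_le_max 0 (min 1 a) 0 (min 1 b)
  have h2 : |min 1 a - min 1 b| ≤ max |(1:ℝ) - 1| |a - b| := abs_min_sub_min_le_max 1 a 1 b
  have h3 : max |(0:ℝ) - 0| |min 1 a - min 1 b| = |min 1 a - min 1 b| := by
    rw [sub_self, abs_zero]
    exact max_eq_right (abs_nonneg _)
  have h4 : max |(1:ℝ) - 1| |a - b| = |a - b| := by
    rw [sub_self, abs_zero]
    exact max_eq_right (abs_nonneg _)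
  rw [h3] at h1
  rw [h4] at h2
  exact h1.trans h2

private theorem kk_nonneg (a : ℝ) : 0 ≤ clp a := le_max_left _ _

private theorem kk_zero {a : ℝ} (h : a ≤ 0) : clp a = 0 := by
  unfold clp
  exact max_eq_left ((min_le_right _ _).trans h)

private theorem kk_diff {R : ℝ} (hR : 1 ≤ R) (x y : E d) :
    |clp (2 - ‖x‖ / R) - clp (2 - ‖y‖ / R)| ≤ ‖x - y‖ / R := by
  refine (kk_clp _ _).trans ?_
  have hR0 : 0 < R := by linarith
  have e : 2 - ‖x‖ / R - (2 - ‖y‖ / R) = (‖y‖ - ‖x‖) / R := by ring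
  rw [e, abs_div, abs_of_pos hR0]
  refine div_le_div_of_nonneg_right ?_ hR0.le
  rw [norm_sub_rev]
  exact abs_norm_sub_norm_le y x

private theorem kk_sq {R : ℝ} (hR : 1 ≤ R) (x y : E d) :
    (clp (2 - ‖x‖ / R) - clp (2 - ‖y‖ / R)) ^ 2 ≤ ‖x - y‖ ^ 2 * (R ^ 2)⁻¹ := by
  have h := kk_diff hR x y
  have h2 := pow_le_pow_left₀ (abs_nonneg _) h 2
  rw [sq_abs, div_pow] at h2
  exact h2.trans (le_of_eq (div_eq_mul_inv _ _))

private theorem kk_out {R : ℝ} (hR : 1 ≤ R) {x : E d} (hx : 2 * R ≤ ‖x‖) : clp (2 - ‖x‖ / R) = 0 := by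
  apply kk_zero
  have hR0 : 0 < R := by linarith
  have : 2 ≤ ‖x‖ / R := by rwa [le_div_iff₀ hR0]
  linarith

/-- MODULE kk. The cutoff of the balls. -/
theorem cut_ball {R : ℝ} (hR : 1 ≤ R) : Cut (fun x : E d => clp (2 - ‖x‖ / R))
    (fun x : E d => if ‖x‖ ≤ 2 * R + 1 then (R ^ 2)⁻¹ else 0) := by
  have hR0 : 0 < R := by linarith
  have hi0 : 0 ≤ (R ^ 2)⁻¹ := by positivity
  refine ⟨⟨⟨1, ?_⟩, ?_⟩, fun x => kk_nonneg _, fun x => ?_, ?_, ⟨2 * R + 1, (R ^ 2)⁻¹, ?_, ?_⟩, ?_, ?_⟩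
  · refine LipschitzWith.of_dist_le_mul fun x y => ?_
    rw [Real.dist_eq, dist_eq_norm, NNReal.coe_one, one_mul]
    refine (kk_diff hR x y).trans ?_
    exact div_le_self (norm_nonneg _) hR
  · refine HasCompactSupport.intro (isCompact_closedBall (0 : E d) (2 * R)) fun x hx => ?_
    rw [Metric.mem_closedBall, dist_zero_right, not_le] at hx
    exact kk_out hR hx.le
  · split_ifs
    · exact hi0
    · exact le_rfl
  · exact Measurable.ite (measurableSet_le measurable_norm measurable_const) measurable_const measurable_const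
  · intro x hx
    rw [if_neg (not_le.2 hx)]
  · intro x
    split_ifs
    · exact le_rfl
    · exact hi0
  · intro x y
    by_cases hx : ‖x‖ ≤ 2 * R + 1
    · rw [if_pos hx]
      refine (kk_sq hR x y).trans (mul_le_mul_of_nonneg_left ?_ (sq_nonneg _))
      split_ifs
      · linarith
      · linarith
    · rw [if_neg hx, zero_add]
      by_cases hy : ‖y‖ ≤ 2 * R + 1
      · rw [if_pos hy]
        exact kk_sq hR x y
      · rw [if_neg hy, kk_out hR (by linarith [not_le.1 hx]), kk_out hR (by linarith [not_le.1 hy])]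
        simp
  · intro x v hv
    by_cases hx : ‖x‖ ≤ 2 * R + 1
    · rw [if_pos hx]
      have h := kk_sq hR (x + v) x
      rwa [add_sub_cancel_left] at h
    · rw [if_neg hx]
      have h1 : ‖x‖ ≤ ‖x + v‖ + ‖v‖ := by
        have := norm_sub_le (x + v) v
        rwa [add_sub_cancel_right] at this
      rw [kk_out hR (by linarith [not_le.1 hx]), kk_out hR (by linarith [not_le.1 hx])]
      simp

/-- MODULE kl. `gain` with `cut_ball` for the radius `R + 2 L`, `en_bd`. -/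
theorem gain_ball (hd : 1 ≤ d) (hs0 : 0 < s) (hs1 : s < 1) (hc : 0 < c) {L : ℝ} (hL : 1 ≤ L) : ∃ C : ℝ, 0 ≤ C ∧
    ∀ u : E d → ℝ, Entire d s c u → Stable d s c u → ∀ R : ℝ, 1 ≤ R → ∀ P : Finset (E d), Sep P → (∀ p ∈ P, ‖p‖ ≤ R) →
      ENNReal.ofReal (R ^ 2) * ∑ p ∈ P, G L u p ≤ ENNReal.ofReal (C * R ^ d) := by
  obtain ⟨C1, hC1, h1⟩ := gain (d := d) (s := s) hd hs0 hs1 hL
  obtain ⟨C2, hC2, h2⟩ := en_bd (d := d) hd hs0 hs1 hc
  have hVfin : volume (Metric.ball (0 : E d) 1) ≠ ⊤ := measure_ball_lt_top.ne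
  obtain ⟨V1, hV0, hV1⟩ : ∃ V1 : ℝ, 0 ≤ V1 ∧ volume (Metric.ball (0 : E d) 1) = ENNReal.ofReal V1 :=
    ⟨_, ENNReal.toReal_nonneg, (ENNReal.ofReal_toReal hVfin).symm⟩
  refine ⟨C1 * C2 * ((4 * L + 3) ^ d * V1), by positivity, fun u hu hst R hR P hP hPR => ?_⟩
  have hR' : 1 ≤ R + 2 * L := by linarith
  have hR0 : 0 < R + 2 * L := by linarith
  have hone : ∀ p ∈ P, ∀ x ∈ Metric.ball p (2 * L), clp (2 - ‖x‖ / (R + 2 * L)) = 1 := by
    intro p hp x hx
    have h3 : ‖x‖ ≤ R + 2 * L := by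
      rw [Metric.mem_ball, dist_eq_norm] at hx
      have := norm_sub_norm_le x p
      linarith [hPR p hp]
    have h4 : ‖x‖ / (R + 2 * L) ≤ 1 := by
      rw [div_le_one hR0]
      exact h3
    unfold clp
    rw [min_eq_left (by linarith), max_eq_right (by norm_num)]
  have h3 := h1 c hc u hu hst _ _ (cut_ball hR') P hP hone
  have h4 : ∫⁻ x : E d, ENNReal.ofReal (if ‖x‖ ≤ 2 * (R + 2 * L) + 1 then ((R + 2 * L) ^ 2)⁻¹ else 0) * en d s u x ≤
      ENNReal.ofReal (((R + 2 * L) ^ 2)⁻¹ * C2 * ((2 * (R + 2 * L) + 1) ^ d * V1)) := by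
    calc ∫⁻ x : E d, ENNReal.ofReal (if ‖x‖ ≤ 2 * (R + 2 * L) + 1 then ((R + 2 * L) ^ 2)⁻¹ else 0) * en d s u x
        ≤ ∫⁻ x : E d, (Metric.closedBall (0 : E d) (2 * (R + 2 * L) + 1)).indicator
            (fun _ => ENNReal.ofReal (((R + 2 * L) ^ 2)⁻¹ * C2)) x := by
          apply lintegral_mono
          intro x
          by_cases hx : ‖x‖ ≤ 2 * (R + 2 * L) + 1
          · have hx' : x ∈ Metric.closedBall (0 : E d) (2 * (R + 2 * L) + 1) := by
              rwa [Metric.mem_closedBall, dist_zero_right]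
            rw [indicator_of_mem hx']
            simp only [if_pos hx]
            rw [ENNReal.ofReal_mul (by positivity)]
            gcongr
            exact h2 u hu x
          · simp only [if_neg hx]
            simp
      _ = ENNReal.ofReal (((R + 2 * L) ^ 2)⁻¹ * C2) * volume (Metric.closedBall (0 : E d) (2 * (R + 2 * L) + 1)) :=
          lintegral_indicator_const measurableSet_closedBall _
      _ = ENNReal.ofReal (((R + 2 * L) ^ 2)⁻¹ * C2 * ((2 * (R + 2 * L) + 1) ^ d * V1)) := by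
          rw [Measure.addHaar_closedBall _ _ (by linarith : 0 ≤ 2 * (R + 2 * L) + 1), finrank_euclideanSpace_fin, hV1,
            ← ENNReal.ofReal_mul (by positivity), ← ENNReal.ofReal_mul (by positivity)]
  calc ENNReal.ofReal (R ^ 2) * ∑ p ∈ P, G L u p
      ≤ ENNReal.ofReal (R ^ 2) * (ENNReal.ofReal C1 *
          ENNReal.ofReal (((R + 2 * L) ^ 2)⁻¹ * C2 * ((2 * (R + 2 * L) + 1) ^ d * V1))) := by
        gcongr
        exact h3.trans (by gcongr)
    _ = ENNReal.ofReal (R ^ 2 * (C1 * (((R + 2 * L) ^ 2)⁻¹ * C2 * ((2 * (R + 2 * L) + 1) ^ d * V1)))) := by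
        rw [← ENNReal.ofReal_mul hC1, ← ENNReal.ofReal_mul (sq_nonneg R)]
    _ ≤ ENNReal.ofReal (C1 * C2 * ((4 * L + 3) ^ d * V1) * R ^ d) := by
        apply ENNReal.ofReal_le_ofReal
        have e1 : R ^ 2 * ((R + 2 * L) ^ 2)⁻¹ ≤ 1 := by
          rw [← div_eq_mul_inv, div_le_one (by positivity)]
          exact pow_le_pow_left₀ (by linarith) (by linarith) 2
        have e2 : (2 * (R + 2 * L) + 1) ^ d ≤ (4 * L + 3) ^ d * R ^ d := by
          rw [← mul_pow]
          apply pow_le_pow_left₀ (by linarith)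
          nlinarith
        calc R ^ 2 * (C1 * (((R + 2 * L) ^ 2)⁻¹ * C2 * ((2 * (R + 2 * L) + 1) ^ d * V1)))
            = (R ^ 2 * ((R + 2 * L) ^ 2)⁻¹) * (C1 * C2 * ((2 * (R + 2 * L) + 1) ^ d * V1)) := by ring
          _ ≤ 1 * (C1 * C2 * (((4 * L + 3) ^ d * R ^ d) * V1)) := by gcongr
          _ = C1 * C2 * ((4 * L + 3) ^ d * V1) * R ^ d := by ring

end NDG
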