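import Mathlib

/-!
# The fractional Allen-Cahn equation in `ℝ^d`: definitions
-/

open MeasureTheory Filter Topology Set

noncomputable section

namespace NDG

/-- the space `ℝ^d` -/
abbrev E (d : ℕ) : Type := EuclideanSpace ℝ (Fin d)

/-- the kernel `|z| ^ (-(d + 2 s))` -/
def K (d : ℕ) (s : ℝ) (z : E d) : ℝ := ‖z‖ ^ (-((d : ℝ) + 2 * s))

/-- `c * ∫_{|x - y| > ε} (u x - u y) |x - y| ^ (-(d + 2 s)) dy`; its limit for `ε → 0` is the fractional Laplacian -/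
def trunc (d : ℕ) (s c : ℝ) (u : E d → ℝ) (ε : ℝ) (x : E d) : ℝ :=
  c * ∫ y in {y | ε < ‖x - y‖}, (u x - u y) * K d s (x - y)

/-- `u` is an entire solution of `(-Δ) ^ s u = u - u ^ 3`, `|u| < 1`; `c` is the normalising constant of the fractional Laplacian -/
structure Entire (d : ℕ) (s c : ℝ) (u : E d → ℝ) : Prop where
  smooth : ContDiff ℝ 2 u
  bound : ∀ x, |u x| < 1
  eq : ∀ x, Tendsto (fun ε => trunc d s c u ε x) (𝓝[>] 0) (𝓝 (u x - u x ^ 3))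

/-- `u x = g (a · x)` with a unit vector `a` -/
def OneDim {d : ℕ} (u : E d → ℝ) : Prop := ∃ a : E d, ‖a‖ = 1 ∧ ∃ g : ℝ → ℝ, ∀ x, u x = g (inner ℝ a x)

/-- `u` returns along `V`: for all `L` and `ε` the returns `p ∈ V`, `|u (x + p) - u x| ≤ ε` for `|x| ≤ L`, have positive upper density: for some `b > 0` and arbitrarily large `R` there are at least
`b R ^ k` returns, `k = dim V`, with mutual distances at least `1` in a ball of radius `R` of `V` -/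
def Returns {d : ℕ} (u : E d → ℝ) (V : Submodule ℝ (E d)) : Prop :=
  ∀ L ε : ℝ, 0 < ε → ∃ b : ℝ, 0 < b ∧ ∀ R₀ : ℝ, ∃ R : ℝ, R₀ ≤ R ∧ ∃ q ∈ V, ∃ P : Finset (E d),
    (∀ p ∈ P, p ∈ V ∧ ‖p - q‖ ≤ R ∧ ∀ x, ‖x‖ ≤ L → |u (x + p) - u x| ≤ ε) ∧
    (∀ p ∈ P, ∀ p' ∈ P, p ≠ p' → 1 ≤ ‖p - p'‖) ∧ b * R ^ Module.finrank ℝ V ≤ P.card

/-- test functions: Lipschitz with compact support -/
structure Test {d : ℕ} (ψ : E d → ℝ) : Prop where
  lip : ∃ L : NNReal, LipschitzWith L ψ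
  supp : HasCompactSupport ψ

/-- `u` is stable: the second variation of the energy at `u` is nonnegative on all test functions,
`∫ (1 - 3 u ^ 2) ψ ^ 2 ≤ (c / 2) ∫∫ (ψ x - ψ y) ^ 2 |x - y| ^ (-(d + 2 s))` -/
def Stable (d : ℕ) (s c : ℝ) (u : E d → ℝ) : Prop := ∀ ψ : E d → ℝ, Test ψ →
  ∫ x, (1 - 3 * u x ^ 2) * ψ x ^ 2 ≤ c / 2 * ∫ p : E d × E d, (ψ p.1 - ψ p.2) ^ 2 * K d s (p.1 - p.2)

/-- `u` is `δ`-close in the ball `B_L(p)` to a monotone function of one variable -/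
def Near {d : ℕ} (u : E d → ℝ) (p : E d) (L δ : ℝ) : Prop :=
  ∃ a : E d, ‖a‖ = 1 ∧ ∃ g : ℝ → ℝ, Monotone g ∧ ∀ x, ‖x‖ ≤ L → |u (p + x) - g (inner ℝ a x)| ≤ δ

/-- mutual distances at least `1` -/
def Sep {d : ℕ} (P : Finset (E d)) : Prop := ∀ p ∈ P, ∀ p' ∈ P, p ≠ p' → 1 ≤ ‖p - p'‖

end NDG
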