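import Pool.Agent.NDG.Ker

/-! # Radial integrals of the kernel -/

open MeasureTheory Filter Topology Set

noncomputable section

namespace NDG

/-- Radial integrals against the kernel (`integrable_fun_norm_addHaar`, `integral_fun_norm_addHaar`):
`∫ φ(|h|) ker h dh = C_d ∫_0^∞ φ(r) r^(-1-2s) dr` with `C_d = d · vol(ball 0 1)`. -/
theorem K_radial {d : ℕ} (hd : 1 ≤ d) (s : ℝ) :
    ∃ C : ℝ, 0 < C ∧ ∀ f : ℝ → ℝ,
      (Integrable (fun h : E d => f ‖h‖ * K d s h) ↔ IntegrableOn (fun r : ℝ => f r * r ^ (-1 - 2 * s)) (Ioi 0)) ∧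
      ∫ h : E d, f ‖h‖ * K d s h = C * ∫ r in Ioi (0 : ℝ), f r * r ^ (-1 - 2 * s) := by
  haveI : Nontrivial (E d) := by
    haveI : Nonempty (Fin d) := ⟨⟨0, by omega⟩⟩
    infer_instance
  have hdim : Module.finrank ℝ (E d) = d := by simp [E]
  refine ⟨d * (volume : Measure (E d)).real (Metric.ball 0 1), ?_, ?_⟩
  · have h1 : 0 < (volume : Measure (E d)).real (Metric.ball 0 1) := by
      rw [Measure.real, ENNReal.toReal_pos_iff]
      exact ⟨Metric.measure_ball_pos _ _ (by norm_num), measure_ball_lt_top⟩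
    have h2 : (0:ℝ) < d := by exact_mod_cast hd
    positivity
  · intro f
    have hF : (fun h : E d => f ‖h‖ * K d s h) =
        (fun h : E d => (fun r : ℝ => f r * r ^ (-((d : ℝ) + 2 * s))) ‖h‖) := by
      funext h
      rfl
    have hG : Set.EqOn (fun y : ℝ => y ^ (Module.finrank ℝ (E d) - 1) •
        (fun r : ℝ => f r * r ^ (-((d : ℝ) + 2 * s))) y) (fun r : ℝ => f r * r ^ (-1 - 2 * s)) (Ioi 0) := by
      intro r hr
      have hr' : 0 < r := hr
      show r ^ (Module.finrank ℝ (E d) - 1) • (f r * r ^ (-((d : ℝ) + 2 * s))) = f r * r ^ (-1 - 2 * s)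
      rw [hdim, smul_eq_mul, ← Real.rpow_natCast r (d - 1), mul_left_comm, ← Real.rpow_add hr']
      congr 2
      rw [Nat.cast_sub hd]
      push_cast
      ring
    constructor
    · rw [hF]
      refine (integrable_fun_norm_addHaar (volume : Measure (E d))
        (f := fun r : ℝ => f r * r ^ (-((d : ℝ) + 2 * s)))).trans ?_
      exact integrableOn_congr_fun hG measurableSet_Ioi
    · rw [hF]
      refine (integral_fun_norm_addHaar (volume : Measure (E d))
        (fun r : ℝ => f r * r ^ (-((d : ℝ) + 2 * s)))).trans ?_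
      rw [setIntegral_congr_fun measurableSet_Ioi hG, hdim, nsmul_eq_mul, smul_eq_mul, mul_assoc]

/-- Tail: `∫_{|h| > ρ} ker = C ρ^(-2s)`. -/
theorem K_tail {d : ℕ} (hd : 1 ≤ d) {s : ℝ} (hs : 0 < s) :
    ∃ C : ℝ, 0 < C ∧ ∀ ρ : ℝ, 0 < ρ →
      IntegrableOn (K d s) {h : E d | ρ < ‖h‖} ∧ ∫ h in {h : E d | ρ < ‖h‖}, K d s h = C * ρ ^ (-(2 * s)) := by
  obtain ⟨C, hC, hf⟩ := K_radial hd s
  refine ⟨C * (1 / (2 * s)), by positivity, fun ρ hρ => ?_⟩
  have hset : MeasurableSet {h : E d | ρ < ‖h‖} := measurableSet_lt measurable_const measurable_norm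
  have e1 : ({h : E d | ρ < ‖h‖}).indicator (K d s) =
      fun h : E d => (Ioi ρ).indicator (fun _ => (1:ℝ)) ‖h‖ * K d s h := by
    funext h
    by_cases hh : ρ < ‖h‖
    · rw [indicator_of_mem (by exact hh), indicator_of_mem (by exact hh), one_mul]
    · rw [indicator_of_notMem (by exact hh), indicator_of_notMem (by exact hh), zero_mul]
  have e2 : ∀ r : ℝ, (Ioi ρ).indicator (fun _ => (1:ℝ)) r * r ^ (-1 - 2 * s) =
      (Ioi ρ).indicator (fun r : ℝ => r ^ (-1 - 2 * s)) r := by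
    intro r
    by_cases hh : r ∈ Ioi ρ
    · rw [indicator_of_mem hh, indicator_of_mem hh, one_mul]
    · rw [indicator_of_notMem hh, indicator_of_notMem hh, zero_mul]
  have hsub : Ioi ρ ⊆ Ioi (0:ℝ) := Ioi_subset_Ioi hρ.le
  have h1 := (hf ((Ioi ρ).indicator (fun _ => (1:ℝ)))).1
  have h2 := (hf ((Ioi ρ).indicator (fun _ => (1:ℝ)))).2
  have hlt : -1 - 2 * s < -1 := by linarith
  constructor
  · rw [← integrable_indicator_iff hset, e1, h1]
    have h3 : IntegrableOn (fun r : ℝ => r ^ (-1 - 2 * s)) (Ioi ρ) := integrableOn_Ioi_rpow_of_lt hlt hρ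
    have h4 : Integrable ((Ioi ρ).indicator (fun r : ℝ => r ^ (-1 - 2 * s))) :=
      h3.integrable_indicator measurableSet_Ioi
    refine h4.integrableOn.congr_fun ?_ measurableSet_Ioi
    intro r _
    exact (e2 r).symm
  · rw [← integral_indicator hset, e1, h2]
    have h3 : ∫ r in Ioi (0:ℝ), (Ioi ρ).indicator (fun _ => (1:ℝ)) r * r ^ (-1 - 2 * s) =
        ∫ r in Ioi ρ, r ^ (-1 - 2 * s) := by
      simp_rw [e2]
      rw [setIntegral_indicator measurableSet_Ioi, inter_eq_right.2 hsub]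
    rw [h3, integral_Ioi_rpow_of_lt hlt hρ]
    have h4 : -1 - 2 * s + 1 = -(2 * s) := by ring
    rw [h4]
    field_simp

/-- Small second moment: `∫_{|h| ≤ ρ} |h|^2 ker = C ρ^(2-2s)`. -/
theorem K_small {d : ℕ} (hd : 1 ≤ d) {s : ℝ} (hs : 0 < s) (hs1 : s < 1) :
    ∃ C : ℝ, 0 < C ∧ ∀ ρ : ℝ, 0 < ρ →
      IntegrableOn (fun h : E d => ‖h‖ ^ 2 * K d s h) {h : E d | ‖h‖ ≤ ρ} ∧
      ∫ h in {h : E d | ‖h‖ ≤ ρ}, ‖h‖ ^ 2 * K d s h = C * ρ ^ (2 - 2 * s) := by
  obtain ⟨C, hC, hf⟩ := K_radial hd s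
  have hpos : 0 < 2 - 2 * s := by linarith
  refine ⟨C * (1 / (2 - 2 * s)), by positivity, fun ρ hρ => ?_⟩
  have hset : MeasurableSet {h : E d | ‖h‖ ≤ ρ} := measurableSet_le measurable_norm measurable_const
  have e1 : ({h : E d | ‖h‖ ≤ ρ}).indicator (fun h => ‖h‖ ^ 2 * K d s h) =
      fun h : E d => (Iic ρ).indicator (fun r => r ^ 2) ‖h‖ * K d s h := by
    funext h
    by_cases hh : ‖h‖ ≤ ρ
    · rw [indicator_of_mem (by exact hh), indicator_of_mem (by exact hh)]
    · rw [indicator_of_notMem (by exact hh), indicator_of_notMem (by exact hh), zero_mul]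
  have e2 : ∀ r : ℝ, 0 < r → (Iic ρ).indicator (fun r => r ^ 2) r * r ^ (-1 - 2 * s) =
      (Iic ρ).indicator (fun r : ℝ => r ^ (1 - 2 * s)) r := by
    intro r hr
    by_cases hh : r ∈ Iic ρ
    · rw [indicator_of_mem hh, indicator_of_mem hh, ← Real.rpow_natCast r 2, ← Real.rpow_add hr]
      congr 1
      push_cast
      ring
    · rw [indicator_of_notMem hh, indicator_of_notMem hh, zero_mul]
  have h1 := (hf ((Iic ρ).indicator (fun r => r ^ 2))).1
  have h2 := (hf ((Iic ρ).indicator (fun r => r ^ 2))).2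
  have hgt : -1 < 1 - 2 * s := by linarith
  have hint : IntegrableOn (fun r : ℝ => r ^ (1 - 2 * s)) (Ioc 0 ρ) := by
    rw [← intervalIntegrable_iff_integrableOn_Ioc_of_le hρ.le]
    exact intervalIntegral.intervalIntegrable_rpow' hgt
  have hint' : IntegrableOn ((Iic ρ).indicator (fun r : ℝ => r ^ (1 - 2 * s))) (Ioi 0) := by
    rw [integrableOn_indicator_iff measurableSet_Iic]
    have : Iic ρ ∩ Ioi (0:ℝ) = Ioc 0 ρ := by
      ext r
      simp [and_comm]
    rwa [this]
  constructor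
  · rw [← integrable_indicator_iff hset, e1, h1]
    refine hint'.congr_fun ?_ measurableSet_Ioi
    intro r hr
    exact (e2 r hr).symm
  · rw [← integral_indicator hset, e1, h2]
    have h3 : ∫ r in Ioi (0:ℝ), (Iic ρ).indicator (fun r => r ^ 2) r * r ^ (-1 - 2 * s) =
        ∫ r in Ioc 0 ρ, r ^ (1 - 2 * s) := by
      rw [setIntegral_congr_fun measurableSet_Ioi (fun r hr => e2 r hr),
        setIntegral_indicator measurableSet_Iic]
      have : Ioi (0:ℝ) ∩ Iic ρ = Ioc 0 ρ := by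
        ext r
        simp
      rw [this]
    rw [h3, ← intervalIntegral.integral_of_le hρ.le, integral_rpow (Or.inl hgt)]
    have h4 : 1 - 2 * s + 1 = 2 - 2 * s := by ring
    rw [h4, Real.zero_rpow hpos.ne', sub_zero]
    field_simp

/-- `min 1 (|h|^2/R^2) ker` is integrable with integral `C R^(-2s)` (scaling, or split at `|h| = R` and use
`K_tail`, `K_small`). -/
theorem K_min {d : ℕ} (hd : 1 ≤ d) {s : ℝ} (hs : 0 < s) (hs1 : s < 1) :
    ∃ C : ℝ, 0 < C ∧ ∀ R : ℝ, 0 < R →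
      Integrable (fun h : E d => min 1 (‖h‖ ^ 2 / R ^ 2) * K d s h) ∧
      ∫ h : E d, min 1 (‖h‖ ^ 2 / R ^ 2) * K d s h = C * R ^ (-(2 * s)) := by
  obtain ⟨C1, hC1, h1⟩ := K_tail hd hs
  obtain ⟨C2, hC2, h2⟩ := K_small hd hs hs1
  refine ⟨C1 + C2, by positivity, fun R hR => ?_⟩
  have hset1 : MeasurableSet {h : E d | R < ‖h‖} := measurableSet_lt measurable_const measurable_norm
  have hset2 : MeasurableSet {h : E d | ‖h‖ ≤ R} := measurableSet_le measurable_norm measurable_const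
  have i1 : Integrable (({h : E d | R < ‖h‖}).indicator (K d s)) :=
    (h1 R hR).1.integrable_indicator hset1
  have i2 : Integrable (({h : E d | ‖h‖ ≤ R}).indicator (fun h => ‖h‖ ^ 2 * K d s h)) :=
    (h2 R hR).1.integrable_indicator hset2
  have e : (fun h : E d => min 1 (‖h‖ ^ 2 / R ^ 2) * K d s h) = fun h : E d =>
      ({h : E d | R < ‖h‖}).indicator (K d s) h +
      (R ^ 2)⁻¹ * ({h : E d | ‖h‖ ≤ R}).indicator (fun h => ‖h‖ ^ 2 * K d s h) h := by
    funext h
    rcases lt_or_ge R ‖h‖ with hh | hh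
    · rw [indicator_of_mem (by exact hh), indicator_of_notMem (by exact not_le.2 hh), min_eq_left, one_mul,
        mul_zero, add_zero]
      rw [one_le_div (by positivity)]
      exact pow_le_pow_left₀ hR.le hh.le 2
    · rw [indicator_of_notMem (by exact not_lt.2 hh), indicator_of_mem (by exact hh), min_eq_right, zero_add]
      · ring
      · rw [div_le_one (by positivity)]
        exact pow_le_pow_left₀ (norm_nonneg _) hh 2
  rw [e]
  refine ⟨i1.add (i2.const_mul _), ?_⟩
  rw [integral_add i1 (i2.const_mul _), integral_const_mul, integral_indicator hset1,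
    integral_indicator hset2, (h1 R hR).2, (h2 R hR).2]
  have h3 : R ^ (2 - 2 * s) = R ^ 2 * R ^ (-(2 * s)) := by
    rw [← Real.rpow_natCast R 2, ← Real.rpow_add hR]
    congr 1
  rw [h3]
  field_simp

end NDG
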