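import Pool.Agent.NDG.Base

import Pool.Agent.NDG.Rad

/-! # The basic inequality for cutoffs with a majorant, limit of small differences -/

open MeasureTheory Filter Topology Set

noncomputable section

namespace NDG

variable {d : ℕ} {s c : ℝ}

/-- a cutoff function `χ` with a majorant `W` of the squares of its difference quotients -/
structure Cut {d : ℕ} (χ W : E d → ℝ) : Prop where
  test : Test χ
  nonneg : ∀ x, 0 ≤ χ x
  Wnn : ∀ x, 0 ≤ W x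
  Wmeas : Measurable W
  Wbd : ∃ ρ B : ℝ, (∀ x, ρ < ‖x‖ → W x = 0) ∧ ∀ x, W x ≤ B
  h1 : ∀ x y, (χ x - χ y) ^ 2 ≤ ‖x - y‖ ^ 2 * (W x + W y)
  h2 : ∀ x v, ‖v‖ ≤ 1 → (χ (x + v) - χ x) ^ 2 ≤ ‖v‖ ^ 2 * W x

private theorem fa_alg {α β γ K0 Km Kp C1 C2 t m : ℝ} (hα : α ^ 2 ≤ m) (hβ : β ^ 2 ≤ m)
    (hγ : γ ^ 2 * t ^ 2 ≤ m) (ht0 : 0 ≤ t) (ht : t ≤ 1 / 2) (hK0 : 0 ≤ K0) (hC1 : 0 ≤ C1)
    (hC2 : 0 ≤ C2) (h1 : |Km - K0| ≤ C1 * t * K0) (h2 : |Kp - K0| ≤ C1 * t * K0)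
    (h3 : |Kp + Km - 2 * K0| ≤ C2 * t ^ 2 * K0) :
    |-2 * α * β * K0 - γ ^ 2 * (Kp + Km - 2 * K0) - (2 * α * γ + α ^ 2) * (Km - K0) -
      (-2 * β * γ + β ^ 2) * (Kp - K0)| ≤ (2 + C2 + 5 * C1) * m * K0 := by
  have hm : 0 ≤ m := (sq_nonneg α).trans hα
  have p1 : |-2 * α * β * K0| ≤ 2 * m * K0 := by
    rw [abs_mul, abs_of_nonneg hK0]
    refine mul_le_mul_of_nonneg_right ?_ hK0
    rw [abs_le]
    constructor <;> nlinarith [sq_nonneg (α - β), sq_nonneg (α + β)]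
  have p2 : |γ ^ 2 * (Kp + Km - 2 * K0)| ≤ C2 * m * K0 := by
    rw [abs_mul, abs_of_nonneg (sq_nonneg γ)]
    calc γ ^ 2 * |Kp + Km - 2 * K0| ≤ γ ^ 2 * (C2 * t ^ 2 * K0) :=
          mul_le_mul_of_nonneg_left h3 (sq_nonneg γ)
      _ = C2 * (γ ^ 2 * t ^ 2) * K0 := by ring
      _ ≤ C2 * m * K0 := by gcongr
  have key : ∀ a b X : ℝ, a ^ 2 ≤ m → |X| ≤ C1 * t * K0 → (b = γ ∨ b = -γ) →
      |(2 * a * b + a ^ 2) * X| ≤ 5 / 2 * C1 * m * K0 := by
    intro a b X ha hX hb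
    have hb2 : b ^ 2 * t ^ 2 ≤ m := by
      rcases hb with rfl | rfl
      · exact hγ
      · rw [neg_sq]
        exact hγ
    have q1 : |2 * a * b + a ^ 2| * t ≤ 5 / 2 * m := by
      have q2 : |2 * a * b + a ^ 2| * t = |(2 * a * b + a ^ 2) * t| := by
        rw [abs_mul, abs_of_nonneg ht0]
      rw [q2, abs_le]
      have q3 : a ^ 2 * t ≤ m / 2 := by nlinarith [sq_nonneg a]
      have q4 : 0 ≤ a ^ 2 * t := by positivity
      constructor <;> nlinarith [sq_nonneg (a - b * t), sq_nonneg (a + b * t)]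
    rw [abs_mul]
    calc |2 * a * b + a ^ 2| * |X| ≤ |2 * a * b + a ^ 2| * (C1 * t * K0) :=
          mul_le_mul_of_nonneg_left hX (abs_nonneg _)
      _ = C1 * (|2 * a * b + a ^ 2| * t) * K0 := by ring
      _ ≤ C1 * (5 / 2 * m) * K0 := by gcongr
      _ = 5 / 2 * C1 * m * K0 := by ring
  have p3 := key α γ (Km - K0) hα h1 (Or.inl rfl)
  have p4 := key β (-γ) (Kp - K0) hβ h2 (Or.inr rfl)
  have e4 : (2 * β * -γ + β ^ 2) * (Kp - K0) = (-2 * β * γ + β ^ 2) * (Kp - K0) := by ring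
  rw [e4] at p4
  rw [abs_le] at p1 p2 p3 p4 ⊢
  constructor <;> nlinarith [p1.1, p1.2, p2.1, p2.2, p3.1, p3.2, p4.1, p4.2]

/-- MODULE fa. With `z = x - y`, `a = χ x`, `a' = χ (x - h)`, `b = χ y`, `b' = χ (y - h)`, `K₀ = K z`, `K₋ = K (z - h)`, `K₊ = K (z + h)`:
`dkap = -2 (a' - a) (b' - b) K₀ - (a - b) ^ 2 (K₋ + K₊ - 2 K₀) - (2 (a' - a) (a - b) + (a' - a) ^ 2) (K₋ - K₀) - (2 (b' - b) (b - a) + (b' - b) ^ 2) (K₊ - K₀)`;
`|a' - a| ≤ ‖h‖ √(W x)`, `|b' - b| ≤ ‖h‖ √(W y)`, `|a - b| ≤ ‖z‖ √(W x + W y)`, and `K_diff`, `K_diff2`. -/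
theorem dkap_far (hs : 0 < s) : ∃ C : ℝ, 0 ≤ C ∧ ∀ χ W : E d → ℝ, Cut χ W → ∀ h x y : E d, ‖h‖ ≤ 1 → x ≠ y →
    2 * ‖h‖ ≤ ‖x - y‖ → |dkap d s χ h x y| ≤ C * ‖h‖ ^ 2 * ((W x + W y) * K d s (x - y)) := by
  obtain ⟨C1, hC1, hd1⟩ := K_diff (d := d) hs
  obtain ⟨C2, hC2, hd2⟩ := K_diff2 (d := d) hs
  refine ⟨2 + C2 + 5 * C1, by positivity, ?_⟩
  intro χ W hcut h x y hh hxy h2
  have hz : x - y ≠ 0 := sub_ne_zero.2 hxy
  have hzn : 0 < ‖x - y‖ := norm_pos_iff.2 hz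
  have hK0 := K_nonneg (d := d) (s := s) (x - y)
  have hWx := hcut.Wnn x
  have hWy := hcut.Wnn y
  have b1 : (χ (x - h) - χ x) ^ 2 ≤ ‖h‖ ^ 2 * (W x + W y) := by
    have h3 := hcut.h2 x (-h) (by rwa [norm_neg])
    rw [← sub_eq_add_neg, norm_neg] at h3
    nlinarith [sq_nonneg ‖h‖]
  have b2 : (χ (y - h) - χ y) ^ 2 ≤ ‖h‖ ^ 2 * (W x + W y) := by
    have h3 := hcut.h2 y (-h) (by rwa [norm_neg])
    rw [← sub_eq_add_neg, norm_neg] at h3
    nlinarith [sq_nonneg ‖h‖]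
  have b3 : (χ x - χ y) ^ 2 * (‖h‖ / ‖x - y‖) ^ 2 ≤ ‖h‖ ^ 2 * (W x + W y) := by
    have h3 := hcut.h1 x y
    calc (χ x - χ y) ^ 2 * (‖h‖ / ‖x - y‖) ^ 2 ≤
          (‖x - y‖ ^ 2 * (W x + W y)) * (‖h‖ / ‖x - y‖) ^ 2 :=
          mul_le_mul_of_nonneg_right h3 (sq_nonneg _)
      _ = ‖h‖ ^ 2 * (W x + W y) := by
          field_simp
  have ht : ‖h‖ / ‖x - y‖ ≤ 1 / 2 := by
    rw [div_le_iff₀ hzn]
    linarith
  have k1 := hd1 (x - y) h hz h2
  have k2 := hd1 (x - y) (-h) hz (by rwa [norm_neg])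
  have k3 := hd2 (x - y) h hz h2
  rw [norm_neg, ← sub_eq_add_neg] at k2
  have h5 := fa_alg b1 b2 b3 (by positivity) ht hK0 hC1 hC2 k2 k1 k3
  have e : dkap d s χ h x y = -2 * (χ (x - h) - χ x) * (χ (y - h) - χ y) * K d s (x - y) -
      (χ x - χ y) ^ 2 * (K d s (x - y + h) + K d s (x - y - h) - 2 * K d s (x - y)) -
      (2 * (χ (x - h) - χ x) * (χ x - χ y) + (χ (x - h) - χ x) ^ 2) *
        (K d s (x - y - h) - K d s (x - y)) -
      (-2 * (χ (y - h) - χ y) * (χ x - χ y) + (χ (y - h) - χ y) ^ 2) *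
        (K d s (x - y + h) - K d s (x - y)) := by
    unfold dkap kap
    have e1 : x - h - (y - h) = x - y := by abel
    have e2 : x - h - y = x - y - h := by abel
    have e3 : x - (y - h) = x - y + h := by abel
    rw [e1, e2, e3]
    ring
  rw [e]
  refine h5.trans (le_of_eq ?_)
  ring

private theorem fb_kap {χ : E d → ℝ} (hχ : Test χ) :
    ∃ L ρ : ℝ, 0 ≤ L ∧ 0 ≤ ρ ∧ (∀ x y, 0 ≤ kap d s χ x y ∧ kap d s χ x y ≤ L * (‖x - y‖ ^ 2 * K d s (x - y))) ∧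
      ∀ x y, ρ < ‖x‖ → ρ < ‖y‖ → kap d s χ x y = 0 := by
  obtain ⟨ρ1, L1, h11, h12, h13, h14, h15⟩ := hχ.bd
  refine ⟨L1 ^ 2, ρ1, by positivity, h11, fun x y => ?_, fun x y hx hy => ?_⟩
  · have h1 : |χ x - χ y| ≤ L1 * ‖x - y‖ :=
      (h15 x y).trans (mul_le_mul_of_nonneg_left (min_le_right _ _) h12)
    have h3 : 0 ≤ K d s (x - y) := K_nonneg _
    unfold kap
    refine ⟨mul_nonneg (sq_nonneg _) h3, ?_⟩
    have h4 : (χ x - χ y) ^ 2 ≤ (L1 * ‖x - y‖) ^ 2 := by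
      rw [← sq_abs (χ x - χ y)]
      exact pow_le_pow_left₀ (abs_nonneg _) h1 2
    calc (χ x - χ y) ^ 2 * K d s (x - y) ≤ (L1 * ‖x - y‖) ^ 2 * K d s (x - y) :=
          mul_le_mul_of_nonneg_right h4 h3
      _ = _ := by ring
  · unfold kap
    rw [h13 x hx, h13 y hy]
    ring

/-- MODULE fb. Near the diagonal, pointwise: `(u x - u y) ^ 2 ≤ L ^ 2 ‖x - y‖ ^ 2 ≤ 4 L ^ 2 ‖h‖ ^ 2` and every term of `dkap` is at most `L' ^ 2 ‖·‖ ^ 2 K (·)` with argument `z`, `z - h` or `z + h`; if `dkap ≠ 0` then one of `x, y, x - h, y - h` is in the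
support of `χ`. -/
theorem near_pt (hs0 : 0 < s) (hs1 : s < 1) {u : E d → ℝ} (hu : LocLip u) {χ : E d → ℝ} (hχ : Test χ) :
    ∃ C ρ : ℝ, 0 ≤ C ∧ 0 ≤ ρ ∧ ∀ h : E d, ‖h‖ ≤ 1 → ∀ x y : E d, ‖x - y‖ < 2 * ‖h‖ →
      |(u x - u y) ^ 2 * dkap d s χ h x y| ≤ (if ‖x‖ ≤ ρ then 1 else 0) * (C * ‖h‖ ^ 2 *
        (‖x - y‖ ^ 2 * K d s (x - y) + ‖x - y - h‖ ^ 2 * K d s (x - y - h) + ‖x - y + h‖ ^ 2 * K d s (x - y + h))) := by
  obtain ⟨L, ρ, hL, hρ, h1, h2⟩ := fb_kap (s := s) hχ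
  obtain ⟨Lu, hLu, h3⟩ := hu (ρ + 6)
  refine ⟨8 * Lu ^ 2 * L, ρ + 4, by positivity, by positivity, ?_⟩
  intro h hh x y hxy
  have hh0 : 0 ≤ ‖h‖ := norm_nonneg h
  have hQ : ∀ z : E d, 0 ≤ ‖z‖ ^ 2 * K d s z := fun z => mul_nonneg (sq_nonneg _) (K_nonneg z)
  by_cases hx : ‖x‖ ≤ ρ + 4
  · rw [if_pos hx, one_mul]
    have hy : ‖y‖ ≤ ρ + 6 := by
      have h4 := norm_sub_norm_le y x
      rw [norm_sub_rev] at h4
      linarith
    have h4 := h3 x y (by linarith) hy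
    have h5 : (u x - u y) ^ 2 ≤ 4 * Lu ^ 2 * ‖h‖ ^ 2 := by
      have h6 : |u x - u y| ≤ Lu * (2 * ‖h‖) := h4.trans (mul_le_mul_of_nonneg_left hxy.le hLu)
      have h7 : (u x - u y) ^ 2 ≤ (Lu * (2 * ‖h‖)) ^ 2 := by
        rw [← sq_abs (u x - u y)]
        exact pow_le_pow_left₀ (abs_nonneg _) h6 2
      linarith [h7, (by ring : (Lu * (2 * ‖h‖)) ^ 2 = 4 * Lu ^ 2 * ‖h‖ ^ 2)]
    have b1 := h1 (x - h) (y - h)
    have b2 := h1 (x - h) y
    have b3 := h1 x (y - h)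
    have b4 := h1 x y
    rw [show x - h - (y - h) = x - y by abel] at b1
    rw [show x - h - y = x - y - h by abel] at b2
    rw [show x - (y - h) = x - y + h by abel] at b3
    have q1 := hQ (x - y)
    have q2 := hQ (x - y - h)
    have q3 := hQ (x - y + h)
    have b5 : |dkap d s χ h x y| ≤ 2 * L * (‖x - y‖ ^ 2 * K d s (x - y) +
        ‖x - y - h‖ ^ 2 * K d s (x - y - h) + ‖x - y + h‖ ^ 2 * K d s (x - y + h)) := by
      unfold dkap
      have r1 := mul_nonneg hL q1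
      have r2 := mul_nonneg hL q2
      have r3 := mul_nonneg hL q3
      rw [abs_le]
      constructor <;> nlinarith [b1.1, b1.2, b2.1, b2.2, b3.1, b3.2, b4.1, b4.2]
    rw [abs_mul, abs_of_nonneg (sq_nonneg _)]
    calc (u x - u y) ^ 2 * |dkap d s χ h x y| ≤ (4 * Lu ^ 2 * ‖h‖ ^ 2) * (2 * L * (‖x - y‖ ^ 2 * K d s (x - y) +
        ‖x - y - h‖ ^ 2 * K d s (x - y - h) + ‖x - y + h‖ ^ 2 * K d s (x - y + h))) :=
          mul_le_mul h5 b5 (abs_nonneg _) (by positivity)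
      _ = _ := by ring
  · rw [if_neg hx, zero_mul]
    push Not at hx
    have c1 : ρ < ‖x - h‖ := by
      have := norm_sub_norm_le x h
      linarith
    have hy' : ρ + 2 < ‖y‖ := by
      have := norm_sub_norm_le x y
      linarith
    have c2 : ρ < ‖y - h‖ := by
      have := norm_sub_norm_le y h
      linarith
    have c3 : ρ < ‖x‖ := by linarith
    have c4 : ρ < ‖y‖ := by linarith
    unfold dkap
    rw [h2 _ _ c1 c2, h2 _ _ c1 c4, h2 _ _ c3 c2, h2 _ _ c3 c4]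
    simp

private theorem fc_conv {W g : E d → ℝ} (hW : Integrable W) (hg : Integrable g) :
    ∫ p : E d × E d, W p.1 * g (p.1 - p.2) = (∫ x, W x) * ∫ z, g z := by
  have h1 := integral_prod (μ := (volume : Measure (E d))) (ν := (volume : Measure (E d)))
    (fun p : E d × E d => W p.1 * g (p.1 - p.2)) (by
      rw [← Measure.volume_eq_prod]
      exact (prod_int hW hg).1)
  rw [← Measure.volume_eq_prod] at h1
  rw [h1]
  simp only [integral_const_mul, integral_sub_left_eq_self]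
  rw [integral_mul_const]

private theorem fc_Q (hd : 1 ≤ d) (hs0 : 0 < s) (hs1 : s < 1) :
    ∃ C : ℝ, 0 < C ∧ ∀ r : ℝ, 0 < r →
      Integrable ({z : E d | ‖z‖ ≤ r}.indicator (fun z => ‖z‖ ^ 2 * K d s z)) ∧
      ∫ z, {z : E d | ‖z‖ ≤ r}.indicator (fun z => ‖z‖ ^ 2 * K d s z) z = C * r ^ (2 - 2 * s) := by
  obtain ⟨C, hC, h⟩ := K_small hd hs0 hs1
  have hm : ∀ r : ℝ, MeasurableSet {z : E d | ‖z‖ ≤ r} := fun r =>
    (isClosed_le continuous_norm continuous_const).measurableSet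
  refine ⟨C, hC, fun r hr => ⟨?_, ?_⟩⟩
  · rw [integrable_indicator_iff (hm r)]
    exact (h r hr).1
  · rw [integral_indicator (hm r)]
    exact (h r hr).2

/-- MODULE fc. Integrate `near_pt`: first over `z = x - y` (`‖z ± h‖ < 3 ‖h‖`, `∫_{‖z‖ ≤ 3 ‖h‖} ‖z‖ ^ 2 K = C (3 ‖h‖) ^ (2 - 2 s)` by `K_small`), then over `‖x‖ ≤ ρ`. -/
theorem near_bd (hd : 1 ≤ d) (hs0 : 0 < s) (hs1 : s < 1) {u : E d → ℝ} (hu : LocLip u) (hB : ∀ x, |u x| ≤ 1)
    {χ : E d → ℝ} (hχ : Test χ) : ∃ C : ℝ, 0 ≤ C ∧ ∀ h : E d, 0 < ‖h‖ → ‖h‖ ≤ 1 →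
      |∫ p in {p : E d × E d | ‖p.1 - p.2‖ < 2 * ‖h‖}, (u p.1 - u p.2) ^ 2 * dkap d s χ h p.1 p.2| ≤
        C * ‖h‖ ^ (4 - 2 * s) := by
  obtain ⟨C, ρ, hC, hρ, h1⟩ := near_pt hs0 hs1 hu hχ
  obtain ⟨C3, hC3, hQ⟩ := fc_Q hd hs0 hs1
  set W : E d → ℝ := (Metric.closedBall (0 : E d) ρ).indicator (fun _ => (1 : ℝ)) with hW
  have hWi : Integrable W := by
    rw [hW, integrable_indicator_iff Metric.isClosed_closedBall.measurableSet]
    exact integrableOn_const (isCompact_closedBall (0 : E d) ρ).measure_lt_top.ne (by simp)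
  have hW0 : ∀ x, 0 ≤ W x := fun x => indicator_nonneg (fun _ _ => zero_le_one) x
  have hWI : 0 ≤ ∫ x, W x := integral_nonneg hW0
  have hWe : ∀ x, W x = if ‖x‖ ≤ ρ then 1 else 0 := by
    intro x
    by_cases hx : ‖x‖ ≤ ρ
    · rw [if_pos hx, hW, indicator_of_mem (mem_closedBall_zero_iff.2 hx)]
    · rw [if_neg hx, hW, indicator_of_notMem (fun h => hx (mem_closedBall_zero_iff.1 h))]
  refine ⟨C * (∫ x, W x) * (3 * (C3 * 3 ^ (2 - 2 * s))), by positivity, ?_⟩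
  intro h hh hh1
  obtain ⟨hQ1, hQ2⟩ := hQ (3 * ‖h‖) (by positivity)
  set Q : E d → ℝ := {z : E d | ‖z‖ ≤ 3 * ‖h‖}.indicator (fun z => ‖z‖ ^ 2 * K d s z) with hQdef
  have hQ0 : ∀ z, 0 ≤ Q z := fun z =>
    indicator_nonneg (fun w _ => mul_nonneg (sq_nonneg _) (K_nonneg w)) z
  have hQe : ∀ z : E d, ‖z‖ ≤ 3 * ‖h‖ → ‖z‖ ^ 2 * K d s z = Q z := by
    intro z hz
    rw [hQdef, indicator_of_mem]
    exact hz
  have i1 : Integrable (fun z => Q (z - h)) := hQ1.comp_sub_right h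
  have i2 : Integrable (fun z => Q (z + h)) := hQ1.comp_add_right h
  have i3 : Integrable (fun z => Q z + Q (z - h)) := hQ1.add i1
  have i4 : Integrable (fun z => Q z + Q (z - h) + Q (z + h)) := i3.add i2
  have hgI : ∫ z, (Q z + Q (z - h) + Q (z + h)) = 3 * (C3 * (3 * ‖h‖) ^ (2 - 2 * s)) := by
    rw [integral_add i3 i2, integral_add hQ1 i1, integral_sub_right_eq_self Q h,
      integral_add_right_eq_self Q h, hQ2]
    ring
  have hS : MeasurableSet {p : E d × E d | ‖p.1 - p.2‖ < 2 * ‖h‖} :=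
    (isOpen_lt ((continuous_fst.sub continuous_snd).norm) continuous_const).measurableSet
  have hR : Integrable (fun p : E d × E d => C * ‖h‖ ^ 2 *
      (W p.1 * (Q (p.1 - p.2) + Q (p.1 - p.2 - h) + Q (p.1 - p.2 + h)))) :=
    ((prod_int hWi i4).1).const_mul _
  have hR0 : ∀ p : E d × E d, 0 ≤ C * ‖h‖ ^ 2 *
      (W p.1 * (Q (p.1 - p.2) + Q (p.1 - p.2 - h) + Q (p.1 - p.2 + h))) := by
    intro p
    have := hW0 p.1
    have := hQ0 (p.1 - p.2)
    have := hQ0 (p.1 - p.2 - h)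
    have := hQ0 (p.1 - p.2 + h)
    positivity
  have hpt : ∀ p ∈ {p : E d × E d | ‖p.1 - p.2‖ < 2 * ‖h‖},
      |(u p.1 - u p.2) ^ 2 * dkap d s χ h p.1 p.2| ≤ C * ‖h‖ ^ 2 *
      (W p.1 * (Q (p.1 - p.2) + Q (p.1 - p.2 - h) + Q (p.1 - p.2 + h))) := by
    intro p hp
    have hp' : ‖p.1 - p.2‖ < 2 * ‖h‖ := hp
    have h4 := h1 h hh1 p.1 p.2 hp'
    rw [← hWe, hQe _ (by linarith), hQe _ ((norm_sub_le _ _).trans (by linarith)),
      hQe _ ((norm_add_le _ _).trans (by linarith))] at h4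
    refine h4.trans (le_of_eq ?_)
    ring
  calc |∫ p in {p : E d × E d | ‖p.1 - p.2‖ < 2 * ‖h‖}, (u p.1 - u p.2) ^ 2 * dkap d s χ h p.1 p.2|
      ≤ ∫ p in {p : E d × E d | ‖p.1 - p.2‖ < 2 * ‖h‖}, |(u p.1 - u p.2) ^ 2 * dkap d s χ h p.1 p.2| :=
        abs_integral_le_integral_abs
    _ ≤ ∫ p in {p : E d × E d | ‖p.1 - p.2‖ < 2 * ‖h‖}, C * ‖h‖ ^ 2 *
      (W p.1 * (Q (p.1 - p.2) + Q (p.1 - p.2 - h) + Q (p.1 - p.2 + h))) := by
        refine integral_mono_of_nonneg (Eventually.of_forall fun p => abs_nonneg _) hR.integrableOn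
          (ae_restrict_of_forall_mem hS hpt)
    _ ≤ ∫ p : E d × E d, C * ‖h‖ ^ 2 *
      (W p.1 * (Q (p.1 - p.2) + Q (p.1 - p.2 - h) + Q (p.1 - p.2 + h))) :=
        setIntegral_le_integral hR (Eventually.of_forall hR0)
    _ = C * ‖h‖ ^ 2 * ((∫ x, W x) * (3 * (C3 * (3 * ‖h‖) ^ (2 - 2 * s)))) := by
        rw [integral_const_mul, fc_conv hWi i4, hgI]
    _ = C * (∫ x, W x) * (3 * (C3 * 3 ^ (2 - 2 * s))) * (‖h‖ ^ 2 * ‖h‖ ^ (2 - 2 * s)) := by
        rw [Real.mul_rpow (by norm_num) hh.le]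
        ring
    _ = _ := by
        have h6 : ‖h‖ ^ 2 * ‖h‖ ^ (2 - 2 * s) = ‖h‖ ^ (4 - 2 * s) := by
          rw [← Real.rpow_natCast, ← Real.rpow_add hh]
          congr 1
          push_cast
          ring
        rw [h6]

private theorem fd_sq {L m : ℝ} {a b : ℝ} (hm : 0 ≤ m) (h : |a - b| ≤ L * min 1 m) :
    (a - b) ^ 2 ≤ L ^ 2 * min 1 (m ^ 2) := by
  have h1 : (a - b) ^ 2 ≤ (L * min 1 m) ^ 2 := by
    rw [← sq_abs (a - b)]
    exact pow_le_pow_left₀ (abs_nonneg _) h 2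
  have h2 : (min 1 m) ^ 2 = min 1 (m ^ 2) := by
    rcases le_total 1 m with h3 | h3
    · rw [min_eq_left h3, min_eq_left (one_le_pow₀ h3), one_pow]
    · rw [min_eq_right h3, min_eq_right (pow_le_one₀ hm h3)]
  rw [mul_pow, h2] at h1
  exact h1

private theorem fd_Wint {χ W : E d → ℝ} (h : Cut χ W) : Integrable W := by
  obtain ⟨ρ, B, h1, h2⟩ := h.Wbd
  have hB : Integrable ((Metric.closedBall (0 : E d) ρ).indicator (fun _ : E d => B)) := by
    rw [integrable_indicator_iff Metric.isClosed_closedBall.measurableSet]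
    exact integrableOn_const (isCompact_closedBall (0 : E d) ρ).measure_lt_top.ne
  refine hB.mono' h.Wmeas.aestronglyMeasurable (Filter.Eventually.of_forall fun x => ?_)
  rw [Real.norm_of_nonneg (h.Wnn x)]
  by_cases hx : ‖x‖ ≤ ρ
  · rw [indicator_of_mem (by simpa using hx)]
    exact h2 x
  · rw [indicator_of_notMem (by simpa using hx), h1 x (not_le.1 hx)]

/-- MODULE fd. Dominated by `L ^ 2 min 1 (‖x - y‖ ^ 2) (W x + W y) K` (`LocLip.bd` on the ball that contains the support of `W`, `dom_int`). -/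
theorem cut_int (hd : 1 ≤ d) (hs0 : 0 < s) (hs1 : s < 1) {u : E d → ℝ} (hu : LocLip u) (hB : ∀ x, |u x| ≤ 1)
    {χ W : E d → ℝ} (h : Cut χ W) : Integrable (fun p : E d × E d => (u p.1 - u p.2) ^ 2 * ((W p.1 + W p.2) * K d s (p.1 - p.2))) := by
  obtain ⟨ρ, B, h1, -⟩ := h.Wbd
  obtain ⟨L, hL, h2⟩ := hu.bd hB ρ
  have hdom := (dom_int (s := s) hd hs0 hs1 (fd_Wint h)).const_mul (L ^ 2)
  have hmu : Measurable (fun p : E d × E d => (u p.1 - u p.2) ^ 2 *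
      ((W p.1 + W p.2) * K d s (p.1 - p.2))) := by
    have hc := hu.continuous
    have hK : Measurable (fun p : E d × E d => K d s (p.1 - p.2)) :=
      K_meas.comp (measurable_fst.sub measurable_snd)
    have hW1 : Measurable (fun p : E d × E d => W p.1) := h.Wmeas.comp measurable_fst
    have hW2 : Measurable (fun p : E d × E d => W p.2) := h.Wmeas.comp measurable_snd
    have hu1 : Measurable (fun p : E d × E d => u p.1) := hc.measurable.comp measurable_fst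
    have hu2 : Measurable (fun p : E d × E d => u p.2) := hc.measurable.comp measurable_snd
    exact ((hu1.sub hu2).pow_const 2).mul ((hW1.add hW2).mul hK)
  refine hdom.mono' hmu.aestronglyMeasurable (Filter.Eventually.of_forall ?_)
  rintro ⟨x, y⟩
  simp only
  have hK := K_nonneg (d := d) (s := s) (x - y)
  have hWx := h.Wnn x
  have hWy := h.Wnn y
  rw [Real.norm_of_nonneg (by positivity)]
  by_cases h0 : W x + W y = 0
  · rw [h0]
    simp
  · have h3 : (u x - u y) ^ 2 ≤ L ^ 2 * min 1 (‖x - y‖ ^ 2) := by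
      by_cases hx : ‖x‖ ≤ ρ
      · exact fd_sq (norm_nonneg _) (h2 x y hx)
      · by_cases hy : ‖y‖ ≤ ρ
        · have h4 := h2 y x hy
          rw [abs_sub_comm, norm_sub_rev] at h4
          exact fd_sq (norm_nonneg _) h4
        · exfalso
          apply h0
          rw [h1 x (not_le.1 hx), h1 y (not_le.1 hy), add_zero]
    calc (u x - u y) ^ 2 * ((W x + W y) * K d s (x - y))
        ≤ (L ^ 2 * min 1 (‖x - y‖ ^ 2)) * ((W x + W y) * K d s (x - y)) :=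
          mul_le_mul_of_nonneg_right h3 (by positivity)
      _ = L ^ 2 * ((W x + W y) * (min 1 (‖x - y‖ ^ 2) * K d s (x - y))) := by ring

private theorem fe_norm (u : E d → ℝ) (h x : E d) :
    ‖Dv u (fun _ : Fin 1 => h) x‖ = |u (x + h) - u x| := by
  unfold Dv
  rw [EuclideanSpace.norm_eq]
  simp [Real.sqrt_sq_eq_abs]

private theorem fe_inner (u : E d → ℝ) (h x y : E d) :
    (inner ℝ (Dv u (fun _ : Fin 1 => h) x) (Dv u (fun _ : Fin 1 => h) y) : ℝ) =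
      (u (x + h) - u x) * (u (y + h) - u y) := by
  unfold Dv
  rw [PiLp.inner_apply]
  simp [mul_comm]

/-- MODULE fe. The scalar case `k = 1` of `base`: `‖Dv‖ = |D|`, `inner = D D'`. -/
theorem base1 (hd : 1 ≤ d) (hs0 : 0 < s) (hs1 : s < 1) (hc : 0 < c) {u : E d → ℝ} (hu : Entire d s c u) (hst : Stable d s c u)
    (h : E d) {χ : E d → ℝ} (hχ : Test χ) :
    ∫ p : E d × E d, (|u (p.1 + h) - u p.1| * |u (p.2 + h) - u p.2| - (u (p.1 + h) - u p.1) * (u (p.2 + h) - u p.2)) *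
        (χ p.1 * χ p.2) * K d s (p.1 - p.2) ≤
      -(1 / 4) * (∫ p : E d × E d, (u p.1 - u p.2) ^ 2 * dkap d s χ h p.1 p.2) +
      3 / c * ∫ x, |u (x + h) - u x| ^ 3 * χ x ^ 2 := by
  have h1 := base hd hs0 hs1 hc hu hst (fun _ : Fin 1 => h) hχ
  simp only [fe_norm, fe_inner, Finset.univ_unique, Finset.sum_singleton] at h1
  exact h1

/-- MODULE fe. The integrand of the left side of `base1` is integrable and nonnegative (`gap_int`, `gap_le` for `k = 1`; `0 ≤ χ`). -/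
theorem base1_int (hd : 1 ≤ d) (hs0 : 0 < s) (hs1 : s < 1) {u : E d → ℝ} (hu : LocLip u) (hB : ∀ x, |u x| ≤ 1)
    (h : E d) {χ : E d → ℝ} (hχ : Test χ) : Integrable (fun p : E d × E d =>
      (|u (p.1 + h) - u p.1| * |u (p.2 + h) - u p.2| - (u (p.1 + h) - u p.1) * (u (p.2 + h) - u p.2)) *
        (χ p.1 * χ p.2) * K d s (p.1 - p.2)) := by
  have h1 := gap_int hd hs0 hs1 hu hB (fun _ : Fin 1 => h) hχ
  simp only [fe_norm, fe_inner] at h1
  exact h1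

/-- MODULE ff. `base1` for `h = t ν`: the far part of the `dkap` integral by `dkap_far` (hypothesis `hC`), the near part by `near_bd`, and `|u (x + t ν) - u x| ≤ L t` on the support of `χ`. -/
theorem step (hd : 1 ≤ d) (hs0 : 0 < s) (hs1 : s < 1) (hc : 0 < c) {u : E d → ℝ} (hu : Entire d s c u) (hst : Stable d s c u)
    {χ W : E d → ℝ} (h : Cut χ W) {C : ℝ} (hC0 : 0 ≤ C) (hC : ∀ h x y : E d, ‖h‖ ≤ 1 → x ≠ y → 2 * ‖h‖ ≤ ‖x - y‖ →
      |dkap d s χ h x y| ≤ C * ‖h‖ ^ 2 * ((W x + W y) * K d s (x - y))) (ν : E d) :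
    ∃ C' : ℝ, 0 ≤ C' ∧ ∀ t : ℝ, 0 < t → t * ‖ν‖ ≤ 1 →
      ∫ p : E d × E d, (|u (p.1 + t • ν) - u p.1| * |u (p.2 + t • ν) - u p.2| - (u (p.1 + t • ν) - u p.1) * (u (p.2 + t • ν) - u p.2)) *
        (χ p.1 * χ p.2) * K d s (p.1 - p.2) ≤
      t ^ 2 * (C * ‖ν‖ ^ 2 * ∫ p : E d × E d, (u p.1 - u p.2) ^ 2 * ((W p.1 + W p.2) * K d s (p.1 - p.2))) +
      C' * t ^ (4 - 2 * s) + C' * t ^ 3 := by
  have hloc := hu.locLip
  have hB : ∀ x, |u x| ≤ 1 := fun x => (hu.bound x).le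
  have hucont : Continuous u := hloc.continuous
  obtain ⟨Cn, hCn0, hCn⟩ := near_bd hd hs0 hs1 hloc hB h.test
  obtain ⟨ρ, L₀, hρ0, hL₀, hρs, _, _⟩ := h.test.bd
  obtain ⟨Lu, hLu0, hLu⟩ := hloc (ρ + 1)
  have hχ2 : Integrable (fun x => χ x * χ x) := (Test.mul_left h.test.locLip h.test).integrable
  have hJ : 0 ≤ ∫ x, χ x * χ x := integral_nonneg fun x => mul_self_nonneg _
  have hI : 0 ≤ ∫ p : E d × E d, (u p.1 - u p.2) ^ 2 * ((W p.1 + W p.2) * K d s (p.1 - p.2)) := by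
    refine integral_nonneg fun p => mul_nonneg (sq_nonneg _) (mul_nonneg ?_ (K_nonneg _))
    exact add_nonneg (h.Wnn _) (h.Wnn _)
  have hcut := cut_int hd hs0 hs1 hloc hB h
  have hA0 : 0 ≤ Cn * ‖ν‖ ^ (4 - 2 * s) := mul_nonneg hCn0 (Real.rpow_nonneg (norm_nonneg _) _)
  have hB0 : 0 ≤ 3 / c * (Lu ^ 3 * ‖ν‖ ^ 3 * ∫ x, χ x * χ x) := by positivity
  refine ⟨Cn * ‖ν‖ ^ (4 - 2 * s) + 3 / c * (Lu ^ 3 * ‖ν‖ ^ 3 * ∫ x, χ x * χ x),
    add_nonneg hA0 hB0, fun t ht htν => ?_⟩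
  have hnorm : ‖t • ν‖ = t * ‖ν‖ := by rw [norm_smul, Real.norm_of_nonneg ht.le]
  have ht4 : 0 ≤ t ^ (4 - 2 * s) := Real.rpow_nonneg ht.le _
  have ht3 : 0 ≤ t ^ 3 := by positivity
  by_cases hν : ν = 0
  · have hz : ∀ p : E d × E d, (|u (p.1 + t • ν) - u p.1| * |u (p.2 + t • ν) - u p.2| -
        (u (p.1 + t • ν) - u p.1) * (u (p.2 + t • ν) - u p.2)) *
        (χ p.1 * χ p.2) * K d s (p.1 - p.2) = 0 := by
      intro p
      rw [hν, smul_zero, add_zero, sub_self]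
      simp
    have hz2 : ∫ p : E d × E d, (|u (p.1 + t • ν) - u p.1| * |u (p.2 + t • ν) - u p.2| -
        (u (p.1 + t • ν) - u p.1) * (u (p.2 + t • ν) - u p.2)) *
        (χ p.1 * χ p.2) * K d s (p.1 - p.2) = 0 := by
      rw [integral_congr_ae (Filter.Eventually.of_forall hz), integral_zero]
    rw [hz2]
    refine add_nonneg (add_nonneg ?_ (mul_nonneg (add_nonneg hA0 hB0) ht4))
      (mul_nonneg (add_nonneg hA0 hB0) ht3)
    exact mul_nonneg (by positivity) (mul_nonneg (by positivity) hI)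
  have hνp : 0 < ‖ν‖ := norm_pos_iff.2 hν
  have hhp : 0 < ‖t • ν‖ := by rw [hnorm]; exact mul_pos ht hνp
  have hh1 : ‖t • ν‖ ≤ 1 := by rw [hnorm]; exact htν
  -- the cubic term
  have hcub : ∫ x, |u (x + t • ν) - u x| ^ 3 * χ x ^ 2 ≤
      (Lu ^ 3 * ‖ν‖ ^ 3 * ∫ x, χ x * χ x) * t ^ 3 := by
    have h1 : ∀ x, |u (x + t • ν) - u x| ^ 3 * χ x ^ 2 ≤
        (Lu * (t * ‖ν‖)) ^ 3 * (χ x * χ x) := by
      intro x
      by_cases hx : ‖x‖ ≤ ρ
      · have h2 : |u (x + t • ν) - u x| ≤ Lu * (t * ‖ν‖) := by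
          have h3 := hLu (x + t • ν) x
            ((norm_add_le _ _).trans (add_le_add hx hh1)) (hx.trans (by linarith))
          rwa [add_sub_cancel_left, hnorm] at h3
        rw [← sq (χ x)]
        exact mul_le_mul_of_nonneg_right (pow_le_pow_left₀ (abs_nonneg _) h2 3) (sq_nonneg _)
      · have h2 : χ x = 0 := hρs x (not_le.1 hx)
        rw [h2]
        simp
    calc ∫ x, |u (x + t • ν) - u x| ^ 3 * χ x ^ 2
        ≤ ∫ x, (Lu * (t * ‖ν‖)) ^ 3 * (χ x * χ x) := by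
          refine integral_mono_of_nonneg (Filter.Eventually.of_forall fun x => ?_)
            (hχ2.const_mul _) (Filter.Eventually.of_forall h1)
          show 0 ≤ |u (x + t • ν) - u x| ^ 3 * χ x ^ 2
          positivity
      _ = (Lu ^ 3 * ‖ν‖ ^ 3 * ∫ x, χ x * χ x) * t ^ 3 := by
          rw [integral_const_mul]
          ring
  -- the double difference
  have hgi : Integrable (fun p : E d × E d => (u p.1 - u p.2) ^ 2 * dkap d s χ (t • ν) p.1 p.2) := by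
    refine dkap_int hd hs0 hs1 h.test (t • ν) (g := fun p : E d × E d => (u p.1 - u p.2) ^ 2)
      (B := 4) (by fun_prop) (fun p => ?_)
    have h1 := abs_le.1 (hB p.1)
    have h2 := abs_le.1 (hB p.2)
    rw [abs_of_nonneg (sq_nonneg _)]
    nlinarith
  have hS : MeasurableSet {p : E d × E d | ‖p.1 - p.2‖ < 2 * ‖t • ν‖} :=
    measurableSet_lt (by fun_prop) measurable_const
  have hsplit := integral_add_compl hS hgi
  have hnear := hCn (t • ν) hhp hh1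
  have hFi : Integrable (fun p : E d × E d => C * ‖t • ν‖ ^ 2 *
      ((u p.1 - u p.2) ^ 2 * ((W p.1 + W p.2) * K d s (p.1 - p.2)))) := hcut.const_mul _
  have hfar : |∫ p in {p : E d × E d | ‖p.1 - p.2‖ < 2 * ‖t • ν‖}ᶜ,
      (u p.1 - u p.2) ^ 2 * dkap d s χ (t • ν) p.1 p.2| ≤ C * ‖t • ν‖ ^ 2 *
      ∫ p : E d × E d, (u p.1 - u p.2) ^ 2 * ((W p.1 + W p.2) * K d s (p.1 - p.2)) := by
    rw [← Real.norm_eq_abs]
    refine (norm_integral_le_integral_norm _).trans ?_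
    calc ∫ p in {p : E d × E d | ‖p.1 - p.2‖ < 2 * ‖t • ν‖}ᶜ,
          ‖(u p.1 - u p.2) ^ 2 * dkap d s χ (t • ν) p.1 p.2‖
        ≤ ∫ p in {p : E d × E d | ‖p.1 - p.2‖ < 2 * ‖t • ν‖}ᶜ, C * ‖t • ν‖ ^ 2 *
          ((u p.1 - u p.2) ^ 2 * ((W p.1 + W p.2) * K d s (p.1 - p.2))) := by
          refine setIntegral_mono_on hgi.norm.integrableOn hFi.integrableOn hS.compl
            (fun p hp => ?_)
          have hp' : 2 * ‖t • ν‖ ≤ ‖p.1 - p.2‖ := not_lt.1 hp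
          have hne : p.1 ≠ p.2 := by
            intro he
            rw [he, sub_self, norm_zero] at hp'
            linarith
          rw [Real.norm_eq_abs, abs_mul, abs_of_nonneg (sq_nonneg _)]
          calc (u p.1 - u p.2) ^ 2 * |dkap d s χ (t • ν) p.1 p.2|
              ≤ (u p.1 - u p.2) ^ 2 * (C * ‖t • ν‖ ^ 2 * ((W p.1 + W p.2) * K d s (p.1 - p.2))) :=
                mul_le_mul_of_nonneg_left (hC _ _ _ hh1 hne hp') (sq_nonneg _)
            _ = C * ‖t • ν‖ ^ 2 *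
                ((u p.1 - u p.2) ^ 2 * ((W p.1 + W p.2) * K d s (p.1 - p.2))) := by ring
      _ ≤ ∫ p : E d × E d, C * ‖t • ν‖ ^ 2 *
          ((u p.1 - u p.2) ^ 2 * ((W p.1 + W p.2) * K d s (p.1 - p.2))) := by
          refine setIntegral_le_integral hFi (Filter.Eventually.of_forall fun p => ?_)
          show 0 ≤ C * ‖t • ν‖ ^ 2 * ((u p.1 - u p.2) ^ 2 * ((W p.1 + W p.2) * K d s (p.1 - p.2)))
          exact mul_nonneg (by positivity) (mul_nonneg (sq_nonneg _)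
            (mul_nonneg (add_nonneg (h.Wnn _) (h.Wnn _)) (K_nonneg _)))
      _ = _ := by rw [integral_const_mul]
  have hb := base1 hd hs0 hs1 hc hu hst (t • ν) h.test
  have hpow : ‖t • ν‖ ^ (4 - 2 * s) = t ^ (4 - 2 * s) * ‖ν‖ ^ (4 - 2 * s) := by
    rw [hnorm, Real.mul_rpow ht.le (norm_nonneg _)]
  rw [hpow] at hnear
  have h5 := abs_le.1 hnear
  have h6 := abs_le.1 hfar
  have h7 : 3 / c * ∫ x, |u (x + t • ν) - u x| ^ 3 * χ x ^ 2 ≤
      3 / c * ((Lu ^ 3 * ‖ν‖ ^ 3 * ∫ x, χ x * χ x) * t ^ 3) :=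
    mul_le_mul_of_nonneg_left hcub (by positivity)
  have h8 : C * ‖t • ν‖ ^ 2 * (∫ p : E d × E d, (u p.1 - u p.2) ^ 2 *
      ((W p.1 + W p.2) * K d s (p.1 - p.2))) = t ^ 2 * (C * ‖ν‖ ^ 2 *
      ∫ p : E d × E d, (u p.1 - u p.2) ^ 2 * ((W p.1 + W p.2) * K d s (p.1 - p.2))) := by
    rw [hnorm]
    ring
  have h9 : 0 ≤ t ^ 2 * (C * ‖ν‖ ^ 2 *
      ∫ p : E d × E d, (u p.1 - u p.2) ^ 2 * ((W p.1 + W p.2) * K d s (p.1 - p.2))) :=
    mul_nonneg (by positivity) (mul_nonneg (by positivity) hI)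
  have h10 : 0 ≤ Cn * (t ^ (4 - 2 * s) * ‖ν‖ ^ (4 - 2 * s)) :=
    mul_nonneg hCn0 (mul_nonneg ht4 (Real.rpow_nonneg (norm_nonneg _) _))
  have h11 : 0 ≤ 3 / c * (Lu ^ 3 * ‖ν‖ ^ 3 * ∫ x, χ x * χ x) * t ^ (4 - 2 * s) :=
    mul_nonneg hB0 ht4
  have h12 : 0 ≤ Cn * ‖ν‖ ^ (4 - 2 * s) * t ^ 3 := mul_nonneg hA0 ht3
  rw [h8] at h6
  refine hb.trans ?_
  rw [← hsplit]
  nlinarith [h5.1, h5.2, h6.1, h6.2, h7, h9, h10, h11, h12]

/-- MODULE fg. Divide `step` by `t ^ 2` and let `t → 0` (Fatou, `lintegral_liminf_le`; the difference quotients converge to `w = ∂_ν u`; `4 - 2 s > 2`).  Pointwise `(|a| |b| - a b) ≥ a⁺ b⁻` with `a⁺ = ofReal a`, `b⁻ = ofReal (-b)`. -/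
theorem main (hd : 1 ≤ d) (hs0 : 0 < s) (hs1 : s < 1) : ∃ C : ℝ, 0 ≤ C ∧ ∀ c : ℝ, 0 < c → ∀ u : E d → ℝ, Entire d s c u → Stable d s c u →
    ∀ χ W : E d → ℝ, Cut χ W → ∀ ν : E d,
      ∫⁻ p : E d × E d, ENNReal.ofReal (fderiv ℝ u p.1 ν) * ENNReal.ofReal (-fderiv ℝ u p.2 ν) *
          ENNReal.ofReal (χ p.1 * χ p.2 * K d s (p.1 - p.2)) ≤
        ENNReal.ofReal (C * ‖ν‖ ^ 2 * ∫ p : E d × E d, (u p.1 - u p.2) ^ 2 * ((W p.1 + W p.2) * K d s (p.1 - p.2))) := by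
  obtain ⟨C, hC0, hC⟩ := dkap_far (d := d) (s := s) hs0
  refine ⟨C, hC0, fun c hc u hu hst χ W hcut ν => ?_⟩
  obtain ⟨C', hC'0, hstep⟩ := step hd hs0 hs1 hc hu hst hcut hC0 (hC χ W hcut) ν
  set I : ℝ := ∫ p : E d × E d, (u p.1 - u p.2) ^ 2 * ((W p.1 + W p.2) * K d s (p.1 - p.2)) with hI
  obtain ⟨t, ht0, htl⟩ : ∃ t : ℕ → ℝ, (∀ n, 0 < t n) ∧ Tendsto t atTop (𝓝 0) :=
    ⟨fun n => 1 / ((n:ℝ) + 1), fun n => by positivity, tendsto_one_div_add_atTop_nhds_zero_nat⟩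
  have hLL : LocLip u := hu.locLip
  have hBu : ∀ x, |u x| ≤ 1 := fun x => (hu.bound x).le
  set Φ : ℕ → E d × E d → ℝ := fun n p => (|u (p.1 + t n • ν) - u p.1| * |u (p.2 + t n • ν) - u p.2| - (u (p.1 + t n • ν) - u p.1) * (u (p.2 + t n • ν) - u p.2)) *
        (χ p.1 * χ p.2) * K d s (p.1 - p.2) with hΦ
  have hint : ∀ n, Integrable (Φ n) := fun n => base1_int hd hs0 hs1 hLL hBu (t n • ν) hcut.test
  have hnn : ∀ n p, 0 ≤ Φ n p := by
    intro n p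
    have h1 : 0 ≤ |u (p.1 + t n • ν) - u p.1| * |u (p.2 + t n • ν) - u p.2| -
        (u (p.1 + t n • ν) - u p.1) * (u (p.2 + t n • ν) - u p.2) := by
      rw [← abs_mul]
      linarith [le_abs_self ((u (p.1 + t n • ν) - u p.1) * (u (p.2 + t n • ν) - u p.2))]
    exact mul_nonneg (mul_nonneg h1 (mul_nonneg (hcut.nonneg _) (hcut.nonneg _))) (K_nonneg _)
  set f : ℕ → E d × E d → ENNReal := fun n p => ENNReal.ofReal ((t n ^ 2)⁻¹ * Φ n p) with hf
  have hfm : ∀ n, AEMeasurable (f n) := fun n =>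
    ((hint n).const_mul _).aestronglyMeasurable.aemeasurable.ennreal_ofReal
  have hfi : ∀ n, ∫⁻ p, f n p = ENNReal.ofReal ((t n ^ 2)⁻¹ * ∫ p, Φ n p) := by
    intro n
    have h1 := ofReal_integral_eq_lintegral_ofReal ((hint n).const_mul ((t n ^ 2)⁻¹))
      (ae_of_all _ fun p => mul_nonneg (inv_nonneg.2 (sq_nonneg (t n))) (hnn n p))
    rw [integral_const_mul] at h1
    exact h1.symm
  have hbd : ∀ᶠ n in atTop, ∫⁻ p, f n p ≤ ENNReal.ofReal (C * ‖ν‖ ^ 2 * I + C' * t n ^ (2 - 2 * s) + C' * t n) := by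
    have h1 : ∀ᶠ n in atTop, t n * ‖ν‖ ≤ 1 := by
      have h2 : Tendsto (fun n => t n * ‖ν‖) atTop (𝓝 (0 * ‖ν‖)) := htl.mul_const _
      rw [zero_mul] at h2
      exact h2.eventually (ge_mem_nhds (by norm_num : (0:ℝ) < 1))
    filter_upwards [h1] with n hn
    rw [hfi n]
    apply ENNReal.ofReal_le_ofReal
    have h3 := hstep (t n) (ht0 n) hn
    have ht2 : 0 < t n ^ 2 := pow_pos (ht0 n) 2
    rw [inv_mul_le_iff₀ ht2]
    have e1 : t n ^ (4 - 2 * s) = t n ^ 2 * t n ^ (2 - 2 * s) := by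
      rw [← Real.rpow_natCast (t n) 2, ← Real.rpow_add (ht0 n)]
      congr 1
      push_cast
      ring
    refine h3.trans (le_of_eq ?_)
    rw [e1]
    ring
  have hlim : Tendsto (fun n => ENNReal.ofReal (C * ‖ν‖ ^ 2 * I + C' * t n ^ (2 - 2 * s) + C' * t n)) atTop
      (𝓝 (ENNReal.ofReal (C * ‖ν‖ ^ 2 * I))) := by
    apply ENNReal.tendsto_ofReal
    have h1 : Tendsto (fun n => t n ^ (2 - 2 * s)) atTop (𝓝 0) := by
      have h2 := htl.rpow_const (p := 2 - 2 * s) (Or.inr (by linarith))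
      rwa [Real.zero_rpow (by linarith)] at h2
    have h3 := ((tendsto_const_nhds (x := C * ‖ν‖ ^ 2 * I)).add (h1.const_mul C')).add (htl.const_mul C')
    simpa using h3
  have hq : ∀ x, Tendsto (fun n => (t n)⁻¹ * (u (x + t n • ν) - u x)) atTop (𝓝 (fderiv ℝ u x ν)) := by
    intro x
    have h1 : HasFDerivAt u (fderiv ℝ u x) x :=
      ((hu.smooth.differentiable (by norm_num)) x).hasFDerivAt
    have h2 : HasDerivAt (fun r : ℝ => u (x + r • ν)) (fderiv ℝ u x ν) 0 := h1.hasLineDerivAt ν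
    have h3 := hasDerivAt_iff_tendsto_slope_zero.1 h2
    have h4 : Tendsto t atTop (𝓝[≠] 0) :=
      tendsto_nhdsWithin_iff.2 ⟨htl, Eventually.of_forall fun n => (ht0 n).ne'⟩
    have h5 := h3.comp h4
    refine h5.congr fun n => ?_
    simp [Function.comp]
  have hptw : ∀ p : E d × E d, ENNReal.ofReal (fderiv ℝ u p.1 ν) * ENNReal.ofReal (-fderiv ℝ u p.2 ν) *
      ENNReal.ofReal (χ p.1 * χ p.2 * K d s (p.1 - p.2)) ≤ liminf (fun n => f n p) atTop := by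
    intro p
    have hl : Tendsto (fun n => f n p) atTop (𝓝 (ENNReal.ofReal ((|fderiv ℝ u p.1 ν| * |fderiv ℝ u p.2 ν| -
        fderiv ℝ u p.1 ν * fderiv ℝ u p.2 ν) * (χ p.1 * χ p.2) * K d s (p.1 - p.2)))) := by
      apply ENNReal.tendsto_ofReal
      have h6 := ((((hq p.1).abs.mul (hq p.2).abs).sub ((hq p.1).mul (hq p.2))).mul_const
        (χ p.1 * χ p.2)).mul_const (K d s (p.1 - p.2))
      refine h6.congr fun n => ?_
      have ht : t n ≠ 0 := (ht0 n).ne'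
      simp only [hΦ, abs_mul, abs_inv, abs_of_pos (ht0 n)]
      field_simp
    rw [hl.liminf_eq]
    have hk : 0 ≤ χ p.1 * χ p.2 * K d s (p.1 - p.2) :=
      mul_nonneg (mul_nonneg (hcut.nonneg _) (hcut.nonneg _)) (K_nonneg _)
    rcases le_or_gt (fderiv ℝ u p.1 ν) 0 with ha | ha
    · rw [ENNReal.ofReal_of_nonpos ha, zero_mul, zero_mul]
      exact zero_le
    rcases le_or_gt (-fderiv ℝ u p.2 ν) 0 with hb | hb
    · rw [ENNReal.ofReal_of_nonpos hb, mul_zero, zero_mul]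
      exact zero_le
    rw [← ENNReal.ofReal_mul ha.le, ← ENNReal.ofReal_mul (mul_nonneg ha.le hb.le)]
    apply ENNReal.ofReal_le_ofReal
    have hb' : fderiv ℝ u p.2 ν < 0 := by linarith
    rw [abs_of_pos ha, abs_of_neg hb']
    have h7 : 0 ≤ fderiv ℝ u p.1 ν * -fderiv ℝ u p.2 ν * (χ p.1 * χ p.2 * K d s (p.1 - p.2)) :=
      mul_nonneg (mul_nonneg ha.le hb.le) hk
    nlinarith [h7]
  calc ∫⁻ p : E d × E d, ENNReal.ofReal (fderiv ℝ u p.1 ν) * ENNReal.ofReal (-fderiv ℝ u p.2 ν) *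
          ENNReal.ofReal (χ p.1 * χ p.2 * K d s (p.1 - p.2))
      ≤ ∫⁻ p : E d × E d, liminf (fun n => f n p) atTop := lintegral_mono hptw
    _ ≤ liminf (fun n => ∫⁻ p, f n p) atTop := lintegral_liminf_le' hfm
    _ ≤ liminf (fun n => ENNReal.ofReal (C * ‖ν‖ ^ 2 * I + C' * t n ^ (2 - 2 * s) + C' * t n)) atTop :=
        liminf_le_liminf hbd
    _ = ENNReal.ofReal (C * ‖ν‖ ^ 2 * I) := hlim.liminf_eq

/-- the energy density `∫ (u x - u y) ^ 2 K (x - y) dy` -/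
def en (d : ℕ) (s : ℝ) (u : E d → ℝ) (x : E d) : ENNReal := ∫⁻ y, ENNReal.ofReal ((u x - u y) ^ 2 * K d s (x - y))

/-- MODULE fh. -/
theorem en_meas {u : E d → ℝ} (hu : Continuous u) : Measurable (en d s u) := by
  have h1 : Measurable (fun p : E d × E d =>
      ENNReal.ofReal ((u p.1 - u p.2) ^ 2 * K d s (p.1 - p.2))) := by
    have hK : Measurable (fun p : E d × E d => K d s (p.1 - p.2)) :=
      K_meas.comp (measurable_fst.sub measurable_snd)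
    have hu1 : Measurable (fun p : E d × E d => u p.1) := hu.measurable.comp measurable_fst
    have hu2 : Measurable (fun p : E d × E d => u p.2) := hu.measurable.comp measurable_snd
    exact (((hu1.sub hu2).pow_const 2).mul hK).ennreal_ofReal
  exact h1.lintegral_prod_right'

/-- MODULE fh. Tonelli and the symmetry `x ↔ y`. -/
theorem en_sum (hd : 1 ≤ d) (hs0 : 0 < s) (hs1 : s < 1) {u : E d → ℝ} (hu : LocLip u) (hB : ∀ x, |u x| ≤ 1)
    {χ W : E d → ℝ} (h : Cut χ W) :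
    ENNReal.ofReal (∫ p : E d × E d, (u p.1 - u p.2) ^ 2 * ((W p.1 + W p.2) * K d s (p.1 - p.2))) =
      2 * ∫⁻ x, ENNReal.ofReal (W x) * en d s u x := by
  have hc := hu.continuous
  have hK : Measurable (fun p : E d × E d => K d s (p.1 - p.2)) :=
    K_meas.comp (measurable_fst.sub measurable_snd)
  have hu1 : Measurable (fun p : E d × E d => u p.1) := hc.measurable.comp measurable_fst
  have hu2 : Measurable (fun p : E d × E d => u p.2) := hc.measurable.comp measurable_snd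
  have hW1 : Measurable (fun p : E d × E d => W p.1) := h.Wmeas.comp measurable_fst
  have hW2 : Measurable (fun p : E d × E d => W p.2) := h.Wmeas.comp measurable_snd
  have hM : Measurable (fun p : E d × E d =>
      ENNReal.ofReal ((u p.1 - u p.2) ^ 2 * K d s (p.1 - p.2))) :=
    (((hu1.sub hu2).pow_const 2).mul hK).ennreal_ofReal
  rw [ofReal_integral_eq_lintegral_ofReal (cut_int hd hs0 hs1 hu hB h)
    (Filter.Eventually.of_forall fun p => mul_nonneg (sq_nonneg _)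
      (mul_nonneg (add_nonneg (h.Wnn _) (h.Wnn _)) (K_nonneg _)))]
  have e1 : ∀ p : E d × E d, ENNReal.ofReal ((u p.1 - u p.2) ^ 2 *
      ((W p.1 + W p.2) * K d s (p.1 - p.2))) =
      ENNReal.ofReal (W p.1) * ENNReal.ofReal ((u p.1 - u p.2) ^ 2 * K d s (p.1 - p.2)) +
      ENNReal.ofReal (W p.2) * ENNReal.ofReal ((u p.1 - u p.2) ^ 2 * K d s (p.1 - p.2)) := by
    intro p
    rw [← add_mul, ← ENNReal.ofReal_add (h.Wnn _) (h.Wnn _),
      ← ENNReal.ofReal_mul (add_nonneg (h.Wnn _) (h.Wnn _))]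
    congr 1
    ring
  simp_rw [e1]
  have m1 : Measurable (fun p : E d × E d => ENNReal.ofReal (W p.1) *
      ENNReal.ofReal ((u p.1 - u p.2) ^ 2 * K d s (p.1 - p.2))) :=
    hW1.ennreal_ofReal.mul hM
  have m2 : Measurable (fun p : E d × E d => ENNReal.ofReal (W p.2) *
      ENNReal.ofReal ((u p.1 - u p.2) ^ 2 * K d s (p.1 - p.2))) :=
    hW2.ennreal_ofReal.mul hM
  rw [lintegral_add_left m1]
  have i1 : ∫⁻ p : E d × E d, ENNReal.ofReal (W p.1) *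
      ENNReal.ofReal ((u p.1 - u p.2) ^ 2 * K d s (p.1 - p.2)) =
      ∫⁻ x, ENNReal.ofReal (W x) * en d s u x := by
    rw [Measure.volume_eq_prod, lintegral_prod _ m1.aemeasurable]
    refine lintegral_congr fun x => ?_
    have hx : Measurable (fun y : E d => ENNReal.ofReal ((u x - u y) ^ 2 * K d s (x - y))) :=
      hM.comp measurable_prodMk_left
    show (∫⁻ y, ENNReal.ofReal (W x) * ENNReal.ofReal ((u x - u y) ^ 2 * K d s (x - y))) =
      ENNReal.ofReal (W x) * ∫⁻ y, ENNReal.ofReal ((u x - u y) ^ 2 * K d s (x - y))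
    exact lintegral_const_mul _ hx
  have i2 : ∫⁻ p : E d × E d, ENNReal.ofReal (W p.2) *
      ENNReal.ofReal ((u p.1 - u p.2) ^ 2 * K d s (p.1 - p.2)) =
      ∫⁻ x, ENNReal.ofReal (W x) * en d s u x := by
    rw [← i1, Measure.volume_eq_prod]
    rw [← lintegral_prod_swap]
    refine lintegral_congr fun p => ?_
    simp only [Prod.fst_swap, Prod.snd_swap]
    rw [K_sub_comm p.2 p.1]
    congr 3
    ring
  rw [i1, i2, two_mul]

/-- MODULE fi. THE SIGN INEQUALITY (`main`, `en_sum`, Tonelli on the left side). -/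
theorem sign_ineq (hd : 1 ≤ d) (hs0 : 0 < s) (hs1 : s < 1) : ∃ C : ℝ, 0 ≤ C ∧ ∀ c : ℝ, 0 < c → ∀ u : E d → ℝ, Entire d s c u → Stable d s c u →
    ∀ χ W : E d → ℝ, Cut χ W → ∀ ν : E d,
      ∫⁻ x, ∫⁻ y, ENNReal.ofReal (fderiv ℝ u x ν) * ENNReal.ofReal (-fderiv ℝ u y ν) *
          ENNReal.ofReal (χ x * χ y * K d s (x - y)) ≤
        ENNReal.ofReal (C * ‖ν‖ ^ 2) * ∫⁻ x, ENNReal.ofReal (W x) * en d s u x := by
  obtain ⟨C, hC, h1⟩ := main (d := d) (s := s) hd hs0 hs1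
  refine ⟨2 * C, by positivity, ?_⟩
  intro c hc u hu hst χ W h ν
  have h2 := h1 c hc u hu hst χ W h ν
  have hu1 : ContDiff ℝ 1 u := hu.smooth.of_le (by norm_num)
  have hcf : Continuous (fun x => fderiv ℝ u x ν) :=
    (hu1.continuous_fderiv (by norm_num)).clm_apply continuous_const
  have hχc : Continuous χ := by
    obtain ⟨L, hL⟩ := h.test.lip
    exact hL.continuous
  have hK : Measurable (fun p : E d × E d => K d s (p.1 - p.2)) :=
    K_meas.comp (measurable_fst.sub measurable_snd)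
  have hm : Measurable (fun p : E d × E d => ENNReal.ofReal (fderiv ℝ u p.1 ν) *
      ENNReal.ofReal (-fderiv ℝ u p.2 ν) * ENNReal.ofReal (χ p.1 * χ p.2 * K d s (p.1 - p.2))) := by
    have a1 : Measurable (fun p : E d × E d => fderiv ℝ u p.1 ν) :=
      hcf.measurable.comp measurable_fst
    have a2 : Measurable (fun p : E d × E d => fderiv ℝ u p.2 ν) :=
      hcf.measurable.comp measurable_snd
    have a3 : Measurable (fun p : E d × E d => χ p.1) := hχc.measurable.comp measurable_fst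
    have a4 : Measurable (fun p : E d × E d => χ p.2) := hχc.measurable.comp measurable_snd
    exact (a1.ennreal_ofReal.mul a2.neg.ennreal_ofReal).mul ((a3.mul a4).mul hK).ennreal_ofReal
  rw [Measure.volume_eq_prod, lintegral_prod _ hm.aemeasurable] at h2
  refine h2.trans (le_of_eq ?_)
  have hL : LocLip u := hu.locLip
  have hB : ∀ x, |u x| ≤ 1 := fun x => (hu.bound x).le
  have h3 := en_sum hd hs0 hs1 hL hB h
  rw [Measure.volume_eq_prod] at h3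
  have h4 : ENNReal.ofReal (2 * C * ‖ν‖ ^ 2) = ENNReal.ofReal (C * ‖ν‖ ^ 2) * 2 := by
    have h5 : ENNReal.ofReal (2 : ℝ) = 2 := by simp
    have h6 : 2 * C * ‖ν‖ ^ 2 = C * ‖ν‖ ^ 2 * 2 := by ring
    rw [h6, ENNReal.ofReal_mul (by positivity), h5]
  rw [ENNReal.ofReal_mul (by positivity), h3, ← mul_assoc, h4]

end NDG
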