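import Pool.Agent.NDG.Weak

import Pool.Agent.NDG.Rad

/-! # Hölder estimate by doubling the variables -/

open MeasureTheory Filter Topology Set

noncomputable section

namespace NDG

variable {d : ℕ} {s c : ℝ}

/-- MODULE ra. The reflection in the hyperplane orthogonal to `a` (`Submodule.reflection (ℝ ∙ a)ᗮ`, or build it directly). -/
theorem exists_refl {a : E d} (ha : a ≠ 0) : ∃ T : E d ≃ₗᵢ[ℝ] E d, ∀ z, T z = z - (2 * inner ℝ a z / ‖a‖ ^ 2) • a := by
  refine ⟨(ℝ ∙ a)ᗮ.reflection, fun z => ?_⟩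
  rw [Submodule.reflection_orthogonal_apply, Submodule.reflection_singleton_apply]
  simp only [RCLike.ofReal_real_eq_id, id_eq]
  rw [neg_sub, two_smul, ← add_smul]
  congr 2
  ring

/-- MODULE ra. -/
theorem refl_norm {a : E d} {T : E d → E d} (hT : ∀ z, T z = z - (2 * inner ℝ a z / ‖a‖ ^ 2) • a)
    (z : E d) : ‖a + z - T z‖ = |1 + 2 * inner ℝ a z / ‖a‖ ^ 2| * ‖a‖ := by
  rw [hT z]
  have e : a + z - (z - (2 * inner ℝ a z / ‖a‖ ^ 2) • a) = (1 + 2 * inner ℝ a z / ‖a‖ ^ 2) • a := by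
    rw [add_smul, one_smul]
    abel
  rw [e, norm_smul, Real.norm_eq_abs]

private theorem rb_mono {f f' : ℝ → ℝ} (h0 : f 0 = 0)
    (hd : ∀ t ∈ Icc (0 : ℝ) (1 / 2), HasDerivAt f (f' t) t)
    (hn : ∀ t ∈ Icc (0 : ℝ) (1 / 2), 0 ≤ f' t) : ∀ t ∈ Icc (0 : ℝ) (1 / 2), 0 ≤ f t := by
  intro t ht
  have hm : MonotoneOn f (Icc (0 : ℝ) (1 / 2)) :=
    monotoneOn_of_deriv_nonneg (convex_Icc _ _)
      (fun x hx => (hd x hx).continuousAt.continuousWithinAt)
      (fun x hx => (hd x (interior_subset hx)).differentiableAt.differentiableWithinAt)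
      (fun x hx => by
        rw [(hd x (interior_subset hx)).deriv]
        exact hn x (interior_subset hx))
  have h1 := hm ⟨le_rfl, by norm_num⟩ ht ht.1
  rwa [h0] at h1

/-- MODULE rb. `φ t = 2 - (1 + t) ^ α - (1 - t) ^ α - α (1 - α) t ^ 2`: `φ 0 = φ' 0 = 0` and
`φ'' = α (1 - α) ((1 + t) ^ (α - 2) + (1 - t) ^ (α - 2) - 2) ≥ 0`. -/
theorem conc_two {α : ℝ} (h0 : 0 < α) (h1 : α < 1) {t : ℝ} (ht : |t| ≤ 1 / 2) :
    α * (1 - α) * t ^ 2 ≤ 2 - (1 + t) ^ α - (1 - t) ^ α := by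
  have key : ∀ t : ℝ, t ∈ Icc (0 : ℝ) (1 / 2) → α * (1 - α) * t ^ 2 ≤ 2 - (1 + t) ^ α - (1 - t) ^ α := by
    have h2 : ∀ t ∈ Icc (0 : ℝ) (1 / 2),
        0 ≤ -(α * (α - 1) * (1 + t) ^ (α - 2)) - α * (α - 1) * (1 - t) ^ (α - 2) - 2 * α * (1 - α) := by
      intro t ht
      have hp : 0 < 1 + t := by linarith [ht.1]
      have hq : 0 < 1 - t := by linarith [ht.2]
      have ha := Real.rpow_pos_of_pos hp (α - 2)
      have hb := Real.rpow_pos_of_pos hq (α - 2)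
      have hab : 1 ≤ (1 + t) ^ (α - 2) * (1 - t) ^ (α - 2) := by
        rw [← Real.mul_rpow hp.le hq.le]
        refine Real.one_le_rpow_of_pos_of_le_one_of_nonpos (mul_pos hp hq) ?_ (by linarith)
        nlinarith [sq_nonneg t]
      have hs : 2 ≤ (1 + t) ^ (α - 2) + (1 - t) ^ (α - 2) := by
        nlinarith [sq_nonneg ((1 + t) ^ (α - 2) - (1 - t) ^ (α - 2))]
      have h3 : 0 ≤ α * (1 - α) * ((1 + t) ^ (α - 2) + (1 - t) ^ (α - 2) - 2) :=
        mul_nonneg (mul_nonneg h0.le (by linarith)) (by linarith)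
      nlinarith [h3]
    have hd : ∀ t ∈ Icc (0 : ℝ) (1 / 2), HasDerivAt
        (fun t : ℝ => -(α * (1 + t) ^ (α - 1)) + α * (1 - t) ^ (α - 1) - 2 * α * (1 - α) * t)
        (-(α * (α - 1) * (1 + t) ^ (α - 2)) - α * (α - 1) * (1 - t) ^ (α - 2) - 2 * α * (1 - α)) t := by
      intro t ht
      have hp : 0 < 1 + t := by linarith [ht.1]
      have hq : 0 < 1 - t := by linarith [ht.2]
      have d1 := ((hasDerivAt_id t).const_add 1).rpow_const (p := α - 1) (Or.inl hp.ne')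
      have d2 := ((hasDerivAt_id t).const_sub 1).rpow_const (p := α - 1) (Or.inl hq.ne')
      have d3 := (((d1.const_mul α).neg).add (d2.const_mul α)).sub ((hasDerivAt_id t).const_mul (2 * α * (1 - α)))
      have d4 : HasDerivAt (fun t : ℝ => -(α * (1 + t) ^ (α - 1)) + α * (1 - t) ^ (α - 1) - 2 * α * (1 - α) * t) _ t := d3
      refine d4.congr_deriv ?_
      have e : α - 1 - 1 = α - 2 := by ring
      simp only [id, e]
      ring
    have hd0 : ∀ t ∈ Icc (0 : ℝ) (1 / 2), HasDerivAt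
        (fun t : ℝ => 2 - (1 + t) ^ α - (1 - t) ^ α - α * (1 - α) * t ^ 2)
        (-(α * (1 + t) ^ (α - 1)) + α * (1 - t) ^ (α - 1) - 2 * α * (1 - α) * t) t := by
      intro t ht
      have hp : 0 < 1 + t := by linarith [ht.1]
      have hq : 0 < 1 - t := by linarith [ht.2]
      have d1 := ((hasDerivAt_id t).const_add 1).rpow_const (p := α) (Or.inl hp.ne')
      have d2 := ((hasDerivAt_id t).const_sub 1).rpow_const (p := α) (Or.inl hq.ne')
      have d3 := ((d1.const_sub 2).sub d2).sub ((hasDerivAt_pow 2 t).const_mul (α * (1 - α)))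
      have d4 : HasDerivAt (fun t : ℝ => 2 - (1 + t) ^ α - (1 - t) ^ α - α * (1 - α) * t ^ 2) _ t := d3
      refine d4.congr_deriv ?_
      simp only [id]
      push_cast
      ring
    intro t ht
    have e1 := rb_mono (f := fun t : ℝ => -(α * (1 + t) ^ (α - 1)) + α * (1 - t) ^ (α - 1) - 2 * α * (1 - α) * t)
      (by simp) hd h2
    have h4 := rb_mono (f := fun t : ℝ => 2 - (1 + t) ^ α - (1 - t) ^ α - α * (1 - α) * t ^ 2)
      (by norm_num) hd0 e1 t ht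
    linarith
  rcases le_total 0 t with h | h
  · exact key t ⟨h, (abs_le.1 ht).2⟩
  · have h5 := key (-t) ⟨by linarith, by linarith [(abs_le.1 ht).1]⟩
    rw [neg_sq, sub_neg_eq_add, ← sub_eq_add_neg] at h5
    linarith

/-- MODULE rc. Integrable: `⟨a, z⟩ ^ 2 K ≤ ‖z‖ ^ (2 - 2 s - d)` (`near_int`). Lower bound: the ball with centre `(r / 2) a` and radius `r / 4` lies in the ball `r`, there `⟨a, z⟩ ≥ r / 4`,
`K z ≥ r ^ (-(d + 2 s))` (`K_anti`), and its volume is `(r / 4) ^ d` times a constant (`Measure.addHaar_ball`). -/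
theorem dir_moment (hd : 1 ≤ d) (hs0 : 0 < s) (hs1 : s < 1) : ∃ κ : ℝ, 0 < κ ∧ ∀ a : E d, ‖a‖ = 1 → ∀ r : ℝ, 0 < r →
    IntegrableOn (fun z => (inner ℝ a z) ^ 2 * K d s z) (Metric.ball 0 r) ∧
    κ * r ^ (2 - 2 * s) ≤ ∫ z in Metric.ball (0 : E d) r, (inner ℝ a z) ^ 2 * K d s z := by
  obtain ⟨C, hC, hsm⟩ := K_small hd hs0 hs1
  haveI : Nonempty (Fin d) := ⟨⟨0, by omega⟩⟩
  set v : ℝ := (volume (Metric.ball (0 : E d) 1)).toReal with hv
  have hv0 : 0 < v := ENNReal.toReal_pos (Metric.measure_ball_pos volume _ one_pos).ne' measure_ball_lt_top.ne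
  refine ⟨(1 / 4) ^ (d + 2) * v, by positivity, fun a ha r hr => ?_⟩
  have hle : ∀ z : E d, (inner ℝ a z) ^ 2 ≤ ‖z‖ ^ 2 := by
    intro z
    have h1 := abs_real_inner_le_norm a z
    rw [ha, one_mul] at h1
    exact sq_le_sq' (by linarith [(abs_le.1 h1).1]) (abs_le.1 h1).2
  have hint : IntegrableOn (fun z => (inner ℝ a z) ^ 2 * K d s z) (Metric.ball 0 r) := by
    have h1 : IntegrableOn (fun h : E d => ‖h‖ ^ 2 * K d s h) (Metric.ball 0 r) :=
      (hsm r hr).1.mono_set (fun z hz => by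
        rw [Metric.mem_ball, dist_zero_right] at hz
        exact hz.le)
    refine Integrable.mono' h1 ?_ (Filter.Eventually.of_forall fun z => ?_)
    · exact (((measurable_const.inner measurable_id).pow_const 2).mul K_meas).aestronglyMeasurable
    · rw [Real.norm_eq_abs, abs_of_nonneg (mul_nonneg (sq_nonneg _) (K_nonneg z))]
      exact mul_le_mul_of_nonneg_right (hle z) (K_nonneg z)
  refine ⟨hint, ?_⟩
  set B : Set (E d) := Metric.ball ((r / 2) • a) (r / 4) with hB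
  have hz1 : ∀ z ∈ B, r / 4 ≤ inner ℝ a z ∧ ‖z‖ < r := by
    intro z hz
    rw [hB, Metric.mem_ball, dist_eq_norm] at hz
    have e : z = (r / 2) • a + (z - (r / 2) • a) := by abel
    have h1 := abs_real_inner_le_norm a (z - (r / 2) • a)
    rw [ha, one_mul] at h1
    have h2 : inner ℝ a z = r / 2 + inner ℝ a (z - (r / 2) • a) := by
      conv_lhs => rw [e]
      rw [inner_add_right, inner_smul_right, real_inner_self_eq_norm_sq, ha]
      ring
    constructor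
    · rw [h2]
      linarith [(abs_le.1 h1).1]
    · have h3 : ‖z‖ ≤ ‖(r / 2) • a‖ + ‖z - (r / 2) • a‖ := by
        conv_lhs => rw [e]
        exact norm_add_le _ _
      rw [norm_smul, ha, Real.norm_eq_abs, abs_of_pos (by positivity), mul_one] at h3
      linarith
  have hsub : B ⊆ Metric.ball 0 r := by
    intro z hz
    rw [Metric.mem_ball, dist_zero_right]
    exact (hz1 z hz).2
  have hlow : ∀ z ∈ B, (r / 4) ^ 2 * r ^ (-((d : ℝ) + 2 * s)) ≤ (inner ℝ a z) ^ 2 * K d s z := by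
    intro z hz
    obtain ⟨h1, h2⟩ := hz1 z hz
    have hz0 : z ≠ 0 := by
      rintro rfl
      rw [inner_zero_right] at h1
      linarith
    refine mul_le_mul ?_ (K_anti hs0 hz0 h2.le) (Real.rpow_nonneg hr.le _) (sq_nonneg _)
    exact pow_le_pow_left₀ (by positivity) h1 2
  have hvol : (volume B).toReal = (r / 4) ^ d * v := by
    rw [hB, Measure.addHaar_ball volume _ (by positivity : (0 : ℝ) ≤ r / 4), ENNReal.toReal_mul,
      ENNReal.toReal_ofReal (by positivity), finrank_euclideanSpace, Fintype.card_fin]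
  calc (1 / 4) ^ (d + 2) * v * r ^ (2 - 2 * s)
      = (r / 4) ^ 2 * r ^ (-((d : ℝ) + 2 * s)) * ((r / 4) ^ d * v) := by
        have e1 : r ^ (2 - 2 * s) = r ^ 2 * r ^ d * r ^ (-((d : ℝ) + 2 * s)) := by
          rw [← Real.rpow_natCast r d, ← Real.rpow_natCast r 2, ← Real.rpow_add hr, ← Real.rpow_add hr]
          congr 1
          push_cast
          ring
        have e2 : r / 4 = r * (1 / 4) := by ring
        rw [e1, e2, mul_pow, mul_pow, pow_add]
        ring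
    _ = ∫ z in B, (r / 4) ^ 2 * r ^ (-((d : ℝ) + 2 * s)) := by
        rw [setIntegral_const, smul_eq_mul, mul_comm]
        rw [← hvol]
        rfl
    _ ≤ ∫ z in B, (inner ℝ a z) ^ 2 * K d s z := by
        refine setIntegral_mono_on (integrableOn_const measure_ball_lt_top.ne) (hint.mono_set hsub)
          measurableSet_ball hlow
    _ ≤ ∫ z in Metric.ball (0 : E d) r, (inner ℝ a z) ^ 2 * K d s z := by
        refine setIntegral_mono_set hint (Filter.Eventually.of_forall fun z => ?_) (Filter.Eventually.of_forall hsub)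
        exact mul_nonneg (sq_nonneg _) (K_nonneg z)

/-- the penalization `3 ‖x‖ ^ 2 / (ρ ^ 2 + ‖x‖ ^ 2)` -/
def pen {d : ℕ} (ρ : ℝ) (x : E d) : ℝ := 3 * ‖x‖ ^ 2 / (ρ ^ 2 + ‖x‖ ^ 2)

/-- MODULE rd. -/
theorem pen_basic {ρ : ℝ} (hρ : 0 < ρ) : Continuous (pen (d := d) ρ) ∧ (∀ x : E d, 0 ≤ pen ρ x ∧ pen ρ x ≤ 3) ∧
    ∀ x : E d, 2 * ρ ≤ ‖x‖ → 2 < pen ρ x := by
  have hR : 0 < ρ ^ 2 := by positivity
  refine ⟨?_, ?_, ?_⟩
  · unfold pen
    refine Continuous.div (by fun_prop) (by fun_prop) fun x => ?_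
    positivity
  · intro x
    unfold pen
    constructor
    · positivity
    · rw [div_le_iff₀ (by positivity)]
      nlinarith
  · intro x hx
    unfold pen
    rw [lt_div_iff₀ (by positivity)]
    nlinarith [pow_le_pow_left₀ (by positivity) hx 2]

/-- MODULE rd. -/
theorem pen_lim (x : E d) : Tendsto (fun ρ : ℝ => pen ρ x) atTop (𝓝 0) := by
  unfold pen
  exact Tendsto.const_div_atTop (tendsto_atTop_add_const_right _ _ (tendsto_pow_atTop two_ne_zero)) _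

/-- MODULE re. `pen = 3 - 3 F`, `F = 1 / A`, `A = 1 + ‖x‖ ^ 2 / ρ ^ 2`; with `P, Q` the same at `x ± z`: `1/P + 1/Q - 2/A = (A (P + Q) - 2 P Q) / (A P Q)` and
`A (P + Q) - 2 P Q = -2 A q - 2 q ^ 2 + 8 b ^ 2` with `q = ‖z‖ ^ 2 / ρ ^ 2`, `b = ⟨x, z⟩ / ρ ^ 2`, `b ^ 2 ≤ (A - 1) q ≤ A q`.  Also `P Q ≥ 1` and `P Q ≥ P + Q - 1 = 2 A + 2 q - 1 ≥ q`.  So the second difference
of `F` is at most `10 q`, and it is at most `2`. -/
theorem pen_snd {ρ : ℝ} (hρ : 0 < ρ) (x z : E d) :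
    |2 * pen ρ x - pen ρ (x + z) - pen ρ (x - z)| ≤ 36 * min 1 (‖z‖ ^ 2 / ρ ^ 2) := by
  have hR : 0 < ρ ^ 2 := by positivity
  have hx0 : 0 ≤ ‖x‖ ^ 2 := sq_nonneg _
  set A : ℝ := 1 + ‖x‖ ^ 2 / ρ ^ 2 with hA
  set q : ℝ := ‖z‖ ^ 2 / ρ ^ 2 with hq
  set b : ℝ := inner ℝ x z / ρ ^ 2 with hb
  have hA1 : 1 ≤ A := by
    have : 0 ≤ ‖x‖ ^ 2 / ρ ^ 2 := by positivity
    linarith
  have hq0 : 0 ≤ q := by positivity
  have hbb : b ^ 2 ≤ (A - 1) * q := by
    have h1 := abs_real_inner_le_norm x z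
    have h2 : (inner ℝ x z) ^ 2 ≤ ‖x‖ ^ 2 * ‖z‖ ^ 2 := by
      rw [← mul_pow, ← sq_abs (inner ℝ x z)]
      exact pow_le_pow_left₀ (abs_nonneg _) h1 2
    have h3 : (A - 1) * q = ‖x‖ ^ 2 * ‖z‖ ^ 2 / (ρ ^ 2) ^ 2 := by
      rw [hA, hq]
      field_simp
      try ring
    rw [h3, hb, div_pow]
    exact div_le_div_of_nonneg_right h2 (by positivity)
  have hpen : ∀ w : E d, pen ρ w = 3 - 3 * (1 + ‖w‖ ^ 2 / ρ ^ 2)⁻¹ := by
    intro w
    unfold pen
    have h1 : ρ ^ 2 + ‖w‖ ^ 2 ≠ 0 := by positivity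
    have h2 : 1 + ‖w‖ ^ 2 / ρ ^ 2 = (ρ ^ 2 + ‖w‖ ^ 2) / ρ ^ 2 := by
      field_simp
    rw [h2, inv_div]
    field_simp
    ring
  set P : ℝ := A + q + 2 * b with hP
  set Q : ℝ := A + q - 2 * b with hQ
  have eP : 1 + ‖x + z‖ ^ 2 / ρ ^ 2 = P := by
    rw [hP, hA, hq, hb, norm_add_sq_real]
    field_simp
    try ring
  have eQ : 1 + ‖x - z‖ ^ 2 / ρ ^ 2 = Q := by
    rw [hQ, hA, hq, hb, norm_sub_sq_real]
    field_simp
    try ring
  have hP1 : 1 ≤ P := by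
    rw [← eP]
    have : 0 ≤ ‖x + z‖ ^ 2 / ρ ^ 2 := by positivity
    linarith
  have hQ1 : 1 ≤ Q := by
    rw [← eQ]
    have : 0 ≤ ‖x - z‖ ^ 2 / ρ ^ 2 := by positivity
    linarith
  rw [hpen, hpen, hpen, eP, eQ]
  have e : 2 * (3 - 3 * A⁻¹) - (3 - 3 * P⁻¹) - (3 - 3 * Q⁻¹) = 3 * (P⁻¹ + Q⁻¹ - 2 * A⁻¹) := by ring
  rw [e, abs_mul, abs_of_pos (by norm_num : (0 : ℝ) < 3)]
  have hPi : 0 < P⁻¹ ∧ P⁻¹ ≤ 1 := ⟨by positivity, inv_le_one_of_one_le₀ hP1⟩
  have hQi : 0 < Q⁻¹ ∧ Q⁻¹ ≤ 1 := ⟨by positivity, inv_le_one_of_one_le₀ hQ1⟩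
  have hAi : 0 < A⁻¹ ∧ A⁻¹ ≤ 1 := ⟨by positivity, inv_le_one_of_one_le₀ hA1⟩
  have hb1 : |P⁻¹ + Q⁻¹ - 2 * A⁻¹| ≤ 12 := by
    rw [abs_le]
    constructor <;> linarith [hPi.1, hPi.2, hQi.1, hQi.2, hAi.1, hAi.2]
  have hb2 : |P⁻¹ + Q⁻¹ - 2 * A⁻¹| ≤ 12 * q := by
    have hPQ : A + q ≤ P * Q := by
      have : 0 ≤ (P - 1) * (Q - 1) := mul_nonneg (by linarith) (by linarith)
      have h4 : P + Q = 2 * (A + q) := by rw [hP, hQ]; ring
      nlinarith
    have hP0 : 0 < P := by linarith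
    have hQ0 : 0 < Q := by linarith
    have hA0 : 0 < A := by linarith
    have e2 : P⁻¹ + Q⁻¹ - 2 * A⁻¹ = (8 * b ^ 2 - 2 * q * (A + q)) / (A * (P * Q)) := by
      have h5 : A * (P + Q) - 2 * (P * Q) = 8 * b ^ 2 - 2 * q * (A + q) := by
        rw [hP, hQ]
        ring
      rw [← h5]
      field_simp
      try ring
    rw [e2, abs_div, abs_of_pos (mul_pos hA0 (mul_pos hP0 hQ0)), div_le_iff₀ (mul_pos hA0 (mul_pos hP0 hQ0))]
    have h6 : 0 ≤ q * A := mul_nonneg hq0 hA0.le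
    have h7 : 10 * (q * A) + 2 * q ^ 2 ≤ 12 * q * (A * (P * Q)) := by
      have h8 : q * A * 1 ≤ q * A * (P * Q) := mul_le_mul_of_nonneg_left (by linarith) h6
      have h9 : q * A * q ≤ q * A * (P * Q) := mul_le_mul_of_nonneg_left (by linarith) h6
      have h10 : q * q ≤ q * A * q := by nlinarith [mul_nonneg hq0 hq0]
      nlinarith
    have h11 : 0 ≤ q ^ 2 := sq_nonneg _
    have h12 : 0 ≤ b ^ 2 := sq_nonneg _
    rw [abs_le]
    constructor
    · nlinarith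
    · nlinarith
  calc 3 * |P⁻¹ + Q⁻¹ - 2 * A⁻¹| ≤ 3 * (12 * min 1 q) := by
        refine mul_le_mul_of_nonneg_left ?_ (by norm_num)
        rw [mul_min_of_nonneg _ _ (by norm_num : (0 : ℝ) ≤ 12), mul_one]
        exact le_min hb1 hb2
    _ = 36 * min 1 q := by ring

/-- MODULE rf. Replace `z` by `- z` (the set `ε < ‖z‖` and `K` are symmetric) and take the mean; `pen_snd`; `K_far`, `K_min` (integrability). -/
theorem pen_trunc (hd : 1 ≤ d) (hs0 : 0 < s) (hs1 : s < 1) {ρ : ℝ} (hρ : 0 < ρ) (x : E d) {ε : ℝ} (hε : 0 < ε) :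
    IntegrableOn (fun z => (pen ρ x - pen ρ (x + z)) * K d s z) {z : E d | ε < ‖z‖} ∧
    |∫ z in {z : E d | ε < ‖z‖}, (pen ρ x - pen ρ (x + z)) * K d s z| ≤
      18 * ∫ z : E d, min 1 (‖z‖ ^ 2 / ρ ^ 2) * K d s z := by
  obtain ⟨C, hC, hmin⟩ := K_min hd hs0 hs1
  obtain ⟨hcont, hbd, -⟩ := pen_basic (d := d) hρ
  set S : Set (E d) := {z : E d | ε < ‖z‖} with hS
  have hSm : MeasurableSet S := measurableSet_lt measurable_const measurable_norm
  have hK : IntegrableOn (K d s) S := (K_far hs0 hε).mono_set fun z hz => by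
    rw [mem_setOf_eq]
    exact le_of_lt hz
  have hgen : ∀ g : E d → ℝ, Continuous g → (∀ z, |g z| ≤ 6) → IntegrableOn (fun z => g z * K d s z) S := by
    intro g hg hg6
    refine Integrable.mono' (hK.const_mul 6) (hg.measurable.mul K_meas).aestronglyMeasurable
      (Filter.Eventually.of_forall fun z => ?_)
    rw [norm_mul, Real.norm_eq_abs, Real.norm_eq_abs, abs_of_nonneg (K_nonneg z)]
    exact mul_le_mul_of_nonneg_right (hg6 z) (K_nonneg z)
  have h1 : IntegrableOn (fun z => (pen ρ x - pen ρ (x + z)) * K d s z) S := by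
    refine hgen _ (by fun_prop) fun z => ?_
    have ha := hbd x
    have hb := hbd (x + z)
    rw [abs_le]
    constructor <;> linarith [ha.1, ha.2, hb.1, hb.2]
  have h2 : IntegrableOn (fun z => (pen ρ x - pen ρ (x - z)) * K d s z) S := by
    refine hgen _ (by fun_prop) fun z => ?_
    have ha := hbd x
    have hb := hbd (x - z)
    rw [abs_le]
    constructor <;> linarith [ha.1, ha.2, hb.1, hb.2]
  refine ⟨h1, ?_⟩
  have hsym : ∫ z in S, (pen ρ x - pen ρ (x - z)) * K d s z = ∫ z in S, (pen ρ x - pen ρ (x + z)) * K d s z := by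
    rw [← integral_indicator hSm, ← integral_indicator hSm, ← integral_neg_eq_self]
    congr 1
    ext z
    by_cases hz : z ∈ S
    · have hz' : -z ∈ S := by
        rw [hS, mem_setOf_eq, norm_neg]
        exact hz
      rw [indicator_of_mem hz', indicator_of_mem hz, K_neg, sub_neg_eq_add]
    · have hz' : -z ∉ S := by
        rw [hS, mem_setOf_eq, norm_neg]
        exact hz
      rw [indicator_of_notMem hz', indicator_of_notMem hz]
  have hsum : 2 * ∫ z in S, (pen ρ x - pen ρ (x + z)) * K d s z =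
      ∫ z in S, (2 * pen ρ x - pen ρ (x + z) - pen ρ (x - z)) * K d s z := by
    rw [two_mul]
    nth_rewrite 2 [← hsym]
    rw [← integral_add h1 h2]
    congr 1
    ext z
    ring
  have hm0 : ∀ z : E d, 0 ≤ min 1 (‖z‖ ^ 2 / ρ ^ 2) * K d s z := fun z =>
    mul_nonneg (le_min zero_le_one (by positivity)) (K_nonneg z)
  have hbound : |∫ z in S, (2 * pen ρ x - pen ρ (x + z) - pen ρ (x - z)) * K d s z| ≤
      36 * ∫ z : E d, min 1 (‖z‖ ^ 2 / ρ ^ 2) * K d s z := by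
    rw [← Real.norm_eq_abs]
    refine (norm_integral_le_of_norm_le (g := fun z => 36 * (min 1 (‖z‖ ^ 2 / ρ ^ 2) * K d s z))
      ((hmin ρ hρ).1.integrableOn.const_mul 36) (Filter.Eventually.of_forall fun z => ?_)).trans ?_
    · rw [norm_mul, Real.norm_eq_abs, Real.norm_eq_abs, abs_of_nonneg (K_nonneg z), ← mul_assoc]
      exact mul_le_mul_of_nonneg_right (pen_snd hρ x z) (K_nonneg z)
    · rw [integral_const_mul]
      refine mul_le_mul_of_nonneg_left ?_ (by norm_num)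
      exact setIntegral_le_integral (hmin ρ hρ).1 (Filter.Eventually.of_forall hm0)
  rw [← hsum, abs_mul, abs_of_pos (by norm_num : (0 : ℝ) < 2)] at hbound
  linarith

/-- MODULE rg. The function is continuous; if it is positive then `‖x‖ < 2 ρ` (`pen_basic`, `u x - u y < 2`) and `L ‖x - y‖ ^ α < 2`, so `y` is bounded too: the supremum is a maximum over a compact set. -/
theorem max_pt {u : E d → ℝ} (hu : Continuous u) (hB : ∀ x, |u x| < 1) {α L ρ : ℝ} (hα : 0 < α) (hL : 0 < L) (hρ : 0 < ρ)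
    {x₀ y₀ : E d} (h : 0 < u x₀ - u y₀ - L * ‖x₀ - y₀‖ ^ α - pen ρ x₀) :
    ∃ x y : E d, 0 < u x - u y - L * ‖x - y‖ ^ α - pen ρ x ∧ ∀ x' y' : E d,
      u x' - u y' - L * ‖x' - y'‖ ^ α - pen ρ x' ≤ u x - u y - L * ‖x - y‖ ^ α - pen ρ x := by
  obtain ⟨hcont, hbd, hfar⟩ := pen_basic (d := d) hρ
  set F : E d × E d → ℝ := fun p => u p.1 - u p.2 - L * ‖p.1 - p.2‖ ^ α - pen ρ p.1 with hF
  have hFc : Continuous F := by
    refine ((((hu.comp continuous_fst).sub (hu.comp continuous_snd)).sub ?_)).sub (hcont.comp continuous_fst)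
    exact continuous_const.mul ((continuous_fst.sub continuous_snd).norm.rpow_const fun _ => Or.inr hα.le)
  set R : ℝ := (2 / L) ^ α⁻¹ with hR
  have hco : ∀ᶠ p in cocompact (E d × E d), F p ≤ F (x₀, y₀) := by
    have hc : IsCompact (Metric.closedBall (0 : E d) (2 * ρ) ×ˢ Metric.closedBall (0 : E d) (2 * ρ + R)) :=
      (isCompact_closedBall _ _).prod (isCompact_closedBall _ _)
    filter_upwards [hc.compl_mem_cocompact] with p hp
    by_contra hlt
    rw [not_le] at hlt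
    have h1 : 0 < F p := lt_trans h hlt
    have h2 : u p.1 - u p.2 < 2 := by
      have ha := abs_lt.1 (hB p.1)
      have hb := abs_lt.1 (hB p.2)
      linarith [ha.2, hb.1]
    have hn : 0 ≤ L * ‖p.1 - p.2‖ ^ α := mul_nonneg hL.le (Real.rpow_nonneg (norm_nonneg _) _)
    have h3 : ‖p.1‖ ≤ 2 * ρ := by
      by_contra h4
      rw [not_le] at h4
      have h5 := hfar p.1 h4.le
      have h6 : F p = u p.1 - u p.2 - L * ‖p.1 - p.2‖ ^ α - pen ρ p.1 := rfl
      linarith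
    have h4 : ‖p.1 - p.2‖ ≤ R := by
      by_contra h5
      rw [not_le] at h5
      have h6 : R ^ α ≤ ‖p.1 - p.2‖ ^ α :=
        Real.rpow_le_rpow (Real.rpow_nonneg (by positivity) _) h5.le hα.le
      rw [hR, Real.rpow_inv_rpow (by positivity) hα.ne', div_le_iff₀ hL] at h6
      have h7 := (hbd p.1).1
      have h8 : F p = u p.1 - u p.2 - L * ‖p.1 - p.2‖ ^ α - pen ρ p.1 := rfl
      rw [mul_comm] at h6
      linarith
    apply hp
    refine ⟨by rw [Metric.mem_closedBall, dist_zero_right]; exact h3, ?_⟩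
    rw [Metric.mem_closedBall, dist_zero_right]
    have e : p.2 = p.1 - (p.1 - p.2) := by abel
    calc ‖p.2‖ = ‖p.1 - (p.1 - p.2)‖ := by rw [← e]
      _ ≤ ‖p.1‖ + ‖p.1 - p.2‖ := norm_sub_le _ _
      _ ≤ 2 * ρ + R := by linarith
  obtain ⟨⟨x, y⟩, hxy⟩ := hFc.exists_forall_ge' (x₀, y₀) hco
  exact ⟨x, y, lt_of_lt_of_le h (hxy (x₀, y₀)), fun x' y' => hxy (x', y')⟩

/-- MODULE rh. Pointwise inequalities at a maximum point, `a = x - y`. -/
theorem max_pw {u : E d → ℝ} {α L ρ : ℝ} {x y : E d}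
    (hmax : ∀ x' y' : E d, u x' - u y' - L * ‖x' - y'‖ ^ α - pen ρ x' ≤ u x - u y - L * ‖x - y‖ ^ α - pen ρ x) (z z' : E d) :
    L * (‖x - y‖ ^ α - ‖x - y + z - z'‖ ^ α) + (pen ρ x - pen ρ (x + z)) ≤
      (u x - u (x + z)) - (u y - u (y + z')) := by
  have h := hmax (x + z) (y + z')
  have e : x + z - (y + z') = x - y + z - z' := by abel
  rw [e] at h
  linarith

private theorem ri_trunc (u : E d → ℝ) (ε : ℝ) (x : E d) :
    trunc d s c u ε x = c * ∫ z in {z : E d | ε < ‖z‖}, (u x - u (x + z)) * K d s z := by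
  unfold trunc
  congr 1
  have hS1 : MeasurableSet {y : E d | ε < ‖x - y‖} :=
    measurableSet_lt measurable_const (continuous_const.sub continuous_id).norm.measurable
  have hS2 : MeasurableSet {z : E d | ε < ‖z‖} := measurableSet_lt measurable_const measurable_norm
  rw [← integral_indicator hS1, ← integral_indicator hS2]
  refine (integral_add_left_eq_self _ x).symm.trans ?_
  congr 1
  funext z
  have e : x - (x + z) = -z := by abel
  by_cases hz : ε < ‖z‖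
  · have h1 : x + z ∈ {y : E d | ε < ‖x - y‖} := by
      show ε < ‖x - (x + z)‖
      rw [e, norm_neg]
      exact hz
    rw [indicator_of_mem h1, indicator_of_mem (show z ∈ {z : E d | ε < ‖z‖} from hz), e, K_neg]
  · have h1 : x + z ∉ {y : E d | ε < ‖x - y‖} := by
      show ¬ ε < ‖x - (x + z)‖
      rw [e, norm_neg]
      exact hz
    rw [indicator_of_notMem h1, indicator_of_notMem (show z ∉ {z : E d | ε < ‖z‖} from hz)]

private theorem ri_intS (hs0 : 0 < s) {F : E d → ℝ} (hF : Continuous F) {B : ℝ} (hB : ∀ z, |F z| ≤ B) {ε : ℝ} (hε : 0 < ε) :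
    IntegrableOn (fun z => F z * K d s z) {z : E d | ε < ‖z‖} := by
  have h1 : IntegrableOn (fun z : E d => B * K d s z) {z : E d | ε < ‖z‖} :=
    ((K_far hs0 hε).mono_set (fun z (hz : ε < ‖z‖) => hz.le)).const_mul B
  refine h1.mono' (hF.aestronglyMeasurable.mul K_meas.aestronglyMeasurable) (ae_of_all _ fun z => ?_)
  rw [Real.norm_eq_abs, abs_mul, abs_of_nonneg (K_nonneg z)]
  exact mul_le_mul_of_nonneg_right (hB z) (K_nonneg z)

private theorem ri_intN {F : E d → ℝ} (hF : Continuous F) {ε : ℝ} (hε : 0 < ε) (r : ℝ) :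
    IntegrableOn (fun z => F z * K d s z) {z : E d | ε < ‖z‖ ∧ ‖z‖ < r} := by
  have hc : IsCompact (Metric.closedBall (0 : E d) r ∩ {z : E d | ε ≤ ‖z‖}) :=
    (isCompact_closedBall 0 r).inter_right (isClosed_le continuous_const continuous_norm)
  have h1 : IntegrableOn (fun z => F z * K d s z) (Metric.closedBall (0 : E d) r ∩ {z : E d | ε ≤ ‖z‖}) := by
    refine ContinuousOn.integrableOn_compact hc (hF.continuousOn.mul fun z hz => ?_)
    have hz0 : z ≠ 0 := norm_pos_iff.1 (hε.trans_le hz.2)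
    exact (K_continuousAt hz0).continuousWithinAt
  refine h1.mono_set fun z hz => ⟨?_, hz.1.le⟩
  rw [Metric.mem_closedBall, dist_zero_right]
  exact hz.2.le

private theorem ri_iso (T : E d ≃ₗᵢ[ℝ] E d) (f : E d → ℝ) (ε r : ℝ) :
    ∫ z in {z : E d | ε < ‖z‖ ∧ ‖z‖ < r}, f (T z) = ∫ z in {z : E d | ε < ‖z‖ ∧ ‖z‖ < r}, f z := by
  have h := T.measurePreserving.setIntegral_preimage_emb T.toHomeomorph.measurableEmbedding f
    {z : E d | ε < ‖z‖ ∧ ‖z‖ < r}
  have e : T ⁻¹' {z : E d | ε < ‖z‖ ∧ ‖z‖ < r} = {z : E d | ε < ‖z‖ ∧ ‖z‖ < r} := by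
    ext z
    simp only [mem_preimage, mem_setOf_eq, T.norm_map]
  rw [e] at h
  exact h

private theorem ri_key {a : E d} (ha : a ≠ 0) {T : E d ≃ₗᵢ[ℝ] E d} (hT : ∀ z, T z = z - (2 * inner ℝ a z / ‖a‖ ^ 2) • a)
    {α L : ℝ} (hα0 : 0 < α) (hα1 : α < 1) (hL : 0 < L) {z : E d} (hz : ‖z‖ < ‖a‖ / 4) :
    4 * (α * (1 - α)) * L * ‖a‖ ^ (α - 2) * ((inner ℝ (‖a‖⁻¹ • a) z) ^ 2 * K d s z) ≤
      L * (‖a‖ ^ α - ‖a + z - T z‖ ^ α) * K d s z + L * (‖a‖ ^ α - ‖a + -z - T (-z)‖ ^ α) * K d s (-z) := by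
  have hna : 0 < ‖a‖ := norm_pos_iff.2 ha
  rw [refl_norm hT z, refl_norm hT (-z), K_neg, inner_neg_right, real_inner_smul_left]
  obtain ⟨w, hw⟩ : ∃ w : ℝ, w = inner ℝ a z := ⟨_, rfl⟩
  obtain ⟨t, ht⟩ : ∃ t : ℝ, t = 2 * w / ‖a‖ ^ 2 := ⟨_, rfl⟩
  have hw1 : |w| ≤ ‖a‖ * ‖z‖ := by
    rw [hw]
    exact abs_real_inner_le_norm a z
  have ht1 : |t| ≤ 1 / 2 := by
    rw [ht, abs_div, abs_mul, abs_two, abs_of_pos (pow_pos hna 2), div_le_iff₀ (pow_pos hna 2)]
    nlinarith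
  have ht2 := abs_le.1 ht1
  have e1 : 2 * -w / ‖a‖ ^ 2 = -t := by
    rw [ht]
    ring
  rw [← hw, e1, ← ht, abs_of_pos (by linarith : 0 < 1 + t), abs_of_pos (by linarith : 0 < 1 + -t),
    Real.mul_rpow (by linarith) hna.le, Real.mul_rpow (by linarith) hna.le]
  have hconc := conc_two hα0 hα1 ht1
  have hA : 0 ≤ L * ‖a‖ ^ α * K d s z :=
    mul_nonneg (mul_nonneg hL.le (Real.rpow_nonneg hna.le _)) (K_nonneg z)
  have e2 : ‖a‖ ^ (α - 2) = ‖a‖ ^ α / ‖a‖ ^ 2 := by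
    rw [Real.rpow_sub hna]
    congr 1
    exact_mod_cast Real.rpow_natCast ‖a‖ 2
  have e3 : 4 * (α * (1 - α)) * L * ‖a‖ ^ (α - 2) * ((‖a‖⁻¹ * w) ^ 2 * K d s z) =
      L * ‖a‖ ^ α * K d s z * (α * (1 - α) * t ^ 2) := by
    rw [e2, ht]
    field_simp
    ring
  rw [e3]
  have h4 := mul_le_mul_of_nonneg_left hconc hA
  have e4 : (1 + -t) = 1 - t := by ring
  rw [e4]
  refine h4.trans (le_of_eq ?_)
  ring

/-- MODULE ri. THE INTEGRAL INEQUALITY.  `a = x - y`, `r = ‖a‖ / 4`, `T` the reflection of `exists_refl`.  `trunc u ε x = c ∫_{ε < ‖z‖} (u x - u (x + z)) K z` (`y = x + z`; `K_neg`), the same at `y`; in the second integral replace `z` by `T z` in the part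
`ε < ‖z‖ < r` (isometry, `K (T z) = K z`).  `max_pw` with `z' = T z` for `‖z‖ < r` and with `z' = z` for `‖z‖ ≥ r`; `refl_norm`: the first term is `L ‖a‖ ^ α (1 - (1 + t) ^ α)`, `t = 2 ⟨a, z⟩ / ‖a‖ ^ 2`, `|t| ≤ 1 / 2`; symmetrize `z ↔ -z` and use
`conc_two`; `pen_trunc`. -/
theorem max_int (hd : 1 ≤ d) (hs0 : 0 < s) (hs1 : s < 1) (hc : 0 < c) {u : E d → ℝ} (hu : Continuous u) (hB : ∀ x, |u x| < 1)
    {α L ρ : ℝ} (hα0 : 0 < α) (hα1 : α < 1) (hL : 0 < L) (hρ : 0 < ρ) {x y : E d} (hxy : x ≠ y)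
    (hmax : ∀ x' y' : E d, u x' - u y' - L * ‖x' - y'‖ ^ α - pen ρ x' ≤ u x - u y - L * ‖x - y‖ ^ α - pen ρ x)
    {ε : ℝ} (hε : 0 < ε) (hεr : ε < ‖x - y‖ / 4) :
    c * (2 * α * (1 - α)) * L * ‖x - y‖ ^ (α - 2) *
        (∫ z in {z : E d | ε < ‖z‖ ∧ ‖z‖ < ‖x - y‖ / 4}, (inner ℝ (‖x - y‖⁻¹ • (x - y)) z) ^ 2 * K d s z) -
      18 * c * (∫ z : E d, min 1 (‖z‖ ^ 2 / ρ ^ 2) * K d s z) ≤ trunc d s c u ε x - trunc d s c u ε y := by
  obtain ⟨a, ha⟩ : ∃ a : E d, a = x - y := ⟨_, rfl⟩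
  have hpw : ∀ z z', L * (‖a‖ ^ α - ‖a + z - z'‖ ^ α) + (pen ρ x - pen ρ (x + z)) ≤
      (u x - u (x + z)) - (u y - u (y + z')) := by
    intro z z'
    rw [ha]
    exact max_pw hmax z z'
  rw [← ha] at hεr ⊢
  have ha0 : a ≠ 0 := by
    rw [ha]
    exact sub_ne_zero.2 hxy
  have hna : 0 < ‖a‖ := norm_pos_iff.2 ha0
  obtain ⟨T, hT⟩ := exists_refl ha0
  obtain ⟨Sn, hSn⟩ : ∃ Sn : Set (E d), Sn = {z | ε < ‖z‖ ∧ ‖z‖ < ‖a‖ / 4} := ⟨_, rfl⟩
  obtain ⟨Sf, hSf⟩ : ∃ Sf : Set (E d), Sf = {z | ‖a‖ / 4 ≤ ‖z‖} := ⟨_, rfl⟩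
  obtain ⟨S, hS⟩ : ∃ S : Set (E d), S = {z | ε < ‖z‖} := ⟨_, rfl⟩
  have hSnm : MeasurableSet Sn := by
    rw [hSn]
    exact (measurableSet_lt measurable_const measurable_norm).inter (measurableSet_lt measurable_norm measurable_const)
  have hSfm : MeasurableSet Sf := by
    rw [hSf]
    exact measurableSet_le measurable_const measurable_norm
  have hSU : S = Sn ∪ Sf := by
    rw [hS, hSn, hSf]
    ext z
    simp only [mem_setOf_eq, mem_union]
    constructor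
    · intro h
      rcases lt_or_ge ‖z‖ (‖a‖ / 4) with h1 | h1
      · exact Or.inl ⟨h, h1⟩
      · exact Or.inr h1
    · rintro (h | h)
      · exact h.1
      · linarith
  have hdisj : Disjoint Sn Sf := by
    rw [Set.disjoint_left, hSn, hSf]
    intro z h1 h2
    exact absurd h1.2 (not_lt.2 h2)
  have hSnS : Sn ⊆ S := by
    rw [hSU]
    exact subset_union_left
  have hSfS : Sf ⊆ S := by
    rw [hSU]
    exact subset_union_right
  have hsplit : ∀ F : E d → ℝ, IntegrableOn F S → ∫ z in S, F z = (∫ z in Sn, F z) + ∫ z in Sf, F z := by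
    intro F hF
    have h1 := setIntegral_union (μ := volume) hdisj hSfm (hF.mono_set hSnS) (hF.mono_set hSfS)
    rwa [← hSU] at h1
  have hBu : ∀ p q, |u p - u q| ≤ 2 := by
    intro p q
    have h1 := abs_lt.1 (hB p)
    have h2 := abs_lt.1 (hB q)
    rw [abs_le]
    constructor <;> linarith
  have hA1 : IntegrableOn (fun z => (u x - u (x + z)) * K d s z) S := by
    rw [hS]
    exact ri_intS hs0 (continuous_const.sub (hu.comp (continuous_const.add continuous_id))) (fun z => hBu x (x + z)) hε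
  have hA2 : IntegrableOn (fun z => (u y - u (y + z)) * K d s z) S := by
    rw [hS]
    exact ri_intS hs0 (continuous_const.sub (hu.comp (continuous_const.add continuous_id))) (fun z => hBu y (y + z)) hε
  have hA3 : IntegrableOn (fun z => (u y - u (y + T z)) * K d s z) S := by
    rw [hS]
    exact ri_intS hs0 (continuous_const.sub (hu.comp (continuous_const.add T.continuous))) (fun z => hBu y (y + T z)) hε
  have hTn : ∫ z in Sn, (u y - u (y + z)) * K d s z = ∫ z in Sn, (u y - u (y + T z)) * K d s z := by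
    have h1 := ri_iso T (fun z => (u y - u (y + z)) * K d s z) ε (‖a‖ / 4)
    rw [← hSn] at h1
    rw [← h1]
    refine integral_congr_ae (ae_of_all _ fun z => ?_)
    have h2 : K d s (T z) = K d s z := by
      unfold K
      rw [T.norm_map]
    simp only [h2]
  obtain ⟨hP0, hP1⟩ := pen_trunc hd hs0 hs1 hρ x hε
  rw [← hS] at hP0 hP1
  have hNc : Continuous (fun z : E d => L * (‖a‖ ^ α - ‖a + z - T z‖ ^ α)) := by
    refine continuous_const.mul (continuous_const.sub ?_)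
    exact (((continuous_const.add continuous_id).sub T.continuous).norm).rpow_const (fun _ => Or.inr hα0.le)
  have hN : IntegrableOn (fun z => L * (‖a‖ ^ α - ‖a + z - T z‖ ^ α) * K d s z) Sn := by
    rw [hSn]
    exact ri_intN hNc hε _
  have hN' : IntegrableOn (fun z => L * (‖a‖ ^ α - ‖a + -z - T (-z)‖ ^ α) * K d s (-z)) Sn := by
    have h1 : IntegrableOn (fun z => L * (‖a‖ ^ α - ‖a + -z - T (-z)‖ ^ α) * K d s z) Sn := by
      rw [hSn]
      exact ri_intN (hNc.comp continuous_neg) hε _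
    refine h1.congr_fun (fun z _ => ?_) hSnm
    simp only [K_neg]
  have hnear : (∫ z in Sn, L * (‖a‖ ^ α - ‖a + z - T z‖ ^ α) * K d s z) +
      (∫ z in Sn, (pen ρ x - pen ρ (x + z)) * K d s z) ≤
      (∫ z in Sn, (u x - u (x + z)) * K d s z) - ∫ z in Sn, (u y - u (y + T z)) * K d s z := by
    rw [← integral_add hN (hP0.mono_set hSnS), ← integral_sub (hA1.mono_set hSnS) (hA3.mono_set hSnS)]
    refine setIntegral_mono_on (hN.add (hP0.mono_set hSnS)) ((hA1.mono_set hSnS).sub (hA3.mono_set hSnS)) hSnm fun z hz => ?_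
    have h1 := mul_le_mul_of_nonneg_right (hpw z (T z)) (K_nonneg (d := d) (s := s) z)
    calc L * (‖a‖ ^ α - ‖a + z - T z‖ ^ α) * K d s z + (pen ρ x - pen ρ (x + z)) * K d s z
        = (L * (‖a‖ ^ α - ‖a + z - T z‖ ^ α) + (pen ρ x - pen ρ (x + z))) * K d s z := by ring
      _ ≤ _ := h1
      _ = (u x - u (x + z)) * K d s z - (u y - u (y + T z)) * K d s z := by ring
  have hfar : (∫ z in Sf, (pen ρ x - pen ρ (x + z)) * K d s z) ≤
      (∫ z in Sf, (u x - u (x + z)) * K d s z) - ∫ z in Sf, (u y - u (y + z)) * K d s z := by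
    rw [← integral_sub (hA1.mono_set hSfS) (hA2.mono_set hSfS)]
    refine setIntegral_mono_on (hP0.mono_set hSfS) ((hA1.mono_set hSfS).sub (hA2.mono_set hSfS)) hSfm fun z hz => ?_
    have h0 := hpw z z
    rw [add_sub_cancel_right, sub_self, mul_zero, zero_add] at h0
    have h1 := mul_le_mul_of_nonneg_right h0 (K_nonneg (d := d) (s := s) z)
    exact h1.trans (le_of_eq (by ring))
  have hsym : ∫ z in Sn, L * (‖a‖ ^ α - ‖a + -z - T (-z)‖ ^ α) * K d s (-z) =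
      ∫ z in Sn, L * (‖a‖ ^ α - ‖a + z - T z‖ ^ α) * K d s z := by
    have h1 := ri_iso (LinearIsometryEquiv.neg ℝ) (fun z => L * (‖a‖ ^ α - ‖a + z - T z‖ ^ α) * K d s z) ε (‖a‖ / 4)
    rw [← hSn] at h1
    exact h1
  have hQ : IntegrableOn (fun z => 4 * (α * (1 - α)) * L * ‖a‖ ^ (α - 2) * ((inner ℝ (‖a‖⁻¹ • a) z) ^ 2 * K d s z)) Sn := by
    rw [hSn]
    refine Integrable.const_mul ?_ _
    exact ri_intN ((continuous_const.inner continuous_id).pow 2) hε _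
  have hmain : 4 * (α * (1 - α)) * L * ‖a‖ ^ (α - 2) * (∫ z in Sn, (inner ℝ (‖a‖⁻¹ • a) z) ^ 2 * K d s z) ≤
      2 * ∫ z in Sn, L * (‖a‖ ^ α - ‖a + z - T z‖ ^ α) * K d s z := by
    have h1 : ∫ z in Sn, 4 * (α * (1 - α)) * L * ‖a‖ ^ (α - 2) * ((inner ℝ (‖a‖⁻¹ • a) z) ^ 2 * K d s z) ≤
        ∫ z in Sn, (L * (‖a‖ ^ α - ‖a + z - T z‖ ^ α) * K d s z + L * (‖a‖ ^ α - ‖a + -z - T (-z)‖ ^ α) * K d s (-z)) := by
      refine setIntegral_mono_on hQ (hN.add hN') hSnm fun z hz => ?_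
      rw [hSn] at hz
      exact ri_key ha0 hT hα0 hα1 hL hz.2
    rw [integral_const_mul, integral_add hN hN', hsym] at h1
    linarith
  rw [ri_trunc, ri_trunc, ← hS, ← hSn, hsplit _ hA1, hsplit _ hA2, hTn]
  rw [hsplit _ hP0] at hP1
  have h9 := (abs_le.1 hP1).1
  have h10 : 2 * (α * (1 - α)) * L * ‖a‖ ^ (α - 2) * (∫ z in Sn, (inner ℝ (‖a‖⁻¹ • a) z) ^ 2 * K d s z) -
      18 * (∫ z : E d, min 1 (‖z‖ ^ 2 / ρ ^ 2) * K d s z) ≤
      ((∫ z in Sn, (u x - u (x + z)) * K d s z) + ∫ z in Sf, (u x - u (x + z)) * K d s z) -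
      ((∫ z in Sn, (u y - u (y + T z)) * K d s z) + ∫ z in Sf, (u y - u (y + z)) * K d s z) := by
    linarith
  have h11 := mul_le_mul_of_nonneg_left h10 hc.le
  calc c * (2 * α * (1 - α)) * L * ‖a‖ ^ (α - 2) * (∫ z in Sn, (inner ℝ (‖a‖⁻¹ • a) z) ^ 2 * K d s z) -
      18 * c * (∫ z : E d, min 1 (‖z‖ ^ 2 / ρ ^ 2) * K d s z)
      = c * (2 * (α * (1 - α)) * L * ‖a‖ ^ (α - 2) * (∫ z in Sn, (inner ℝ (‖a‖⁻¹ • a) z) ^ 2 * K d s z) -
      18 * (∫ z : E d, min 1 (‖z‖ ^ 2 / ρ ^ 2) * K d s z)) := by ring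
    _ ≤ _ := h11
    _ = _ := by ring

/-- MODULE rj. `ε → 0` in `max_int` (the equation at `x` and `y`; the set integrals converge to the integral over the ball), then `dir_moment` with `r = ‖x - y‖ / 4` and `|t - t ^ 3| ≤ 1`. -/
theorem max_lim (hd : 1 ≤ d) (hs0 : 0 < s) (hs1 : s < 1) (hc : 0 < c) {α : ℝ} (hα0 : 0 < α) (hα1 : α < 1) :
    ∃ κ : ℝ, 0 < κ ∧ ∀ u : E d → ℝ, Entire d s c u → ∀ L ρ : ℝ, 0 < L → 0 < ρ → ∀ x y : E d, x ≠ y →
      (∀ x' y' : E d, u x' - u y' - L * ‖x' - y'‖ ^ α - pen ρ x' ≤ u x - u y - L * ‖x - y‖ ^ α - pen ρ x) →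
      κ * L * ‖x - y‖ ^ (α - 2 * s) ≤ 2 + 18 * c * ∫ z : E d, min 1 (‖z‖ ^ 2 / ρ ^ 2) * K d s z := by
  obtain ⟨κ₀, hκ₀, hm⟩ := dir_moment (d := d) hd hs0 hs1
  have h1a : 0 < 1 - α := by linarith
  refine ⟨c * (2 * α * (1 - α)) * κ₀ * (1 / 4) ^ (2 - 2 * s), by positivity, ?_⟩
  intro u hu L ρ hL hρ x y hxy hmax
  have hn : 0 < ‖x - y‖ := norm_pos_iff.2 (sub_ne_zero.2 hxy)
  set r : ℝ := ‖x - y‖ / 4 with hr
  have hr0 : 0 < r := by positivity
  set e : E d := ‖x - y‖⁻¹ • (x - y) with he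
  have hen : ‖e‖ = 1 := by
    rw [he, norm_smul, norm_inv, norm_norm, inv_mul_cancel₀ hn.ne']
  obtain ⟨hint, hlow⟩ := hm e hen r hr0
  set f : E d → ℝ := fun z => (inner ℝ e z) ^ 2 * K d s z with hf
  set J : ℝ := ∫ z : E d, min 1 (‖z‖ ^ 2 / ρ ^ 2) * K d s z with hJ
  -- the integrals converge
  have hset : ∀ ε : ℝ, MeasurableSet {z : E d | ε < ‖z‖ ∧ ‖z‖ < r} := fun ε =>
    (measurableSet_lt measurable_const measurable_norm).inter (measurableSet_lt measurable_norm measurable_const)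
  have hlim : Tendsto (fun ε : ℝ => ∫ z in {z : E d | ε < ‖z‖ ∧ ‖z‖ < r}, f z) (𝓝[>] 0)
      (𝓝 (∫ z in Metric.ball (0 : E d) r, f z)) := by
    have e1 : ∀ ε : ℝ, ∫ z in {z : E d | ε < ‖z‖ ∧ ‖z‖ < r}, f z = ∫ z, ({z : E d | ε < ‖z‖ ∧ ‖z‖ < r}).indicator f z :=
      fun ε => (integral_indicator (hset ε)).symm
    simp only [e1]
    rw [← integral_indicator measurableSet_ball]
    have hi : Integrable ((Metric.ball (0 : E d) r).indicator f) := hint.integrable_indicator measurableSet_ball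
    have hle : ∀ ε : ℝ, ({z : E d | ε < ‖z‖ ∧ ‖z‖ < r}).indicator f =
        ({z : E d | ε < ‖z‖ ∧ ‖z‖ < r}).indicator ((Metric.ball (0 : E d) r).indicator f) := by
      intro ε
      funext z
      by_cases hz : ε < ‖z‖ ∧ ‖z‖ < r
      · have hz2 : z ∈ Metric.ball (0 : E d) r := by simpa using hz.2
        rw [indicator_of_mem (show z ∈ {z : E d | ε < ‖z‖ ∧ ‖z‖ < r} from hz),
          indicator_of_mem (show z ∈ {z : E d | ε < ‖z‖ ∧ ‖z‖ < r} from hz), indicator_of_mem hz2]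
      · rw [indicator_of_notMem (show z ∉ {z : E d | ε < ‖z‖ ∧ ‖z‖ < r} from hz),
          indicator_of_notMem (show z ∉ {z : E d | ε < ‖z‖ ∧ ‖z‖ < r} from hz)]
    refine tendsto_integral_filter_of_dominated_convergence (fun z => ‖(Metric.ball (0 : E d) r).indicator f z‖) ?_ ?_ hi.norm ?_
    · refine Filter.Eventually.of_forall fun ε => ?_
      rw [hle ε]
      exact (hi.indicator (hset ε)).aestronglyMeasurable
    · refine Filter.Eventually.of_forall fun ε => Filter.Eventually.of_forall fun z => ?_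
      rw [hle ε]
      exact norm_indicator_le_norm_self _ _
    · classical
      refine Filter.Eventually.of_forall fun z => ?_
      refine tendsto_nhds_of_eventually_eq ?_
      by_cases hz0 : z = 0
      · subst hz0
        refine Filter.Eventually.of_forall fun ε => ?_
        have f0 : f 0 = 0 := by
          show (inner ℝ e (0 : E d)) ^ 2 * K d s 0 = 0
          rw [inner_zero_right]; ring
        rw [indicator_apply, indicator_apply, f0]
        simp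
      · have hz : 0 < ‖z‖ := norm_pos_iff.2 hz0
        filter_upwards [Ioo_mem_nhdsGT hz] with ε hε
        rw [indicator_apply, indicator_apply]
        have : (z ∈ {z : E d | ε < ‖z‖ ∧ ‖z‖ < r}) ↔ z ∈ Metric.ball (0 : E d) r := by
          rw [Metric.mem_ball, dist_zero_right]
          exact ⟨fun h => h.2, fun h => ⟨hε.2, h⟩⟩
        simp only [this]
  have hineq : ∀ᶠ ε in 𝓝[>] (0 : ℝ), c * (2 * α * (1 - α)) * L * ‖x - y‖ ^ (α - 2) *
        (∫ z in {z : E d | ε < ‖z‖ ∧ ‖z‖ < r}, f z) - 18 * c * J ≤ trunc d s c u ε x - trunc d s c u ε y := by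
    filter_upwards [Ioo_mem_nhdsGT hr0] with ε hε
    exact max_int hd hs0 hs1 hc hu.smooth.continuous hu.bound hα0 hα1 hL hρ hxy hmax hε.1 hε.2
  have hle := le_of_tendsto_of_tendsto ((hlim.const_mul _).sub_const _) ((hu.eq x).sub (hu.eq y)) hineq
  have hcub : ∀ t : ℝ, |t| < 1 → |t - t ^ 3| ≤ 1 := by
    intro t ht
    have e1 : t - t ^ 3 = t * (1 - t ^ 2) := by ring
    have h2 : 0 ≤ t ^ 2 := sq_nonneg t
    have h3 : t ^ 2 < 1 := by rw [← sq_abs]; exact pow_lt_one₀ (abs_nonneg t) ht (by norm_num)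
    rw [e1, abs_mul, abs_of_nonneg (by linarith : 0 ≤ 1 - t ^ 2)]
    have h4 : |t| * (1 - t ^ 2) ≤ 1 * 1 := mul_le_mul ht.le (by linarith) (by linarith) (by norm_num)
    linarith
  have h5 := abs_le.1 (hcub (u x) (hu.bound x))
  have h6 := abs_le.1 (hcub (u y) (hu.bound y))
  have h7 : c * (2 * α * (1 - α)) * L * ‖x - y‖ ^ (α - 2) * (∫ z in Metric.ball (0 : E d) r, f z) ≤ 2 + 18 * c * J := by
    linarith [h5.2, h6.1]
  have h8 : c * (2 * α * (1 - α)) * L * ‖x - y‖ ^ (α - 2) * (κ₀ * r ^ (2 - 2 * s)) ≤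
      c * (2 * α * (1 - α)) * L * ‖x - y‖ ^ (α - 2) * (∫ z in Metric.ball (0 : E d) r, f z) :=
    mul_le_mul_of_nonneg_left hlow (by positivity)
  have h9 : r ^ (2 - 2 * s) = ‖x - y‖ ^ (2 - 2 * s) * (1 / 4) ^ (2 - 2 * s) := by
    rw [← Real.mul_rpow hn.le (by norm_num), hr]
    congr 1; ring
  have h10 : ‖x - y‖ ^ (α - 2) * ‖x - y‖ ^ (2 - 2 * s) = ‖x - y‖ ^ (α - 2 * s) := by
    rw [← Real.rpow_add hn]; congr 1; ring
  calc c * (2 * α * (1 - α)) * κ₀ * (1 / 4) ^ (2 - 2 * s) * L * ‖x - y‖ ^ (α - 2 * s)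
      = c * (2 * α * (1 - α)) * L * ‖x - y‖ ^ (α - 2) * (κ₀ * r ^ (2 - 2 * s)) := by
        rw [h9, ← h10]; ring
    _ ≤ _ := h8.trans h7

/-- MODULE rk. HÖLDER ESTIMATE.  `κ` of `max_lim`; choose `L = max 2 (4 / κ)` and `ρ₀` such that for `ρ ≥ ρ₀` the last term of `max_lim` is at most `1` (`K_min`).  If `u x - u y > L ‖x - y‖ ^ a + pen ρ x` for some `x, y`, take the maximum point (`max_pt`); there
`L ‖x - y‖ ^ a < 2`, so `‖x - y‖ < 1` (`x ≠ y` since the value is positive), `‖x - y‖ ^ (a - 2 s) ≥ 1` and `max_lim` gives `κ L ≤ 3`, a contradiction.  Hence `u x - u y ≤ L ‖x - y‖ ^ a + pen ρ x`; let `ρ → ∞` (`pen_lim`). -/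
theorem holder (hd : 1 ≤ d) (hs0 : 0 < s) (hs1 : s < 1) (hc : 0 < c) {a : ℝ} (ha0 : 0 < a) (ha1 : a < 1) (ha2 : a < 2 * s) :
    ∃ C : ℝ, 0 ≤ C ∧ ∀ u : E d → ℝ, Entire d s c u → ∀ x y, |u x - u y| ≤ C * ‖x - y‖ ^ a := by
  obtain ⟨κ, hκ, hM⟩ := max_lim (d := d) hd hs0 hs1 hc ha0 ha1
  obtain ⟨C, hC, hK⟩ := K_min hd hs0 hs1
  set L : ℝ := max 2 (4 / κ) with hLdef
  have hL2 : 2 ≤ L := le_max_left _ _
  have hL : 0 < L := by linarith
  have hLκ : 4 ≤ κ * L := by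
    have : 4 / κ ≤ L := le_max_right _ _
    rw [div_le_iff₀ hκ] at this
    linarith
  refine ⟨L, hL.le, ?_⟩
  intro u hu
  -- the penalization is small
  have hsmall : ∀ᶠ ρ : ℝ in atTop, 18 * c * ∫ z : E d, min 1 (‖z‖ ^ 2 / ρ ^ 2) * K d s z ≤ 1 := by
    have h1 : Tendsto (fun ρ : ℝ => 18 * c * (C * ρ ^ (-(2 * s)))) atTop (𝓝 (18 * c * (C * 0))) :=
      ((tendsto_rpow_neg_atTop (by linarith : 0 < 2 * s)).const_mul C).const_mul _
    have h2 : (18 * c * (C * 0) : ℝ) < 1 := by norm_num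
    filter_upwards [h1.eventually_lt_const h2, eventually_gt_atTop 0] with ρ h3 h4
    rw [(hK ρ h4).2]
    exact h3.le
  have hone : ∀ x y : E d, ∀ᶠ ρ : ℝ in atTop, u x - u y ≤ L * ‖x - y‖ ^ a + pen ρ x := by
    intro x₀ y₀
    filter_upwards [hsmall, eventually_gt_atTop 0] with ρ h3 hρ
    by_contra hcon
    rw [not_le] at hcon
    obtain ⟨x, y, hpos, hmax⟩ := max_pt hu.smooth.continuous hu.bound (α := a) (L := L) (ρ := ρ) ha0 hL hρ
      (x₀ := x₀) (y₀ := y₀) (by linarith)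
    have hpen := ((pen_basic (d := d) hρ).2.1 x).1
    have hxy : x ≠ y := by
      rintro rfl
      rw [sub_self, sub_self, norm_zero, Real.zero_rpow ha0.ne'] at hpos
      linarith
    have hn : 0 < ‖x - y‖ := norm_pos_iff.2 (sub_ne_zero.2 hxy)
    have hux := abs_lt.1 (hu.bound x)
    have huy := abs_lt.1 (hu.bound y)
    have hlt : L * ‖x - y‖ ^ a < 2 := by linarith [hux.2, huy.1]
    have hlt1 : ‖x - y‖ ^ a < 1 := by
      by_contra h
      rw [not_lt] at h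
      nlinarith
    have hn1 : ‖x - y‖ < 1 := by
      by_contra h
      rw [not_lt] at h
      exact absurd (Real.one_le_rpow h ha0.le) (not_le.2 hlt1)
    have h6 : 1 ≤ ‖x - y‖ ^ (a - 2 * s) :=
      Real.one_le_rpow_of_pos_of_le_one_of_nonpos hn hn1.le (by linarith)
    have h7 := hM u hu L ρ hL hρ x y hxy hmax
    have h8 : κ * L * 1 ≤ κ * L * ‖x - y‖ ^ (a - 2 * s) := mul_le_mul_of_nonneg_left h6 (by positivity)
    linarith
  have hle : ∀ x y : E d, u x - u y ≤ L * ‖x - y‖ ^ a := by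
    intro x y
    have h1 : Tendsto (fun ρ : ℝ => L * ‖x - y‖ ^ a + pen ρ x) atTop (𝓝 (L * ‖x - y‖ ^ a + 0)) :=
      (pen_lim x).const_add _
    rw [add_zero] at h1
    exact ge_of_tendsto h1 (hone x y)
  intro x y
  rw [abs_le]
  constructor
  · have := hle y x
    rw [norm_sub_rev] at this
    linarith
  · exact hle x y

end NDG
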