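import Pool.Agent.NDG.Far

import Pool.Agent.NDG.Hol

/-! # Sign changes of the differences -/

open MeasureTheory Filter Topology Set

noncomputable section

namespace NDG

variable {d : ℕ} {s c : ℝ}

/-- MODULE ja. `holder` with the exponent `a = 2 s / (1 + s)` (`s < a < 1`, `a < 2 s`): `(u x - u y) ^ 2 K ≤ min (4, C ^ 2 ‖x - y‖ ^ (2 a)) K`, near: `near_int` with `β = 2 a - 2 s`, far: `K_far`. -/
theorem en_bd (hd : 1 ≤ d) (hs0 : 0 < s) (hs1 : s < 1) (hc : 0 < c) : ∃ C : ℝ, 0 ≤ C ∧ ∀ u : E d → ℝ, Entire d s c u →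
    ∀ x, en d s u x ≤ ENNReal.ofReal C := by
  set a : ℝ := 2 * s / (1 + s) with ha
  have h1s : 0 < 1 + s := by linarith
  have ha0 : 0 < a := by rw [ha]; positivity
  have ha1 : a < 1 := by rw [ha, div_lt_one h1s]; linarith
  have ha2 : a < 2 * s := by
    rw [ha, div_lt_iff₀ h1s]; nlinarith
  have ha3 : s < a := by
    rw [ha, lt_div_iff₀ h1s]; nlinarith
  obtain ⟨C, hC, hH⟩ := holder hd hs0 hs1 hc ha0 ha1 ha2
  have hβ : 0 < 2 * a - 2 * s := by linarith
  have i1 := near_int hd hβ 1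
  have i2 := K_far (d := d) hs0 (r := 1) one_pos
  have i1' : Integrable ((Metric.ball (0 : E d) 1).indicator (fun z : E d => ‖z‖ ^ (2 * a - 2 * s - (d : ℝ)))) :=
    i1.integrable_indicator measurableSet_ball
  have hm : MeasurableSet {z : E d | 1 ≤ ‖z‖} := measurableSet_le measurable_const measurable_norm
  have i2' : Integrable (({z : E d | 1 ≤ ‖z‖}).indicator (K d s)) := i2.integrable_indicator hm
  set F : E d → ℝ := fun z => C ^ 2 * (Metric.ball (0 : E d) 1).indicator (fun z : E d => ‖z‖ ^ (2 * a - 2 * s - (d : ℝ))) z +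
    4 * ({z : E d | 1 ≤ ‖z‖}).indicator (K d s) z with hF
  have iF : Integrable F := (i1'.const_mul _).add (i2'.const_mul _)
  have hF0 : ∀ z, 0 ≤ F z := by
    intro z
    rw [hF]
    refine add_nonneg (mul_nonneg (by positivity) (indicator_nonneg (fun z _ => by positivity) z))
      (mul_nonneg (by norm_num) (indicator_nonneg (fun z _ => K_nonneg z) z))
  refine ⟨∫ z, F z, integral_nonneg hF0, ?_⟩
  intro u hu x
  rw [ofReal_integral_eq_lintegral_ofReal iF (Filter.Eventually.of_forall hF0)]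
  unfold en
  rw [← lintegral_sub_left_eq_self (fun z => ENNReal.ofReal (F z)) x]
  refine lintegral_mono fun y => ENNReal.ofReal_le_ofReal ?_
  rw [hF]
  have hK := K_nonneg (d := d) (s := s) (x - y)
  by_cases hz : ‖x - y‖ < 1
  · have e1 : x - y ∈ Metric.ball (0 : E d) 1 := by simpa using hz
    have e2 : x - y ∉ {z : E d | 1 ≤ ‖z‖} := by simpa using hz
    show (u x - u y) ^ 2 * K d s (x - y) ≤ C ^ 2 * _ + 4 * _
    rw [indicator_of_mem e1, indicator_of_notMem e2, mul_zero, add_zero]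
    rcases eq_or_ne (x - y) 0 with h0 | h0
    · have : x = y := sub_eq_zero.1 h0
      subst this
      simp only [sub_self]
      norm_num
      positivity
    have hn : 0 < ‖x - y‖ := norm_pos_iff.2 h0
    have h2 : (u x - u y) ^ 2 ≤ (C * ‖x - y‖ ^ a) ^ 2 := by
      rw [← sq_abs]
      exact pow_le_pow_left₀ (abs_nonneg _) (hH u hu x y) 2
    have h3 : (C * ‖x - y‖ ^ a) ^ 2 * K d s (x - y) = C ^ 2 * ‖x - y‖ ^ (2 * a - 2 * s - (d : ℝ)) := by
      unfold K
      rw [mul_pow, mul_assoc, ← Real.rpow_natCast (‖x - y‖ ^ a) 2, ← Real.rpow_mul hn.le, ← Real.rpow_add hn]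
      congr 2
      push_cast
      ring
    rw [← h3]
    exact mul_le_mul_of_nonneg_right h2 hK
  · have e1 : x - y ∉ Metric.ball (0 : E d) 1 := by simpa using hz
    have e2 : x - y ∈ {z : E d | 1 ≤ ‖z‖} := by simpa using hz
    show (u x - u y) ^ 2 * K d s (x - y) ≤ C ^ 2 * _ + 4 * _
    rw [indicator_of_notMem e1, indicator_of_mem e2, mul_zero, zero_add]
    refine mul_le_mul_of_nonneg_right ?_ hK
    have h4 := abs_lt.1 (hu.bound x)
    have h5 := abs_lt.1 (hu.bound y)
    nlinarith [h4.1, h4.2, h5.1, h5.2]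

/-- the functional which measures whether the differences `u (x + h) - u x`, `‖h‖ < L`, change their sign in the ball of radius `L` around `p` -/
def G {d : ℕ} (L : ℝ) (u : E d → ℝ) (p : E d) : ENNReal :=
  ∫⁻ h in Metric.ball (0 : E d) L, (∫⁻ x in Metric.ball p L, ENNReal.ofReal (u (x + h) - u x)) *
    ∫⁻ x in Metric.ball p L, ENNReal.ofReal (u x - u (x + h))

private theorem jb_shift (f : E d → ENNReal) (p q : E d) (L : ℝ) :
    ∫⁻ x in Metric.ball p L, f (x + q) = ∫⁻ x in Metric.ball (p + q) L, f x := by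
  rw [← lintegral_indicator measurableSet_ball, ← lintegral_indicator measurableSet_ball]
  refine Eq.trans (lintegral_congr fun x => ?_)
    (lintegral_add_right_eq_self (fun x => (Metric.ball (p + q) L).indicator f x) q)
  by_cases hx : x ∈ Metric.ball p L
  · have hx' : x + q ∈ Metric.ball (p + q) L := by
      rw [Metric.mem_ball, dist_add_right]; exact hx
    rw [indicator_of_mem hx, indicator_of_mem hx']
  · have hx' : x + q ∉ Metric.ball (p + q) L := by
      rw [Metric.mem_ball, dist_add_right]; exact hx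
    rw [indicator_of_notMem hx, indicator_of_notMem hx']

/-- MODULE jb. Translation of `x`. -/
theorem G_shift (L : ℝ) (u : E d → ℝ) (p q : E d) : G L (fun x => u (x + q)) p = G L u (p + q) := by
  unfold G
  refine lintegral_congr fun h => ?_
  rw [← jb_shift (fun x => ENNReal.ofReal (u (x + h) - u x)) p q L,
    ← jb_shift (fun x => ENNReal.ofReal (u x - u (x + h))) p q L]
  have e : ∀ x : E d, x + h + q = x + q + h := fun x => by abel
  simp only [e]

private theorem jc_ofReal {α : Type*} [MeasurableSpace α] {μ : Measure α} {f : α → ℝ} (hf : Integrable f μ) :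
    ENNReal.ofReal (∫ x, f x ∂μ) ≤ ∫⁻ x, ENNReal.ofReal (f x) ∂μ := by
  have h1 : ∫ x, f x ∂μ ≤ ∫ x, max (f x) 0 ∂μ :=
    integral_mono hf hf.pos_part fun x => le_max_left _ _
  have h2 : ENNReal.ofReal (∫ x, max (f x) 0 ∂μ) = ∫⁻ x, ENNReal.ofReal (max (f x) 0) ∂μ :=
    ofReal_integral_eq_lintegral_ofReal hf.pos_part (Filter.Eventually.of_forall fun x => le_max_right _ _)
  refine (ENNReal.ofReal_le_ofReal h1).trans (h2.le.trans (lintegral_mono fun x => ?_))
  show ENNReal.ofReal (max (f x) 0) ≤ ENNReal.ofReal (f x)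
  rw [ENNReal.ofReal_max, ENNReal.ofReal_zero]
  exact max_le le_rfl bot_le

private theorem jc_pt {u : E d → ℝ} (hu : ContDiff ℝ 1 u) (h x : E d) :
    ENNReal.ofReal (u (x + h) - u x) ≤ ∫⁻ t in Set.Ioc (0:ℝ) 1, ENNReal.ofReal (fderiv ℝ u (x + t • h) h) := by
  have hd : ∀ t : ℝ, HasDerivAt (fun t : ℝ => u (x + t • h)) (fderiv ℝ u (x + t • h) h) t := by
    intro t
    have h1 : HasDerivAt (fun t : ℝ => x + t • h) h t := by
      simpa using ((hasDerivAt_id t).smul_const h).const_add x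
    exact ((hu.differentiable (by norm_num)).differentiableAt.hasFDerivAt).comp_hasDerivAt t h1
  have hc : Continuous (fun t : ℝ => fderiv ℝ u (x + t • h) h) := by
    have h1 : Continuous (fderiv ℝ u) := hu.continuous_fderiv (by norm_num)
    exact (h1.comp (by fun_prop)).clm_apply continuous_const
  have hint : ∫ t in (0:ℝ)..1, fderiv ℝ u (x + t • h) h = u (x + h) - u x := by
    rw [intervalIntegral.integral_eq_sub_of_hasDerivAt (fun t _ => hd t) (hc.intervalIntegrable _ _)]
    simp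
  rw [← hint, intervalIntegral.integral_of_le (by norm_num)]
  exact jc_ofReal ((hc.intervalIntegrable 0 1).1)

private theorem jc_shift (f : E d → ENNReal) (p q : E d) (L : ℝ) :
    ∫⁻ x in Metric.ball p L, f (x + q) = ∫⁻ x in Metric.ball (p + q) L, f x := by
  rw [← lintegral_indicator measurableSet_ball, ← lintegral_indicator measurableSet_ball]
  refine Eq.trans (lintegral_congr fun x => ?_)
    (lintegral_add_right_eq_self (fun x => (Metric.ball (p + q) L).indicator f x) q)
  by_cases hx : x ∈ Metric.ball p L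
  · have hx' : x + q ∈ Metric.ball (p + q) L := by
      rw [Metric.mem_ball, dist_add_right]; exact hx
    rw [indicator_of_mem hx, indicator_of_mem hx']
  · have hx' : x + q ∉ Metric.ball (p + q) L := by
      rw [Metric.mem_ball, dist_add_right]; exact hx
    rw [indicator_of_notMem hx, indicator_of_notMem hx']

private theorem jc_one {u : E d → ℝ} (hu : ContDiff ℝ 1 u) {L : ℝ} {h : E d} (hh : ‖h‖ < L) (p : E d) :
    ∫⁻ x in Metric.ball p L, ENNReal.ofReal (u (x + h) - u x) ≤
      ∫⁻ x in Metric.ball p (2 * L), ENNReal.ofReal (fderiv ℝ u x h) := by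
  have hcont : Continuous (fun q : E d × ℝ => fderiv ℝ u (q.1 + q.2 • h) h) := by
    have h1 : Continuous (fderiv ℝ u) := hu.continuous_fderiv (by norm_num)
    exact (h1.comp (by fun_prop)).clm_apply continuous_const
  calc ∫⁻ x in Metric.ball p L, ENNReal.ofReal (u (x + h) - u x)
      ≤ ∫⁻ x in Metric.ball p L, ∫⁻ t in Set.Ioc (0:ℝ) 1, ENNReal.ofReal (fderiv ℝ u (x + t • h) h) :=
        lintegral_mono fun x => jc_pt hu h x
    _ = ∫⁻ t in Set.Ioc (0:ℝ) 1, ∫⁻ x in Metric.ball p L, ENNReal.ofReal (fderiv ℝ u (x + t • h) h) :=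
        lintegral_lintegral_swap ((hcont.measurable.ennreal_ofReal).aemeasurable)
    _ ≤ ∫⁻ t in Set.Ioc (0:ℝ) 1, ∫⁻ x in Metric.ball p (2 * L), ENNReal.ofReal (fderiv ℝ u x h) := by
        refine setLIntegral_mono' measurableSet_Ioc fun t ht => ?_
        rw [jc_shift (fun x => ENNReal.ofReal (fderiv ℝ u x h)) p (t • h) L]
        refine lintegral_mono_set (Metric.ball_subset_ball' ?_)
        have h1 : dist (p + t • h) p = ‖t • h‖ := by rw [dist_eq_norm]; congr 1; abel
        rw [h1, norm_smul, Real.norm_eq_abs, abs_of_pos ht.1]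
        nlinarith [ht.1, ht.2, norm_nonneg h]
    _ = ∫⁻ x in Metric.ball p (2 * L), ENNReal.ofReal (fderiv ℝ u x h) := by
        rw [setLIntegral_const]
        simp

/-- MODULE jc. `u (x + h) - u x = ∫_0^1 ∂_h u (x + t h) dt`, so `ofReal (u (x + h) - u x) ≤ ∫⁻_{t ∈ (0,1)} ofReal (∂_h u (x + t h))`; Tonelli, translation, `B_L(p) + t h ⊆ B_{2L}(p)`. The second one: apply the first to `-u`. -/
theorem diff_le {u : E d → ℝ} (hu : ContDiff ℝ 1 u) {L : ℝ} {h : E d} (hh : ‖h‖ < L) (p : E d) :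
    (∫⁻ x in Metric.ball p L, ENNReal.ofReal (u (x + h) - u x) ≤ ∫⁻ x in Metric.ball p (2 * L), ENNReal.ofReal (fderiv ℝ u x h)) ∧
    (∫⁻ x in Metric.ball p L, ENNReal.ofReal (u x - u (x + h)) ≤ ∫⁻ x in Metric.ball p (2 * L), ENNReal.ofReal (-fderiv ℝ u x h)) := by
  refine ⟨jc_one hu hh p, ?_⟩
  have h1 := jc_one (u := fun x => -u x) hu.neg hh p
  have e1 : ∀ x : E d, -u (x + h) - -u x = u x - u (x + h) := fun x => by ring
  have e2 : ∀ x : E d, fderiv ℝ (fun x => -u x) x h = -fderiv ℝ u x h := by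
    intro x
    rw [fderiv_fun_neg]
    rfl
  simpa only [e1, e2] using h1

/-- MODULE jd. The balls of radius `1 / 2` around the points of `P` in `B_r(x)` are disjoint and lie in `B_{r + 1/2}(x)`; `Measure.addHaar_ball`. -/
theorem pack {P : Finset (E d)} (hP : Sep P) (x : E d) {r : ℝ} (hr : 0 < r) (hsub : ∀ p ∈ P, ‖x - p‖ < r) :
    (P.card : ℝ) ≤ (2 * r + 1) ^ d := by
  have hdim : Module.finrank ℝ (E d) = d := by simp [E]
  have hdisj : (P : Set (E d)).PairwiseDisjoint (fun p => Metric.ball p (1/2)) := by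
    intro p hp q hq hpq
    refine Set.disjoint_left.2 ?_
    intro z hz1 hz2
    have h0 := hP p hp q hq hpq
    have h1 : dist p q ≤ dist z p + dist z q := dist_triangle_left p q z
    have h2 : dist z p < 1/2 := hz1
    have h3 : dist z q < 1/2 := hz2
    rw [dist_eq_norm p q] at h1
    linarith
  have hU : (⋃ p ∈ P, Metric.ball p (1/2)) ⊆ Metric.ball x (r + 1/2) := by
    intro z hz
    simp only [Set.mem_iUnion] at hz
    obtain ⟨p, hp, hz⟩ := hz
    have h1 := hsub p hp
    rw [← dist_eq_norm, dist_comm] at h1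
    rw [Metric.mem_ball] at *
    have := dist_triangle z p x
    linarith
  have hm := measure_mono (μ := (volume : Measure (E d))) hU
  rw [measure_biUnion_finset hdisj (fun _ _ => measurableSet_ball)] at hm
  rw [Measure.addHaar_ball_of_pos _ _ (by linarith : (0:ℝ) < r + 1/2), hdim] at hm
  have hs : ∑ p ∈ P, (volume : Measure (E d)) (Metric.ball p (1/2)) =
      (P.card : ENNReal) * (ENNReal.ofReal ((1/2) ^ d) * (volume : Measure (E d)) (Metric.ball 0 1)) := by
    rw [Finset.sum_congr rfl (fun p _ => Measure.addHaar_ball_of_pos (volume : Measure (E d)) p (by norm_num : (0:ℝ) < 1/2)),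
      Finset.sum_const, hdim, nsmul_eq_mul]
  rw [hs, ← mul_assoc] at hm
  have hv0 : (volume : Measure (E d)) (Metric.ball 0 1) ≠ 0 := (Metric.measure_ball_pos _ _ (by norm_num)).ne'
  have hv1 : (volume : Measure (E d)) (Metric.ball 0 1) ≠ ⊤ := measure_ball_lt_top.ne
  have h2 := (ENNReal.mul_le_mul_iff_left hv0 hv1).1 hm
  have h3 : ENNReal.ofReal ((P.card : ℝ) * (1/2) ^ d) ≤ ENNReal.ofReal ((r + 1/2) ^ d) := by
    rw [ENNReal.ofReal_mul (by positivity), ENNReal.ofReal_natCast]
    exact h2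
  have h4 := (ENNReal.ofReal_le_ofReal_iff (by positivity)).1 h3
  have h5 : (2 * r + 1) ^ d = (r + 1/2) ^ d * 2 ^ d := by
    rw [← mul_pow]; congr 1; ring
  rw [h5]
  have h6 : (P.card : ℝ) = (P.card : ℝ) * (1/2) ^ d * 2 ^ d := by
    rw [mul_assoc, ← mul_pow]; norm_num
  rw [h6]
  exact mul_le_mul_of_nonneg_right h4 (by positivity)

private theorem je_card {L : ℝ} (hL : 1 ≤ L) {P : Finset (E d)} (hP : Sep P) (x : E d) :
    ∑ p ∈ P, (Metric.ball p (2 * L)).indicator (fun _ => (1 : ENNReal)) x ≤ ENNReal.ofReal ((4 * L + 1) ^ d) := by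
  classical
  have h1 : ∑ p ∈ P, (Metric.ball p (2 * L)).indicator (fun _ => (1 : ENNReal)) x =
      ((P.filter (fun p => ‖x - p‖ < 2 * L)).card : ENNReal) := by
    rw [Finset.card_filter, Nat.cast_sum]
    refine Finset.sum_congr rfl fun p _ => ?_
    by_cases hp : ‖x - p‖ < 2 * L
    · rw [indicator_of_mem (by rw [Metric.mem_ball, dist_eq_norm]; exact hp), if_pos hp]; simp
    · rw [indicator_of_notMem (by rw [Metric.mem_ball, dist_eq_norm]; exact hp), if_neg hp]; simp
  rw [h1, ← ENNReal.ofReal_natCast]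
  refine ENNReal.ofReal_le_ofReal ?_
  have h2 : Sep (P.filter (fun p => ‖x - p‖ < 2 * L)) := fun p hp q hq =>
    hP p (Finset.mem_filter.1 hp).1 q (Finset.mem_filter.1 hq).1
  have h3 := pack h2 x (r := 2 * L) (by linarith) (fun p hp => (Finset.mem_filter.1 hp).2)
  have h4 : 2 * (2 * L) + 1 = 4 * L + 1 := by ring
  rwa [h4] at h3

/-- MODULE je. For `x ≠ y` in one ball `B_{2L}(p)`: `K (x - y) ≥ (4 L) ^ (-(d + 2 s))` (`K_anti`); every `x` lies in at most `(4 L + 1) ^ d` of the balls (`pack`); the diagonal is a null set. -/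
theorem sum_balls (hd : 1 ≤ d) (hs0 : 0 < s) {L : ℝ} (hL : 1 ≤ L) {A B : E d → ENNReal} (hA : Measurable A) (hB : Measurable B)
    {χ : E d → ℝ} {P : Finset (E d)} (hP : Sep P) (h1 : ∀ p ∈ P, ∀ x ∈ Metric.ball p (2 * L), χ x = 1) :
    ∑ p ∈ P, (∫⁻ x in Metric.ball p (2 * L), A x) * ∫⁻ x in Metric.ball p (2 * L), B x ≤
      ENNReal.ofReal ((4 * L + 1) ^ d * (4 * L) ^ ((d : ℝ) + 2 * s)) *
        ∫⁻ x, ∫⁻ y, A x * B y * ENNReal.ofReal (χ x * χ y * K d s (x - y)) := by
  have : Nonempty (Fin d) := ⟨⟨0, by omega⟩⟩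
  have : Nontrivial (E d) := inferInstance
  set M : ENNReal := ENNReal.ofReal ((4 * L) ^ ((d : ℝ) + 2 * s)) with hM
  set F : E d → ENNReal := fun x => ∫⁻ y, A x * B y * ENNReal.ofReal (χ x * χ y * K d s (x - y)) with hF
  -- one ball
  have key : ∀ p ∈ P, (∫⁻ x in Metric.ball p (2 * L), A x) * ∫⁻ x in Metric.ball p (2 * L), B x ≤
      ∫⁻ x, (Metric.ball p (2 * L)).indicator (fun _ => (1 : ENNReal)) x * (M * F x) := by
    intro p hp
    rw [← lintegral_mul_const'' _ hA.aemeasurable, ← lintegral_indicator measurableSet_ball]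
    refine lintegral_mono fun x => ?_
    by_cases hx : x ∈ Metric.ball p (2 * L)
    · show (Metric.ball p (2 * L)).indicator _ x ≤ _
      rw [indicator_of_mem hx, indicator_of_mem hx, one_mul, hF]
      show A x * ∫⁻ y in Metric.ball p (2 * L), B y ≤ M * ∫⁻ y, A x * B y * ENNReal.ofReal (χ x * χ y * K d s (x - y))
      rw [← lintegral_const_mul'' _ hB.aemeasurable, ← lintegral_const_mul' _ _ (by rw [hM]; exact ENNReal.ofReal_ne_top)]
      have hae : ∀ᵐ y ∂(volume.restrict (Metric.ball p (2 * L))), A x * B y ≤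
          M * (A x * B y * ENNReal.ofReal (χ x * χ y * K d s (x - y))) := by
        rw [ae_restrict_iff' measurableSet_ball]
        have hne : ∀ᵐ y ∂(volume : Measure (E d)), y ≠ x := by
          have : (volume : Measure (E d)) {x} = 0 := measure_singleton x
          exact compl_mem_ae_iff.2 this
        filter_upwards [hne] with y hyx hy
        rw [h1 p hp x hx, h1 p hp y hy, one_mul, one_mul]
        have hz : x - y ≠ 0 := sub_ne_zero.2 (Ne.symm hyx)
        have hn : ‖x - y‖ ≤ 4 * L := by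
          rw [← dist_eq_norm]
          have h2 : dist x p < 2 * L := hx
          have h3 : dist y p < 2 * L := hy
          have h4 := dist_triangle_right x y p
          linarith
        have h5 := K_anti (d := d) hs0 hz hn
        have h6 : 1 ≤ M * ENNReal.ofReal (K d s (x - y)) := by
          rw [hM, ← ENNReal.ofReal_mul (by positivity), ← ENNReal.ofReal_one]
          refine ENNReal.ofReal_le_ofReal ?_
          have h7 : (4 * L) ^ ((d : ℝ) + 2 * s) * (4 * L) ^ (-((d : ℝ) + 2 * s)) = 1 := by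
            rw [← Real.rpow_add (by linarith)]; simp
          rw [← h7]
          exact mul_le_mul_of_nonneg_left h5 (by positivity)
        calc A x * B y = A x * B y * 1 := (mul_one _).symm
          _ ≤ A x * B y * (M * ENNReal.ofReal (K d s (x - y))) := by gcongr
          _ = _ := by ring
      refine (lintegral_mono_ae hae).trans (setLIntegral_le_lintegral _ _)
    · show (Metric.ball p (2 * L)).indicator _ x ≤ _
      rw [indicator_of_notMem hx]; exact bot_le
  have hsum : ∀ (Q : Finset (E d)) (f : E d → E d → ENNReal), ∑ p ∈ Q, ∫⁻ x, f p x ≤ ∫⁻ x, ∑ p ∈ Q, f p x := by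
    classical
    intro Q f
    induction Q using Finset.induction_on with
    | empty => simp
    | insert a Q ha ih =>
      rw [Finset.sum_insert ha]
      refine (add_le_add_right ih _).trans ?_
      refine (le_lintegral_add _ _).trans (lintegral_mono fun x => ?_)
      rw [Finset.sum_insert ha]
  calc ∑ p ∈ P, (∫⁻ x in Metric.ball p (2 * L), A x) * ∫⁻ x in Metric.ball p (2 * L), B x
      ≤ ∑ p ∈ P, ∫⁻ x, (Metric.ball p (2 * L)).indicator (fun _ => (1 : ENNReal)) x * (M * F x) :=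
        Finset.sum_le_sum key
    _ ≤ ∫⁻ x, ∑ p ∈ P, (Metric.ball p (2 * L)).indicator (fun _ => (1 : ENNReal)) x * (M * F x) := hsum _ _
    _ ≤ ∫⁻ x, ENNReal.ofReal ((4 * L + 1) ^ d) * (M * F x) := by
        refine lintegral_mono fun x => ?_
        rw [← Finset.sum_mul]
        gcongr
        exact je_card hL hP x
    _ = ENNReal.ofReal ((4 * L + 1) ^ d * (4 * L) ^ ((d : ℝ) + 2 * s)) * ∫⁻ x, F x := by
        rw [ENNReal.ofReal_mul (by positivity), ← hM, mul_assoc,
          ← lintegral_const_mul' _ _ (by rw [hM]; exact ENNReal.ofReal_ne_top),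
          ← lintegral_const_mul' _ _ ENNReal.ofReal_ne_top]

private theorem jf_sum (Q : Finset (E d)) {μ : Measure (E d)} (f : E d → E d → ENNReal) : ∑ p ∈ Q, ∫⁻ x, f p x ∂μ ≤ ∫⁻ x, ∑ p ∈ Q, f p x ∂μ := by
    classical
    induction Q using Finset.induction_on with
    | empty => simp
    | insert a Q ha ih =>
      rw [Finset.sum_insert ha]
      refine (add_le_add_right ih _).trans ?_
      refine (le_lintegral_add _ _).trans (lintegral_mono fun x => ?_)
      rw [Finset.sum_insert ha]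

/-- MODULE jf. `G`, `diff_le`, `sum_balls` with `A x = ofReal (∂_h u x)`, `B x = ofReal (- ∂_h u x)`, `sign_ineq` with `ν = h`, `‖h‖ < L`; the sum goes inside the integral over `h`. -/
theorem gain (hd : 1 ≤ d) (hs0 : 0 < s) (hs1 : s < 1) {L : ℝ} (hL : 1 ≤ L) : ∃ C : ℝ, 0 ≤ C ∧ ∀ c : ℝ, 0 < c →
    ∀ u : E d → ℝ, Entire d s c u → Stable d s c u → ∀ χ W : E d → ℝ, Cut χ W → ∀ P : Finset (E d), Sep P →
      (∀ p ∈ P, ∀ x ∈ Metric.ball p (2 * L), χ x = 1) →
      ∑ p ∈ P, G L u p ≤ ENNReal.ofReal C * ∫⁻ x, ENNReal.ofReal (W x) * en d s u x := by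
  obtain ⟨C1, hC1, hS⟩ := sign_ineq hd hs0 hs1
  set V : ℝ := (volume (Metric.ball (0 : E d) L)).toReal with hV
  have hVe : volume (Metric.ball (0 : E d) L) = ENNReal.ofReal V :=
    (ENNReal.ofReal_toReal measure_ball_lt_top.ne).symm
  set M : ℝ := (4 * L + 1) ^ d * (4 * L) ^ ((d : ℝ) + 2 * s) with hM
  have hM0 : 0 ≤ M := by positivity
  refine ⟨M * (C1 * L ^ 2) * V, by positivity, ?_⟩
  intro c hc u hu hst χ W hcut P hP h1
  have hu1 : ContDiff ℝ 1 u := hu.smooth.of_le (by norm_num)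
  set I : ENNReal := ∫⁻ x, ENNReal.ofReal (W x) * en d s u x with hI
  have hA : ∀ h : E d, Measurable (fun x => fderiv ℝ u x h) := fun h =>
    ((hu1.continuous_fderiv (by norm_num)).clm_apply continuous_const).measurable
  have hone : ∀ h ∈ Metric.ball (0 : E d) L, ∑ p ∈ P, (∫⁻ x in Metric.ball p L, ENNReal.ofReal (u (x + h) - u x)) *
      ∫⁻ x in Metric.ball p L, ENNReal.ofReal (u x - u (x + h)) ≤ ENNReal.ofReal (M * (C1 * L ^ 2)) * I := by
    intro h hh
    have hh' : ‖h‖ < L := by simpa using hh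
    calc ∑ p ∈ P, (∫⁻ x in Metric.ball p L, ENNReal.ofReal (u (x + h) - u x)) *
          ∫⁻ x in Metric.ball p L, ENNReal.ofReal (u x - u (x + h))
        ≤ ∑ p ∈ P, (∫⁻ x in Metric.ball p (2 * L), ENNReal.ofReal (fderiv ℝ u x h)) *
          ∫⁻ x in Metric.ball p (2 * L), ENNReal.ofReal (-fderiv ℝ u x h) :=
          Finset.sum_le_sum fun p _ => mul_le_mul' (diff_le hu1 hh' p).1 (diff_le hu1 hh' p).2
      _ ≤ ENNReal.ofReal M * ∫⁻ x, ∫⁻ y, ENNReal.ofReal (fderiv ℝ u x h) * ENNReal.ofReal (-fderiv ℝ u y h) *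
            ENNReal.ofReal (χ x * χ y * K d s (x - y)) :=
          sum_balls hd hs0 hL (hA h).ennreal_ofReal (hA h).neg.ennreal_ofReal hP h1
      _ ≤ ENNReal.ofReal M * (ENNReal.ofReal (C1 * ‖h‖ ^ 2) * I) := by
          gcongr
          exact hS c hc u hu hst χ W hcut h
      _ ≤ ENNReal.ofReal M * (ENNReal.ofReal (C1 * L ^ 2) * I) := by
          gcongr
      _ = ENNReal.ofReal (M * (C1 * L ^ 2)) * I := by
          rw [ENNReal.ofReal_mul hM0, mul_assoc]
  calc ∑ p ∈ P, G L u p ≤ ∫⁻ h in Metric.ball (0 : E d) L, ∑ p ∈ P,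
        (∫⁻ x in Metric.ball p L, ENNReal.ofReal (u (x + h) - u x)) *
          ∫⁻ x in Metric.ball p L, ENNReal.ofReal (u x - u (x + h)) :=
        jf_sum P (μ := volume.restrict (Metric.ball (0 : E d) L)) (fun p h =>
          (∫⁻ x in Metric.ball p L, ENNReal.ofReal (u (x + h) - u x)) *
          ∫⁻ x in Metric.ball p L, ENNReal.ofReal (u x - u (x + h)))
    _ ≤ ∫⁻ h in Metric.ball (0 : E d) L, ENNReal.ofReal (M * (C1 * L ^ 2)) * I :=
        setLIntegral_mono' measurableSet_ball hone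
    _ = ENNReal.ofReal (M * (C1 * L ^ 2) * V) * I := by
        rw [setLIntegral_const, hVe, ENNReal.ofReal_mul (by positivity : (0:ℝ) ≤ M * (C1 * L ^ 2))]
        ring

end NDG
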