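import Pool.Agent.NDG.Defs

/-! # The kernel `|z| ^ (-(d + 2 s))` -/

open MeasureTheory Filter Topology Set

noncomputable section

namespace NDG

variable {d : ℕ} {s : ℝ}

/-- MODULE aa. -/
theorem K_nonneg (z : E d) : 0 ≤ K d s z := Real.rpow_nonneg (norm_nonneg z) _

/-- MODULE aa. -/
theorem K_neg (z : E d) : K d s (-z) = K d s z := by
  unfold K
  rw [norm_neg]

/-- MODULE aa. -/
theorem K_sub_comm (x y : E d) : K d s (x - y) = K d s (y - x) := by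
  unfold K
  rw [norm_sub_rev]

/-- MODULE aa. (`Real.rpow` is measurable in the base.) -/
theorem K_meas : Measurable (K d s) := by
  unfold K
  exact measurable_norm.pow_const _

/-- MODULE aa. -/
theorem K_continuousAt {z : E d} (hz : z ≠ 0) : ContinuousAt (K d s) z := by
  unfold K
  exact continuous_norm.continuousAt.rpow_const (Or.inl (norm_ne_zero_iff.2 hz))

/-- MODULE aa. `K` is decreasing in the norm. -/
theorem K_anti (hs : 0 < s) {r : ℝ} {z : E d} (hz : z ≠ 0) (h : ‖z‖ ≤ r) : r ^ (-((d : ℝ) + 2 * s)) ≤ K d s z := by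
  unfold K
  refine Real.rpow_le_rpow_of_nonpos (norm_pos_iff.2 hz) h ?_
  have h1 : (0 : ℝ) ≤ d := Nat.cast_nonneg d
  linarith

/-- MODULE ab. Compare with `(1 + ‖z‖) ^ (-(d + 2 s))` (`integrable_one_add_norm`): `‖z‖ ≥ r` gives `1 + ‖z‖ ≤ (1 / r + 1) ‖z‖`. -/
theorem K_far (hs : 0 < s) {r : ℝ} (hr : 0 < r) : IntegrableOn (K d s) {z : E d | r ≤ ‖z‖} := by
  have hq : (0 : ℝ) ≤ (d : ℝ) + 2 * s := by positivity
  have hc0 : (0 : ℝ) < 1 / r + 1 := by positivity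
  have hi : Integrable (fun z : E d => (1 / r + 1) ^ ((d : ℝ) + 2 * s) * (1 + ‖z‖) ^ (-((d : ℝ) + 2 * s))) :=
    (integrable_one_add_norm (by simp; linarith)).const_mul _
  refine hi.integrableOn.mono' K_meas.aestronglyMeasurable ?_
  refine (ae_restrict_iff' (measurableSet_le measurable_const measurable_norm)).2 (ae_of_all _ fun z hz => ?_)
  have hz' : r ≤ ‖z‖ := hz
  have hz0 : 0 < ‖z‖ := lt_of_lt_of_le hr hz'
  rw [Real.norm_of_nonneg (K_nonneg z)]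
  unfold K
  have h1 : 1 + ‖z‖ ≤ (1 / r + 1) * ‖z‖ := by
    have : 1 ≤ ‖z‖ / r := by rw [le_div_iff₀ hr]; linarith
    have h2 : (1 / r + 1) * ‖z‖ = ‖z‖ / r + ‖z‖ := by ring
    rw [h2]; linarith
  have h3 : (1 + ‖z‖) / (1 / r + 1) ≤ ‖z‖ := by
    rw [div_le_iff₀ hc0]; linarith
  have h4 : 0 < (1 + ‖z‖) / (1 / r + 1) := by positivity
  calc ‖z‖ ^ (-((d : ℝ) + 2 * s)) ≤ ((1 + ‖z‖) / (1 / r + 1)) ^ (-((d : ℝ) + 2 * s)) :=
        Real.rpow_le_rpow_of_nonpos h4 h3 (by linarith)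
    _ = (1 / r + 1) ^ ((d : ℝ) + 2 * s) * (1 + ‖z‖) ^ (-((d : ℝ) + 2 * s)) := by
        rw [Real.div_rpow (by positivity) hc0.le, Real.rpow_neg hc0.le, div_inv_eq_mul, mul_comm]

/-- MODULE ac. Polar coordinates: `integrable_fun_norm_addHaar` (or `MeasureTheory.Measure.integrable...`): `∫_0^r t ^ (d - 1) t ^ (β - d) dt < ∞`. -/
theorem near_int (hd : 1 ≤ d) {β : ℝ} (hβ : 0 < β) (r : ℝ) :
    IntegrableOn (fun z : E d => ‖z‖ ^ (β - (d : ℝ))) (Metric.ball 0 r) := by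
  rcases le_or_gt r 0 with hr | hr
  · rw [Metric.ball_eq_empty.2 hr]
    exact integrableOn_empty
  have : Nonempty (Fin d) := ⟨⟨0, hd⟩⟩
  have : Nontrivial (E d) := inferInstance
  rw [← integrable_indicator_iff Metric.isOpen_ball.measurableSet]
  have h1 : (Metric.ball (0 : E d) r).indicator (fun z : E d => ‖z‖ ^ (β - (d : ℝ))) =
      fun z : E d => (Iio r).indicator (fun t : ℝ => t ^ (β - (d : ℝ))) ‖z‖ := by
    funext z
    by_cases hz : ‖z‖ < r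
    · rw [indicator_of_mem (show z ∈ Metric.ball (0 : E d) r by simpa using hz),
        indicator_of_mem (show ‖z‖ ∈ Iio r from hz)]
    · rw [indicator_of_notMem (show z ∉ Metric.ball (0 : E d) r by simpa using hz),
        indicator_of_notMem (show ‖z‖ ∉ Iio r from hz)]
  rw [h1, integrable_fun_norm_addHaar]
  have h2 : IntegrableOn (fun y : ℝ => y ^ (β - 1)) (Ioo 0 r) :=
    (intervalIntegral.integrableOn_Ioo_rpow_iff hr).2 (by linarith)
  have h3 : IntegrableOn ((Iio r).indicator (fun y : ℝ => y ^ (β - 1))) (Ioi 0) := by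
    rw [IntegrableOn, integrable_indicator_iff measurableSet_Iio, IntegrableOn,
      Measure.restrict_restrict measurableSet_Iio, Iio_inter_Ioi]
    exact h2
  refine h3.congr_fun (fun y hy => ?_) measurableSet_Ioi
  have hy0 : 0 < y := hy
  by_cases hyr : y < r
  · rw [indicator_of_mem (show y ∈ Iio r from hyr)]
    show y ^ (β - 1) = y ^ (Module.finrank ℝ (E d) - 1) • (Iio r).indicator _ y
    rw [indicator_of_mem (show y ∈ Iio r from hyr), smul_eq_mul, finrank_euclideanSpace,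
      Fintype.card_fin, ← Real.rpow_natCast, ← Real.rpow_add hy0, Nat.cast_sub hd]
    congr 1
    push_cast
    ring
  · rw [indicator_of_notMem (show y ∉ Iio r from hyr)]
    show 0 = y ^ (Module.finrank ℝ (E d) - 1) • (Iio r).indicator _ y
    rw [indicator_of_notMem (show y ∉ Iio r from hyr), smul_zero]

/-- MODULE ad. For a scale: `∫_{‖z‖ < r} ‖z‖ ^ (β - d) = C r ^ β` by the change of variables `z = r w` (`MeasureTheory.Measure.setIntegral_comp_smul...`), or polar coordinates as in `near_int`. -/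
theorem near_scale (hd : 1 ≤ d) {β : ℝ} (hβ : 0 < β) : ∃ C : ℝ, 0 ≤ C ∧ ∀ r : ℝ, 0 < r →
    ∫ z in Metric.ball (0 : E d) r, ‖z‖ ^ (β - (d : ℝ)) ≤ C * r ^ β := by
  have : Nonempty (Fin d) := ⟨⟨0, hd⟩⟩
  have : Nontrivial (E d) := inferInstance
  refine ⟨(Module.finrank ℝ (E d) : ℝ) * (volume.real (Metric.ball (0 : E d) 1) * β⁻¹),
    by positivity, fun r hr => ?_⟩
  rw [← integral_indicator Metric.isOpen_ball.measurableSet]
  have h1 : (Metric.ball (0 : E d) r).indicator (fun z : E d => ‖z‖ ^ (β - (d : ℝ))) =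
      fun z : E d => (Iio r).indicator (fun t : ℝ => t ^ (β - (d : ℝ))) ‖z‖ := by
    funext z
    by_cases hz : ‖z‖ < r
    · rw [indicator_of_mem (show z ∈ Metric.ball (0 : E d) r by simpa using hz),
        indicator_of_mem (show ‖z‖ ∈ Iio r from hz)]
    · rw [indicator_of_notMem (show z ∉ Metric.ball (0 : E d) r by simpa using hz),
        indicator_of_notMem (show ‖z‖ ∉ Iio r from hz)]
  have h2 : ∫ y in Ioi (0 : ℝ), y ^ (Module.finrank ℝ (E d) - 1) •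
      (Iio r).indicator (fun t : ℝ => t ^ (β - (d : ℝ))) y = β⁻¹ * r ^ β := by
    have h3 : ∫ y in Ioi (0 : ℝ), y ^ (Module.finrank ℝ (E d) - 1) •
        (Iio r).indicator (fun t : ℝ => t ^ (β - (d : ℝ))) y =
        ∫ y in Ioi (0 : ℝ), (Iio r).indicator (fun t : ℝ => t ^ (β - 1)) y := by
      refine setIntegral_congr_fun measurableSet_Ioi fun y hy => ?_
      have hy0 : 0 < y := hy
      by_cases hyr : y < r
      · show y ^ (Module.finrank ℝ (E d) - 1) • (Iio r).indicator _ y = (Iio r).indicator _ y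
        rw [indicator_of_mem (show y ∈ Iio r from hyr), indicator_of_mem (show y ∈ Iio r from hyr),
          smul_eq_mul, finrank_euclideanSpace,
          Fintype.card_fin, ← Real.rpow_natCast, ← Real.rpow_add hy0, Nat.cast_sub hd]
        congr 1
        push_cast
        ring
      · show y ^ (Module.finrank ℝ (E d) - 1) • (Iio r).indicator _ y = (Iio r).indicator _ y
        rw [indicator_of_notMem (show y ∉ Iio r from hyr),
          indicator_of_notMem (show y ∉ Iio r from hyr), smul_zero]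
    rw [h3, integral_indicator measurableSet_Iio, Measure.restrict_restrict measurableSet_Iio,
      Iio_inter_Ioi, ← integral_Ioc_eq_integral_Ioo, ← intervalIntegral.integral_of_le hr.le,
      integral_rpow (Or.inl (by linarith))]
    rw [sub_add_cancel, Real.zero_rpow hβ.ne', sub_zero, div_eq_inv_mul]
  rw [h1, integral_fun_norm_addHaar, h2, nsmul_eq_mul, smul_eq_mul]
  apply le_of_eq
  ring

/-- MODULE ae. For `‖z‖ < 1` it is `≤ ‖z‖ ^ (2 - 2 s - d)` (`near_int`, `β = 2 - 2 s`), for `‖z‖ ≥ 1` it is `K z` (`K_far`). -/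
theorem minK_int (hd : 1 ≤ d) (hs0 : 0 < s) (hs1 : s < 1) : Integrable (fun z : E d => min 1 (‖z‖ ^ 2) * K d s z) := by
  have hm : AEStronglyMeasurable (fun z : E d => min 1 (‖z‖ ^ 2) * K d s z) volume :=
    ((measurable_const.min (measurable_norm.pow_const 2)).mul K_meas).aestronglyMeasurable
  have h1 : IntegrableOn (fun z : E d => min 1 (‖z‖ ^ 2) * K d s z) (Metric.ball 0 1) := by
    refine Integrable.mono' (near_int hd (β := 2 - 2 * s) (by linarith) 1) hm.restrict ?_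
    refine Filter.Eventually.of_forall fun z => ?_
    rw [Real.norm_of_nonneg (mul_nonneg (le_min zero_le_one (by positivity)) (K_nonneg z))]
    rcases eq_or_ne z 0 with hz | hz
    · rw [hz]
      simp only [norm_zero]
      rw [show min (1 : ℝ) (0 ^ 2) = 0 by norm_num, zero_mul]
      positivity
    · have hz0 : 0 < ‖z‖ := norm_pos_iff.2 hz
      calc min 1 (‖z‖ ^ 2) * K d s z ≤ ‖z‖ ^ 2 * K d s z :=
            mul_le_mul_of_nonneg_right (min_le_right _ _) (K_nonneg z)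
        _ = ‖z‖ ^ (2 - 2 * s - (d : ℝ)) := by
            unfold K
            rw [← Real.rpow_natCast, ← Real.rpow_add hz0]
            congr 1
            push_cast
            ring
  have h2 : IntegrableOn (fun z : E d => min 1 (‖z‖ ^ 2) * K d s z) (Metric.ball 0 1)ᶜ := by
    have h3 : (Metric.ball (0 : E d) 1)ᶜ = {z : E d | 1 ≤ ‖z‖} := by
      ext z
      simp
    rw [h3]
    refine Integrable.mono' (K_far hs0 one_pos) hm.restrict ?_
    refine Filter.Eventually.of_forall fun z => ?_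
    rw [Real.norm_of_nonneg (mul_nonneg (le_min zero_le_one (by positivity)) (K_nonneg z))]
    calc min 1 (‖z‖ ^ 2) * K d s z ≤ 1 * K d s z :=
          mul_le_mul_of_nonneg_right (min_le_left _ _) (K_nonneg z)
      _ = K d s z := one_mul _
  have h4 := h1.union h2
  rw [union_compl_self, integrableOn_univ] at h4
  exact h4

/-- MODULE af. The map `(x, y) ↦ (x, x - y)` preserves the measure (`measurePreserving_prod_neg_add` and similar; or `Integrable.comp_sub_left`, `integrable_prod_iff`, Fubini).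
`(x, z) ↦ W x g z` is integrable (`Integrable.mul_prod`), and by symmetry `W y g (x - y)`. -/
theorem prod_int {W g : E d → ℝ} (hW : Integrable W) (hg : Integrable g) :
    Integrable (fun p : E d × E d => W p.1 * g (p.1 - p.2)) ∧ Integrable (fun p : E d × E d => W p.2 * g (p.1 - p.2)) := by
  have key : ∀ g : E d → ℝ, Integrable g → Integrable (fun p : E d × E d => W p.1 * g (p.2 - p.1)) := by
    intro g hg
    have h1 : Integrable (fun p : E d × E d => W p.1 * g p.2) (volume.prod volume) :=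
      hW.mul_prod hg
    have h2 := (measurePreserving_prod_sub (volume : Measure (E d))
      (volume : Measure (E d))).integrable_comp_of_integrable h1
    exact h2
  have hg' : Integrable (fun z => g (-z)) := hg.comp_neg
  have h1 := key _ hg'
  have h2 := key _ hg
  refine ⟨?_, ?_⟩
  · refine h1.congr (Filter.Eventually.of_forall fun p => ?_)
    show W p.1 * g (-(p.2 - p.1)) = _
    rw [neg_sub]
  · have h3 : Integrable (fun p : E d × E d => W p.1 * g (p.2 - p.1)) (volume.prod volume) := h2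
    exact h3.swap

/-- MODULE ag. `prod_int`, `minK_int`. -/
theorem dom_int (hd : 1 ≤ d) (hs0 : 0 < s) (hs1 : s < 1) {W : E d → ℝ} (hW : Integrable W) :
    Integrable (fun p : E d × E d => (W p.1 + W p.2) * (min 1 (‖p.1 - p.2‖ ^ 2) * K d s (p.1 - p.2))) := by
  obtain ⟨h1, h2⟩ := prod_int hW (minK_int (d := d) hd hs0 hs1)
  refine (h1.add h2).congr (Filter.Eventually.of_forall fun p => ?_)
  show W p.1 * (min 1 (‖p.1 - p.2‖ ^ 2) * K d s (p.1 - p.2)) +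
    W p.2 * (min 1 (‖p.1 - p.2‖ ^ 2) * K d s (p.1 - p.2)) = _
  ring

private theorem ba_one (p : ℝ) : ∃ L : ℝ, 0 ≤ L ∧ ∀ u : ℝ, 1 / 4 ≤ u → u ≤ 9 / 4 →
    |u ^ p - 1| ≤ L * |u - 1| := by
  have hc : ContinuousOn (fun u : ℝ => p * u ^ (p - 1)) (Icc (1 / 4) (9 / 4)) := by
    refine continuousOn_const.mul (ContinuousOn.rpow_const continuousOn_id fun u hu => Or.inl ?_)
    exact ne_of_gt (lt_of_lt_of_le (by norm_num) hu.1)
  obtain ⟨L, hL⟩ := isCompact_Icc.exists_bound_of_continuousOn hc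
  have hL0 : 0 ≤ L := (norm_nonneg _).trans (hL 1 ⟨by norm_num, by norm_num⟩)
  refine ⟨L, hL0, fun u h1 h2 => ?_⟩
  have h3 := Convex.norm_image_sub_le_of_norm_hasDerivWithin_le (𝕜 := ℝ)
    (f := fun u : ℝ => u ^ p) (f' := fun u : ℝ => p * u ^ (p - 1)) (s := Icc (1 / 4) (9 / 4))
    (x := 1) (y := u) (C := L) ?_ hL (convex_Icc _ _) ⟨by norm_num, by norm_num⟩ ⟨h1, h2⟩
  · rw [Real.norm_eq_abs, Real.norm_eq_abs, Real.one_rpow] at h3
    exact h3
  · intro x hx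
    have hx0 : x ≠ 0 := by
      have := hx.1
      linarith
    exact (Real.hasDerivAt_rpow_const (Or.inl hx0)).hasDerivWithinAt

private theorem ba_scale {z w : E d} (hz : z ≠ 0) :
    K d s w = K d s z * (‖w‖ / ‖z‖) ^ (-((d : ℝ) + 2 * s)) := by
  have hz0 : 0 < ‖z‖ := norm_pos_iff.2 hz
  unfold K
  rw [← Real.mul_rpow hz0.le (by positivity)]
  congr 1
  field_simp

private theorem ba_ratio {z w : E d} (hz : z ≠ 0) (h : 2 * ‖w - z‖ ≤ ‖z‖) :
    1 / 2 ≤ ‖w‖ / ‖z‖ ∧ ‖w‖ / ‖z‖ ≤ 3 / 2 ∧ |‖w‖ / ‖z‖ - 1| ≤ ‖w - z‖ / ‖z‖ := by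
  have hz0 : 0 < ‖z‖ := norm_pos_iff.2 hz
  have h1 : |‖w‖ - ‖z‖| ≤ ‖w - z‖ := abs_norm_sub_norm_le w z
  have h2 := abs_le.1 h1
  refine ⟨?_, ?_, ?_⟩
  · rw [le_div_iff₀ hz0]
    linarith
  · rw [div_le_iff₀ hz0]
    linarith
  · have h3 : ‖w‖ / ‖z‖ - 1 = (‖w‖ - ‖z‖) / ‖z‖ := by field_simp
    rw [h3, abs_div, abs_of_pos hz0]
    gcongr

/-- MODULE ba. Mean value theorem for `t ↦ t ^ (-(d + 2 s))` between `‖z‖` and `‖z + h‖`, both `≥ ‖z‖ / 2`: the difference of the norms is `≤ ‖h‖`. -/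
theorem K_diff (hs : 0 < s) : ∃ C : ℝ, 0 ≤ C ∧ ∀ z h : E d, z ≠ 0 → 2 * ‖h‖ ≤ ‖z‖ →
    |K d s (z + h) - K d s z| ≤ C * (‖h‖ / ‖z‖) * K d s z := by
  obtain ⟨L, hL0, hL⟩ := ba_one (-((d : ℝ) + 2 * s))
  refine ⟨L, hL0, fun z h hz hh => ?_⟩
  have h1 := ba_ratio (w := z + h) hz (by rw [add_sub_cancel_left]; exact hh)
  rw [add_sub_cancel_left] at h1
  obtain ⟨a1, a2, a3⟩ := h1
  have h2 := hL (‖z + h‖ / ‖z‖) (by linarith) (by linarith)
  rw [ba_scale (w := z + h) hz]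
  have h3 : K d s z * (‖z + h‖ / ‖z‖) ^ (-((d : ℝ) + 2 * s)) - K d s z =
      ((‖z + h‖ / ‖z‖) ^ (-((d : ℝ) + 2 * s)) - 1) * K d s z := by ring
  rw [h3, abs_mul, abs_of_nonneg (K_nonneg z)]
  exact mul_le_mul_of_nonneg_right (h2.trans (mul_le_mul_of_nonneg_left a3 hL0)) (K_nonneg z)

private theorem bb_two (p : ℝ) : ∃ M : ℝ, 0 ≤ M ∧ ∀ u : ℝ, 1 / 4 ≤ u → u ≤ 9 / 4 →
    |u ^ p - 1 - p * (u - 1)| ≤ M * (u - 1) ^ 2 := by
  obtain ⟨L, hL0, hL⟩ := ba_one (p - 1)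
  refine ⟨|p| * L, by positivity, fun u h1 h2 => ?_⟩
  have hsub : ∀ x ∈ uIcc 1 u, 1 / 4 ≤ x ∧ x ≤ 9 / 4 ∧ |x - 1| ≤ |u - 1| := by
    intro x hx
    rcases le_total 1 u with h | h
    · rw [uIcc_of_le h] at hx
      refine ⟨by linarith [hx.1], by linarith [hx.2], ?_⟩
      rw [abs_of_nonneg (by linarith [hx.1]), abs_of_nonneg (by linarith)]
      linarith [hx.2]
    · rw [uIcc_of_ge h] at hx
      refine ⟨by linarith [hx.1], by linarith [hx.2], ?_⟩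
      rw [abs_of_nonpos (by linarith [hx.2]), abs_of_nonpos (by linarith)]
      linarith [hx.1]
  have h3 := Convex.norm_image_sub_le_of_norm_hasDerivWithin_le (𝕜 := ℝ)
    (f := fun u : ℝ => u ^ p - p * u) (f' := fun u : ℝ => p * u ^ (p - 1) - p)
    (s := uIcc 1 u) (x := 1) (y := u) (C := |p| * (L * |u - 1|)) ?_ ?_ (convex_uIcc _ _)
    left_mem_uIcc right_mem_uIcc
  · rw [Real.norm_eq_abs, Real.norm_eq_abs, Real.one_rpow] at h3
    have h4 : u ^ p - p * u - (1 - p * 1) = u ^ p - 1 - p * (u - 1) := by ring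
    rw [h4] at h3
    refine h3.trans (le_of_eq ?_)
    rw [← sq_abs (u - 1)]
    ring
  · intro x hx
    obtain ⟨c1, c2, c3⟩ := hsub x hx
    have hx0 : x ≠ 0 := by linarith
    have h5 : HasDerivAt (fun u : ℝ => p * u) p x := by
      simpa using (hasDerivAt_id x).const_mul p
    exact ((Real.hasDerivAt_rpow_const (Or.inl hx0)).sub h5).hasDerivWithinAt
  · intro x hx
    obtain ⟨c1, c2, c3⟩ := hsub x hx
    have h5 : p * x ^ (p - 1) - p = p * (x ^ (p - 1) - 1) := by ring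
    rw [h5, norm_mul, Real.norm_eq_abs, Real.norm_eq_abs]
    exact mul_le_mul_of_nonneg_left ((hL x c1 c2).trans (mul_le_mul_of_nonneg_left c3 hL0))
      (abs_nonneg p)

private theorem bb_quarter {r : ℝ} (h1 : 1 / 2 ≤ r) (h2 : r ≤ 3 / 2) :
    1 / 4 ≤ r ^ 2 ∧ r ^ 2 ≤ 9 / 4 := by
  constructor <;> nlinarith

private theorem bb_sq {z w : E d} (hz : z ≠ 0) :
    K d s w = K d s z * (‖w‖ ^ 2 / ‖z‖ ^ 2) ^ (-((d : ℝ) + 2 * s) / 2) := by
  rw [ba_scale (w := w) hz, ← div_pow, ← Real.rpow_natCast, ← Real.rpow_mul (by positivity)]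
  congr 2
  push_cast
  ring

/-- MODULE bb. `K z = g (‖z‖ ^ 2)`, `g t = t ^ (-(d + 2 s) / 2)`; `‖z ± h‖ ^ 2 = ‖z‖ ^ 2 ± 2 ⟨z, h⟩ + ‖h‖ ^ 2`; Taylor of order `2` for `g` at `‖z‖ ^ 2` (on `[‖z‖ ^ 2 / 4, 9 ‖z‖ ^ 2 / 4]`, `|g''| ≤ C ‖z‖ ^ (-4) K z`): the sum of the linear terms is
`2 ‖h‖ ^ 2 g' (‖z‖ ^ 2)`, the rest is `≤ sup |g''| (3 ‖z‖ ‖h‖) ^ 2`. -/
theorem K_diff2 (hs : 0 < s) : ∃ C : ℝ, 0 ≤ C ∧ ∀ z h : E d, z ≠ 0 → 2 * ‖h‖ ≤ ‖z‖ →
    |K d s (z + h) + K d s (z - h) - 2 * K d s z| ≤ C * (‖h‖ / ‖z‖) ^ 2 * K d s z := by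
  set p : ℝ := -((d : ℝ) + 2 * s) / 2 with hp
  obtain ⟨M, hM0, hM⟩ := bb_two p
  refine ⟨2 * |p| + 25 * M, by positivity, fun z h hz hh => ?_⟩
  have hz0 : 0 < ‖z‖ := norm_pos_iff.2 hz
  obtain ⟨a1, a2, -⟩ := ba_ratio (w := z + h) hz (by rw [add_sub_cancel_left]; exact hh)
  obtain ⟨b1, b2, -⟩ := ba_ratio (w := z - h) hz (by
    rw [show z - h - z = -h by abel, norm_neg]; exact hh)
  set ρ : ℝ := ‖h‖ / ‖z‖ with hρ
  have hρ0 : 0 ≤ ρ := by positivity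
  have hρ1 : ρ ≤ 1 / 2 := by
    rw [hρ, div_le_iff₀ hz0]
    linarith
  set β : ℝ := 2 * inner ℝ z h / ‖z‖ ^ 2 with hβ
  have hβ1 : |β| ≤ 2 * ρ := by
    rw [hβ, abs_div, abs_of_pos (by positivity : 0 < ‖z‖ ^ 2), div_le_iff₀ (by positivity),
      abs_mul, abs_two]
    have h1 := abs_real_inner_le_norm z h
    calc 2 * |inner ℝ z h| ≤ 2 * (‖z‖ * ‖h‖) := by linarith
      _ = 2 * ρ * ‖z‖ ^ 2 := by
          rw [hρ]
          field_simp
  have e1 : ‖z + h‖ ^ 2 / ‖z‖ ^ 2 = 1 + β + ρ ^ 2 := by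
    rw [norm_add_sq_real, hβ, hρ]
    field_simp
  have e2 : ‖z - h‖ ^ 2 / ‖z‖ ^ 2 = 1 - β + ρ ^ 2 := by
    rw [norm_sub_sq_real, hβ, hρ]
    field_simp
  have c1 : 1 / 4 ≤ ‖z + h‖ ^ 2 / ‖z‖ ^ 2 ∧ ‖z + h‖ ^ 2 / ‖z‖ ^ 2 ≤ 9 / 4 := by
    rw [← div_pow]
    exact bb_quarter a1 a2
  have c2 : 1 / 4 ≤ ‖z - h‖ ^ 2 / ‖z‖ ^ 2 ∧ ‖z - h‖ ^ 2 / ‖z‖ ^ 2 ≤ 9 / 4 := by
    rw [← div_pow]
    exact bb_quarter b1 b2
  have d1 := hM _ c1.1 c1.2
  have d2 := hM _ c2.1 c2.2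
  have hρ2 : ρ ^ 2 ≤ 1 / 2 * ρ := by nlinarith
  have hρ3 : 0 ≤ ρ ^ 2 := sq_nonneg ρ
  have hb0 : ∀ t : ℝ, |t| ≤ 2 * ρ → (t + ρ ^ 2) ^ 2 ≤ 25 / 2 * ρ ^ 2 := by
    intro t ht
    have h1 := abs_le.1 ht
    have h2 : |t + ρ ^ 2| ≤ 5 / 2 * ρ := abs_le.2 ⟨by linarith, by linarith⟩
    have h3 : (t + ρ ^ 2) ^ 2 ≤ (5 / 2 * ρ) ^ 2 := by
      rw [← sq_abs (t + ρ ^ 2)]
      exact pow_le_pow_left₀ (abs_nonneg _) h2 2
    have h4 : (5 / 2 * ρ) ^ 2 = 25 / 4 * ρ ^ 2 := by ring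
    linarith
  have hb1 : (β + ρ ^ 2) ^ 2 ≤ 25 / 2 * ρ ^ 2 := hb0 β hβ1
  have hb2 : (-β + ρ ^ 2) ^ 2 ≤ 25 / 2 * ρ ^ 2 := hb0 (-β) (by rw [abs_neg]; exact hβ1)
  rw [bb_sq (w := z + h) hz, bb_sq (w := z - h) hz, ← hp]
  set A : ℝ := (‖z + h‖ ^ 2 / ‖z‖ ^ 2) ^ p with hA
  set B : ℝ := (‖z - h‖ ^ 2 / ‖z‖ ^ 2) ^ p with hB
  rw [e1] at d1
  rw [e2] at d2
  have d1' : |A - 1 - p * (β + ρ ^ 2)| ≤ M * (25 / 2 * ρ ^ 2) := by
    have h1 : 1 + β + ρ ^ 2 - 1 = β + ρ ^ 2 := by ring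
    rw [h1] at d1
    exact d1.trans (mul_le_mul_of_nonneg_left hb1 hM0)
  have d2' : |B - 1 - p * (-β + ρ ^ 2)| ≤ M * (25 / 2 * ρ ^ 2) := by
    have h1 : 1 - β + ρ ^ 2 - 1 = -β + ρ ^ 2 := by ring
    rw [h1] at d2
    exact d2.trans (mul_le_mul_of_nonneg_left hb2 hM0)
  have h5 : K d s z * A + K d s z * B - 2 * K d s z = (A + B - 2) * K d s z := by ring
  rw [h5, abs_mul, abs_of_nonneg (K_nonneg z)]
  refine mul_le_mul_of_nonneg_right ?_ (K_nonneg z)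
  have h6 : A + B - 2 = (A - 1 - p * (β + ρ ^ 2)) + (B - 1 - p * (-β + ρ ^ 2)) +
      2 * p * ρ ^ 2 := by ring
  have h7 : |2 * p * ρ ^ 2| = 2 * |p| * ρ ^ 2 := by
    rw [abs_mul, abs_mul, abs_two, abs_of_nonneg (sq_nonneg ρ)]
  calc |A + B - 2| ≤ |A - 1 - p * (β + ρ ^ 2)| + |B - 1 - p * (-β + ρ ^ 2)| +
        |2 * p * ρ ^ 2| := by
        rw [h6]
        exact abs_add_three _ _ _
    _ ≤ M * (25 / 2 * ρ ^ 2) + M * (25 / 2 * ρ ^ 2) + 2 * |p| * ρ ^ 2 := by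
        rw [h7]
        linarith
    _ = (2 * |p| + 25 * M) * ρ ^ 2 := by ring

end NDG
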