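import Pool.Agent.NDG.Lim

/-! # Kinetic energy of functions without sign changes of the differences (on average) -/

open MeasureTheory Filter Topology Set

noncomputable section

namespace NDG

variable {d : ℕ} {s c : ℝ}

/-- the bound `min 2 (C ‖z‖ ^ a)` of a difference -/
def mm {d : ℕ} (C a : ℝ) (z : E d) : ℝ := min 2 (C * ‖z‖ ^ a)

/-- MODULE pa. -/
theorem mm_le {C a : ℝ} {u : E d → ℝ} (hu : HolC C a u) (x y : E d) : |u x - u y| ≤ mm C a (x - y) := by
  refine le_min ?_ (hu.2 x y)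
  have h1 := abs_le.1 (hu.1 x)
  have h2 := abs_le.1 (hu.1 y)
  rw [abs_le]
  constructor <;> linarith [h1.1, h1.2, h2.1, h2.2]

private theorem pa_mm_nonneg {C a : ℝ} (hC : 0 ≤ C) (z : E d) : 0 ≤ mm C a z :=
  le_min (by norm_num) (mul_nonneg hC (Real.rpow_nonneg (norm_nonneg _) _))

private theorem pa_mm_meas (C a : ℝ) : Measurable (mm C a : E d → ℝ) :=
  Measurable.min measurable_const ((measurable_norm.pow_const a).const_mul C)

private theorem pa_int (hd : 1 ≤ d) (hs0 : 0 < s) {β C1 C2 : ℝ} (hβ : 0 < β) {f : E d → ℝ} (hf : Measurable f)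
    (h0 : ∀ z, 0 ≤ f z) (h1 : ∀ z : E d, ‖z‖ < 1 → f z ≤ C1 * ‖z‖ ^ (β - (d : ℝ)))
    (h2 : ∀ z : E d, 1 ≤ ‖z‖ → f z ≤ C2 * K d s z) : Integrable f := by
  have hset : MeasurableSet {z : E d | (1 : ℝ) ≤ ‖z‖} := measurableSet_le measurable_const measurable_norm
  have e1 : IntegrableOn f (Metric.ball 0 1) := by
    refine ((near_int hd hβ 1).const_mul C1).mono' hf.aestronglyMeasurable ?_
    refine (ae_restrict_iff' measurableSet_ball).2 (Eventually.of_forall fun z hz => ?_)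
    rw [Real.norm_of_nonneg (h0 z)]
    exact h1 z (by simpa using hz)
  have e2 : IntegrableOn f {z : E d | (1 : ℝ) ≤ ‖z‖} := by
    refine ((K_far hs0 one_pos).const_mul C2).mono' hf.aestronglyMeasurable ?_
    refine (ae_restrict_iff' hset).2 (Eventually.of_forall fun z hz => ?_)
    rw [Real.norm_of_nonneg (h0 z)]
    exact h2 z hz
  rw [← integrableOn_univ]
  have : (univ : Set (E d)) = Metric.ball 0 1 ∪ {z : E d | (1 : ℝ) ≤ ‖z‖} := by
    ext z
    simp only [mem_univ, mem_union, Metric.mem_ball, dist_zero_right, mem_ofPred_eq, true_iff]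
    exact lt_or_ge _ _
  rw [this]
  exact e1.union e2

private theorem pa_K_mul (hd : 1 ≤ d) (hs0 : 0 < s) {b : ℝ} (z : E d) :
    ‖z‖ ^ b * K d s z ≤ ‖z‖ ^ (b - 2 * s - (d : ℝ)) := by
  rcases eq_or_ne z 0 with rfl | hz
  · have h1 : K d s (0 : E d) = 0 := by
      unfold K
      rw [norm_zero, Real.zero_rpow]
      have : (1 : ℝ) ≤ d := by exact_mod_cast hd
      linarith
    rw [h1, mul_zero]
    exact Real.rpow_nonneg (norm_nonneg _) _
  · unfold K
    rw [← Real.rpow_add (norm_pos_iff.2 hz)]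
    apply le_of_eq
    congr 1
    ring

/-- MODULE pa. `K_radial` (or `near_int`, `K_far`): for `‖z‖ < 1` the exponents are `2 a - 2 s > 0` and `1 + a - 2 s > 0` (`a > s > 2 s - 1`). -/
theorem mm_int (hd : 1 ≤ d) (hs0 : 0 < s) (hs1 : s < 1) {C a : ℝ} (hC : 0 ≤ C) (ha : s < a) :
    Integrable (fun z : E d => mm C a z ^ 2 * K d s z) ∧ Integrable (fun z : E d => mm C a z * min 1 ‖z‖ * K d s z) := by
  constructor
  · refine pa_int hd hs0 (β := 2 * a - 2 * s) (C1 := C ^ 2) (C2 := 4) (by linarith)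
      (((pa_mm_meas C a).pow_const 2).mul K_meas) (fun z => mul_nonneg (sq_nonneg _) (K_nonneg z)) ?_ ?_
    · intro z _
      have h1 : mm C a z ^ 2 ≤ (C * ‖z‖ ^ a) ^ 2 := pow_le_pow_left₀ (pa_mm_nonneg hC z) (min_le_right _ _) 2
      have h2 : (C * ‖z‖ ^ a) ^ 2 = C ^ 2 * ‖z‖ ^ (2 * a) := by
        rw [mul_pow, ← Real.rpow_natCast (‖z‖ ^ a) 2, ← Real.rpow_mul (norm_nonneg _)]
        congr 2
        push_cast
        ring
      calc mm C a z ^ 2 * K d s z ≤ (C ^ 2 * ‖z‖ ^ (2 * a)) * K d s z :=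
            mul_le_mul_of_nonneg_right (h1.trans h2.le) (K_nonneg z)
        _ = C ^ 2 * (‖z‖ ^ (2 * a) * K d s z) := by ring
        _ ≤ C ^ 2 * ‖z‖ ^ (2 * a - 2 * s - (d : ℝ)) := mul_le_mul_of_nonneg_left (pa_K_mul hd hs0 z) (sq_nonneg _)
    · intro z _
      have h1 : mm C a z ^ 2 ≤ 2 ^ 2 := pow_le_pow_left₀ (pa_mm_nonneg hC z) (min_le_left _ _) 2
      exact mul_le_mul_of_nonneg_right (h1.trans (by norm_num)) (K_nonneg z)
  · refine pa_int hd hs0 (β := 1 + a - 2 * s) (C1 := C) (C2 := 2) (by linarith)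
      (((pa_mm_meas C a).mul (measurable_const.min measurable_norm)).mul K_meas)
      (fun z => mul_nonneg (mul_nonneg (pa_mm_nonneg hC z) (le_min zero_le_one (norm_nonneg _))) (K_nonneg z)) ?_ ?_
    · intro z _
      have h1 : mm C a z * min 1 ‖z‖ ≤ C * ‖z‖ ^ (1 + a) := by
        rcases eq_or_lt_of_le (norm_nonneg z) with h | h
        · have : min 1 ‖z‖ = 0 := by rw [← h]; simp
          rw [this, mul_zero]
          exact mul_nonneg hC (Real.rpow_nonneg (norm_nonneg _) _)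
        · calc mm C a z * min 1 ‖z‖ ≤ (C * ‖z‖ ^ a) * ‖z‖ :=
                mul_le_mul (min_le_right _ _) (min_le_right _ _) (le_min zero_le_one (norm_nonneg _))
                  (mul_nonneg hC (Real.rpow_nonneg (norm_nonneg _) _))
            _ = C * ‖z‖ ^ (1 + a) := by
                rw [add_comm 1 a, Real.rpow_add h, Real.rpow_one]
                ring
      calc mm C a z * min 1 ‖z‖ * K d s z ≤ (C * ‖z‖ ^ (1 + a)) * K d s z :=
            mul_le_mul_of_nonneg_right h1 (K_nonneg z)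
        _ = C * (‖z‖ ^ (1 + a) * K d s z) := by ring
        _ ≤ C * ‖z‖ ^ (1 + a - 2 * s - (d : ℝ)) := mul_le_mul_of_nonneg_left (pa_K_mul hd hs0 z) hC
    · intro z _
      have h1 : mm C a z * min 1 ‖z‖ ≤ 2 * 1 :=
        mul_le_mul (min_le_left _ _) (min_le_left _ _) (le_min zero_le_one (norm_nonneg _)) (by norm_num)
      exact mul_le_mul_of_nonneg_right (h1.trans (by norm_num)) (K_nonneg z)

private theorem pb_F_bd {C a : ℝ} (hs : 1 / 2 ≤ s) (hC : 0 ≤ C) {ρ : ℝ} (hρ : 1 ≤ ρ) :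
    (∀ r ∈ Ioc (0 : ℝ) 1, min 2 (C * r ^ a) * min 1 (r / ρ) * r ^ (-1 - 2 * s) ≤ C / ρ * r ^ (a - 2 * s)) ∧
    (∀ r ∈ Ioc (1 : ℝ) ρ, min 2 (C * r ^ a) * min 1 (r / ρ) * r ^ (-1 - 2 * s) ≤ 2 / ρ * r⁻¹) ∧
    (∀ r ∈ Ioi ρ, min 2 (C * r ^ a) * min 1 (r / ρ) * r ^ (-1 - 2 * s) ≤ 2 * r ^ (-1 - 2 * s)) := by
  have hρ0 : 0 < ρ := by linarith
  refine ⟨fun r hr => ?_, fun r hr => ?_, fun r hr => ?_⟩
  · have hr0 : 0 < r := hr.1
    have h1 : min 2 (C * r ^ a) * min 1 (r / ρ) ≤ (C * r ^ a) * (r / ρ) :=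
      mul_le_mul (min_le_right _ _) (min_le_right _ _) (le_min zero_le_one (by positivity)) (by positivity)
    calc min 2 (C * r ^ a) * min 1 (r / ρ) * r ^ (-1 - 2 * s) ≤ ((C * r ^ a) * (r / ρ)) * r ^ (-1 - 2 * s) :=
          mul_le_mul_of_nonneg_right h1 (Real.rpow_nonneg hr0.le _)
      _ = C / ρ * (r ^ a * (r ^ (1 : ℝ) * r ^ (-1 - 2 * s))) := by
          rw [Real.rpow_one]; ring
      _ = C / ρ * r ^ (a - 2 * s) := by
          rw [← Real.rpow_add hr0, ← Real.rpow_add hr0]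
          congr 2
          ring
  · have hr0 : 0 < r := lt_trans zero_lt_one hr.1
    have h1 : min 2 (C * r ^ a) * min 1 (r / ρ) ≤ 2 * (r / ρ) :=
      mul_le_mul (min_le_left _ _) (min_le_right _ _) (le_min zero_le_one (by positivity)) (by positivity)
    have h2 : r ^ (-2 * s) ≤ r ^ (-1 : ℝ) := Real.rpow_le_rpow_of_exponent_le hr.1.le (by linarith)
    calc min 2 (C * r ^ a) * min 1 (r / ρ) * r ^ (-1 - 2 * s) ≤ (2 * (r / ρ)) * r ^ (-1 - 2 * s) :=
          mul_le_mul_of_nonneg_right h1 (Real.rpow_nonneg hr0.le _)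
      _ = 2 / ρ * (r ^ (1 : ℝ) * r ^ (-1 - 2 * s)) := by rw [Real.rpow_one]; ring
      _ = 2 / ρ * r ^ (-2 * s) := by
          rw [← Real.rpow_add hr0]
          congr 2
          ring
      _ ≤ 2 / ρ * r ^ (-1 : ℝ) := mul_le_mul_of_nonneg_left h2 (by positivity)
      _ = 2 / ρ * r⁻¹ := by rw [Real.rpow_neg_one]
  · have hr0 : 0 < r := lt_trans hρ0 hr
    have h1 : min 2 (C * r ^ a) * min 1 (r / ρ) ≤ 2 * 1 :=
      mul_le_mul (min_le_left _ _) (min_le_left _ _) (le_min zero_le_one (by positivity)) (by positivity)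
    calc min 2 (C * r ^ a) * min 1 (r / ρ) * r ^ (-1 - 2 * s) ≤ (2 * 1) * r ^ (-1 - 2 * s) :=
          mul_le_mul_of_nonneg_right h1 (Real.rpow_nonneg hr0.le _)
      _ = 2 * r ^ (-1 - 2 * s) := by ring

/-- MODULE pb. `‖z‖ ≤ 1`: `≤ (C / ρ) ∫ ‖z‖ ^ (1 + a) K`; `1 < ‖z‖ ≤ ρ`: `≤ (2 / ρ) ∫ ‖z‖ K = (C / ρ) ∫_1^ρ r ^ (- 2 s) dr ≤ (C / ρ) log ρ` (`K_radial`, `s ≥ 1 / 2`); `‖z‖ > ρ`: `≤ C ρ ^ (- 2 s) ≤ C / ρ` (`K_tail`). -/
theorem mm_log (hd : 1 ≤ d) (hs : 1 / 2 ≤ s) (hs1 : s < 1) {C a : ℝ} (hC : 0 ≤ C) (ha : s < a) : ∃ C' : ℝ, 0 ≤ C' ∧ ∀ ρ : ℝ, 1 ≤ ρ →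
    Integrable (fun z : E d => mm C a z * min 1 (‖z‖ / ρ) * K d s z) ∧
    ∫ z : E d, mm C a z * min 1 (‖z‖ / ρ) * K d s z ≤ C' * ((1 + Real.log ρ) / ρ) := by
  obtain ⟨D, hD, hf⟩ := K_radial hd s
  have hexp : 0 < a - 2 * s + 1 := by linarith
  have hexp' : -1 < a - 2 * s := by linarith
  refine ⟨D * (C / (a - 2 * s + 1) + 2), by positivity, fun ρ hρ => ?_⟩
  have hρ0 : 0 < ρ := by linarith
  obtain ⟨b1, b2, b3⟩ := pb_F_bd (a := a) hs hC hρ
  have hf1 := (hf (fun r => min 2 (C * r ^ a) * min 1 (r / ρ))).1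
  have hf2 := (hf (fun r => min 2 (C * r ^ a) * min 1 (r / ρ))).2
  have hfe : (fun z : E d => mm C a z * min 1 (‖z‖ / ρ) * K d s z) =
      fun h : E d => min 2 (C * ‖h‖ ^ a) * min 1 (‖h‖ / ρ) * K d s h := rfl
  set F : ℝ → ℝ := fun r => min 2 (C * r ^ a) * min 1 (r / ρ) * r ^ (-1 - 2 * s) with hF
  have hFm : Measurable F := by
    rw [hF]
    exact (((measurable_const.min ((measurable_id.pow_const a).const_mul C)).mul
      (measurable_const.min (measurable_id.div_const ρ))).mul (measurable_id.pow_const _))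
  have hF0 : ∀ r : ℝ, 0 < r → 0 ≤ F r := fun r hr => by
    have h1 : 0 ≤ min 2 (C * r ^ a) := le_min (by norm_num) (by positivity)
    have h2 : 0 ≤ min 1 (r / ρ) := le_min zero_le_one (by positivity)
    have h3 : 0 ≤ r ^ (-1 - 2 * s) := Real.rpow_nonneg hr.le _
    exact mul_nonneg (mul_nonneg h1 h2) h3
  -- the majorants
  have g1 : IntegrableOn (fun r : ℝ => C / ρ * r ^ (a - 2 * s)) (Ioc 0 1) := by
    refine Integrable.const_mul ?_ _
    have := (intervalIntegrable_iff_integrableOn_Ioc_of_le zero_le_one).1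
      (intervalIntegral.intervalIntegrable_rpow' (a := 0) (b := 1) hexp')
    exact this
  have g2 : IntegrableOn (fun r : ℝ => 2 / ρ * r⁻¹) (Ioc 1 ρ) := by
    refine Integrable.const_mul ?_ _
    have := (intervalIntegrable_iff_integrableOn_Ioc_of_le hρ).1
      (intervalIntegral.intervalIntegrable_inv (μ := volume) (a := 1) (b := ρ) (f := fun r : ℝ => r)
        (fun r hr => by
          rw [uIcc_of_le hρ] at hr
          have : (0 : ℝ) < r := lt_of_lt_of_le zero_lt_one hr.1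
          exact this.ne') continuousOn_id)
    exact this
  have hlt : -1 - 2 * s < -1 := by linarith
  have g3 : IntegrableOn (fun r : ℝ => 2 * r ^ (-1 - 2 * s)) (Ioi ρ) :=
    (integrableOn_Ioi_rpow_of_lt hlt hρ0).const_mul 2
  have f1 : IntegrableOn F (Ioc 0 1) := by
    refine Integrable.mono' g1 hFm.aestronglyMeasurable ?_
    refine (ae_restrict_iff' measurableSet_Ioc).2 (Eventually.of_forall fun r hr => ?_)
    rw [Real.norm_of_nonneg (hF0 r hr.1)]
    exact b1 r hr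
  have f2 : IntegrableOn F (Ioc 1 ρ) := by
    refine Integrable.mono' g2 hFm.aestronglyMeasurable ?_
    refine (ae_restrict_iff' measurableSet_Ioc).2 (Eventually.of_forall fun r hr => ?_)
    rw [Real.norm_of_nonneg (hF0 r (lt_trans zero_lt_one hr.1))]
    exact b2 r hr
  have f3 : IntegrableOn F (Ioi ρ) := by
    refine Integrable.mono' g3 hFm.aestronglyMeasurable ?_
    refine (ae_restrict_iff' measurableSet_Ioi).2 (Eventually.of_forall fun r hr => ?_)
    rw [Real.norm_of_nonneg (hF0 r (lt_trans hρ0 hr))]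
    exact b3 r hr
  have u1 : Ioc 1 ρ ∪ Ioi ρ = Ioi 1 := Ioc_union_Ioi_eq_Ioi hρ
  have u2 : Ioc (0 : ℝ) 1 ∪ Ioi 1 = Ioi 0 := Ioc_union_Ioi_eq_Ioi zero_le_one
  have f4 : IntegrableOn F (Ioi 1) := by rw [← u1]; exact f2.union f3
  have f5 : IntegrableOn F (Ioi 0) := by rw [← u2]; exact f1.union f4
  refine ⟨by rw [hfe]; exact hf1.2 f5, ?_⟩
  rw [hfe, hf2]
  have s1 : ∫ r in Ioi (0 : ℝ), F r = (∫ r in Ioc (0 : ℝ) 1, F r) + ((∫ r in Ioc (1 : ℝ) ρ, F r) + ∫ r in Ioi ρ, F r) := by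
    rw [← u2, setIntegral_union (Ioc_disjoint_Ioi le_rfl) measurableSet_Ioi f1 f4, ← u1,
      setIntegral_union (Ioc_disjoint_Ioi le_rfl) measurableSet_Ioi f2 f3]
  have i1 : ∫ r in Ioc (0 : ℝ) 1, F r ≤ C / ρ * (1 / (a - 2 * s + 1)) := by
    refine (setIntegral_mono_on f1 g1 measurableSet_Ioc b1).trans (le_of_eq ?_)
    rw [integral_const_mul, ← intervalIntegral.integral_of_le zero_le_one, integral_rpow (Or.inl hexp'),
      Real.one_rpow, Real.zero_rpow hexp.ne', sub_zero]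
  have i2 : ∫ r in Ioc (1 : ℝ) ρ, F r ≤ 2 / ρ * Real.log ρ := by
    refine (setIntegral_mono_on f2 g2 measurableSet_Ioc b2).trans (le_of_eq ?_)
    rw [integral_const_mul, ← intervalIntegral.integral_of_le hρ, integral_inv_of_pos one_pos hρ0, div_one]
  have i3 : ∫ r in Ioi ρ, F r ≤ 2 / ρ := by
    refine (setIntegral_mono_on f3 g3 measurableSet_Ioi b3).trans ?_
    rw [integral_const_mul, integral_Ioi_rpow_of_lt hlt hρ0]
    have h4 : -1 - 2 * s + 1 = -(2 * s) := by ring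
    rw [h4]
    have h5 : ρ ^ (-(2 * s)) ≤ ρ ^ (-1 : ℝ) := Real.rpow_le_rpow_of_exponent_le hρ (by linarith)
    rw [Real.rpow_neg_one] at h5
    have h6 : 0 ≤ ρ ^ (-(2 * s)) := Real.rpow_nonneg hρ0.le _
    rw [neg_div_neg_eq]
    have h7 : ρ ^ (-(2 * s)) / (2 * s) ≤ ρ⁻¹ := by
      rw [div_le_iff₀ (by linarith)]
      calc ρ ^ (-(2 * s)) ≤ ρ⁻¹ * 1 := by rw [mul_one]; exact h5
        _ ≤ ρ⁻¹ * (2 * s) := mul_le_mul_of_nonneg_left (by linarith) (inv_nonneg.2 hρ0.le)
    calc 2 * (ρ ^ (-(2 * s)) / (2 * s)) ≤ 2 * ρ⁻¹ := by linarith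
      _ = 2 / ρ := by ring
  have hlog : 0 ≤ Real.log ρ := Real.log_nonneg hρ
  have hA : 0 ≤ C / (a - 2 * s + 1) := by positivity
  calc D * ∫ r in Ioi (0 : ℝ), F r ≤ D * (C / ρ * (1 / (a - 2 * s + 1)) + (2 / ρ * Real.log ρ + 2 / ρ)) := by
        rw [s1]
        exact mul_le_mul_of_nonneg_left (by linarith) hD.le
    _ = D * ((C / (a - 2 * s + 1) + 2) + 2 * Real.log ρ) / ρ := by
        field_simp
        ring
    _ ≤ D * ((C / (a - 2 * s + 1) + 2) * (1 + Real.log ρ)) / ρ := by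
        apply div_le_div_of_nonneg_right _ hρ0.le
        apply mul_le_mul_of_nonneg_left _ hD.le
        nlinarith [mul_nonneg hA hlog]
    _ = D * (C / (a - 2 * s + 1) + 2) * ((1 + Real.log ρ) / ρ) := by ring

/-- the bump `1` on `B_{2 ρ}(p)`, `0` outside `B_{3 ρ}(p)` -/
def bump {d : ℕ} (ρ : ℝ) (p x : E d) : ℝ := clp (3 - ‖x - p‖ / ρ)

private theorem pc_clp_lip (a b : ℝ) : |clp a - clp b| ≤ min 1 |a - b| := by
  unfold clp
  refine le_min ?_ ?_
  · have h1 : 0 ≤ max 0 (min 1 a) := le_max_left _ _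
    have h2 : max 0 (min 1 a) ≤ 1 := max_le zero_le_one (min_le_left _ _)
    have h3 : 0 ≤ max 0 (min 1 b) := le_max_left _ _
    have h4 : max 0 (min 1 b) ≤ 1 := max_le zero_le_one (min_le_left _ _)
    rw [abs_le]
    constructor <;> linarith
  · refine (abs_max_sub_max_le_abs (min 1 a) (min 1 b) 0 |> fun h => ?_)
    have h5 : |max 0 (min 1 a) - max 0 (min 1 b)| ≤ |min 1 a - min 1 b| := by
      rw [max_comm 0 (min 1 a), max_comm 0 (min 1 b)]
      exact h
    refine h5.trans ?_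
    have := abs_min_sub_min_le_max 1 a 1 b
    simpa using this

private theorem pc_zero {ρ : ℝ} (hρ : 0 < ρ) {p x : E d} (h : x ∉ Metric.closedBall p (3 * ρ)) : bump ρ p x = 0 := by
  unfold bump clp
  have h1 : 3 * ρ < ‖x - p‖ := by
    rw [Metric.mem_closedBall, not_le, dist_eq_norm] at h
    exact h
  have h2 : 3 < ‖x - p‖ / ρ := by rwa [lt_div_iff₀ hρ]
  apply max_eq_left
  exact (min_le_right _ _).trans (by linarith)

private theorem pc_meas (ρ : ℝ) (p : E d) : Continuous (bump ρ p) := by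
  unfold bump clp
  fun_prop

/-- MODULE pc. The integrand is at most `min 1 (‖z‖ / ρ)` and vanishes unless `x` or `x - z` is in `B_{3 ρ}(p)`. -/
theorem bump_trans (d : ℕ) : ∃ C : ℝ, 0 ≤ C ∧ ∀ ρ : ℝ, 0 < ρ → ∀ p z : E d,
    ∫ x, |bump ρ p (x - z) - bump ρ p x| ≤ C * ρ ^ d * min 1 (‖z‖ / ρ) := by
  refine ⟨2 * 3 ^ d * (volume : Measure (E d)).real (Metric.ball 0 1), by positivity, fun ρ hρ p z => ?_⟩
  set m : ℝ := min 1 (‖z‖ / ρ) with hm
  have hm0 : 0 ≤ m := le_min zero_le_one (by positivity)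
  have hdim : Module.finrank ℝ (E d) = d := by simp [E]
  have hvol : ∀ q : E d, (volume : Measure (E d)).real (Metric.closedBall q (3 * ρ)) =
      (3 * ρ) ^ d * (volume : Measure (E d)).real (Metric.ball 0 1) := by
    intro q
    rw [Measure.real, Measure.addHaar_closedBall _ _ (by positivity), hdim, ENNReal.toReal_mul,
      ENNReal.toReal_ofReal (by positivity)]
    rfl
  have hb : ∀ x : E d, |bump ρ p (x - z) - bump ρ p x| ≤
      (Metric.closedBall (p + z) (3 * ρ)).indicator (fun _ => m) x + (Metric.closedBall p (3 * ρ)).indicator (fun _ => m) x := by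
    intro x
    have h0 : |bump ρ p (x - z) - bump ρ p x| ≤ m := by
      refine (pc_clp_lip _ _).trans ?_
      refine min_le_min le_rfl ?_
      have : 3 - ‖x - z - p‖ / ρ - (3 - ‖x - p‖ / ρ) = (‖x - p‖ - ‖x - z - p‖) / ρ := by ring
      rw [this, abs_div, abs_of_pos hρ]
      apply div_le_div_of_nonneg_right _ hρ.le
      refine (abs_norm_sub_norm_le _ _).trans (le_of_eq ?_)
      congr 1
      abel
    have hi1 : 0 ≤ (Metric.closedBall (p + z) (3 * ρ)).indicator (fun _ => m) x :=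
      indicator_nonneg (fun _ _ => hm0) _
    have hi2 : 0 ≤ (Metric.closedBall p (3 * ρ)).indicator (fun _ => m) x :=
      indicator_nonneg (fun _ _ => hm0) _
    by_cases h1 : x ∈ Metric.closedBall p (3 * ρ)
    · rw [indicator_of_mem h1]
      linarith
    · by_cases h2 : x ∈ Metric.closedBall (p + z) (3 * ρ)
      · rw [indicator_of_mem h2]
        linarith
      · have h3 : x - z ∉ Metric.closedBall p (3 * ρ) := by
          intro h
          apply h2
          rw [Metric.mem_closedBall, dist_eq_norm] at h ⊢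
          have : x - (p + z) = x - z - p := by abel
          rw [this]
          exact h
        rw [pc_zero hρ h1, pc_zero hρ h3, sub_zero, abs_zero]
        exact add_nonneg hi1 hi2
  have hI : ∀ q : E d, Integrable ((Metric.closedBall q (3 * ρ)).indicator (fun _ => m)) := by
    intro q
    exact (integrable_indicator_iff measurableSet_closedBall).2
      (integrableOn_const (by exact measure_closedBall_lt_top.ne))
  have hV : ∀ q : E d, ∫ x, (Metric.closedBall q (3 * ρ)).indicator (fun _ => m) x =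
      (3 * ρ) ^ d * (volume : Measure (E d)).real (Metric.ball 0 1) * m := by
    intro q
    rw [integral_indicator measurableSet_closedBall, setIntegral_const, hvol, smul_eq_mul]
  calc ∫ x, |bump ρ p (x - z) - bump ρ p x| ≤
      ∫ x, ((Metric.closedBall (p + z) (3 * ρ)).indicator (fun _ => m) x + (Metric.closedBall p (3 * ρ)).indicator (fun _ => m) x) := by
        refine integral_mono_of_nonneg (Eventually.of_forall fun x => abs_nonneg _) ((hI _).add (hI _))
          (Eventually.of_forall hb)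
    _ = 2 * 3 ^ d * (volume : Measure (E d)).real (Metric.ball 0 1) * ρ ^ d * m := by
        rw [integral_add (hI _) (hI _), hV, hV, mul_pow]
        ring

private theorem pd_cont (ρ : ℝ) (p : E d) : Continuous (bump ρ p) := by
  unfold bump clp
  fun_prop

private theorem pd_nonneg (ρ : ℝ) (p x : E d) : 0 ≤ bump ρ p x := le_max_left _ _

private theorem pd_le (ρ : ℝ) (p x : E d) : bump ρ p x ≤ 1 := max_le zero_le_one (min_le_left _ _)

private theorem pd_zero {ρ : ℝ} (hρ : 0 < ρ) {p x : E d} (hx : x ∉ Metric.ball p (3 * ρ)) : bump ρ p x = 0 := by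
  have h1 : 3 * ρ ≤ ‖x - p‖ := by
    rw [Metric.mem_ball, dist_eq_norm] at hx
    exact not_lt.1 hx
  have h2 : 3 ≤ ‖x - p‖ / ρ := by rwa [le_div_iff₀ hρ]
  unfold bump clp
  exact max_eq_left (le_trans (min_le_right _ _) (by linarith))

private theorem pd_one {ρ : ℝ} (hρ : 0 < ρ) {p x : E d} (hx : x ∈ Metric.ball p (2 * ρ)) : bump ρ p x = 1 := by
  have h1 : ‖x - p‖ < 2 * ρ := by rwa [Metric.mem_ball, dist_eq_norm] at hx
  have h2 : ‖x - p‖ / ρ < 2 := by rwa [div_lt_iff₀ hρ]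
  unfold bump clp
  rw [min_eq_left (by linarith), max_eq_right zero_le_one]

private theorem pd_supp {ρ : ℝ} (hρ : 0 < ρ) (p : E d) : HasCompactSupport (bump ρ p) := by
  apply HasCompactSupport.intro (isCompact_closedBall p (3 * ρ))
  intro x hx
  exact pd_zero hρ (fun h => hx (Metric.ball_subset_closedBall h))

private theorem pd_int {ρ : ℝ} (hρ : 0 < ρ) (p : E d) {f : E d → ℝ} (hf : Continuous f) :
    Integrable (fun x => bump ρ p x * f x) :=
  ((pd_cont ρ p).mul hf).integrable_of_hasCompactSupport (pd_supp hρ p).mul_right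

private theorem pd_ball {ρ : ℝ} (hρ : 0 < ρ) (p : E d) {f : E d → ℝ} (hf : Continuous f) (hf0 : ∀ x, 0 ≤ f x) :
    ∫ x, bump ρ p x * f x ≤ ∫ x in Metric.ball p (3 * ρ), f x := by
  have hfi : IntegrableOn f (Metric.ball p (3 * ρ)) :=
    (hf.continuousOn.integrableOn_compact (isCompact_closedBall p (3 * ρ))).mono_set Metric.ball_subset_closedBall
  rw [← integral_indicator Metric.isOpen_ball.measurableSet]
  refine integral_mono (pd_int hρ p hf) (hfi.integrable_indicator Metric.isOpen_ball.measurableSet) ?_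
  intro x
  by_cases hx : x ∈ Metric.ball p (3 * ρ)
  · simp only [indicator_of_mem hx]
    have := mul_le_mul_of_nonneg_right (pd_le ρ p x) (hf0 x)
    simpa using this
  · simp only [indicator_of_notMem hx, pd_zero hρ hx, zero_mul, le_refl]

/-- the general form of `slice` -/
private theorem pd_min {C : ℝ} (hC : ∀ ρ : ℝ, 0 < ρ → ∀ p z : E d,
    ∫ x, |bump ρ p (x - z) - bump ρ p x| ≤ C * ρ ^ d * min 1 (‖z‖ / ρ)) {ρ : ℝ} (hρ : 0 < ρ) {U : E d → ℝ}
    (hU : Continuous U) (hB : ∀ x, |U x| ≤ 1) (p z : E d) :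
    ∫ x, bump ρ p x * |U (x + z) - U x| ≤ C * ρ ^ d * min 1 (‖z‖ / ρ) + 2 *
      min (∫ x in Metric.ball p (3 * ρ), max (U (x + z) - U x) 0) (∫ x in Metric.ball p (3 * ρ), max (U x - U (x + z)) 0) := by
  have hUz : Continuous (fun x => U (x + z)) := hU.comp (by fun_prop)
  have hD1 : Continuous (fun x => max (U (x + z) - U x) 0) := by fun_prop
  have hD2 : Continuous (fun x => max (U x - U (x + z)) 0) := by fun_prop
  have i1 := pd_int hρ p hD1
  have i2 := pd_int hρ p hD2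
  have a1 := pd_ball hρ p hD1 (fun x => le_max_right _ _)
  have a2 := pd_ball hρ p hD2 (fun x => le_max_right _ _)
  set A := ∫ x, bump ρ p x * max (U (x + z) - U x) 0 with hA
  set B := ∫ x, bump ρ p x * max (U x - U (x + z)) 0 with hBB
  have e1 : ∫ x, bump ρ p x * |U (x + z) - U x| = A + B := by
    rw [hA, hBB, ← integral_add i1 i2]
    congr 1
    funext x
    rw [← mul_add]
    congr 1
    rcases le_total 0 (U (x + z) - U x) with h | h
    · rw [abs_of_nonneg h, max_eq_left h, max_eq_right (by linarith)]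
      ring
    · rw [abs_of_nonpos h, max_eq_right h, max_eq_left (by linarith)]
      ring
  have e2 : A - B = ∫ x, (bump ρ p (x - z) - bump ρ p x) * U x := by
    have j1 : Integrable (fun x => bump ρ p x * U (x + z)) := pd_int hρ p hUz
    have j2 : Integrable (fun x => bump ρ p x * U x) := pd_int hρ p hU
    have k1 : A - B = (∫ x, bump ρ p x * U (x + z)) - ∫ x, bump ρ p x * U x := by
      rw [hA, hBB, ← integral_sub i1 i2, ← integral_sub j1 j2]
      congr 1
      funext x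
      rw [← mul_sub, ← mul_sub]
      congr 1
      rcases le_total 0 (U (x + z) - U x) with h | h
      · rw [max_eq_left h, max_eq_right (by linarith)]
        ring
      · rw [max_eq_right h, max_eq_left (by linarith)]
        ring
    have k2 : ∫ x, bump ρ p x * U (x + z) = ∫ x, bump ρ p (x - z) * U x := by
      have := integral_add_right_eq_self (μ := (volume : Measure (E d))) (fun x => bump ρ p (x - z) * U x) z
      rw [← this]
      congr 1
      funext x
      simp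
    have j3 : Integrable (fun x => bump ρ p (x - z) * U x) := by
      have := j1.comp_sub_right z
      refine this.congr (Eventually.of_forall fun x => ?_)
      simp
    rw [k1, k2, ← integral_sub j3 j2]
    congr 1
    funext x
    ring
  have hi : Integrable (fun x => |bump ρ p (x - z) - bump ρ p x|) := by
    have h1 : Integrable (bump ρ p) := (pd_cont ρ p).integrable_of_hasCompactSupport (pd_supp hρ p)
    exact ((h1.comp_sub_right z).sub h1).abs
  have e3 : |A - B| ≤ C * ρ ^ d * min 1 (‖z‖ / ρ) := by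
    rw [e2]
    refine le_trans (abs_integral_le_integral_abs) (le_trans ?_ (hC ρ hρ p z))
    refine integral_mono_of_nonneg (Eventually.of_forall fun x => abs_nonneg _) hi (Eventually.of_forall fun x => ?_)
    simp only [abs_mul]
    exact mul_le_of_le_one_right (abs_nonneg _) (hB x)
  have e4 : A + B = |A - B| + 2 * min A B := by
    rcases le_total A B with h | h
    · rw [min_eq_left h, abs_of_nonpos (by linarith)]
      ring
    · rw [min_eq_right h, abs_of_nonneg (by linarith)]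
      ring
  have e5 := min_le_min a1 a2
  rw [e1, e4]
  linarith

/-- MODULE pd. Let `A`, `B` be the integrals of `bump` times the positive and the negative part of `D = U (x + z) - U x`.  `∫ bump |D| = A + B ≤ |A - B| + 2 min (A, B)`, `A - B = ∫ bump D = ∫ (bump (x - z) - bump x) U x`, and
`min (A, B) ≤ η + A B / η` (if `min (A, B) > η` then `max (A, B) / η ≥ 1`). -/
theorem slice (d : ℕ) : ∃ C : ℝ, 0 ≤ C ∧ ∀ ρ : ℝ, 0 < ρ → ∀ U : E d → ℝ, Continuous U → (∀ x, |U x| ≤ 1) → ∀ p z : E d, ∀ η : ℝ, 0 < η →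
    ∫ x, bump ρ p x * |U (x + z) - U x| ≤ C * ρ ^ d * min 1 (‖z‖ / ρ) + 2 * η + 2 / η *
      ((∫ x in Metric.ball p (3 * ρ), max (U (x + z) - U x) 0) * ∫ x in Metric.ball p (3 * ρ), max (U x - U (x + z)) 0) := by
  obtain ⟨C, hC0, hC⟩ := bump_trans d
  refine ⟨C, hC0, fun ρ hρ U hU hB p z η hη => ?_⟩
  refine le_trans (pd_min hC hρ hU hB p z) ?_
  have hA0 : 0 ≤ ∫ x in Metric.ball p (3 * ρ), max (U (x + z) - U x) 0 := integral_nonneg fun x => le_max_right _ _
  have hB0 : 0 ≤ ∫ x in Metric.ball p (3 * ρ), max (U x - U (x + z)) 0 := integral_nonneg fun x => le_max_right _ _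
  set A := ∫ x in Metric.ball p (3 * ρ), max (U (x + z) - U x) 0
  set B := ∫ x in Metric.ball p (3 * ρ), max (U x - U (x + z)) 0
  have key : min A B ≤ η + A * B / η := by
    rcases le_or_gt (min A B) η with h | h
    · have : 0 ≤ A * B / η := by positivity
      linarith
    · have h1 : min A B * max A B = A * B := min_mul_max A B
      have h2 : η ≤ max A B := le_trans h.le (le_trans (min_le_left _ _) (le_max_left _ _))
      have h3 : 0 ≤ min A B := le_min hA0 hB0
      have h4 : min A B * η ≤ A * B := by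
        rw [← h1]
        exact mul_le_mul_of_nonneg_left h2 h3
      have h5 : min A B ≤ A * B / η := by rwa [le_div_iff₀ hη]
      linarith
  have : 2 / η * (A * B) = 2 * (A * B / η) := by ring
  rw [this]
  linarith

private theorem pe_cont {C a : ℝ} (ha : 0 < a) {U : E d → ℝ} (hU : HolC C a U) : Continuous U := by
  rw [continuous_iff_continuousAt]
  intro x
  rw [ContinuousAt, tendsto_iff_norm_sub_tendsto_zero]
  have h1 : Tendsto (fun y : E d => C * ‖y - x‖ ^ a) (𝓝 x) (𝓝 0) := by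
    have h2 : Continuous (fun y : E d => C * ‖y - x‖ ^ a) := by
      refine continuous_const.mul (Continuous.rpow_const (by fun_prop) (fun y => Or.inr ha.le))
    have h3 := h2.tendsto x
    simpa [Real.zero_rpow ha.ne'] using h3
  exact squeeze_zero (fun y => norm_nonneg _) (fun y => hU.2 y x) h1

private theorem pe_mm0 {C a : ℝ} (hC : 0 ≤ C) (z : E d) : 0 ≤ mm C a z := by
  unfold mm
  positivity

private theorem pe_mm2 {C a : ℝ} (z : E d) : mm C a z ≤ 2 := min_le_left _ _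

/-- Fubini -/
private theorem pe_fub {C a : ℝ} (hC : 0 ≤ C) (ha : 0 < a) {ρ : ℝ} (hρ : 0 < ρ) {U : E d → ℝ} (hU : HolC C a U) (p : E d) :
    ∫⁻ x in Metric.ball p (2 * ρ), en d s U x ≤
      ∫⁻ z, ENNReal.ofReal (K d s z * mm C a z * ∫ x, bump ρ p x * |U (x + z) - U x|) := by
  have hc : Continuous U := pe_cont ha hU
  have e1 : ∀ x, en d s U x = ∫⁻ z, ENNReal.ofReal ((U (x + z) - U x) ^ 2 * K d s z) := by
    intro x
    unfold en
    rw [← lintegral_add_left_eq_self (μ := (volume : Measure (E d))) _ x]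
    refine lintegral_congr fun z => ?_
    have : x - (x + z) = -z := by abel
    rw [this, K_neg]
    congr 2
    ring
  have hm : Measurable (fun q : E d × E d => ENNReal.ofReal (bump ρ p q.1 * ((U (q.1 + q.2) - U q.1) ^ 2 * K d s q.2))) := by
    refine ENNReal.measurable_ofReal.comp ?_
    have m1 : Measurable (fun q : E d × E d => bump ρ p q.1) := (pd_cont ρ p).measurable.comp measurable_fst
    have m2 : Measurable (fun q : E d × E d => U (q.1 + q.2)) := (hc.comp (by fun_prop)).measurable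
    have m3 : Measurable (fun q : E d × E d => U q.1) := (hc.comp (by fun_prop)).measurable
    have m4 : Measurable (fun q : E d × E d => K d s q.2) := K_meas.comp measurable_snd
    exact m1.mul (((m2.sub m3).pow_const 2).mul m4)
  calc ∫⁻ x in Metric.ball p (2 * ρ), en d s U x
      ≤ ∫⁻ x, ∫⁻ z, ENNReal.ofReal (bump ρ p x * ((U (x + z) - U x) ^ 2 * K d s z)) := by
        rw [← lintegral_indicator Metric.isOpen_ball.measurableSet]
        refine lintegral_mono fun x => ?_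
        by_cases hx : x ∈ Metric.ball p (2 * ρ)
        · rw [indicator_of_mem hx, e1, pd_one hρ hx]
          simp
        · rw [indicator_of_notMem hx]
          exact zero_le
    _ = ∫⁻ z, ∫⁻ x, ENNReal.ofReal (bump ρ p x * ((U (x + z) - U x) ^ 2 * K d s z)) :=
        lintegral_lintegral_swap hm.aemeasurable
    _ ≤ ∫⁻ z, ENNReal.ofReal (K d s z * mm C a z * ∫ x, bump ρ p x * |U (x + z) - U x|) := by
        refine lintegral_mono fun z => ?_
        have hK : 0 ≤ K d s z := K_nonneg z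
        have hmm := pe_mm0 (a := a) hC z
        have hDc : Continuous (fun x => |U (x + z) - U x|) := by fun_prop
        have hi := pd_int hρ p hDc
        have hmz : Measurable (fun x => ENNReal.ofReal (bump ρ p x * |U (x + z) - U x|)) :=
          ENNReal.measurable_ofReal.comp (((pd_cont ρ p).mul hDc).measurable)
        rw [ENNReal.ofReal_mul (mul_nonneg hK hmm), ofReal_integral_eq_lintegral_ofReal hi
          (Eventually.of_forall fun x => mul_nonneg (pd_nonneg ρ p x) (abs_nonneg _)),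
          ← lintegral_const_mul _ hmz]
        refine lintegral_mono fun x => ?_
        rw [← ENNReal.ofReal_mul (mul_nonneg hK hmm)]
        refine ENNReal.ofReal_le_ofReal ?_
        have h1 : |U (x + z) - U x| ≤ mm C a z := by
          have := mm_le hU (x + z) x
          rwa [add_sub_cancel_left] at this
        have h2 : (U (x + z) - U x) ^ 2 ≤ mm C a z * |U (x + z) - U x| := by
          rw [← sq_abs, pow_two]
          exact mul_le_mul_of_nonneg_right h1 (abs_nonneg _)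
        calc bump ρ p x * ((U (x + z) - U x) ^ 2 * K d s z)
            ≤ bump ρ p x * ((mm C a z * |U (x + z) - U x|) * K d s z) :=
              mul_le_mul_of_nonneg_left (mul_le_mul_of_nonneg_right h2 hK) (pd_nonneg ρ p x)
          _ = K d s z * mm C a z * (bump ρ p x * |U (x + z) - U x|) := by ring

/-- small balls around `0` have a small integral -/
private theorem pe_small (hd : 1 ≤ d) {g : E d → ENNReal} (hg : ∫⁻ z, g z ≠ ⊤) {ε : ENNReal} (hε : ε ≠ 0) :
    ∃ r : ℝ, 0 < r ∧ r ≤ 1 ∧ ∫⁻ z in Metric.ball (0 : E d) r, g z ≤ ε := by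
  obtain ⟨δ, hδ, h⟩ := exists_pos_setLIntegral_lt_of_measure_lt hg hε
  have h1 : Tendsto (fun r : ℝ => ENNReal.ofReal (r ^ d) * volume (Metric.ball (0 : E d) 1)) (𝓝[>] 0) (𝓝 0) := by
    have h2 : Tendsto (fun r : ℝ => ENNReal.ofReal (r ^ d)) (𝓝[>] 0) (𝓝 0) := by
      have h3 : Continuous (fun r : ℝ => ENNReal.ofReal (r ^ d)) := ENNReal.continuous_ofReal.comp (by fun_prop)
      have h4 := (h3.tendsto 0).mono_left (nhdsWithin_le_nhds (s := Ioi 0))
      simpa [zero_pow (by omega : d ≠ 0)] using h4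
    have h5 := ENNReal.Tendsto.mul_const (b := volume (Metric.ball (0 : E d) 1)) h2 (Or.inr measure_ball_lt_top.ne)
    simpa using h5
  have h6 := (h1.eventually (gt_mem_nhds hδ)).and (Ioo_mem_nhdsGT (show (0:ℝ) < 1 by norm_num))
  obtain ⟨r, hr1, hr2⟩ := h6.exists
  refine ⟨r, hr2.1, hr2.2.le, (h _ ?_).le⟩
  rw [Measure.addHaar_ball_of_pos _ _ hr2.1]
  simpa using hr1

/-- the pointwise bound -/
private theorem pe_pt (hs : 0 < s) {C a : ℝ} (hC : 0 ≤ C) (ha : 0 < a) {Cb : ℝ} (hCb : ∀ ρ : ℝ, 0 < ρ → ∀ p z : E d,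
    ∫ x, |bump ρ p (x - z) - bump ρ p x| ≤ Cb * ρ ^ d * min 1 (‖z‖ / ρ)) {Cs : ℝ} (hCs0 : 0 ≤ Cs)
    (hCs : ∀ ρ : ℝ, 0 < ρ → ∀ U : E d → ℝ, Continuous U → (∀ x, |U x| ≤ 1) → ∀ p z : E d, ∀ η : ℝ, 0 < η →
    ∫ x, bump ρ p x * |U (x + z) - U x| ≤ Cs * ρ ^ d * min 1 (‖z‖ / ρ) + 2 * η + 2 / η *
      ((∫ x in Metric.ball p (3 * ρ), max (U (x + z) - U x) 0) * ∫ x in Metric.ball p (3 * ρ), max (U x - U (x + z)) 0))
    {ρ : ℝ} (hρ : 1 ≤ ρ) {U : E d → ℝ} (hU : HolC C a U) (p : E d) {r η : ℝ} (hr : 0 < r) (hη : 0 < η) (z : E d) :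
    ENNReal.ofReal (K d s z * mm C a z * ∫ x, bump ρ p x * |U (x + z) - U x|) ≤
      ENNReal.ofReal (max Cb Cs * ρ ^ d * (mm C a z * min 1 (‖z‖ / ρ) * K d s z)) +
      ((Metric.ball (0 : E d) r).indicator (fun z => ENNReal.ofReal (2 * (volume (Metric.ball (0 : E d) (3 * ρ))).toReal) *
        ENNReal.ofReal (mm C a z ^ 2 * K d s z)) z +
      ((Metric.ball (0 : E d) (3 * ρ)).indicator (fun _ => ENNReal.ofReal (2 * r ^ (-((d : ℝ) + 2 * s)) * (2 * η))) z +
      (({z : E d | ρ < ‖z‖}).indicator (fun z => ENNReal.ofReal (4 * (volume (Metric.ball (0 : E d) (3 * ρ))).toReal) *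
        ENNReal.ofReal (K d s z)) z +
      (Metric.ball (0 : E d) (3 * ρ)).indicator (fun z => ENNReal.ofReal (2 * r ^ (-((d : ℝ) + 2 * s)) * (2 / η)) *
        ((∫⁻ x in Metric.ball p (3 * ρ), ENNReal.ofReal (U (x + z) - U x)) *
          ∫⁻ x in Metric.ball p (3 * ρ), ENNReal.ofReal (U x - U (x + z)))) z))) := by
  have hρ0 : 0 < ρ := by linarith
  have hc : Continuous U := pe_cont ha hU
  have hK : 0 ≤ K d s z := K_nonneg z
  have hmm := pe_mm0 (a := a) hC z
  have hm2 : mm C a z ≤ 2 := pe_mm2 z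
  have hmin : 0 ≤ min 1 (‖z‖ / ρ) := by positivity
  have hρd : 0 ≤ ρ ^ d := by positivity
  set V := (volume (Metric.ball (0 : E d) (3 * ρ))).toReal with hV
  have hVp : (volume (Metric.ball p (3 * ρ))).toReal = V := by
    rw [hV, Measure.addHaar_ball_center]
  set I := ∫ x, bump ρ p x * |U (x + z) - U x| with hI
  have hD : ∀ x, |U (x + z) - U x| ≤ mm C a z := by
    intro x
    have := mm_le hU (x + z) x
    rwa [add_sub_cancel_left] at this
  have hfin : volume (Metric.ball p (3 * ρ)) < ⊤ := measure_ball_lt_top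
  have hset : ∀ f : E d → ℝ, Continuous f → (∀ x, f x ≤ mm C a z) → ∫ x in Metric.ball p (3 * ρ), f x ≤ V * mm C a z := by
    intro f hf hfm
    have hfi : IntegrableOn f (Metric.ball p (3 * ρ)) :=
      (hf.continuousOn.integrableOn_compact (isCompact_closedBall p (3 * ρ))).mono_set Metric.ball_subset_closedBall
    calc ∫ x in Metric.ball p (3 * ρ), f x ≤ ∫ _ in Metric.ball p (3 * ρ), mm C a z :=
          integral_mono hfi (integrableOn_const hfin.ne) hfm
      _ = V * mm C a z := by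
          rw [setIntegral_const, Measure.real, hVp, smul_eq_mul]
  have hI1 : I ≤ V * mm C a z := by
    refine le_trans (pd_ball hρ0 p (f := fun x => |U (x + z) - U x|) (by fun_prop) (fun x => abs_nonneg _)) ?_
    exact hset _ (by fun_prop) hD
  have hI2 : I ≤ Cb * ρ ^ d * min 1 (‖z‖ / ρ) + 2 * (V * mm C a z) := by
    refine le_trans (pd_min hCb hρ0 hc hU.1 p z) ?_
    have h1 : ∫ x in Metric.ball p (3 * ρ), max (U (x + z) - U x) 0 ≤ V * mm C a z := by
      refine hset _ (by fun_prop) (fun x => max_le (le_trans (le_abs_self _) (hD x)) hmm)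
    have h2 := min_le_left (∫ x in Metric.ball p (3 * ρ), max (U (x + z) - U x) 0) (∫ x in Metric.ball p (3 * ρ), max (U x - U (x + z)) 0)
    linarith
  have hI3 := hCs ρ hρ0 U hc hU.1 p z η hη
  rw [← hI] at hI3
  have hV0 : 0 ≤ V := ENNReal.toReal_nonneg
  have hmax1 : Cb ≤ max Cb Cs := le_max_left _ _
  have hmax2 : Cs ≤ max Cb Cs := le_max_right _ _
  have hmax0 : 0 ≤ max Cb Cs := le_trans hCs0 hmax2
  have hF1 : ∀ c : ℝ, c ≤ max Cb Cs → K d s z * mm C a z * (c * ρ ^ d * min 1 (‖z‖ / ρ)) ≤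
      max Cb Cs * ρ ^ d * (mm C a z * min 1 (‖z‖ / ρ) * K d s z) := by
    intro c hc
    have : K d s z * mm C a z * (c * ρ ^ d * min 1 (‖z‖ / ρ)) = c * (ρ ^ d * (mm C a z * min 1 (‖z‖ / ρ) * K d s z)) := by ring
    rw [this, mul_assoc (max Cb Cs)]
    refine mul_le_mul_of_nonneg_right hc (by positivity)
  have hF0 : 0 ≤ max Cb Cs * ρ ^ d * (mm C a z * min 1 (‖z‖ / ρ) * K d s z) := by positivity
  have hKm : 0 ≤ K d s z * mm C a z := mul_nonneg hK hmm
  rcases lt_or_ge ‖z‖ r with h1 | h1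
  · -- small z
    have hz : z ∈ Metric.ball (0 : E d) r := by simpa using h1
    rw [indicator_of_mem hz]
    rw [← ENNReal.ofReal_mul (by positivity)]
    refine le_trans ?_ (add_le_add le_rfl (le_add_right le_rfl))
    rw [← ENNReal.ofReal_add hF0 (by positivity)]
    refine ENNReal.ofReal_le_ofReal ?_
    have h2 := mul_le_mul_of_nonneg_left hI2 hKm
    have h3 := hF1 Cb hmax1
    nlinarith [h2, h3]
  · rcases lt_or_ge ‖z‖ (3 * ρ) with h2 | h2
    · -- middle
      have hz : z ∈ Metric.ball (0 : E d) (3 * ρ) := by simpa using h2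
      rw [indicator_of_mem hz, indicator_of_mem hz]
      have hz0 : z ≠ 0 := by
        intro h
        rw [h, norm_zero] at h1
        linarith
      have hM : K d s z * mm C a z ≤ 2 * r ^ (-((d : ℝ) + 2 * s)) := by
        have h3 : K d s z ≤ r ^ (-((d : ℝ) + 2 * s)) := by
          unfold K
          exact Real.rpow_le_rpow_of_nonpos hr h1 (by have : (0:ℝ) ≤ d := Nat.cast_nonneg d; linarith)
        have h4 : 0 ≤ r ^ (-((d : ℝ) + 2 * s)) := by positivity
        nlinarith [mul_le_mul h3 hm2 hmm h4]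
      set M := 2 * r ^ (-((d : ℝ) + 2 * s)) with hMdef
      have hM0 : 0 ≤ M := by positivity
      have hA0 : 0 ≤ ∫ x in Metric.ball p (3 * ρ), max (U (x + z) - U x) 0 := integral_nonneg fun x => le_max_right _ _
      have hB0 : 0 ≤ ∫ x in Metric.ball p (3 * ρ), max (U x - U (x + z)) 0 := integral_nonneg fun x => le_max_right _ _
      have hconv : ∀ f : E d → ℝ, Continuous f → ∫⁻ x in Metric.ball p (3 * ρ), ENNReal.ofReal (f x) =
          ENNReal.ofReal (∫ x in Metric.ball p (3 * ρ), max (f x) 0) := by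
        intro f hf
        have hf' : Continuous (fun x => max (f x) 0) := by fun_prop
        have hfi : IntegrableOn (fun x => max (f x) 0) (Metric.ball p (3 * ρ)) :=
          (hf'.continuousOn.integrableOn_compact (isCompact_closedBall p (3 * ρ))).mono_set Metric.ball_subset_closedBall
        rw [ofReal_integral_eq_lintegral_ofReal hfi (Eventually.of_forall fun x => le_max_right _ _)]
        refine lintegral_congr fun x => ?_
        rcases le_total 0 (f x) with h | h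
        · rw [max_eq_left h]
        · rw [max_eq_right h, ENNReal.ofReal_of_nonpos h, ENNReal.ofReal_zero]
      rw [hconv (fun x => U (x + z) - U x) (by fun_prop), hconv (fun x => U x - U (x + z)) (by fun_prop)]
      rw [← ENNReal.ofReal_mul hA0, ← ENNReal.ofReal_mul (by positivity)]
      refine le_trans ?_ (add_le_add le_rfl (le_trans (add_le_add le_rfl (le_add_left le_rfl)) (le_add_left le_rfl)))
      rw [← ENNReal.ofReal_add (by positivity) (by positivity), ← ENNReal.ofReal_add hF0 (by positivity)]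
      refine ENNReal.ofReal_le_ofReal ?_
      have h3 := mul_le_mul_of_nonneg_left hI3 hKm
      have h4 := hF1 Cs hmax2
      have h5 : 0 ≤ 2 * η + 2 / η * ((∫ x in Metric.ball p (3 * ρ), max (U (x + z) - U x) 0) *
        ∫ x in Metric.ball p (3 * ρ), max (U x - U (x + z)) 0) := by positivity
      have h6 := mul_le_mul_of_nonneg_right hM h5
      nlinarith [h3, h4, h6]
    · have hz : z ∈ {z : E d | ρ < ‖z‖} := by
        show ρ < ‖z‖
        linarith
      rw [indicator_of_mem hz]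
      rw [← ENNReal.ofReal_mul (by positivity)]
      refine le_trans ?_ (le_add_left (le_add_left (le_add_left (le_add_right le_rfl))))
      refine ENNReal.ofReal_le_ofReal ?_
      have h3 := mul_le_mul_of_nonneg_left hI1 hKm
      have h4 : K d s z * mm C a z * (V * mm C a z) ≤ 4 * V * K d s z := by
        have h5 : mm C a z * mm C a z ≤ 4 := by nlinarith
        have h6 := mul_le_mul_of_nonneg_left h5 (mul_nonneg hK hV0)
        nlinarith [h6]
      linarith

/-- MODULE pe. THE LOCAL ESTIMATE.  `∫_{B_{2ρ}(p)} en U ≤ ∫_z K z ∫_x bump (U (x + z) - U x) ^ 2 ≤ ∫_z K z mm z ∫_x bump |U (x + z) - U x|`.  Regions: `‖z‖ ≥ 3 ρ`: inner integral `≤ C ρ ^ d`, `K_tail`, `ρ ^ (d - 2 s) ≤ ρ ^ (d - 1)`.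
`‖z‖ < r₁`: in the proof of `slice` use `min (A, B) ≤ C ρ ^ d mm z`, the contribution is `C ρ ^ d r₁ ^ (2 a - 2 s) ≤ 1` for `r₁ = r₁(ρ)` small (plus the term with `min 1 (‖z‖ / ρ)`).  `r₁ ≤ ‖z‖ < 3 ρ`: `slice`; `K z mm z ≤ 2 r₁ ^ (-(d + 2 s))`; choose `η = η(ρ)` such that the term with
`2 η` contributes at most `1`; the last term is at most `C₂(ρ)` times the integral over `‖z‖ < 3 ρ` of the product, i.e. `G (3 ρ) U p`.  The terms with `min 1 (‖z‖ / ρ)` together: `mm_log`. -/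
theorem kin_local (hd : 1 ≤ d) (hs : 1 / 2 ≤ s) (hs1 : s < 1) {C a : ℝ} (hC : 0 ≤ C) (ha : s < a) :
    ∃ C₁ : ℝ, 0 ≤ C₁ ∧ ∃ C₂ : ℝ → ℝ, (∀ ρ, 0 ≤ C₂ ρ) ∧ ∀ ρ : ℝ, 1 ≤ ρ → ∀ U : E d → ℝ, HolC C a U → ∀ p : E d,
      ∫⁻ x in Metric.ball p (2 * ρ), en d s U x ≤
        ENNReal.ofReal (C₁ * (ρ ^ (d - 1) * (1 + Real.log ρ))) + ENNReal.ofReal (C₂ ρ) * G (3 * ρ) U p := by
  have hs0 : 0 < s := by linarith
  have ha0 : 0 < a := by linarith
  obtain ⟨Cb, hCb0, hCb⟩ := bump_trans d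
  obtain ⟨Cs, hCs0, hCs⟩ := slice d
  obtain ⟨Cm, hCm0, hCm⟩ := mm_log hd hs hs1 hC ha
  obtain ⟨Ct, hCt0, hCt⟩ := K_tail hd hs0
  have hmi := (mm_int hd hs0 hs1 hC ha).1
  have hmeas : Measurable (fun z : E d => ENNReal.ofReal (mm C a z ^ 2 * K d s z)) := by
    refine ENNReal.measurable_ofReal.comp (Measurable.mul ?_ K_meas)
    refine Measurable.pow_const ?_ 2
    unfold mm
    exact measurable_const.min ((measurable_norm.pow_const a).const_mul C)
  set v := (volume (Metric.ball (0 : E d) 3)).toReal with hv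
  have hv0 : 0 ≤ v := ENNReal.toReal_nonneg
  have hmx : 0 ≤ max Cb Cs := le_trans hCb0 (le_max_left _ _)
  refine ⟨max Cb Cs * Cm + 2 + 4 * v * Ct, by positivity, ?_⟩
  have key : ∀ ρ : ℝ, ∃ c : ℝ, 0 ≤ c ∧ (1 ≤ ρ → ∀ U : E d → ℝ, HolC C a U → ∀ p : E d,
      ∫⁻ x in Metric.ball p (2 * ρ), en d s U x ≤
        ENNReal.ofReal ((max Cb Cs * Cm + 2 + 4 * v * Ct) * (ρ ^ (d - 1) * (1 + Real.log ρ))) +
          ENNReal.ofReal c * G (3 * ρ) U p) := by
    intro ρ
    rcases lt_or_ge ρ 1 with hρ | hρ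
    · exact ⟨0, le_rfl, fun h => absurd h (not_le.2 hρ)⟩
    have hρ0 : 0 < ρ := by linarith
    set V := (volume (Metric.ball (0 : E d) (3 * ρ))).toReal with hV
    have hV0 : 0 ≤ V := ENNReal.toReal_nonneg
    have hVv : V = ρ ^ d * v := by
      rw [hV, mul_comm 3 ρ, Measure.addHaar_ball_mul_of_pos _ _ hρ0, ENNReal.toReal_mul, ← hv,
        ENNReal.toReal_ofReal (by positivity)]
      simp [E]
    obtain ⟨r, hr, -, hr2⟩ := pe_small hd (g := fun z : E d => ENNReal.ofReal (mm C a z ^ 2 * K d s z))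
      (by
        rw [← ofReal_integral_eq_lintegral_ofReal hmi (Eventually.of_forall fun z => mul_nonneg (sq_nonneg _) (K_nonneg z))]
        exact ENNReal.ofReal_ne_top)
      (ε := ENNReal.ofReal (1 / (2 * V + 1))) (by
        have : 0 < 1 / (2 * V + 1) := by positivity
        simpa using this)
    set M := 2 * r ^ (-((d : ℝ) + 2 * s)) with hM
    have hM0 : 0 < M := by positivity
    set η := 1 / (2 * M * V + 1) with hη
    have hη0 : 0 < η := by positivity
    refine ⟨M * (2 / η), by positivity, fun _ U hU p => ?_⟩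
    refine le_trans (pe_fub hC ha0 hρ0 hU p) ?_
    refine le_trans (lintegral_mono fun z => pe_pt hs0 hC ha0 hCb hCs0 hCs hρ hU p hr hη0 z) ?_
    have hρd : ρ ^ d = ρ * ρ ^ (d - 1) := by
      rw [← pow_succ']
      congr 1
      omega
    have hX : 1 ≤ ρ ^ (d - 1) * (1 + Real.log ρ) := by
      have h1 : 1 ≤ ρ ^ (d - 1) := one_le_pow₀ hρ
      have h2 : 0 ≤ Real.log ρ := Real.log_nonneg hρ
      nlinarith
    have m1 : Measurable (fun z : E d => ENNReal.ofReal (max Cb Cs * ρ ^ d * (mm C a z * min 1 (‖z‖ / ρ) * K d s z))) := by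
      refine ENNReal.measurable_ofReal.comp (Measurable.const_mul ?_ _)
      refine Measurable.mul (Measurable.mul ?_ ?_) K_meas
      · unfold mm
        exact measurable_const.min ((measurable_norm.pow_const a).const_mul C)
      · exact measurable_const.min (measurable_norm.div_const ρ)
    have m2 : Measurable ((Metric.ball (0 : E d) r).indicator (fun z => ENNReal.ofReal (2 * V) *
        ENNReal.ofReal (mm C a z ^ 2 * K d s z))) :=
      (hmeas.const_mul _).indicator Metric.isOpen_ball.measurableSet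
    have m3 : Measurable ((Metric.ball (0 : E d) (3 * ρ)).indicator (fun _ => ENNReal.ofReal (M * (2 * η)))) :=
      measurable_const.indicator Metric.isOpen_ball.measurableSet
    have s4 : MeasurableSet {z : E d | ρ < ‖z‖} := measurableSet_lt measurable_const measurable_norm
    have m4 : Measurable (({z : E d | ρ < ‖z‖}).indicator (fun z => ENNReal.ofReal (4 * V) *
        ENNReal.ofReal (K d s z))) :=
      ((ENNReal.measurable_ofReal.comp K_meas).const_mul _).indicator s4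
    rw [lintegral_add_left m1, lintegral_add_left m2, lintegral_add_left m3, lintegral_add_left m4]
    have t1 : ∫⁻ z : E d, ENNReal.ofReal (max Cb Cs * ρ ^ d * (mm C a z * min 1 (‖z‖ / ρ) * K d s z)) ≤
        ENNReal.ofReal (max Cb Cs * Cm * (ρ ^ (d - 1) * (1 + Real.log ρ))) := by
      have hi := (hCm ρ hρ).1.const_mul (max Cb Cs * ρ ^ d)
      rw [← ofReal_integral_eq_lintegral_ofReal hi (Eventually.of_forall fun z => by
        have h1 : 0 ≤ K d s z := K_nonneg z
        have h2 := pe_mm0 (a := a) hC z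
        positivity), integral_const_mul]
      refine ENNReal.ofReal_le_ofReal ?_
      have h1 := mul_le_mul_of_nonneg_left (hCm ρ hρ).2 (show 0 ≤ max Cb Cs * ρ ^ d by positivity)
      refine le_trans h1 (le_of_eq ?_)
      rw [hρd]
      field_simp
    have t2 : ∫⁻ z : E d, (Metric.ball (0 : E d) r).indicator (fun z => ENNReal.ofReal (2 * V) *
        ENNReal.ofReal (mm C a z ^ 2 * K d s z)) z ≤ ENNReal.ofReal 1 := by
      rw [lintegral_indicator Metric.isOpen_ball.measurableSet, lintegral_const_mul _ hmeas]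
      refine le_trans (mul_le_mul_right hr2 _) ?_
      rw [← ENNReal.ofReal_mul (by positivity)]
      refine ENNReal.ofReal_le_ofReal ?_
      rw [mul_one_div, div_le_one (by positivity)]
      linarith
    have t3 : ∫⁻ z : E d, (Metric.ball (0 : E d) (3 * ρ)).indicator (fun _ => ENNReal.ofReal (M * (2 * η))) z ≤
        ENNReal.ofReal 1 := by
      rw [lintegral_indicator Metric.isOpen_ball.measurableSet, setLIntegral_const,
        ← ENNReal.ofReal_toReal (measure_ball_lt_top (μ := (volume : Measure (E d))) (x := 0) (r := 3 * ρ)).ne, ← hV,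
        ← ENNReal.ofReal_mul (by positivity)]
      refine ENNReal.ofReal_le_ofReal ?_
      have : M * (2 * η) * V = 2 * M * V / (2 * M * V + 1) := by
        rw [hη]
        ring
      rw [this, div_le_one (by positivity)]
      linarith
    have t4 : ∫⁻ z : E d, ({z : E d | ρ < ‖z‖}).indicator (fun z => ENNReal.ofReal (4 * V) * ENNReal.ofReal (K d s z)) z ≤
        ENNReal.ofReal (4 * v * Ct * (ρ ^ (d - 1) * (1 + Real.log ρ))) := by
      have hKm : Measurable (fun z : E d => ENNReal.ofReal (K d s z)) := ENNReal.measurable_ofReal.comp K_meas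
      rw [lintegral_indicator s4, lintegral_const_mul _ hKm,
        ← ofReal_integral_eq_lintegral_ofReal (hCt ρ hρ0).1 (Eventually.of_forall fun z => K_nonneg z), (hCt ρ hρ0).2,
        ← ENNReal.ofReal_mul (by positivity)]
      refine ENNReal.ofReal_le_ofReal ?_
      have h1 : ρ * ρ ^ (-(2 * s)) ≤ 1 := by
        have h2 : ρ ^ (-(2 * s)) ≤ ρ ^ (-1 : ℝ) := Real.rpow_le_rpow_of_exponent_le hρ (by linarith)
        rw [Real.rpow_neg_one] at h2
        calc ρ * ρ ^ (-(2 * s)) ≤ ρ * ρ⁻¹ := mul_le_mul_of_nonneg_left h2 hρ0.le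
          _ = 1 := mul_inv_cancel₀ hρ0.ne'
      have h3 : 0 ≤ ρ ^ (d - 1) := by positivity
      have h4 : 0 ≤ Real.log ρ := Real.log_nonneg hρ
      have h5 : ρ ^ (d - 1) * (ρ * ρ ^ (-(2 * s))) ≤ ρ ^ (d - 1) * (1 + Real.log ρ) :=
        mul_le_mul_of_nonneg_left (by linarith) h3
      have h6 := mul_le_mul_of_nonneg_left h5 (show 0 ≤ 4 * v * Ct by positivity)
      calc 4 * V * (Ct * ρ ^ (-(2 * s))) = 4 * v * Ct * (ρ ^ (d - 1) * (ρ * ρ ^ (-(2 * s)))) := by
            rw [hVv, hρd]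
            ring
        _ ≤ _ := h6
    have t5 : ∫⁻ z : E d, (Metric.ball (0 : E d) (3 * ρ)).indicator (fun z => ENNReal.ofReal (M * (2 / η)) *
        ((∫⁻ x in Metric.ball p (3 * ρ), ENNReal.ofReal (U (x + z) - U x)) *
          ∫⁻ x in Metric.ball p (3 * ρ), ENNReal.ofReal (U x - U (x + z)))) z ≤ ENNReal.ofReal (M * (2 / η)) * G (3 * ρ) U p := by
      rw [lintegral_indicator Metric.isOpen_ball.measurableSet]
      unfold G
      rw [lintegral_const_mul' _ _ ENNReal.ofReal_ne_top]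
    refine le_trans (add_le_add t1 (add_le_add t2 (add_le_add t3 (add_le_add t4 t5)))) ?_
    rw [← add_assoc, ← add_assoc, ← add_assoc]
    refine add_le_add ?_ le_rfl
    have hX0 : 0 ≤ ρ ^ (d - 1) * (1 + Real.log ρ) := by linarith
    rw [← ENNReal.ofReal_add (by positivity) (by positivity), ← ENNReal.ofReal_add (by positivity) (by positivity),
      ← ENNReal.ofReal_add (by positivity) (by positivity)]
    refine ENNReal.ofReal_le_ofReal ?_
    nlinarith
  choose C₂ h1 h2 using key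
  exact ⟨C₂, h1, h2⟩

private theorem pf_card {Cv : ℝ} (hCv : ∀ (V : Submodule ℝ (E d)) (R ρ : ℝ), 0 < R → 0 < ρ →
      volume (Cyl V R ρ) ≤ ENNReal.ofReal (Cv * (R ^ Module.finrank ℝ V * ρ ^ (d - Module.finrank ℝ V)))) (hCv0 : 0 ≤ Cv)
    (V : Submodule ℝ (E d)) {R ρ : ℝ} (hρ : 1 ≤ ρ) (hR : ρ ≤ R) {P : Finset (E d)} (h1 : ∀ p ∈ P, p ∈ V ∧ ‖p‖ ≤ R)
    (h2 : ∀ p ∈ P, ∀ p' ∈ P, p ≠ p' → ρ ≤ ‖p - p'‖) :
    (P.card : ℝ) * ρ ^ Module.finrank ℝ V ≤
      Cv * 4 ^ d / (volume (Metric.ball (0 : E d) 1)).toReal * R ^ Module.finrank ℝ V := by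
  have hρ0 : 0 < ρ := by linarith
  have hR0 : 0 < R := by linarith
  set v := (volume (Metric.ball (0 : E d) 1)).toReal with hv
  have hv0 : 0 < v := ENNReal.toReal_pos (Metric.measure_ball_pos _ _ one_pos).ne' measure_ball_lt_top.ne
  have hk : Module.finrank ℝ V ≤ d := by
    have := Submodule.finrank_le V
    simpa [E] using this
  set k := Module.finrank ℝ V with hkd
  have hdisj : PairwiseDisjoint (P : Set (E d)) (fun p => Metric.ball p (ρ / 2)) := by
    intro p hp p' hp' hne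
    refine Metric.ball_disjoint_ball ?_
    have := h2 p hp p' hp' hne
    rw [dist_eq_norm]
    linarith
  have hsub : (⋃ p ∈ P, Metric.ball p (ρ / 2)) ⊆ Cyl V (2 * R) ρ := by
    intro x hx
    obtain ⟨p, hp, hxp⟩ := mem_iUnion₂.1 hx
    rw [Metric.mem_ball, dist_eq_norm] at hxp
    have e : V.starProjection p = p := Submodule.starProjection_eq_self_iff.2 (h1 p hp).1
    obtain ⟨a1, a2⟩ := proj_le (V := V) x p
    rw [e] at a1 a2
    refine ⟨?_, ?_⟩
    · have := norm_le_norm_add_norm_sub' (V.starProjection x) p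
      have := (h1 p hp).2
      linarith
    · rw [sub_self, sub_zero] at a2
      linarith
  have hm := measure_mono (μ := (volume : Measure (E d))) hsub
  rw [measure_biUnion_finset hdisj (fun p _ => Metric.isOpen_ball.measurableSet)] at hm
  have hb : ∀ p : E d, volume (Metric.ball p (ρ / 2)) = ENNReal.ofReal ((ρ / 2) ^ d * v) := by
    intro p
    rw [Measure.addHaar_ball_of_pos _ _ (by positivity), ENNReal.ofReal_mul (by positivity), hv,
      ENNReal.ofReal_toReal measure_ball_lt_top.ne]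
    simp [E]
  simp_rw [hb] at hm
  rw [Finset.sum_const, nsmul_eq_mul] at hm
  have hm2 := le_trans hm (hCv V (2 * R) ρ (by linarith) hρ0)
  rw [← ENNReal.ofReal_natCast, ← ENNReal.ofReal_mul (Nat.cast_nonneg _)] at hm2
  have hm3 := (ENNReal.ofReal_le_ofReal_iff (by positivity)).1 hm2
  rw [← hkd] at hm3
  have e1 : ρ ^ d = ρ ^ (d - k) * ρ ^ k := by
    rw [← pow_add]
    congr 1
    omega
  have e2 : (2 * R) ^ k * 2 ^ d ≤ 4 ^ d * R ^ k := by
    have : (2:ℝ) ^ k ≤ 2 ^ d := pow_le_pow_right₀ (by norm_num) hk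
    have h4 : (4:ℝ) ^ d = 2 ^ d * 2 ^ d := by
      rw [← mul_pow]
      norm_num
    rw [mul_pow, h4]
    have hRk : 0 ≤ R ^ k := by positivity
    have h2d : (0:ℝ) ≤ 2 ^ d := by positivity
    calc 2 ^ k * R ^ k * 2 ^ d ≤ 2 ^ d * R ^ k * 2 ^ d := by gcongr
      _ = 2 ^ d * 2 ^ d * R ^ k := by ring
  have hpos : 0 < ρ ^ (d - k) := by positivity
  have h5 : (P.card : ℝ) * ρ ^ k * v * ρ ^ (d - k) ≤ Cv * 4 ^ d * R ^ k * ρ ^ (d - k) := by
    have h6 : (P.card : ℝ) * ((ρ / 2) ^ d * v) * 2 ^ d ≤ Cv * ((2 * R) ^ k * ρ ^ (d - k)) * 2 ^ d :=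
      mul_le_mul_of_nonneg_right hm3 (by positivity)
    have h7 : (P.card : ℝ) * ((ρ / 2) ^ d * v) * 2 ^ d = (P.card : ℝ) * ρ ^ k * v * ρ ^ (d - k) := by
      rw [div_pow, e1]
      field_simp
    rw [h7] at h6
    refine le_trans h6 ?_
    have h8 := mul_le_mul_of_nonneg_left e2 (mul_nonneg hCv0 hpos.le)
    nlinarith [h8]
  have h9 := le_of_mul_le_mul_right h5 hpos
  rw [div_mul_eq_mul_div, le_div_iff₀ hv0]
  exact h9

/-- MODULE pf. A maximal `ρ`-separated subset of `V ∩ B_R` (finite: `pack`).  The balls of radius `ρ / 2` around its points are disjoint and lie in `Cyl V (2 R) ρ`: `cyl_vol`, `Measure.addHaar_ball`.  For `x` in the cylinder some `p` has `‖P x - p‖ < ρ`, so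
`‖x - p‖ ^ 2 < 2 ρ ^ 2`. -/
theorem cover (d : ℕ) : ∃ C : ℝ, 0 ≤ C ∧ ∀ (V : Submodule ℝ (E d)) (R ρ : ℝ), 1 ≤ ρ → ρ ≤ R → ∃ P : Finset (E d), Sep P ∧
    (∀ p ∈ P, p ∈ V ∧ ‖p‖ ≤ R) ∧ (P.card : ℝ) * ρ ^ Module.finrank ℝ V ≤ C * R ^ Module.finrank ℝ V ∧
    Cyl V R ρ ⊆ ⋃ p ∈ P, Metric.ball p (2 * ρ) := by
  classical
  obtain ⟨Cv, hCv0, hCv⟩ := cyl_vol d
  refine ⟨Cv * 4 ^ d / (volume (Metric.ball (0 : E d) 1)).toReal, by positivity, fun V R ρ hρ hR => ?_⟩
  have hρ0 : 0 < ρ := by linarith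
  set S : Set ℕ := {n | ∃ P : Finset (E d), (∀ p ∈ P, p ∈ V ∧ ‖p‖ ≤ R) ∧
    (∀ p ∈ P, ∀ p' ∈ P, p ≠ p' → ρ ≤ ‖p - p'‖) ∧ P.card = n} with hS
  have hne : S.Nonempty := ⟨0, ∅, by simp, by simp, by simp⟩
  have hbd : BddAbove S := by
    refine ⟨⌊Cv * 4 ^ d / (volume (Metric.ball (0 : E d) 1)).toReal * R ^ Module.finrank ℝ V⌋₊, ?_⟩
    rintro n ⟨P, h1, h2, rfl⟩
    have h3 := pf_card hCv hCv0 V hρ hR h1 h2
    refine Nat.le_floor (le_trans ?_ h3)
    have : 1 ≤ ρ ^ Module.finrank ℝ V := one_le_pow₀ hρ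
    have hc : (0:ℝ) ≤ (P.card : ℝ) := Nat.cast_nonneg _
    nlinarith
  obtain ⟨P, h1, h2, h3⟩ := Nat.sSup_mem hne hbd
  refine ⟨P, fun p hp p' hp' hn => le_trans hρ (h2 p hp p' hp' hn), h1, pf_card hCv hCv0 V hρ hR h1 h2, ?_⟩
  intro x hx
  by_contra hcon
  have hfar : ∀ p ∈ P, ρ ≤ ‖V.starProjection x - p‖ := by
    intro p hp
    by_contra hlt
    rw [not_le] at hlt
    refine hcon (mem_iUnion₂.2 ⟨p, hp, ?_⟩)
    rw [Metric.mem_ball, dist_eq_norm]
    have e : x - p = (x - V.starProjection x) + (V.starProjection x - p) := by abel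
    have := norm_add_le (x - V.starProjection x) (V.starProjection x - p)
    rw [← e] at this
    have := hx.2
    linarith
  have hnot : V.starProjection x ∉ P := by
    intro h
    have := hfar _ h
    rw [sub_self, norm_zero] at this
    linarith
  have hmem : P.card + 1 ∈ S := by
    refine ⟨insert (V.starProjection x) P, ?_, ?_, Finset.card_insert_of_notMem hnot⟩
    · intro p hp
      rcases Finset.mem_insert.1 hp with rfl | hp
      · exact ⟨Submodule.starProjection_apply_mem V x, hx.1⟩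
      · exact h1 p hp
    · intro p hp p' hp' hn
      rcases Finset.mem_insert.1 hp with rfl | hp
      · rcases Finset.mem_insert.1 hp' with rfl | hp'
        · exact absurd rfl hn
        · exact hfar _ hp'
      · rcases Finset.mem_insert.1 hp' with rfl | hp'
        · rw [norm_sub_rev]
          exact hfar _ hp
        · exact h2 p hp p' hp' hn
  have := le_csSup hbd hmem
  omega

private theorem pg_union {f : E d → ENNReal} (P : Finset (E d)) (B : E d → Set (E d)) :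
    ∫⁻ x in ⋃ p ∈ P, B p, f x ≤ ∑ p ∈ P, ∫⁻ x in B p, f x := by
  classical
  induction P using Finset.induction_on with
  | empty => simp
  | insert q P hq ih =>
    rw [Finset.set_biUnion_insert, Finset.sum_insert hq]
    exact (lintegral_union_le _ _ _).trans (add_le_add le_rfl ih)

/-- the real inequality -/
private theorem pg_num {k n : ℕ} {c1 c2 C R ρ N l : ℝ} (hc1 : 0 ≤ c1) (hC : 0 ≤ C) (hR : 0 < R)
    (hρ : 1 ≤ ρ) (hl : 0 ≤ l) (h2 : n ≤ k + 2) (hN0 : 0 ≤ N)
    (hN : N * ρ ^ k ≤ c2 * R ^ k) :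
    N * (c1 * (ρ ^ n * (1 + l))) + C * ((1 + C)⁻¹ * R ^ k) ≤
      (c2 * c1 + 1) * (R ^ k * (ρ ^ 2 * (1 + l))) := by
  have hρ0 : 0 < ρ := by linarith
  have e1 : ρ ^ n ≤ ρ ^ k * ρ ^ 2 := by
    rw [← pow_add]
    exact pow_le_pow_right₀ hρ h2
  have e2 : N * (c1 * (ρ ^ n * (1 + l))) ≤ c2 * c1 * (R ^ k * (ρ ^ 2 * (1 + l))) := by
    calc N * (c1 * (ρ ^ n * (1 + l))) ≤ N * (c1 * ((ρ ^ k * ρ ^ 2) * (1 + l))) := by
          gcongr
      _ = (N * ρ ^ k) * (c1 * (ρ ^ 2 * (1 + l))) := by ring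
      _ ≤ (c2 * R ^ k) * (c1 * (ρ ^ 2 * (1 + l))) :=
          mul_le_mul_of_nonneg_right hN (by positivity)
      _ = c2 * c1 * (R ^ k * (ρ ^ 2 * (1 + l))) := by ring
  have e3 : C * (1 + C)⁻¹ ≤ 1 := by
    rw [← div_eq_mul_inv, div_le_one (by linarith)]
    linarith
  have e4 : 1 ≤ ρ ^ 2 * (1 + l) := by
    have e5 : 1 ≤ ρ ^ 2 := one_le_pow₀ hρ
    nlinarith
  have e6 : C * ((1 + C)⁻¹ * R ^ k) ≤ R ^ k * (ρ ^ 2 * (1 + l)) := by
    calc C * ((1 + C)⁻¹ * R ^ k) = (C * (1 + C)⁻¹) * R ^ k := by ring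
      _ ≤ 1 * R ^ k := mul_le_mul_of_nonneg_right e3 (by positivity)
      _ = R ^ k * 1 := by ring
      _ ≤ R ^ k * (ρ ^ 2 * (1 + l)) := mul_le_mul_of_nonneg_left e4 (by positivity)
  linarith

/-- MODULE pg. `cover`, `kin_local`: `∫_{Cyl V R ρ} en U ≤ card P · C₁ ρ ^ (d - 1) (1 + log ρ) + C₂(ρ) ∑ G (3 ρ) U p ≤ C R ^ k ρ ^ (d - 1 - k) (1 + log ρ) + C₂(ρ) ε R ^ k` with `ε = 1 / (1 + C₂(ρ))`; `d - 1 - k ≤ 2`. -/
theorem kin_cyl (hd : 1 ≤ d) (hs : 1 / 2 ≤ s) (hs1 : s < 1) {C a : ℝ} (hC : 0 ≤ C) (ha : s < a) {V : Submodule ℝ (E d)}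
    (hV : Module.finrank ℝ V + 1 ≤ d) (hV' : d ≤ Module.finrank ℝ V + 3) (F : Set (E d → ℝ)) (hH : ∀ U ∈ F, HolC C a U)
    (hG : ∀ L ε : ℝ, 1 ≤ L → 0 < ε → ∃ R₁ : ℝ, ∀ U ∈ F, ∀ R : ℝ, R₁ ≤ R → ∀ P : Finset (E d), Sep P →
      (∀ p ∈ P, p ∈ V ∧ ‖p‖ ≤ R) → ∑ p ∈ P, G L U p ≤ ENNReal.ofReal (ε * R ^ Module.finrank ℝ V)) :
    ∃ C₁ : ℝ, 0 ≤ C₁ ∧ ∃ R₂ : ℝ → ℝ, ∀ U ∈ F, EG V s C₁ R₂ U := by
  obtain ⟨c1, hc1, C₂, hC₂, hloc⟩ := kin_local hd hs hs1 hC ha
  obtain ⟨c2, hc2, hcov⟩ := cover d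
  have hch : ∀ ρ : ℝ, ∃ R₁ : ℝ, 1 ≤ ρ → ρ ≤ R₁ ∧ ∀ U ∈ F, ∀ R : ℝ, R₁ ≤ R →
      ∀ P : Finset (E d), Sep P → (∀ p ∈ P, p ∈ V ∧ ‖p‖ ≤ R) →
        ∑ p ∈ P, G (3 * ρ) U p ≤ ENNReal.ofReal ((1 + C₂ ρ)⁻¹ * R ^ Module.finrank ℝ V) := by
    intro ρ
    by_cases h1 : 1 ≤ ρ
    · obtain ⟨R₁, h2⟩ := hG (3 * ρ) ((1 + C₂ ρ)⁻¹) (by linarith) (by
        have := hC₂ ρ
        positivity)
      exact ⟨max ρ R₁, fun _ => ⟨le_max_left _ _, fun U hU R hR =>
        h2 U hU R ((le_max_right _ _).trans hR)⟩⟩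
    · exact ⟨0, fun h => absurd h h1⟩
  choose R₂ hR₂ using hch
  refine ⟨c2 * c1 + 1, by positivity, R₂, fun U hU ρ R hρ hR => ?_⟩
  obtain ⟨h1, h2⟩ := hR₂ ρ hρ
  have hρR : ρ ≤ R := h1.trans hR
  obtain ⟨P, hP, hPV, hcard, hsub⟩ := hcov V R ρ hρ hρR
  have hρ0 : 0 < ρ := by linarith
  have hR0 : 0 < R := by linarith
  have hlog : 0 ≤ Real.log ρ := Real.log_nonneg hρ
  have hC0 := hC₂ ρ
  calc ∫⁻ x in Cyl V R ρ, en d s U x
      ≤ ∫⁻ x in ⋃ p ∈ P, Metric.ball p (2 * ρ), en d s U x := lintegral_mono_set hsub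
    _ ≤ ∑ p ∈ P, ∫⁻ x in Metric.ball p (2 * ρ), en d s U x := pg_union P _
    _ ≤ ∑ p ∈ P, (ENNReal.ofReal (c1 * (ρ ^ (d - 1) * (1 + Real.log ρ))) +
          ENNReal.ofReal (C₂ ρ) * G (3 * ρ) U p) :=
        Finset.sum_le_sum fun p _ => hloc ρ hρ U (hH U hU) p
    _ = (P.card : ENNReal) * ENNReal.ofReal (c1 * (ρ ^ (d - 1) * (1 + Real.log ρ))) +
          ENNReal.ofReal (C₂ ρ) * ∑ p ∈ P, G (3 * ρ) U p := by
        rw [Finset.sum_add_distrib, Finset.sum_const, nsmul_eq_mul, Finset.mul_sum]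
    _ ≤ ENNReal.ofReal ((P.card : ℝ) * (c1 * (ρ ^ (d - 1) * (1 + Real.log ρ)))) +
          ENNReal.ofReal (C₂ ρ) *
            ENNReal.ofReal ((1 + C₂ ρ)⁻¹ * R ^ Module.finrank ℝ V) := by
        refine add_le_add (le_of_eq ?_) (mul_le_mul' le_rfl (h2 U hU R hR P hP hPV))
        rw [ENNReal.ofReal_mul (Nat.cast_nonneg _), ENNReal.ofReal_natCast]
    _ = ENNReal.ofReal ((P.card : ℝ) * (c1 * (ρ ^ (d - 1) * (1 + Real.log ρ))) +
          C₂ ρ * ((1 + C₂ ρ)⁻¹ * R ^ Module.finrank ℝ V)) := by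
        rw [← ENNReal.ofReal_mul hC0, ← ENNReal.ofReal_add (by positivity) (by positivity)]
    _ ≤ ENNReal.ofReal ((c2 * c1 + 1) *
          (R ^ Module.finrank ℝ V * (ρ ^ 2 * (1 + Real.log ρ)))) :=
        ENNReal.ofReal_le_ofReal (pg_num hc1 hC0 hR0 hρ hlog (by omega)
          (Nat.cast_nonneg _) hcard)

end NDG
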