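import Pool.Agent.NDG.Pla

/-! # The limit of a monotone solution in the direction of monotonicity -/

open MeasureTheory Filter Topology Set

noncomputable section

namespace NDG

variable {d : ℕ} {s c : ℝ}

/-- the limit of `u (x + t e)` for `t → ∞` -/
def Up {d : ℕ} (u : E d → ℝ) (e x : E d) : ℝ := ⨆ n : ℕ, u (x + (n : ℝ) • e)

/-- `u` is increasing in the direction `e` -/
def Inc {d : ℕ} (u : E d → ℝ) (e : E d) : Prop := ∀ x : E d, ∀ t : ℝ, 0 ≤ t → u x ≤ u (x + t • e)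

/-- MODULE oa. `mono_lt`. -/
theorem inc_of {u : E d → ℝ} (hu : ContDiff ℝ 1 u) {e : E d} (he : ∀ x, 0 < fderiv ℝ u x e) : Inc u e := by
  intro x t ht
  rcases ht.eq_or_lt with h | h
  · rw [← h]; simp
  · exact (mono_lt hu he h x).le

private theorem oa_mono {u : E d → ℝ} {e : E d} (he : Inc u e) (x : E d) : Monotone (fun t : ℝ => u (x + t • e)) := by
  intro a b hab
  have h := he (x + a • e) (b - a) (by linarith)
  have h2 : x + a • e + (b - a) • e = x + b • e := by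
    rw [add_assoc, ← add_smul]; congr 2; ring
  rw [h2] at h
  exact h

/-- MODULE oa. -/
theorem up_tendsto {u : E d → ℝ} (hB : ∀ x, |u x| ≤ 1) {e : E d} (he : Inc u e) (x : E d) :
    Tendsto (fun t : ℝ => u (x + t • e)) atTop (𝓝 (Up u e x)) := by
  have hm := oa_mono he x
  have hb : BddAbove (range (fun t : ℝ => u (x + t • e))) := by
    refine ⟨1, ?_⟩
    rintro _ ⟨t, rfl⟩
    exact (abs_le.1 (hB _)).2
  have h1 := tendsto_atTop_ciSup hm hb
  have h2 : Tendsto (fun n : ℕ => u (x + (n : ℝ) • e)) atTop (𝓝 (⨆ t : ℝ, u (x + t • e))) :=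
    h1.comp tendsto_natCast_atTop_atTop
  have hm' : Monotone (fun n : ℕ => u (x + (n : ℝ) • e)) := fun a b hab => hm (Nat.cast_le.2 hab)
  have hb' : BddAbove (range (fun n : ℕ => u (x + (n : ℝ) • e))) := by
    refine ⟨1, ?_⟩
    rintro _ ⟨t, rfl⟩
    exact (abs_le.1 (hB _)).2
  have h3 := tendsto_atTop_ciSup hm' hb'
  have h4 := tendsto_nhds_unique h2 h3
  rw [h4] at h1
  exact h1

/-- MODULE oa. Uniqueness of the limit of `u (x + (t + t') e)`. -/
theorem up_inv {u : E d → ℝ} (hB : ∀ x, |u x| ≤ 1) {e : E d} (he : Inc u e) (x : E d) (t : ℝ) :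
    Up u e (x + t • e) = Up u e x := by
  have h1 := up_tendsto hB he (x + t • e)
  have h2 : Tendsto (fun t' : ℝ => u (x + (t + t') • e)) atTop (𝓝 (Up u e x)) :=
    (up_tendsto hB he x).comp (tendsto_atTop_add_const_left atTop t tendsto_id)
  have h3 : (fun t' : ℝ => u (x + (t + t') • e)) = fun t' : ℝ => u (x + t • e + t' • e) := by
    funext t'; rw [add_smul, add_assoc]
  rw [h3] at h2
  exact tendsto_nhds_unique h1 h2

/-- MODULE oa. -/
theorem up_hol {C a : ℝ} {u : E d → ℝ} (hu : HolC C a u) {e : E d} (he : Inc u e) : HolC C a (Up u e) := by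
  refine ⟨fun x => ?_, fun x y => ?_⟩
  · exact le_of_tendsto' (up_tendsto hu.1 he x).abs (fun t => hu.1 _)
  · refine le_of_tendsto' ((up_tendsto hu.1 he x).sub (up_tendsto hu.1 he y)).abs (fun t => ?_)
    have := hu.2 (x + t • e) (y + t • e)
    rwa [add_sub_add_right_eq_sub] at this

private theorem ob_cont {C a : ℝ} (ha : 0 < a) {u : E d → ℝ} (hu : HolC C a u) : Continuous u := by
  rw [continuous_iff_continuousAt]
  intro x
  rw [ContinuousAt, tendsto_iff_dist_tendsto_zero]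
  have h1 : Tendsto (fun y : E d => C * ‖y - x‖ ^ a) (𝓝 x) (𝓝 (C * ‖x - x‖ ^ a)) := by
    have hc : Continuous (fun y : E d => C * ‖y - x‖ ^ a) :=
      continuous_const.mul ((continuous_norm.comp (continuous_id.sub continuous_const)).rpow_const (fun _ => Or.inr ha.le))
    exact hc.tendsto x
  rw [sub_self, norm_zero, Real.zero_rpow ha.ne', mul_zero] at h1
  refine squeeze_zero (fun _ => dist_nonneg) (fun y => ?_) h1
  rw [Real.dist_eq]
  exact hu.2 y x

private theorem ob_shift {C a : ℝ} {u : E d → ℝ} (hu : HolC C a u) (h : E d) : HolC C a (fun x => u (x + h)) := by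
  refine ⟨fun x => hu.1 _, fun x y => ?_⟩
  have := hu.2 (x + h) (y + h)
  rwa [add_sub_add_right_eq_sub] at this

private theorem ob_inner {C a : ℝ} (ha : 0 < a) {u : E d → ℝ} (hu : HolC C a u) {e : E d} (he : Inc u e) (p : E d) (L : ℝ)
    (σ : ℝ) (h : E d) :
    Tendsto (fun t : ℝ => ∫⁻ x in Metric.ball p L, ENNReal.ofReal (σ * (u (x + h + t • e) - u (x + t • e)))) atTop
      (𝓝 (∫⁻ x in Metric.ball p L, ENNReal.ofReal (σ * (Up u e (x + h) - Up u e x)))) := by
  have hc := ob_cont ha hu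
  refine tendsto_lintegral_filter_of_dominated_convergence (fun _ => ENNReal.ofReal (|σ| * 2)) ?_ ?_ ?_ ?_
  · refine Eventually.of_forall (fun t => ?_)
    refine (ENNReal.measurable_ofReal.comp ?_)
    exact Continuous.measurable (by fun_prop)
  · refine Eventually.of_forall (fun t => ae_of_all _ (fun x => ENNReal.ofReal_le_ofReal ?_))
    have h1 := hu.1 (x + h + t • e)
    have h2 := hu.1 (x + t • e)
    have h3 : |u (x + h + t • e) - u (x + t • e)| ≤ 2 := by
      calc _ ≤ |u (x + h + t • e)| + |u (x + t • e)| := abs_sub _ _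
        _ ≤ 2 := by linarith
    calc σ * (u (x + h + t • e) - u (x + t • e)) ≤ |σ * (u (x + h + t • e) - u (x + t • e))| := le_abs_self _
      _ = |σ| * |u (x + h + t • e) - u (x + t • e)| := abs_mul _ _
      _ ≤ |σ| * 2 := mul_le_mul_of_nonneg_left h3 (abs_nonneg _)
  · rw [lintegral_const]
    exact ENNReal.mul_ne_top ENNReal.ofReal_ne_top (by rw [Measure.restrict_apply_univ]; exact measure_ball_lt_top.ne)
  · refine ae_of_all _ (fun x => ?_)
    exact (ENNReal.tendsto_ofReal ((((up_tendsto hu.1 he (x + h)).sub (up_tendsto hu.1 he x))).const_mul σ))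

private theorem ob_bd {u : E d → ℝ} (hB : ∀ x, |u x| ≤ 1) (p : E d) (L : ℝ) (σ : ℝ) (h : E d) :
    ∫⁻ x in Metric.ball p L, ENNReal.ofReal (σ * (u (x + h) - u x)) ≤
      ENNReal.ofReal (|σ| * 2) * volume (Metric.ball p L) := by
  calc _ ≤ ∫⁻ x in Metric.ball p L, ENNReal.ofReal (|σ| * 2) := by
        refine lintegral_mono (fun x => ENNReal.ofReal_le_ofReal ?_)
        have h1 := hB (x + h)
        have h2 := hB x
        have h3 : |u (x + h) - u x| ≤ 2 := by
          calc _ ≤ |u (x + h)| + |u x| := abs_sub _ _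
            _ ≤ 2 := by linarith
        calc σ * (u (x + h) - u x) ≤ |σ * (u (x + h) - u x)| := le_abs_self _
          _ = |σ| * |u (x + h) - u x| := abs_mul _ _
          _ ≤ |σ| * 2 := mul_le_mul_of_nonneg_left h3 (abs_nonneg _)
    _ = _ := by rw [setLIntegral_const]

private theorem ob_meas {u : E d → ℝ} (hu : Continuous u) (p : E d) (L : ℝ) (σ : ℝ) :
    Measurable (fun h : E d => ∫⁻ x in Metric.ball p L, ENNReal.ofReal (σ * (u (x + h) - u x))) := by
  refine Measurable.lintegral_prod_right (f := fun h : E d => fun x : E d => ENNReal.ofReal (σ * (u (x + h) - u x))) ?_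
  refine ENNReal.measurable_ofReal.comp ?_
  exact Continuous.measurable (by fun_prop)

/-- MODULE ob. Dominated convergence for all three integrals (`|u| ≤ 1`, bounded sets; `atTop` is countably generated). -/
theorem G_lim {C a : ℝ} (ha : 0 < a) {u : E d → ℝ} (hu : HolC C a u) {e : E d} (he : Inc u e) (L : ℝ) (p : E d) :
    Tendsto (fun t : ℝ => G L (fun x => u (x + t • e)) p) atTop (𝓝 (G L (Up u e) p)) := by
  have hc := ob_cont ha hu
  have e1 : ∀ (v : E d → ℝ) (h x : E d), v (x + h) - v x = 1 * (v (x + h) - v x) := fun v h x => by ring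
  have e2 : ∀ (v : E d → ℝ) (h x : E d), v x - v (x + h) = (-1) * (v (x + h) - v x) := fun v h x => by ring
  have hG : ∀ v : E d → ℝ, G L v p = ∫⁻ h in Metric.ball (0 : E d) L,
      (∫⁻ x in Metric.ball p L, ENNReal.ofReal (1 * (v (x + h) - v x))) *
        ∫⁻ x in Metric.ball p L, ENNReal.ofReal ((-1) * (v (x + h) - v x)) := by
    intro v
    unfold G
    simp_rw [← e1, ← e2]
  rw [hG]
  simp_rw [hG]
  have hvol : volume (Metric.ball p L) ≠ ⊤ := measure_ball_lt_top.ne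
  refine tendsto_lintegral_filter_of_dominated_convergence
    (fun _ => (ENNReal.ofReal (|1| * 2) * volume (Metric.ball p L)) * (ENNReal.ofReal (|(-1:ℝ)| * 2) * volume (Metric.ball p L))) ?_ ?_ ?_ ?_
  · refine Eventually.of_forall (fun t => ?_)
    have hct : Continuous (fun x => u (x + t • e)) := by fun_prop
    exact (ob_meas hct p L 1).mul (ob_meas hct p L (-1))
  · refine Eventually.of_forall (fun t => ae_of_all _ (fun h => ?_))
    have hB : ∀ x, |(fun x => u (x + t • e)) x| ≤ 1 := fun x => hu.1 _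
    exact mul_le_mul' (ob_bd hB p L 1 h) (ob_bd hB p L (-1) h)
  · rw [lintegral_const]
    refine ENNReal.mul_ne_top (ENNReal.mul_ne_top ?_ ?_) (by rw [Measure.restrict_apply_univ]; exact measure_ball_lt_top.ne)
    · exact ENNReal.mul_ne_top ENNReal.ofReal_ne_top hvol
    · exact ENNReal.mul_ne_top ENNReal.ofReal_ne_top hvol
  · refine ae_of_all _ (fun h => ?_)
    have hBU : ∀ x, |Up u e x| ≤ 1 := (up_hol hu he).1
    refine ENNReal.Tendsto.mul (ob_inner ha hu he p L 1 h) (Or.inr ?_) (ob_inner ha hu he p L (-1) h) (Or.inr ?_)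
    · exact ne_top_of_le_ne_top (ENNReal.mul_ne_top ENNReal.ofReal_ne_top hvol) (ob_bd hBU p L (-1) h)
    · exact ne_top_of_le_ne_top (ENNReal.mul_ne_top ENNReal.ofReal_ne_top hvol) (ob_bd hBU p L 1 h)

/-- the majorant of `(u x - u y) ^ 2` as a function of `‖x - y‖` -/
private def oc_f (C a r : ℝ) : ℝ := min 4 (C ^ 2 * r ^ (2 * a))

private theorem oc_f_nonneg (C a : ℝ) {r : ℝ} (hr : 0 ≤ r) : 0 ≤ oc_f C a r :=
  le_min (by norm_num) (mul_nonneg (sq_nonneg _) (Real.rpow_nonneg hr _))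

private theorem oc_sq {C a : ℝ} {u : E d → ℝ} (hu : HolC C a u) (x y : E d) : (u x - u y) ^ 2 ≤ oc_f C a ‖x - y‖ := by
  have h1 := hu.1 x
  have h2 := hu.1 y
  refine le_min ?_ ?_
  · have h3 : |u x - u y| ≤ 2 := by
      calc _ ≤ |u x| + |u y| := abs_sub _ _
        _ ≤ 2 := by linarith
    calc (u x - u y) ^ 2 = |u x - u y| ^ 2 := (sq_abs _).symm
      _ ≤ 2 ^ 2 := pow_le_pow_left₀ (abs_nonneg _) h3 2
      _ = 4 := by norm_num
  · have h3 := hu.2 x y
    calc (u x - u y) ^ 2 = |u x - u y| ^ 2 := (sq_abs _).symm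
      _ ≤ (C * ‖x - y‖ ^ a) ^ 2 := pow_le_pow_left₀ (abs_nonneg _) h3 2
      _ = C ^ 2 * ‖x - y‖ ^ (2 * a) := by
        rw [mul_pow, ← Real.rpow_natCast (‖x - y‖ ^ a) 2, ← Real.rpow_mul (norm_nonneg _)]
        congr 2; push_cast; ring

private theorem oc_int (hd : 1 ≤ d) (hs0 : 0 < s) (hs1 : s < 1) (C : ℝ) {a : ℝ} (ha : s < a) :
    Integrable (fun z : E d => oc_f C a ‖z‖ * K d s z) := by
  obtain ⟨C1, _, hK⟩ := K_radial hd s
  rw [(hK (oc_f C a)).1]
  have hmeas : Measurable (fun r : ℝ => oc_f C a r * r ^ (-1 - 2 * s)) := by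
    unfold oc_f
    fun_prop
  have hu : Ioi (0:ℝ) = Ioc 0 1 ∪ Ioi 1 := by
    rw [Ioc_union_Ioi_eq_Ioi (by norm_num)]
  rw [hu]
  refine IntegrableOn.union ?_ ?_
  · have h1 : IntegrableOn (fun r : ℝ => C ^ 2 * r ^ (2 * a - 1 - 2 * s)) (Ioc 0 1) := by
      refine Integrable.const_mul ?_ _
      have := (intervalIntegral.intervalIntegrable_rpow' (a := 0) (b := 1) (r := 2 * a - 1 - 2 * s) (by linarith))
      rwa [intervalIntegrable_iff_integrableOn_Ioc_of_le (by norm_num)] at this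
    refine Integrable.mono' h1 hmeas.aestronglyMeasurable ?_
    refine (ae_restrict_iff' measurableSet_Ioc).2 (ae_of_all _ (fun r hr => ?_))
    have hr0 : 0 < r := hr.1
    rw [Real.norm_of_nonneg (mul_nonneg (oc_f_nonneg C a hr0.le) (Real.rpow_nonneg hr0.le _))]
    calc oc_f C a r * r ^ (-1 - 2 * s) ≤ (C ^ 2 * r ^ (2 * a)) * r ^ (-1 - 2 * s) :=
          mul_le_mul_of_nonneg_right (min_le_right _ _) (Real.rpow_nonneg hr0.le _)
      _ = C ^ 2 * r ^ (2 * a - 1 - 2 * s) := by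
        rw [mul_assoc, ← Real.rpow_add hr0]; congr 2; ring
  · have h1 : IntegrableOn (fun r : ℝ => 4 * r ^ (-1 - 2 * s)) (Ioi 1) := by
      refine Integrable.const_mul ?_ _
      exact integrableOn_Ioi_rpow_of_lt (by linarith) (by norm_num)
    refine Integrable.mono' h1 hmeas.aestronglyMeasurable ?_
    refine (ae_restrict_iff' measurableSet_Ioi).2 (ae_of_all _ (fun r hr => ?_))
    have hr0 : 0 < r := lt_trans one_pos hr
    rw [Real.norm_of_nonneg (mul_nonneg (oc_f_nonneg C a hr0.le) (Real.rpow_nonneg hr0.le _))]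
    exact mul_le_mul_of_nonneg_right (min_le_left _ _) (Real.rpow_nonneg hr0.le _)

private theorem oc_K_meas : Measurable (K d s) := K_meas

private theorem oc_majl (hd : 1 ≤ d) (hs0 : 0 < s) (hs1 : s < 1) (C : ℝ) {a : ℝ} (ha : s < a) (x : E d) :
    ∫⁻ y, ENNReal.ofReal (oc_f C a ‖x - y‖ * K d s (x - y)) = ENNReal.ofReal (∫ z : E d, oc_f C a ‖z‖ * K d s z) := by
  rw [ofReal_integral_eq_lintegral_ofReal (oc_int hd hs0 hs1 C ha)
    (ae_of_all _ (fun z => mul_nonneg (oc_f_nonneg C a (norm_nonneg _)) (K_nonneg z)))]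
  exact lintegral_sub_left_eq_self (fun z : E d => ENNReal.ofReal (oc_f C a ‖z‖ * K d s z)) x

/-- MODULE oc. `(u x - u y) ^ 2 ≤ min (4, C ^ 2 ‖x - y‖ ^ (2 a))`, `2 a > 2 s` (`K_radial` or `near_int`, `K_far`). -/
theorem en_le (hd : 1 ≤ d) (hs0 : 0 < s) (hs1 : s < 1) (C : ℝ) {a : ℝ} (ha : s < a) : ∃ C' : ℝ, 0 ≤ C' ∧
    ∀ u : E d → ℝ, HolC C a u → ∀ x, en d s u x ≤ ENNReal.ofReal C' := by
  refine ⟨∫ z : E d, oc_f C a ‖z‖ * K d s z,
    integral_nonneg (fun z => mul_nonneg (oc_f_nonneg C a (norm_nonneg _)) (K_nonneg z)), fun u hu x => ?_⟩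
  rw [← oc_majl hd hs0 hs1 C ha x]
  exact lintegral_mono (fun y => ENNReal.ofReal_le_ofReal (mul_le_mul_of_nonneg_right (oc_sq hu x y) (K_nonneg _)))

private theorem oc_pt (hd : 1 ≤ d) (hs0 : 0 < s) (hs1 : s < 1) {C a : ℝ} (ha : s < a) {u : E d → ℝ} (hu : HolC C a u) {e : E d}
    (he : Inc u e) (x : E d) :
    Tendsto (fun t : ℝ => en d s (fun y => u (y + t • e)) x) atTop (𝓝 (en d s (Up u e) x)) := by
  have hc := ob_cont (hs0.trans ha) hu
  refine tendsto_lintegral_filter_of_dominated_convergence (fun y => ENNReal.ofReal (oc_f C a ‖x - y‖ * K d s (x - y))) ?_ ?_ ?_ ?_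
  · refine Eventually.of_forall (fun t => ?_)
    refine ENNReal.measurable_ofReal.comp (Measurable.mul ?_ (K_meas.comp (measurable_const.sub measurable_id)))
    exact Continuous.measurable (by fun_prop)
  · refine Eventually.of_forall (fun t => ae_of_all _ (fun y => ENNReal.ofReal_le_ofReal ?_))
    exact mul_le_mul_of_nonneg_right (oc_sq (ob_shift hu (t • e)) x y) (K_nonneg _)
  · rw [oc_majl hd hs0 hs1 C ha x]
    exact ENNReal.ofReal_ne_top
  · refine ae_of_all _ (fun y => ENNReal.tendsto_ofReal ?_)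
    exact (((up_tendsto hu.1 he x).sub (up_tendsto hu.1 he y)).pow 2).mul_const _

/-- MODULE oc. Dominated convergence in `y` (the same majorant) and in `x ∈ A` (`en_le`). -/
theorem en_lim (hd : 1 ≤ d) (hs0 : 0 < s) (hs1 : s < 1) {C a : ℝ} (ha : s < a) {u : E d → ℝ} (hu : HolC C a u) {e : E d}
    (he : Inc u e) {A : Set (E d)} (hA : MeasurableSet A) (hA' : volume A < ⊤) :
    Tendsto (fun t : ℝ => ∫⁻ x in A, en d s (fun y => u (y + t • e)) x) atTop (𝓝 (∫⁻ x in A, en d s (Up u e) x)) := by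
  have hc := ob_cont (hs0.trans ha) hu
  obtain ⟨C', _, hC'⟩ := en_le hd hs0 hs1 C ha
  refine tendsto_lintegral_filter_of_dominated_convergence (fun _ => ENNReal.ofReal C') ?_ ?_ ?_ ?_
  · refine Eventually.of_forall (fun t => ?_)
    exact en_meas (by fun_prop)
  · exact Eventually.of_forall (fun t => ae_of_all _ (fun x => hC' _ (ob_shift hu (t • e)) x))
  · rw [lintegral_const, Measure.restrict_apply_univ]
    exact ENNReal.mul_ne_top ENNReal.ofReal_ne_top hA'.ne
  · exact ae_of_all _ (fun x => oc_pt hd hs0 hs1 ha hu he x)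

private theorem od_dist {V : Submodule ℝ (E d)} {p p' : E d} (hp : p ∈ V) (hp' : p' ∈ V) {v : E d}
    (hv : 1 ≤ ‖v - V.starProjection v‖) {j j' : ℕ} (hj : j ≠ j') : 1 ≤ ‖(p + (j : ℝ) • v) - (p' + (j' : ℝ) • v)‖ := by
  have h1 := (proj_le (V := V) (p + (j : ℝ) • v) (p' + (j' : ℝ) • v)).2
  have e1 : V.starProjection p = p := by
    rw [Submodule.starProjection_eq_self_iff]; exact hp
  have e2 : V.starProjection p' = p' := by
    rw [Submodule.starProjection_eq_self_iff]; exact hp'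
  have h2 : (p + (j : ℝ) • v - V.starProjection (p + (j : ℝ) • v)) - (p' + (j' : ℝ) • v - V.starProjection (p' + (j' : ℝ) • v)) =
      ((j : ℝ) - (j' : ℝ)) • (v - V.starProjection v) := by
    rw [map_add, map_add, map_smul, map_smul, e1, e2, sub_smul, smul_sub, smul_sub]
    abel
  rw [h2, norm_smul] at h1
  have h3 : (1:ℝ) ≤ ‖(j : ℝ) - (j' : ℝ)‖ := by
    rw [Real.norm_eq_abs]
    have : (1:ℤ) ≤ |(j : ℤ) - (j' : ℤ)| := Int.one_le_abs (sub_ne_zero.2 (by exact_mod_cast hj))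
    exact_mod_cast this
  calc (1:ℝ) = 1 * 1 := by norm_num
    _ ≤ ‖(j : ℝ) - (j' : ℝ)‖ * ‖v - V.starProjection v‖ := mul_le_mul h3 hv zero_le_one (norm_nonneg _)
    _ ≤ _ := h1

/-- MODULE od. The points `p + j v`, `j < J`: for `j ≠ j'` the component orthogonal to `V` of the difference has norm `|j - j'| ‖v - P v‖ ≥ 1`; the map `(p, j) ↦ p + j v` is injective on `P × {0, ..., J - 1}`. -/
theorem comb {V : Submodule ℝ (E d)} {P : Finset (E d)} (hP : Sep P) (hPV : ∀ p ∈ P, p ∈ V) {v : E d}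
    (hv : 1 ≤ ‖v - V.starProjection v‖) (J : ℕ) : ∃ P' : Finset (E d), Sep P' ∧
      (∀ p' ∈ P', ∃ p ∈ P, ∃ j : ℕ, j < J ∧ p' = p + (j : ℝ) • v) ∧
      ∀ F : E d → ENNReal, ∑ p' ∈ P', F p' = ∑ p ∈ P, ∑ j ∈ Finset.range J, F (p + (j : ℝ) • v) := by
  classical
  have hinj : ∀ q ∈ (P ×ˢ Finset.range J), ∀ q' ∈ (P ×ˢ Finset.range J),
      q.1 + (q.2 : ℝ) • v = q'.1 + (q'.2 : ℝ) • v → q = q' := by
    rintro ⟨p, j⟩ hq ⟨p', j'⟩ hq' h
    rw [Finset.mem_product] at hq hq'
    by_cases hj : j = j'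
    · subst hj
      have : p = p' := add_right_cancel h
      rw [this]
    · exfalso
      have h1 := od_dist (hPV p hq.1) (hPV p' hq'.1) hv hj
      simp only at h
      rw [h, sub_self, norm_zero] at h1
      linarith
  refine ⟨(P ×ˢ Finset.range J).image (fun q => q.1 + (q.2 : ℝ) • v), ?_, ?_, ?_⟩
  · intro x hx y hy hxy
    rw [Finset.mem_image] at hx hy
    obtain ⟨⟨p, j⟩, hq, rfl⟩ := hx
    obtain ⟨⟨p', j'⟩, hq', rfl⟩ := hy
    rw [Finset.mem_product] at hq hq'
    by_cases hj : j = j'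
    · subst hj
      simp only [add_sub_add_right_eq_sub]
      refine hP p hq.1 p' hq'.1 (fun h => hxy ?_)
      simp only [h]
    · exact od_dist (hPV p hq.1) (hPV p' hq'.1) hv hj
  · intro x hx
    rw [Finset.mem_image] at hx
    obtain ⟨⟨p, j⟩, hq, rfl⟩ := hx
    rw [Finset.mem_product, Finset.mem_range] at hq
    exact ⟨p, hq.1, j, hq.2, rfl⟩
  · intro F
    rw [Finset.sum_image hinj, Finset.sum_product]

private theorem oe_rank {V : Submodule ℝ (E d)} {e : E d} (he : e ∉ V) :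
    Module.finrank ℝ (V ⊔ Submodule.span ℝ {e} : Submodule ℝ (E d)) = Module.finrank ℝ V + 1 := by
  have he0 : e ≠ 0 := by
    rintro rfl
    exact he V.zero_mem
  have h1 := Submodule.finrank_sup_add_finrank_inf_eq V (Submodule.span ℝ {e})
  have h2 : V ⊓ Submodule.span ℝ {e} = ⊥ := by
    rw [← disjoint_iff, Submodule.disjoint_span_singleton' he0]
    exact he
  rw [h2, finrank_bot, finrank_span_singleton he0] at h1
  omega

private theorem oe_shift {u : E d → ℝ} {e : E d} (he : ∀ x, 0 < fderiv ℝ u x e) (h : E d) :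
    ∀ x, 0 < fderiv ℝ (fun x => u (x + h)) x e := by
  intro x
  rw [fderiv_comp_add_right]
  exact he (x + h)

/-- MODULE oe. `V' = V ⊔ span {e}` has dimension `k + 1`, so `d ≤ (k + 1) + 2` and `eg_two` holds for `V'`, `Entire.shift`, `mono_stable`: `gain_small` for `V'` and all functions `u (· + t e)`, `t ≥ 0`.  `v = ‖e - P e‖⁻¹ • e`, `J = ⌊R⌋₊`, `comb`: the points of `P'` have norm at most
`(1 + ‖v‖) R`.  Let `t → ∞` (`G_lim`); `G L (Up u e) (p + j v) = G L (Up u e) p` (`up_inv`, `G_shift`), so `J ∑ G L (Up u e) p ≤ ε' ((1 + ‖v‖) R) ^ (k + 1)`, `J ≥ R / 2`. -/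
theorem up_gain (hd : 1 ≤ d) (hs0 : 0 < s) (hs1 : s < 1) (hc : 0 < c) {V : Submodule ℝ (E d)} {e : E d} (he : e ∉ V)
    (hV : d ≤ Module.finrank ℝ V + 3) {L : ℝ} (hL : 1 ≤ L) {ε : ℝ} (hε : 0 < ε) : ∃ R₁ : ℝ, ∀ u : E d → ℝ, Entire d s c u →
      (∀ x, 0 < fderiv ℝ u x e) → ∀ R : ℝ, R₁ ≤ R → ∀ P : Finset (E d), Sep P → (∀ p ∈ P, p ∈ V ∧ ‖p‖ ≤ R) →
        ∑ p ∈ P, G L (Up u e) p ≤ ENNReal.ofReal (ε * R ^ Module.finrank ℝ V) := by
  set k := Module.finrank ℝ V with hk
  obtain ⟨C₀, hC₀, hEG⟩ := eg_two (s := s) (c := c) hd hs0 hs1 hc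
  obtain ⟨C, hC⟩ := entire_hol (s := s) (c := c) hd hs0 hs1 hc
  have hw : 0 < ‖e - V.starProjection e‖ := by
    rw [norm_pos_iff, sub_ne_zero]
    intro h
    apply he
    rw [h]
    exact Submodule.starProjection_apply_mem _ _
  set w : ℝ := ‖e - V.starProjection e‖ with hwdef
  set v : E d := w⁻¹ • e with hvdef
  have hv : 1 ≤ ‖v - V.starProjection v‖ := by
    have : v - V.starProjection v = w⁻¹ • (e - V.starProjection e) := by
      rw [hvdef, map_smul, smul_sub]
    rw [this, norm_smul, norm_inv, Real.norm_of_nonneg hw.le, ← hwdef, inv_mul_cancel₀ hw.ne']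
  set B : ℝ := 1 + ‖v‖ with hB
  have hB1 : 1 ≤ B := by rw [hB]; linarith [norm_nonneg v]
  have hB0 : 0 < B := by linarith
  have hε' : 0 < ε / (2 * B ^ (k + 1)) := by positivity
  obtain ⟨R₁, hR₁, hgain⟩ := gain_small (s := s) hd hs0 hs1 hC₀ (fun _ => 1) hL hε'
  refine ⟨max R₁ 2, fun u hu hue R hR P hP hPV => ?_⟩
  have hR1 : R₁ ≤ R := (le_max_left _ _).trans hR
  have hR2 : 2 ≤ R := (le_max_right _ _).trans hR
  have hR0 : 0 < R := by linarith
  obtain ⟨P', hP', hmem, hsum⟩ := comb hP (fun p hp => (hPV p hp).1) hv ⌊R⌋₊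
  have hJ : (⌊R⌋₊ : ℝ) ≤ R := Nat.floor_le hR0.le
  have hJ2 : R / 2 ≤ (⌊R⌋₊ : ℝ) := by
    have := Nat.sub_one_lt_floor R
    linarith
  have hhol := hC u hu
  have hinc : Inc u e := inc_of (hu.smooth.of_le (by norm_num)) hue
  set V' : Submodule ℝ (E d) := V ⊔ Submodule.span ℝ {e} with hV'
  have hrank : Module.finrank ℝ V' = k + 1 := oe_rank he
  have hbd : ∀ t : ℝ, ∑ p' ∈ P', G L (fun x => u (x + t • e)) p' ≤
      ENNReal.ofReal (ε / (2 * B ^ (k + 1)) * (B * R) ^ (k + 1)) := by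
    intro t
    have hut : Entire d s c (fun x => u (x + t • e)) := hu.shift (t • e)
    have hst : Stable d s c (fun x => u (x + t • e)) := mono_stable hd hs0 hs1 hc hut ⟨e, oe_shift hue (t • e)⟩
    have h1 := hgain c hc _ hut hst V' (hEG _ hut V' (by rw [hrank]; omega)) (B * R)
      (by nlinarith [norm_nonneg v]) P' hP' (fun p' hp' => ?_)
    · rw [hrank] at h1
      exact h1
    · obtain ⟨p, hp, j, hj, rfl⟩ := hmem p' hp'
      have hv' : v ∈ V' := by
        rw [hvdef, hV']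
        exact Submodule.smul_mem _ _ (Submodule.mem_sup_right (Submodule.mem_span_singleton_self e))
      refine ⟨V'.add_mem (Submodule.mem_sup_left (hPV p hp).1) (V'.smul_mem _ hv'), ?_⟩
      have hj' : (j : ℝ) ≤ R := (Nat.cast_le.2 hj.le).trans hJ
      calc ‖p + (j : ℝ) • v‖ ≤ ‖p‖ + ‖(j : ℝ) • v‖ := norm_add_le _ _
        _ = ‖p‖ + (j : ℝ) * ‖v‖ := by rw [norm_smul, Real.norm_of_nonneg (Nat.cast_nonneg j)]
        _ ≤ R + R * ‖v‖ := add_le_add (hPV p hp).2 (mul_le_mul_of_nonneg_right hj' (norm_nonneg _))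
        _ = B * R := by rw [hB]; ring
  have hlim : ∑ p' ∈ P', G L (Up u e) p' ≤ ENNReal.ofReal (ε / (2 * B ^ (k + 1)) * (B * R) ^ (k + 1)) := by
    have h1 : Tendsto (fun t : ℝ => ∑ p' ∈ P', G L (fun x => u (x + t • e)) p') atTop
        (𝓝 (∑ p' ∈ P', G L (Up u e) p')) :=
      tendsto_finsetSum _ (fun p' _ => G_lim hs0 hhol hinc L p')
    exact le_of_tendsto' h1 hbd
  have hper : ∀ (p : E d) (j : ℕ), G L (Up u e) (p + (j : ℝ) • v) = G L (Up u e) p := by
    intro p j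
    rw [← G_shift]
    congr 1
    funext x
    have : x + (j : ℝ) • v = x + ((j : ℝ) * w⁻¹) • e := by rw [hvdef, smul_smul]
    rw [this]
    exact up_inv hhol.1 hinc x _
  rw [hsum] at hlim
  simp_rw [hper] at hlim
  simp only [Finset.sum_const, Finset.card_range, nsmul_eq_mul] at hlim
  rw [← Finset.mul_sum] at hlim
  have h3 : ENNReal.ofReal (R / 2) * ∑ p ∈ P, G L (Up u e) p ≤ ENNReal.ofReal (ε / (2 * B ^ (k + 1)) * (B * R) ^ (k + 1)) := by
    refine le_trans (mul_le_mul' ?_ le_rfl) hlim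
    rw [← ENNReal.ofReal_natCast]
    exact ENNReal.ofReal_le_ofReal hJ2
  have h4 : ε / (2 * B ^ (k + 1)) * (B * R) ^ (k + 1) = (R / 2) * (ε * R ^ k) := by
    rw [mul_pow, pow_succ R k]
    field_simp
  rw [h4, ENNReal.ofReal_mul (by positivity)] at h3
  refine (ENNReal.mul_le_mul_iff_right ?_ ENNReal.ofReal_ne_top).1 h3
  simp only [ne_eq, ENNReal.ofReal_eq_zero, not_le]
  positivity

end NDG
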