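import Pool.Agent.NDG.Ker

/-! # Locally Lipschitz functions and test functions -/

open MeasureTheory Filter Topology Set

noncomputable section

namespace NDG

variable {d : ℕ} {s c : ℝ}

/-- locally Lipschitz (on balls) -/
def LocLip (g : E d → ℝ) : Prop := ∀ ρ : ℝ, ∃ L : ℝ, 0 ≤ L ∧ ∀ x y : E d, ‖x‖ ≤ ρ → ‖y‖ ≤ ρ → |g x - g y| ≤ L * ‖x - y‖

/-- MODULE ca. Mean value inequality on the closed ball (compact, convex): `Convex.norm_image_sub_le_of_norm_fderiv_le`. -/
theorem LocLip.of_contDiff {g : E d → ℝ} (hg : ContDiff ℝ 1 g) : LocLip g := by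
  intro ρ
  have hc : IsCompact (Metric.closedBall (0 : E d) ρ) := isCompact_closedBall 0 ρ
  obtain ⟨C, hC⟩ := hc.exists_bound_of_continuousOn (f := fun x => fderiv ℝ g x)
    (hg.continuous_fderiv one_ne_zero).continuousOn
  refine ⟨max C 0, le_max_right _ _, fun x y hx hy => ?_⟩
  have h := (convex_closedBall (0 : E d) ρ).norm_image_sub_le_of_norm_fderiv_le (𝕜 := ℝ) (f := g)
    (C := max C 0) (fun z _ => hg.differentiable one_ne_zero z)
    (fun z hz => (hC z hz).trans (le_max_left _ _))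
    (x := y) (y := x) (by simpa using hy) (by simpa using hx)
  simpa [Real.norm_eq_abs] using h

/-- MODULE ca. -/
theorem LocLip.continuous {g : E d → ℝ} (hg : LocLip g) : Continuous g := by
  rw [continuous_iff_continuousAt]
  intro x
  obtain ⟨L, hL, h⟩ := hg (‖x‖ + 1)
  rw [Metric.continuousAt_iff]
  intro ε hε
  refine ⟨min 1 (ε / (L + 1)), lt_min one_pos (div_pos hε (by linarith)), fun y hy => ?_⟩
  rw [dist_eq_norm] at hy
  have hy1 : ‖y - x‖ < 1 := lt_of_lt_of_le hy (min_le_left _ _)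
  have hy2 : ‖y - x‖ < ε / (L + 1) := lt_of_lt_of_le hy (min_le_right _ _)
  have hy3 : ‖y‖ ≤ ‖x‖ + 1 := by
    have := norm_add_le (y - x) x
    rw [sub_add_cancel] at this
    linarith
  have h1 := h y x hy3 (by linarith)
  rw [Real.dist_eq]
  have h2 : L * ‖y - x‖ ≤ L * (ε / (L + 1)) := mul_le_mul_of_nonneg_left hy2.le hL
  have h3 : L * (ε / (L + 1)) < ε := by
    rw [mul_div_assoc', div_lt_iff₀ (by linarith)]
    nlinarith
  linarith

/-- MODULE ca. -/
theorem LocLip.sub {f g : E d → ℝ} (hf : LocLip f) (hg : LocLip g) : LocLip (fun x => f x - g x) := by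
  intro ρ
  obtain ⟨A, hA, hf'⟩ := hf ρ
  obtain ⟨B, hB, hg'⟩ := hg ρ
  refine ⟨A + B, by linarith, fun x y hx hy => ?_⟩
  have h1 := hf' x y hx hy
  have h2 := hg' x y hx hy
  have h3 : (f x - g x) - (f y - g y) = (f x - f y) - (g x - g y) := by ring
  rw [h3]
  have h4 := abs_sub (f x - f y) (g x - g y)
  have h5 : (A + B) * ‖x - y‖ = A * ‖x - y‖ + B * ‖x - y‖ := by ring
  linarith

private theorem ca_bd {g : E d → ℝ} (hg : LocLip g) (ρ : ℝ) : ∃ B : ℝ, 0 ≤ B ∧ ∀ x, ‖x‖ ≤ ρ → |g x| ≤ B := by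
  obtain ⟨C, hC⟩ := (isCompact_closedBall (0 : E d) ρ).exists_bound_of_continuousOn
    hg.continuous.continuousOn
  exact ⟨max C 0, le_max_right _ _, fun x hx => (hC x (by simpa using hx)).trans (le_max_left _ _)⟩

/-- MODULE ca. -/
theorem LocLip.mul {f g : E d → ℝ} (hf : LocLip f) (hg : LocLip g) : LocLip (fun x => f x * g x) := by
  intro ρ
  obtain ⟨A, hA, hf'⟩ := hf ρ
  obtain ⟨B, hB, hg'⟩ := hg ρ
  obtain ⟨F, hF, hf2⟩ := ca_bd hf ρ
  obtain ⟨G, hG, hg2⟩ := ca_bd hg ρ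
  refine ⟨A * G + F * B, by positivity, fun x y hx hy => ?_⟩
  have h1 := hf' x y hx hy
  have h2 := hg' x y hx hy
  have h3 : f x * g x - f y * g y = (f x - f y) * g x + f y * (g x - g y) := by ring
  rw [h3]
  have h4 := abs_add_le ((f x - f y) * g x) (f y * (g x - g y))
  rw [abs_mul, abs_mul] at h4
  have h5 : |f x - f y| * |g x| ≤ (A * ‖x - y‖) * G :=
    mul_le_mul h1 (hg2 x hx) (abs_nonneg _) (by positivity)
  have h6 : |f y| * |g x - g y| ≤ F * (B * ‖x - y‖) :=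
    mul_le_mul (hf2 y hy) h2 (abs_nonneg _) hF
  nlinarith

/-- MODULE ca. -/
theorem LocLip.comp_add {g : E d → ℝ} (hg : LocLip g) (h : E d) : LocLip (fun x => g (x + h)) := by
  intro ρ
  obtain ⟨A, hA, hg'⟩ := hg (ρ + ‖h‖)
  refine ⟨A, hA, fun x y hx hy => ?_⟩
  have h1 := hg' (x + h) (y + h) ((norm_add_le _ _).trans (by linarith))
    ((norm_add_le _ _).trans (by linarith))
  rwa [add_sub_add_right_eq_sub] at h1

/-- MODULE ca. `|‖a‖ - ‖b‖| ≤ ‖a - b‖`, and the norm of `a - b` is at most the sum of the `|a i - b i|`. -/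
theorem LocLip.norm {k : ℕ} {f : Fin k → E d → ℝ} (hf : ∀ i, LocLip (f i)) :
    LocLip (fun x => ‖(WithLp.toLp 2 (fun i => f i x) : EuclideanSpace ℝ (Fin k))‖) := by
  intro ρ
  choose A hA hf' using fun i => hf i ρ
  refine ⟨∑ i, A i, Finset.sum_nonneg (fun i _ => hA i), fun x y hx hy => ?_⟩
  refine (abs_norm_sub_norm_le _ _).trans ?_
  have h1 : ∀ v : EuclideanSpace ℝ (Fin k), ‖v‖ ≤ ∑ i, |v i| := by
    intro v
    rw [EuclideanSpace.norm_eq]
    refine Real.sqrt_le_iff.2 ⟨Finset.sum_nonneg (fun i _ => abs_nonneg _), ?_⟩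
    calc ∑ i, ‖v i‖ ^ 2 = ∑ i, |v i| ^ 2 := by simp [Real.norm_eq_abs]
      _ ≤ (∑ i, |v i|) ^ 2 := Finset.sum_sq_le_sq_sum_of_nonneg (fun i _ => abs_nonneg _)
  refine (h1 _).trans ?_
  rw [Finset.sum_mul]
  exact Finset.sum_le_sum (fun i _ => hf' i x y hx hy)

/-- MODULE ca. A continuous positive function is bounded below on balls. -/
theorem LocLip.inv {g : E d → ℝ} (hg : LocLip g) (h : ∀ x, 0 < g x) : LocLip (fun x => (g x)⁻¹) := by
  intro ρ
  obtain ⟨A, hA, hg'⟩ := hg ρ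
  obtain ⟨C, hC⟩ := (isCompact_closedBall (0 : E d) ρ).exists_bound_of_continuousOn
    (f := fun x => (g x)⁻¹) (hg.continuous.inv₀ (fun x => (h x).ne')).continuousOn
  refine ⟨A * (max C 0) ^ 2, by positivity, fun x y hx hy => ?_⟩
  have hx' : (g x)⁻¹ ≤ max C 0 := by
    have := hC x (by simpa using hx)
    rw [Real.norm_eq_abs, abs_of_pos (inv_pos.2 (h x))] at this
    exact this.trans (le_max_left _ _)
  have hy' : (g y)⁻¹ ≤ max C 0 := by
    have := hC y (by simpa using hy)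
    rw [Real.norm_eq_abs, abs_of_pos (inv_pos.2 (h y))] at this
    exact this.trans (le_max_left _ _)
  have h3 : (g x)⁻¹ - (g y)⁻¹ = (g y - g x) * ((g x)⁻¹ * (g y)⁻¹) := by
    have := (h x).ne'
    have := (h y).ne'
    field_simp
  rw [h3, abs_mul, abs_of_pos (mul_pos (inv_pos.2 (h x)) (inv_pos.2 (h y))), abs_sub_comm]
  have h4 := hg' x y hx hy
  have h5 : (g x)⁻¹ * (g y)⁻¹ ≤ (max C 0) ^ 2 := by
    rw [sq]
    exact mul_le_mul hx' hy' (inv_pos.2 (h y)).le (le_max_right _ _)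
  calc |g x - g y| * ((g x)⁻¹ * (g y)⁻¹) ≤ (A * ‖x - y‖) * (max C 0) ^ 2 :=
        mul_le_mul h4 h5 (mul_pos (inv_pos.2 (h x)) (inv_pos.2 (h y))).le (by positivity)
    _ = A * (max C 0) ^ 2 * ‖x - y‖ := by ring

/-- MODULE cb. -/
theorem Test.locLip {ψ : E d → ℝ} (h : Test ψ) : LocLip ψ := by
  obtain ⟨L, hL⟩ := h.lip
  intro ρ
  refine ⟨L, L.2, fun x y _ _ => ?_⟩
  have := hL.dist_le_mul x y
  rwa [Real.dist_eq, dist_eq_norm] at this

/-- MODULE cb. -/
theorem Test.bd {ψ : E d → ℝ} (h : Test ψ) : ∃ ρ L : ℝ, 0 ≤ ρ ∧ 0 ≤ L ∧ (∀ x, ρ < ‖x‖ → ψ x = 0) ∧ (∀ x, |ψ x| ≤ L) ∧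
    ∀ x y, |ψ x - ψ y| ≤ L * min 1 ‖x - y‖ := by
  obtain ⟨L, hL⟩ := h.lip
  have hc : Continuous ψ := hL.continuous
  obtain ⟨B, hB⟩ := h.supp.exists_bound_of_continuous hc
  obtain ⟨ρ, hρ⟩ := h.supp.isCompact.isBounded.exists_norm_le
  refine ⟨max ρ 0, max (L : ℝ) (2 * max B 0), le_max_right _ _, le_trans L.2 (le_max_left _ _), ?_, ?_, ?_⟩
  · intro x hx
    by_contra hne
    have h1 : x ∈ tsupport ψ := subset_tsupport _ hne
    have := hρ x h1
    exact absurd (this.trans (le_max_left _ _)) (not_le.2 hx)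
  · intro x
    have h1 := hB x
    rw [Real.norm_eq_abs] at h1
    have h2 : B ≤ max B 0 := le_max_left _ _
    have h3 : (0 : ℝ) ≤ max B 0 := le_max_right _ _
    exact le_trans (by linarith) (le_max_right _ _)
  · intro x y
    have h0 : (0 : ℝ) ≤ max (L : ℝ) (2 * max B 0) := le_trans L.2 (le_max_left _ _)
    rcases le_total 1 ‖x - y‖ with hxy | hxy
    · rw [min_eq_left hxy, mul_one]
      have h1 := hB x
      have h2 := hB y
      rw [Real.norm_eq_abs] at h1 h2
      have h3 := abs_sub (ψ x) (ψ y)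
      have h4 : B ≤ max B 0 := le_max_left _ _
      exact le_trans (by linarith) (le_max_right _ _)
    · rw [min_eq_right hxy]
      have := hL.dist_le_mul x y
      rw [Real.dist_eq, dist_eq_norm] at this
      exact this.trans (mul_le_mul_of_nonneg_right (le_max_left _ _) (norm_nonneg _))

/-- MODULE cb. A product of a locally Lipschitz function and a test function is a test function (globally Lipschitz: if `x`, `y` are both in the ball `ρ + 1` use the local constants, if `x` is in the ball `ρ` and `y` is outside `ρ + 1` then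
`‖x - y‖ ≥ 1`; otherwise both values are `0`). -/
theorem Test.mul_left {g ψ : E d → ℝ} (hg : LocLip g) (h : Test ψ) : Test (fun x => g x * ψ x) := by
  obtain ⟨ρ, L, hρ, hL, h0, hb, hl⟩ := h.bd
  obtain ⟨A, hA, hA'⟩ := hg (ρ + 1)
  obtain ⟨G, hG, hG'⟩ := ca_bd hg (ρ + 1)
  refine ⟨⟨(A * L + G * L).toNNReal, LipschitzWith.of_dist_le_mul ?_⟩, h.supp.mul_left⟩
  rw [Real.coe_toNNReal _ (by positivity : (0 : ℝ) ≤ A * L + G * L)]
  have key : ∀ x y : E d, ‖x‖ ≤ ρ → |g x * ψ x - g y * ψ y| ≤ (A * L + G * L) * ‖x - y‖ := by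
    intro x y hx
    by_cases hy : ‖y‖ ≤ ρ + 1
    · have h1 := hA' x y (by linarith) hy
      have h2 := hl x y
      have h3 : g x * ψ x - g y * ψ y = (g x - g y) * ψ x + g y * (ψ x - ψ y) := by ring
      rw [h3]
      have h4 := abs_add_le ((g x - g y) * ψ x) (g y * (ψ x - ψ y))
      rw [abs_mul, abs_mul] at h4
      have h5 : |g x - g y| * |ψ x| ≤ (A * ‖x - y‖) * L :=
        mul_le_mul h1 (hb x) (abs_nonneg _) (by positivity)
      have h6 : |g y| * |ψ x - ψ y| ≤ G * (L * ‖x - y‖) :=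
        mul_le_mul (hG' y hy) (h2.trans (mul_le_mul_of_nonneg_left (min_le_right _ _) hL))
          (abs_nonneg _) hG
      nlinarith
    · push Not at hy
      have h1 : ψ y = 0 := h0 y (by linarith)
      have h2 : 1 ≤ ‖x - y‖ := by
        have := norm_sub_norm_le y x
        rw [norm_sub_rev] at this
        linarith
      rw [h1, mul_zero, sub_zero, abs_mul]
      have h3 : |g x| * |ψ x| ≤ G * L := mul_le_mul (hG' x (by linarith)) (hb x) (abs_nonneg _) hG
      have h4 : G * L ≤ (A * L + G * L) * 1 := by nlinarith [mul_nonneg hA hL]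
      have h5 : (A * L + G * L) * 1 ≤ (A * L + G * L) * ‖x - y‖ :=
        mul_le_mul_of_nonneg_left h2 (by positivity)
      linarith
  intro x y
  rw [Real.dist_eq, dist_eq_norm]
  show |g x * ψ x - g y * ψ y| ≤ (A * L + G * L) * ‖x - y‖
  by_cases hx : ‖x‖ ≤ ρ
  · exact key x y hx
  · by_cases hy : ‖y‖ ≤ ρ
    · rw [abs_sub_comm, norm_sub_rev]
      exact key y x hy
    · push Not at hx hy
      rw [h0 x hx, h0 y hy, mul_zero, mul_zero, sub_zero, abs_zero]
      positivity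

/-- MODULE cb. -/
theorem Test.integrable {ψ : E d → ℝ} (h : Test ψ) : Integrable ψ :=
  h.locLip.continuous.integrable_of_hasCompactSupport h.supp

/-- MODULE cc. A bounded locally Lipschitz function: `|a x - a y| ≤ L min 1 ‖x - y‖` for `‖x‖ ≤ ρ`. -/
theorem LocLip.bd {a : E d → ℝ} (ha : LocLip a) {B : ℝ} (hB : ∀ x, |a x| ≤ B) (ρ : ℝ) :
    ∃ L : ℝ, 0 ≤ L ∧ ∀ x y, ‖x‖ ≤ ρ → |a x - a y| ≤ L * min 1 ‖x - y‖ := by
  obtain ⟨A, hA, hA'⟩ := ha (ρ + 1)
  have hB0 : 0 ≤ B := (abs_nonneg _).trans (hB 0)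
  refine ⟨max A (2 * B), le_trans hA (le_max_left _ _), fun x y hx => ?_⟩
  rcases le_total 1 ‖x - y‖ with hxy | hxy
  · rw [min_eq_left hxy, mul_one]
    have h1 := abs_sub (a x) (a y)
    have h2 := hB x
    have h3 := hB y
    exact le_trans (by linarith) (le_max_right _ _)
  · rw [min_eq_right hxy]
    have h1 := hA' x y (by linarith) (by
      have := norm_sub_norm_le y x
      rw [norm_sub_rev] at this
      linarith)
    exact h1.trans (mul_le_mul_of_nonneg_right (le_max_left _ _) (norm_nonneg _))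

/-- MODULE cd. Second differences of a bounded `C ^ 2` function: for `‖z‖ ≤ 1` the Taylor formula on the segment (second derivative bounded on the ball `ρ + 1`), for `‖z‖ > 1` it is `≤ 4 B`. -/
theorem loc_snd {u : E d → ℝ} (hu : ContDiff ℝ 2 u) {B : ℝ} (hB : ∀ x, |u x| ≤ B) (ρ : ℝ) :
    ∃ L : ℝ, 0 ≤ L ∧ ∀ x z, ‖x‖ ≤ ρ → |2 * u x - u (x + z) - u (x - z)| ≤ L * min 1 (‖z‖ ^ 2) := by
  have hB0 : 0 ≤ B := (abs_nonneg _).trans (hB 0)
  have hd1 : ContDiff ℝ 1 (fderiv ℝ u) := hu.fderiv_right (m := 1) (by norm_num)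
  obtain ⟨C, hC⟩ := (isCompact_closedBall (0 : E d) (ρ + 1)).exists_bound_of_continuousOn
    (f := fun x => fderiv ℝ (fderiv ℝ u) x) (hd1.continuous_fderiv one_ne_zero).continuousOn
  have hlip : ∀ x y : E d, ‖x‖ ≤ ρ + 1 → ‖y‖ ≤ ρ + 1 →
      ‖fderiv ℝ u x - fderiv ℝ u y‖ ≤ max C 0 * ‖x - y‖ := by
    intro x y hx hy
    exact (convex_closedBall (0 : E d) (ρ + 1)).norm_image_sub_le_of_norm_fderiv_le (𝕜 := ℝ)
      (f := fderiv ℝ u) (C := max C 0) (fun z _ => hd1.differentiable one_ne_zero z)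
      (fun z hz => (hC z hz).trans (le_max_left _ _))
      (x := y) (y := x) (by simpa using hy) (by simpa using hx)
  refine ⟨max (2 * max C 0) (4 * B), le_trans (by positivity) (le_max_right _ _), fun x z hx => ?_⟩
  rcases le_total 1 ‖z‖ with hz | hz
  · have h1 : (1 : ℝ) ≤ ‖z‖ ^ 2 := by nlinarith
    rw [min_eq_left h1, mul_one]
    have h2 := hB x
    have h3 := hB (x + z)
    have h4 := hB (x - z)
    have h5 : |2 * u x - u (x + z) - u (x - z)| ≤ 4 * B := by
      rw [abs_le] at h2 h3 h4 ⊢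
      constructor <;> linarith
    exact h5.trans (le_max_right _ _)
  · have h1 : ‖z‖ ^ 2 ≤ 1 := by nlinarith [norm_nonneg z]
    rw [min_eq_right h1]
    -- the function `t ↦ u (x + t z) + u (x - t z)` on `[0, 1]`
    have hder : ∀ t : ℝ, HasDerivAt (fun t : ℝ => u (x + t • z) + u (x - t • z))
        (fderiv ℝ u (x + t • z) z - fderiv ℝ u (x - t • z) z) t := by
      intro t
      have e1 : HasDerivAt (fun t : ℝ => x + t • z) z t := by
        simpa using ((hasDerivAt_id t).smul_const z).const_add x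
      have e2 : HasDerivAt (fun t : ℝ => x - t • z) (-z) t := by
        simpa using ((hasDerivAt_id t).smul_const z).const_sub x
      have d1 : HasFDerivAt u (fderiv ℝ u (x + t • z)) (x + t • z) :=
        (hu.differentiable two_ne_zero _).hasFDerivAt
      have d2 : HasFDerivAt u (fderiv ℝ u (x - t • z)) (x - t • z) :=
        (hu.differentiable two_ne_zero _).hasFDerivAt
      have f1 := d1.comp_hasDerivAt t e1
      have f2 := d2.comp_hasDerivAt t e2
      have f3 := f1.add f2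
      rw [map_neg] at f3
      exact f3
    have hbd : ∀ t ∈ Set.Icc (0 : ℝ) 1,
        ‖fderiv ℝ u (x + t • z) z - fderiv ℝ u (x - t • z) z‖ ≤ 2 * max C 0 * ‖z‖ ^ 2 := by
      intro t ht
      have n1 : ‖t • z‖ ≤ ‖z‖ := by
        rw [norm_smul, Real.norm_eq_abs, abs_of_nonneg ht.1]
        nlinarith [norm_nonneg z, ht.2]
      have n2 : ‖x + t • z‖ ≤ ρ + 1 := (norm_add_le _ _).trans (by linarith)
      have n3 : ‖x - t • z‖ ≤ ρ + 1 := (norm_sub_le _ _).trans (by linarith)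
      have h2 := hlip _ _ n2 n3
      have h3 : (x + t • z) - (x - t • z) = (2 * t) • z := by
        rw [mul_smul, two_smul]
        abel
      rw [h3, norm_smul, Real.norm_eq_abs, abs_of_nonneg (by linarith [ht.1] : (0 : ℝ) ≤ 2 * t)] at h2
      rw [← sub_apply]
      refine (ContinuousLinearMap.le_opNorm _ _).trans ?_
      have h4 : ‖fderiv ℝ u (x + t • z) - fderiv ℝ u (x - t • z)‖ ≤ max C 0 * (2 * 1 * ‖z‖) := by
        refine h2.trans (mul_le_mul_of_nonneg_left ?_ (le_max_right _ _))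
        exact mul_le_mul_of_nonneg_right (by linarith [ht.2]) (norm_nonneg _)
      calc ‖fderiv ℝ u (x + t • z) - fderiv ℝ u (x - t • z)‖ * ‖z‖ ≤ (max C 0 * (2 * 1 * ‖z‖)) * ‖z‖ :=
            mul_le_mul_of_nonneg_right h4 (norm_nonneg _)
        _ = 2 * max C 0 * ‖z‖ ^ 2 := by ring
    have hmv := (convex_Icc (0 : ℝ) 1).norm_image_sub_le_of_norm_hasDerivWithin_le
      (f := fun t : ℝ => u (x + t • z) + u (x - t • z))
      (f' := fun t => fderiv ℝ u (x + t • z) z - fderiv ℝ u (x - t • z) z)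
      (C := 2 * max C 0 * ‖z‖ ^ 2) (fun t _ => (hder t).hasDerivWithinAt) hbd
      (x := 0) (y := 1) (by simp) (by simp)
    simp only [one_smul, zero_smul, add_zero, sub_zero, Real.norm_eq_abs, abs_one, mul_one] at hmv
    have h5 : |2 * u x - u (x + z) - u (x - z)| = |u (x + z) + u (x - z) - (u x + u x)| := by
      rw [abs_sub_comm]
      congr 1
      ring
    rw [h5]
    refine hmv.trans ?_
    exact mul_le_mul_of_nonneg_right (le_max_left _ _) (by positivity)

private theorem ce_dom (hd : 1 ≤ d) (hs0 : 0 < s) (hs1 : s < 1) {F : E d × E d → ℝ}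
    (hF : AEStronglyMeasurable F) (ρ C : ℝ) (hC : 0 ≤ C)
    (h : ∀ p : E d × E d, (‖p.1‖ ≤ ρ ∨ ‖p.2‖ ≤ ρ) → |F p| ≤ C * (min 1 (‖p.1 - p.2‖ ^ 2) * K d s (p.1 - p.2)))
    (h0 : ∀ p : E d × E d, ρ < ‖p.1‖ → ρ < ‖p.2‖ → F p = 0) : Integrable F := by
  set W : E d → ℝ := (Metric.closedBall (0 : E d) ρ).indicator (fun _ => C) with hWdef
  have hW : Integrable W := by
    refine (integrable_indicator_iff measurableSet_closedBall).2 ?_
    exact integrableOn_const (measure_closedBall_lt_top).ne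
  have hW0 : ∀ x, 0 ≤ W x := fun x => Set.indicator_nonneg (fun _ _ => hC) x
  refine (dom_int hd hs0 hs1 hW).mono' hF (ae_of_all _ fun p => ?_)
  rw [Real.norm_eq_abs]
  have hK : 0 ≤ min 1 (‖p.1 - p.2‖ ^ 2) * K d s (p.1 - p.2) :=
    mul_nonneg (le_min zero_le_one (by positivity)) (K_nonneg _)
  by_cases h1 : ‖p.1‖ ≤ ρ
  · refine (h p (Or.inl h1)).trans (mul_le_mul_of_nonneg_right ?_ hK)
    have : W p.1 = C := Set.indicator_of_mem (by simpa using h1) _
    rw [this]; linarith [hW0 p.2]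
  · by_cases h2 : ‖p.2‖ ≤ ρ
    · refine (h p (Or.inr h2)).trans (mul_le_mul_of_nonneg_right ?_ hK)
      have : W p.2 = C := Set.indicator_of_mem (by simpa using h2) _
      rw [this]; linarith [hW0 p.1]
    · rw [h0 p (not_le.1 h1) (not_le.1 h2), abs_zero]
      exact mul_nonneg (add_nonneg (hW0 _) (hW0 _)) hK

private theorem ce_min (t : ℝ) (ht : 0 ≤ t) : min 1 t * min 1 t = min 1 (t ^ 2) := by
  rcases le_total 1 t with h | h
  · rw [min_eq_left h, min_eq_left (by nlinarith)]; norm_num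
  · rw [min_eq_right h, min_eq_right (by nlinarith)]; ring

private theorem ce_kmeas : Measurable (fun p : E d × E d => K d s (p.1 - p.2)) :=
  K_meas.comp (measurable_fst.sub measurable_snd)

/-- MODULE ce. `(x, y) ↦ a x b y ...`: a bounded locally Lipschitz, b test.  Dominated by `L (1_ρ x + 1_ρ y) min 1 ‖x - y‖ ^ 2 K` (`dom_int`, `Test.bd`, `LocLip.bd`; if both points are outside the ball `ρ` then `b x - b y = 0`). -/
theorem form_int (hd : 1 ≤ d) (hs0 : 0 < s) (hs1 : s < 1) {a b : E d → ℝ} (ha : LocLip a) {B : ℝ} (hB : ∀ x, |a x| ≤ B)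
    (hb : Test b) : Integrable (fun p : E d × E d => (a p.1 - a p.2) * (b p.1 - b p.2) * K d s (p.1 - p.2)) := by
  obtain ⟨ρ, L, hρ, hL, hb0, -, hbL⟩ := hb.bd
  obtain ⟨L', hL', haL⟩ := ha.bd hB ρ
  have hac := ha.continuous
  have hbc := hb.locLip.continuous
  refine ce_dom hd hs0 hs1 ?_ ρ (L' * L) (mul_nonneg hL' hL) ?_ ?_
  · refine (Measurable.mul (Continuous.measurable ?_) ce_kmeas).aestronglyMeasurable
    exact ((hac.comp continuous_fst).sub (hac.comp continuous_snd)).mul ((hbc.comp continuous_fst).sub (hbc.comp continuous_snd))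
  · intro p hp
    have h1 : |a p.1 - a p.2| ≤ L' * min 1 ‖p.1 - p.2‖ := by
      rcases hp with hp | hp
      · exact haL _ _ hp
      · rw [abs_sub_comm, norm_sub_rev]; exact haL _ _ hp
    rw [abs_mul, abs_mul, abs_of_nonneg (K_nonneg _)]
    have hm : 0 ≤ min 1 ‖p.1 - p.2‖ := le_min zero_le_one (norm_nonneg _)
    calc |a p.1 - a p.2| * |b p.1 - b p.2| * K d s (p.1 - p.2)
        ≤ ((L' * min 1 ‖p.1 - p.2‖) * (L * min 1 ‖p.1 - p.2‖)) * K d s (p.1 - p.2) :=
          mul_le_mul_of_nonneg_right (mul_le_mul h1 (hbL _ _) (abs_nonneg _) (mul_nonneg hL' hm)) (K_nonneg _)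
      _ = L' * L * (min 1 (‖p.1 - p.2‖ ^ 2) * K d s (p.1 - p.2)) := by
          rw [← ce_min _ (norm_nonneg _)]; ring
  · intro p h1 h2
    rw [hb0 _ h1, hb0 _ h2]; simp

/-- MODULE cf. The same domination for a product with two factors `b`, and any bounded continuous `g`. -/
theorem form_int2 (hd : 1 ≤ d) (hs0 : 0 < s) (hs1 : s < 1) {b : E d → ℝ} (hb : Test b) {g : E d × E d → ℝ} (hg : Continuous g)
    {B : ℝ} (hB : ∀ p, |g p| ≤ B) : Integrable (fun p : E d × E d => g p * (b p.1 - b p.2) ^ 2 * K d s (p.1 - p.2)) := by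
  obtain ⟨ρ, L, hρ, hL, hb0, -, hbL⟩ := hb.bd
  have hbc := hb.locLip.continuous
  have hB0 : 0 ≤ B := (abs_nonneg _).trans (hB 0)
  refine ce_dom hd hs0 hs1 ?_ ρ (B * (L * L)) (mul_nonneg hB0 (mul_nonneg hL hL)) ?_ ?_
  · refine (Measurable.mul (Continuous.measurable ?_) ce_kmeas).aestronglyMeasurable
    exact hg.mul (((hbc.comp continuous_fst).sub (hbc.comp continuous_snd)).pow 2)
  · intro p _
    rw [abs_mul, abs_mul, abs_of_nonneg (K_nonneg _), abs_pow]
    have hm : 0 ≤ min 1 ‖p.1 - p.2‖ := le_min zero_le_one (norm_nonneg _)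
    have h2 : |b p.1 - b p.2| ^ 2 ≤ (L * min 1 ‖p.1 - p.2‖) ^ 2 := pow_le_pow_left₀ (abs_nonneg _) (hbL _ _) 2
    calc |g p| * |b p.1 - b p.2| ^ 2 * K d s (p.1 - p.2)
        ≤ (B * (L * min 1 ‖p.1 - p.2‖) ^ 2) * K d s (p.1 - p.2) :=
          mul_le_mul_of_nonneg_right (mul_le_mul (hB p) h2 (by positivity) hB0) (K_nonneg _)
      _ = B * (L * L) * (min 1 (‖p.1 - p.2‖ ^ 2) * K d s (p.1 - p.2)) := by
          rw [← ce_min _ (norm_nonneg _)]; ring
  · intro p h1 h2
    rw [hb0 _ h1, hb0 _ h2]; simp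

end NDG
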