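import Pool.Agent.NDG.Cyl

import Pool.Agent.NDG.Cpt

/-! # Stable solutions are one-dimensional near almost all points of the affine subspaces of codimension two -/

open MeasureTheory Filter Topology Set

noncomputable section

namespace NDG

variable {d : ℕ} {s c : ℝ}

/-- MODULE na. Translation of the test function. -/
theorem Stable.shift {u : E d → ℝ} (hu : Stable d s c u) (q : E d) : Stable d s c (fun x => u (x + q)) := by
  intro ψ hψ
  have hT : Test (fun x => ψ (x - q)) := by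
    obtain ⟨⟨L, hL⟩, hs⟩ := hψ
    refine ⟨⟨L, ?_⟩, ?_⟩
    · refine LipschitzWith.of_dist_le_mul fun x y => ?_
      have h := hL.dist_le_mul (x - q) (y - q)
      rwa [dist_sub_right] at h
    · exact hs.comp_homeomorph (Homeomorph.subRight q)
  have h := hu _ hT
  have e1 : ∫ x, (1 - 3 * u x ^ 2) * ψ (x - q) ^ 2 = ∫ x, (1 - 3 * u (x + q) ^ 2) * ψ x ^ 2 := by
    rw [← integral_add_right_eq_self (μ := (volume : Measure (E d))) (fun x => (1 - 3 * u x ^ 2) * ψ (x - q) ^ 2) q]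
    simp only [add_sub_cancel_right]
  have e2 : ∫ p : E d × E d, (ψ (p.1 - q) - ψ (p.2 - q)) ^ 2 * K d s (p.1 - p.2) =
      ∫ p : E d × E d, (ψ p.1 - ψ p.2) ^ 2 * K d s (p.1 - p.2) := by
    have : (volume : Measure (E d × E d)).IsAddRightInvariant := by
      rw [Measure.volume_eq_prod]
      infer_instance
    rw [← integral_add_right_eq_self (μ := (volume : Measure (E d × E d)))
      (fun p => (ψ (p.1 - q) - ψ (p.2 - q)) ^ 2 * K d s (p.1 - p.2)) (q, q)]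
    simp only [Prod.fst_add, Prod.snd_add, add_sub_cancel_right, add_sub_add_right_eq_sub]
  rw [e1, e2] at h
  exact h

/-- MODULE na. -/
theorem near_shift (u : E d → ℝ) (p q : E d) (L δ : ℝ) : Near (fun x => u (x + q)) p L δ ↔ Near u (p + q) L δ := by
  unfold Near
  simp only [add_right_comm p _ q]

/-- MODULE na. `stable`. -/
theorem mono_stable (hd : 1 ≤ d) (hs0 : 0 < s) (hs1 : s < 1) (hc : 0 < c) {u : E d → ℝ} (hu : Entire d s c u)
    (he : ∃ e : E d, ∀ x, 0 < fderiv ℝ u x e) : Stable d s c u := by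
  obtain ⟨e, he⟩ := he
  exact fun ψ hψ => stable hd hs0 hs1 hc hu he hψ

/-- MODULE nb. `holder` with `a = s` (`s < 1`, `s < 2 s`). -/
theorem entire_hol (hd : 1 ≤ d) (hs0 : 0 < s) (hs1 : s < 1) (hc : 0 < c) : ∃ C : ℝ, ∀ u : E d → ℝ, Entire d s c u → HolC C s u := by
  obtain ⟨C, _, h⟩ := holder hd hs0 hs1 hc hs0 hs1 (show s < 2 * s by linarith)
  exact ⟨C, fun u hu => ⟨fun x => (hu.bound x).le, h u hu⟩⟩

/-- MODULE nc. `near_of_G` (`L'`, `θ`): the points which are not `Near` have `G L' u p ≥ θ`; `gain_small` with `ε θ` in place of `ε`. -/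
theorem bad_count (hd : 1 ≤ d) (hs0 : 0 < s) (hs1 : s < 1) (hc : 0 < c) {C₀ : ℝ} (hC₀ : 0 ≤ C₀) (R₀ : ℝ → ℝ) (L : ℝ) {δ ε : ℝ}
    (hδ : 0 < δ) (hε : 0 < ε) : ∃ R₁ : ℝ, ∀ u : E d → ℝ, Entire d s c u → Stable d s c u →
      ∀ V : Submodule ℝ (E d), EG V s C₀ R₀ u → ∀ R : ℝ, R₁ ≤ R → ∀ P : Finset (E d), Sep P →
        (∀ p ∈ P, p ∈ V ∧ ‖p‖ ≤ R ∧ ¬ Near u p L δ) → (P.card : ℝ) ≤ ε * R ^ Module.finrank ℝ V := by
  obtain ⟨C, hC⟩ := entire_hol hd hs0 hs1 hc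
  obtain ⟨L', θ, hL', hθ, h1⟩ := near_of_G hd C hs0 L hδ
  obtain ⟨R₁, _, h2⟩ := gain_small (s := s) hd hs0 hs1 hC₀ R₀ hL' (mul_pos hε hθ)
  refine ⟨max R₁ 0, fun u hu hst V hV R hR P hP hPV => ?_⟩
  have hR0 : 0 ≤ R := (le_max_right _ _).trans hR
  have h3 := h2 c hc u hu hst V hV R ((le_max_left _ _).trans hR) P hP fun p hp => ⟨(hPV p hp).1, (hPV p hp).2.1⟩
  have h4 : ∑ _p ∈ P, ENNReal.ofReal θ ≤ ∑ p ∈ P, G L' u p := by
    refine Finset.sum_le_sum fun p hp => ?_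
    by_contra hlt
    exact (hPV p hp).2.2 (h1 u (hC u hu) p (not_le.1 hlt))
  have h5 := h4.trans h3
  rw [Finset.sum_const, nsmul_eq_mul, ← ENNReal.ofReal_natCast, ← ENNReal.ofReal_mul (Nat.cast_nonneg _),
    ENNReal.ofReal_le_ofReal_iff (by positivity)] at h5
  have h6 : (P.card : ℝ) * θ ≤ ε * R ^ Module.finrank ℝ V * θ := by
    calc (P.card : ℝ) * θ ≤ ε * θ * R ^ Module.finrank ℝ V := h5
      _ = ε * R ^ Module.finrank ℝ V * θ := by ring
  exact le_of_mul_le_mul_right h6 hθ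

private theorem nd_sep_image {d : ℕ} {P : Finset (E d)} (hP : Sep P) (q : E d) : Sep (P.image (fun p => p - q)) := by
  intro a ha b hb hab
  obtain ⟨a', ha', rfl⟩ := Finset.mem_image.1 ha
  obtain ⟨b', hb', rfl⟩ := Finset.mem_image.1 hb
  have h := hP a' ha' b' hb' (fun e => hab (by rw [e]))
  have e : a' - q - (b' - q) = a' - b' := by abel
  rw [e]
  exact h

/-- MODULE nd. `bad_count` for `u (· + q)` with `eg_two`. -/
theorem planes (hd : 1 ≤ d) (hs0 : 0 < s) (hs1 : s < 1) (hc : 0 < c) (L : ℝ) {δ ε : ℝ} (hδ : 0 < δ) (hε : 0 < ε) :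
    ∃ R₁ : ℝ, ∀ u : E d → ℝ, Entire d s c u → Stable d s c u → ∀ V : Submodule ℝ (E d), d ≤ Module.finrank ℝ V + 2 →
      ∀ q : E d, ∀ R : ℝ, R₁ ≤ R → ∀ P : Finset (E d), Sep P →
        (∀ p ∈ P, p - q ∈ V ∧ ‖p - q‖ ≤ R ∧ ¬ Near u p L δ) → (P.card : ℝ) ≤ ε * R ^ Module.finrank ℝ V := by
  obtain ⟨C₀, hC₀, h1⟩ := eg_two hd hs0 hs1 hc
  obtain ⟨R₁, h2⟩ := bad_count hd hs0 hs1 hc hC₀ (fun _ => 1) L hδ hε
  refine ⟨R₁, fun u hu hst V hV q R hR P hP hPV => ?_⟩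
  have hinj : Function.Injective (fun p : E d => p - q) := sub_left_injective
  have h3 := h2 (fun x => u (x + q)) (hu.shift q) (hst.shift q) V (h1 _ (hu.shift q) V hV) R hR
    (P.image (fun p => p - q)) (nd_sep_image hP q) ?_
  · rwa [Finset.card_image_of_injective _ hinj] at h3
  intro p hp
  obtain ⟨p', hp', rfl⟩ := Finset.mem_image.1 hp
  obtain ⟨h4, h5, h6⟩ := hPV p' hp'
  refine ⟨h4, h5, ?_⟩
  rw [near_shift]
  rwa [sub_add_cancel]

/-- MODULE ne. The same with `gain_ball`. -/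
theorem balls (hd : 1 ≤ d) (hs0 : 0 < s) (hs1 : s < 1) (hc : 0 < c) (L : ℝ) {δ : ℝ} (hδ : 0 < δ) :
    ∃ C : ℝ, ∀ u : E d → ℝ, Entire d s c u → Stable d s c u → ∀ q : E d, ∀ R : ℝ, 1 ≤ R → ∀ P : Finset (E d), Sep P →
      (∀ p ∈ P, ‖p - q‖ ≤ R ∧ ¬ Near u p L δ) → R ^ 2 * (P.card : ℝ) ≤ C * R ^ d := by
  obtain ⟨C, hC⟩ := entire_hol hd hs0 hs1 hc
  obtain ⟨L', θ, hL', hθ, h1⟩ := near_of_G hd C hs0 L hδ
  obtain ⟨C', hC', h2⟩ := gain_ball hd hs0 hs1 hc hL'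
  refine ⟨C' / θ, fun u hu hst q R hR P hP hPV => ?_⟩
  have hR0 : 0 ≤ R := by linarith
  have hinj : Function.Injective (fun p : E d => p - q) := sub_left_injective
  have h3 := h2 (fun x => u (x + q)) (hu.shift q) (hst.shift q) R hR (P.image (fun p => p - q)) (nd_sep_image hP q) ?_
  · have h4 : ∑ _p ∈ P.image (fun p => p - q), ENNReal.ofReal θ ≤
        ∑ p ∈ P.image (fun p => p - q), G L' (fun x => u (x + q)) p := by
      refine Finset.sum_le_sum fun p hp => ?_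
      obtain ⟨p', hp', rfl⟩ := Finset.mem_image.1 hp
      by_contra hlt
      have h5 := h1 _ (hC _ (hu.shift q)) (p' - q) (not_le.1 hlt)
      rw [near_shift, sub_add_cancel] at h5
      exact (hPV p' hp').2 h5
    rw [Finset.sum_const, nsmul_eq_mul, Finset.card_image_of_injective _ hinj, ← ENNReal.ofReal_natCast,
      ← ENNReal.ofReal_mul (Nat.cast_nonneg _)] at h4
    have h5 : ENNReal.ofReal (R ^ 2) * ENNReal.ofReal ((P.card : ℝ) * θ) ≤ ENNReal.ofReal (C' * R ^ d) :=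
      (mul_le_mul_right h4 _).trans h3
    rw [← ENNReal.ofReal_mul (by positivity), ENNReal.ofReal_le_ofReal_iff (by positivity)] at h5
    have h6 : R ^ 2 * (P.card : ℝ) * θ ≤ C' * R ^ d := by
      calc R ^ 2 * (P.card : ℝ) * θ = R ^ 2 * ((P.card : ℝ) * θ) := by ring
        _ ≤ C' * R ^ d := h5
    rw [div_mul_eq_mul_div, le_div_iff₀ hθ]
    exact h6
  intro p hp
  obtain ⟨p', hp', rfl⟩ := Finset.mem_image.1 hp
  exact (hPV p' hp').1

/-- MODULE nf. For all `L` and `δ` there is a return `p` (for `L`, `δ / 2`) with `Near u p L (δ / 2)`: the returns have at least `b R ^ k` elements for arbitrarily large `R` and the points which are not `Near` at most `(b / 2) R ^ k` (hypothesis `hbad`,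
`R > 0`); so `Near u 0 L δ`.  `oneDim_of_near`. -/
theorem returns_one (hd : 1 ≤ d) {u : E d → ℝ} (hu : Continuous u) {V : Submodule ℝ (E d)} (hr : Returns u V)
    (hbad : ∀ L δ ε : ℝ, 0 < δ → 0 < ε → ∃ R₁ : ℝ, ∀ q ∈ V, ∀ R : ℝ, R₁ ≤ R → ∀ P : Finset (E d), Sep P →
      (∀ p ∈ P, p - q ∈ V ∧ ‖p - q‖ ≤ R ∧ ¬ Near u p L δ) → (P.card : ℝ) ≤ ε * R ^ Module.finrank ℝ V) : OneDim u := by
  refine oneDim_of_near hd hu fun L δ hδ => ?_
  obtain ⟨b, hb, hR⟩ := hr L (δ / 2) (half_pos hδ)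
  obtain ⟨R₁, h1⟩ := hbad L (δ / 2) (b / 2) (half_pos hδ) (half_pos hb)
  obtain ⟨R, hR0, q, hq, P, hP, hsep, hcard⟩ := hR (max R₁ 1)
  have hRpos : 0 < R := lt_of_lt_of_le one_pos ((le_max_right _ _).trans hR0)
  by_contra hnot
  have h2 : ∀ p ∈ P, p - q ∈ V ∧ ‖p - q‖ ≤ R ∧ ¬ Near u p L (δ / 2) := by
    intro p hp
    obtain ⟨hpV, hpR, hpu⟩ := hP p hp
    refine ⟨V.sub_mem hpV hq, hpR, ?_⟩
    rintro ⟨a, ha, g, hg, hag⟩
    refine hnot ⟨a, ha, g, hg, fun x hx => ?_⟩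
    rw [zero_add]
    have h3 := abs_le.1 (hag x hx)
    have h4 := abs_le.1 (hpu x hx)
    rw [add_comm x p] at h4
    rw [abs_le]
    constructor <;> linarith [h3.1, h3.2, h4.1, h4.2]
  have h3 := h1 q hq R ((le_max_left _ _).trans hR0) P hsep h2
  have h4 : 0 < b * R ^ Module.finrank ℝ V := mul_pos hb (pow_pos hRpos _)
  linarith

end NDG
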