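import Pool.Agent.NDG.Kin

/-! # Potential energy, cylinder cutoffs -/

open MeasureTheory Filter Topology Set

noncomputable section

namespace NDG

variable {d : ℕ} {s c : ℝ}

private theorem qa_clp_nonneg (t : ℝ) : 0 ≤ clp t := le_max_left _ _

private theorem qa_clp_le (t : ℝ) : clp t ≤ 1 := max_le zero_le_one (min_le_left _ _)

private theorem qa_clp0 {t : ℝ} (ht : t ≤ 0) : clp t = 0 :=
  max_eq_left ((min_le_right _ _).trans ht)

private theorem qa_clp1 {t : ℝ} (ht : 1 ≤ t) : clp t = 1 := by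
  rw [clp, min_eq_left ht]
  exact max_eq_right zero_le_one

private theorem qa_clp_lip (a b : ℝ) : |clp a - clp b| ≤ |a - b| := by
  unfold clp
  have h1 : |max 0 (min 1 a) - max 0 (min 1 b)| ≤ |min 1 a - min 1 b| :=
    (abs_max_sub_max_le_max (0 : ℝ) (min 1 a) 0 (min 1 b)).trans (max_le (by simp) le_rfl)
  have h2 : |min 1 a - min 1 b| ≤ |a - b| :=
    (abs_min_sub_min_le_max (1 : ℝ) a 1 b).trans (max_le (by simp) le_rfl)
  exact h1.trans h2

private theorem qa_prod {W g : E d → ℝ} (hW : Integrable W) (hg : Integrable g) :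
    (∫ p : E d × E d, W p.1 * g (p.1 - p.2)) = (∫ x, W x) * ∫ z, g z ∧
    (∫ p : E d × E d, W p.2 * g (p.1 - p.2)) = (∫ x, W x) * ∫ z, g z := by
  obtain ⟨h1, h2⟩ := prod_int hW hg
  constructor
  · rw [← integral_mul_const]
    have h3 := integral_prod (fun p : E d × E d => W p.1 * g (p.1 - p.2)) h1
    refine h3.trans (integral_congr_ae (Filter.Eventually.of_forall fun x => ?_))
    show ∫ y, W x * g (x - y) = W x * ∫ z, g z
    rw [integral_const_mul, integral_sub_left_eq_self g volume x]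
  · rw [← integral_mul_const]
    have h3 := integral_prod_symm (fun p : E d × E d => W p.2 * g (p.1 - p.2)) h2
    refine h3.trans (integral_congr_ae (Filter.Eventually.of_forall fun y => ?_))
    show ∫ x, W y * g (x - y) = W y * ∫ z, g z
    rw [integral_const_mul, integral_sub_right_eq_self g y]

/-- MODULE qa. Test stability with `φ x = clp (2 - ‖x - q‖ / r)`: if `|u| < 11 / 20` on `B_{2r}(q)` then the left side is at least `(9 / 100) vol (B_r)`, the right side at most `c vol (B_{2r}) ∫ min 1 (‖z‖ ^ 2 / r ^ 2) K = C r ^ (d - 2 s)` (`K_min`): false for large `r`. -/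
theorem ball_large (hd : 1 ≤ d) (hs0 : 0 < s) (hs1 : s < 1) (hc : 0 < c) : ∃ r₀ : ℝ, 1 ≤ r₀ ∧ ∀ u : E d → ℝ, Continuous u → (∀ x, |u x| ≤ 1) →
    Stable d s c u → ∀ q : E d, ∃ y : E d, ‖y - q‖ ≤ r₀ ∧ 11 / 20 ≤ |u y| := by
  obtain ⟨C, hC, hmin⟩ := K_min hd hs0 hs1
  obtain ⟨r, hr1, hr2⟩ : ∃ r : ℝ, 1 ≤ r ∧ c * (2 ^ d * (C * r ^ (-(2 * s)))) < 9 / 100 := by
    have h1 : Tendsto (fun r : ℝ => c * (2 ^ d * (C * r ^ (-(2 * s))))) atTop (𝓝 (c * (2 ^ d * (C * 0)))) :=
      ((((tendsto_rpow_neg_atTop (by linarith : 0 < 2 * s)).const_mul C).const_mul _).const_mul c)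
    rw [mul_zero, mul_zero, mul_zero] at h1
    obtain ⟨r, hr⟩ := ((eventually_ge_atTop (1 : ℝ)).and
      (h1.eventually (gt_mem_nhds (by norm_num : (0 : ℝ) < 9 / 100)))).exists
    exact ⟨r, hr.1, hr.2⟩
  have hr0 : 0 < r := by linarith
  refine ⟨2 * r, by linarith, fun u hu hB hst q => ?_⟩
  by_contra hcon
  push Not at hcon
  set φ : E d → ℝ := fun x => clp (2 - ‖x - q‖ / r) with hφ
  have hlip : ∀ x y, |φ x - φ y| ≤ ‖x - y‖ / r := by
    intro x y
    refine (qa_clp_lip _ _).trans ?_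
    have e : 2 - ‖x - q‖ / r - (2 - ‖y - q‖ / r) = -((‖x - q‖ - ‖y - q‖) / r) := by ring
    rw [e, abs_neg, abs_div, abs_of_pos hr0]
    refine div_le_div_of_nonneg_right ((abs_norm_sub_norm_le _ _).trans ?_) hr0.le
    rw [sub_sub_sub_cancel_right]
  have h0 : ∀ x, 2 * r < ‖x - q‖ → φ x = 0 := by
    intro x hx
    apply qa_clp0
    rw [sub_nonpos, le_div_iff₀ hr0]
    exact hx.le
  have h1 : ∀ x, ‖x - q‖ ≤ r → φ x = 1 := by
    intro x hx
    apply qa_clp1
    have : ‖x - q‖ / r ≤ 1 := (div_le_one hr0).2 hx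
    linarith
  have h01 : ∀ x, 0 ≤ φ x ∧ φ x ≤ 1 := fun x => ⟨qa_clp_nonneg _, qa_clp_le _⟩
  have hLW : LipschitzWith 1 φ := by
    refine LipschitzWith.of_dist_le_mul fun x y => ?_
    rw [Real.dist_eq, dist_eq_norm, NNReal.coe_one, one_mul]
    exact (hlip x y).trans (div_le_self (norm_nonneg _) hr1)
  have hsup : HasCompactSupport φ := by
    refine HasCompactSupport.intro (isCompact_closedBall q (2 * r)) fun x hx => ?_
    rw [Metric.mem_closedBall, dist_eq_norm, not_le] at hx
    exact h0 x hx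
  have hT : Test φ := ⟨⟨1, hLW⟩, hsup⟩
  have hst' := hst φ hT
  set v : ℝ := (volume (Metric.ball (0 : E d) 1)).toReal with hv
  have hv0 : 0 < v := ENNReal.toReal_pos (Metric.measure_ball_pos volume _ one_pos).ne' measure_ball_lt_top.ne
  have hvol : ∀ t : ℝ, 0 ≤ t → (volume (Metric.closedBall q t)).toReal = t ^ d * v := by
    intro t ht
    rw [Measure.addHaar_closedBall volume _ ht, ENNReal.toReal_mul,
      ENNReal.toReal_ofReal (by positivity), finrank_euclideanSpace, Fintype.card_fin]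
  -- the left side
  have hL : 9 / 100 * (r ^ d * v) ≤ ∫ x, (1 - 3 * u x ^ 2) * φ x ^ 2 := by
    have e : 9 / 100 * (r ^ d * v) = ∫ x, (Metric.closedBall q r).indicator (fun _ => (9 / 100 : ℝ)) x := by
      rw [integral_indicator_const _ measurableSet_closedBall, smul_eq_mul, Measure.real, hvol r hr0.le]
      ring
    rw [e]
    refine integral_mono ?_ ?_ fun x => ?_
    · exact (integrable_indicator_iff measurableSet_closedBall).2
        (integrableOn_const (isCompact_closedBall q r).measure_lt_top.ne)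
    · refine Continuous.integrable_of_hasCompactSupport ?_ ?_
      · exact (continuous_const.sub (continuous_const.mul (hu.pow 2))).mul (hLW.continuous.pow 2)
      · refine HasCompactSupport.intro (isCompact_closedBall q (2 * r)) fun x hx => ?_
        rw [Metric.mem_closedBall, dist_eq_norm, not_le] at hx
        rw [h0 x hx]
        ring
    · show (Metric.closedBall q r).indicator (fun _ => (9 / 100 : ℝ)) x ≤ (1 - 3 * u x ^ 2) * φ x ^ 2
      by_cases hx2 : ‖x - q‖ ≤ 2 * r
      · have h2 := hcon x hx2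
        have h3 : u x ^ 2 ≤ (11 / 20) ^ 2 := by
          rw [← sq_abs]
          exact pow_le_pow_left₀ (abs_nonneg _) h2.le 2
        by_cases hx : ‖x - q‖ ≤ r
        · rw [indicator_of_mem (by rw [Metric.mem_closedBall, dist_eq_norm]; exact hx), h1 x hx]
          norm_num at h3 ⊢
          linarith
        · rw [indicator_of_notMem (by rw [Metric.mem_closedBall, dist_eq_norm]; exact hx)]
          refine mul_nonneg ?_ (sq_nonneg _)
          norm_num at h3 ⊢
          linarith
      · rw [h0 x (not_le.1 hx2), indicator_of_notMem]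
        · norm_num
        · rw [Metric.mem_closedBall, dist_eq_norm]
          intro h
          exact hx2 (by linarith)
  -- the right side
  set W : E d → ℝ := (Metric.closedBall q (2 * r)).indicator (fun _ => (1 : ℝ)) with hW
  set g : E d → ℝ := fun z => min 1 (‖z‖ ^ 2 / r ^ 2) * K d s z with hg
  have hWi : Integrable W := (integrable_indicator_iff measurableSet_closedBall).2
    (integrableOn_const (isCompact_closedBall q _).measure_lt_top.ne)
  have hWe : ∫ x, W x = (2 * r) ^ d * v := by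
    rw [hW, integral_indicator_const _ measurableSet_closedBall, smul_eq_mul, mul_one, Measure.real,
      hvol _ (by positivity)]
  obtain ⟨hgi, hge⟩ := hmin r hr0
  obtain ⟨hp1, hp2⟩ := prod_int hWi hgi
  obtain ⟨he1, he2⟩ := qa_prod hWi hgi
  have hW0 : ∀ x, 0 ≤ W x := fun x => indicator_nonneg (fun _ _ => zero_le_one) x
  have hR : ∫ p : E d × E d, (φ p.1 - φ p.2) ^ 2 * K d s (p.1 - p.2) ≤ 2 * ((2 * r) ^ d * v * (C * r ^ (-(2 * s)))) := by
    calc ∫ p : E d × E d, (φ p.1 - φ p.2) ^ 2 * K d s (p.1 - p.2)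
        ≤ ∫ p : E d × E d, (W p.1 * g (p.1 - p.2) + W p.2 * g (p.1 - p.2)) := by
          refine integral_mono_of_nonneg (Filter.Eventually.of_forall fun p => ?_) (hp1.add hp2)
            (Filter.Eventually.of_forall fun p => ?_)
          · exact mul_nonneg (sq_nonneg _) (K_nonneg _)
          · show (φ p.1 - φ p.2) ^ 2 * K d s (p.1 - p.2) ≤ W p.1 * g (p.1 - p.2) + W p.2 * g (p.1 - p.2)
            rw [← add_mul, hg, ← mul_assoc]
            refine mul_le_mul_of_nonneg_right ?_ (K_nonneg _)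
            have hm : (φ p.1 - φ p.2) ^ 2 ≤ min 1 (‖p.1 - p.2‖ ^ 2 / r ^ 2) := by
              refine le_min ?_ ?_
              · have ha := h01 p.1
                have hb := h01 p.2
                nlinarith
              · rw [← div_pow, ← sq_abs (φ p.1 - φ p.2)]
                exact pow_le_pow_left₀ (abs_nonneg _) (hlip _ _) 2
            by_cases ha : p.1 ∈ Metric.closedBall q (2 * r)
            · have e1 : W p.1 = 1 := indicator_of_mem ha _
              have h5 : 0 ≤ min 1 (‖p.1 - p.2‖ ^ 2 / r ^ 2) := le_min zero_le_one (by positivity)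
              have h6 := hW0 p.2
              rw [e1]
              nlinarith
            · by_cases hb : p.2 ∈ Metric.closedBall q (2 * r)
              · have e1 : W p.2 = 1 := indicator_of_mem hb _
                have h5 : 0 ≤ min 1 (‖p.1 - p.2‖ ^ 2 / r ^ 2) := le_min zero_le_one (by positivity)
                have h6 := hW0 p.1
                rw [e1]
                nlinarith
              · rw [Metric.mem_closedBall, dist_eq_norm, not_le] at ha hb
                rw [h0 _ ha, h0 _ hb, sub_zero]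
                have h5 : 0 ≤ min 1 (‖p.1 - p.2‖ ^ 2 / r ^ 2) := le_min zero_le_one (by positivity)
                have h6 := hW0 p.1
                have h7 := hW0 p.2
                have h8 : 0 ≤ (W p.1 + W p.2) * min 1 (‖p.1 - p.2‖ ^ 2 / r ^ 2) := by positivity
                simpa using h8
      _ = 2 * ((2 * r) ^ d * v * (C * r ^ (-(2 * s)))) := by
          rw [integral_add hp1 hp2, he1, he2, hWe, hge]
          ring
  have hfin : 9 / 100 * (r ^ d * v) ≤ c * (2 ^ d * (C * r ^ (-(2 * s)))) * (r ^ d * v) := by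
    calc 9 / 100 * (r ^ d * v) ≤ ∫ x, (1 - 3 * u x ^ 2) * φ x ^ 2 := hL
      _ ≤ c / 2 * ∫ p : E d × E d, (φ p.1 - φ p.2) ^ 2 * K d s (p.1 - p.2) := hst'
      _ ≤ c / 2 * (2 * ((2 * r) ^ d * v * (C * r ^ (-(2 * s))))) :=
          mul_le_mul_of_nonneg_left hR (by positivity)
      _ = c * (2 ^ d * (C * r ^ (-(2 * s)))) * (r ^ d * v) := by
          rw [mul_pow]
          ring
  have h9 := le_of_mul_le_mul_right hfin (by positivity)
  linarith

/-- MODULE qb. With `η ≤ 1`, `|C| η ^ a ≤ 1 / 80`: for `z ∈ B_η(x)`, `y' ∈ B_η(y)`: `|u z - u y'| ≥ 1 / 40` and `K (z - y') ≥ (r₀ + 2) ^ (-(d + 2 s))`. -/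
theorem en_lower (hs0 : 0 < s) (C : ℝ) {a : ℝ} (ha : 0 < a) (r₀ : ℝ) (hr₀ : 1 ≤ r₀) : ∃ κ : ℝ, 0 < κ ∧ ∀ u : E d → ℝ, HolC C a u →
    ∀ x y : E d, ‖y - x‖ ≤ r₀ → |u x| ≤ 1 / 2 → 11 / 20 ≤ |u y| →
      ENNReal.ofReal κ ≤ ∫⁻ z in Metric.ball x (r₀ + 1), en d s u z := by
  obtain ⟨η, hη0, hη1, hη⟩ : ∃ η : ℝ, 0 < η ∧ η ≤ 1 ∧ |C| * η ^ a ≤ 1 / 80 := by
    have h1 : Tendsto (fun η : ℝ => |C| * η ^ a) (𝓝[>] 0) (𝓝 (|C| * 0 ^ a)) :=
      ((Real.continuousAt_rpow_const 0 a (Or.inr ha.le)).tendsto.const_mul _).mono_left nhdsWithin_le_nhds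
    rw [Real.zero_rpow ha.ne', mul_zero] at h1
    have h2 : ∀ᶠ η : ℝ in 𝓝[>] 0, η < 1 := by
      filter_upwards [Ioo_mem_nhdsGT (zero_lt_one (α := ℝ))] with η hη
      exact hη.2
    obtain ⟨η, hη⟩ := ((h2.and (h1.eventually (gt_mem_nhds (by norm_num : (0 : ℝ) < 1 / 80)))).and
      self_mem_nhdsWithin).exists
    exact ⟨η, hη.2, hη.1.1.le, hη.1.2.le⟩
  set v : ENNReal := volume (Metric.ball (0 : E d) η) with hv
  have hv0 : 0 < v.toReal := ENNReal.toReal_pos (Metric.measure_ball_pos volume _ hη0).ne' measure_ball_lt_top.ne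
  set κ₀ : ℝ := (1 / 40) ^ 2 * (r₀ + 2) ^ (-((d : ℝ) + 2 * s)) with hκ₀
  have hκ₀0 : 0 < κ₀ := by
    have : 0 < (r₀ + 2) ^ (-((d : ℝ) + 2 * s)) := Real.rpow_pos_of_pos (by linarith) _
    positivity
  refine ⟨κ₀ * v.toReal * v.toReal, by positivity, fun u hu x y hxy hx hy => ?_⟩
  have hclose : ∀ z w : E d, ‖z - w‖ < η → |u z - u w| ≤ 1 / 80 := by
    intro z w hzw
    refine (hu.2 z w).trans ?_
    have h1 : ‖z - w‖ ^ a ≤ η ^ a := Real.rpow_le_rpow (norm_nonneg _) hzw.le ha.le
    have h2 : 0 ≤ ‖z - w‖ ^ a := Real.rpow_nonneg (norm_nonneg _) _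
    calc C * ‖z - w‖ ^ a ≤ |C| * ‖z - w‖ ^ a := mul_le_mul_of_nonneg_right (le_abs_self C) h2
      _ ≤ |C| * η ^ a := mul_le_mul_of_nonneg_left h1 (abs_nonneg _)
      _ ≤ 1 / 80 := hη
  have hpt : ∀ z ∈ Metric.ball x η, ∀ y' ∈ Metric.ball y η, κ₀ ≤ (u z - u y') ^ 2 * K d s (z - y') := by
    intro z hz y' hy'
    rw [Metric.mem_ball, dist_eq_norm] at hz hy'
    have h1 := hclose z x hz
    have h2 := hclose y' y hy'
    have h3 : 1 / 40 ≤ |u z - u y'| := by
      have e1 : |u y| ≤ |u y'| + |u y' - u y| := by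
        have := abs_sub_abs_le_abs_sub (u y) (u y')
        rw [abs_sub_comm] at this
        linarith
      have e2 : |u z| ≤ |u x| + |u z - u x| := by
        have := abs_sub_abs_le_abs_sub (u z) (u x)
        linarith
      have e3 : |u y'| - |u z| ≤ |u z - u y'| := by
        have := abs_sub_abs_le_abs_sub (u y') (u z)
        rw [abs_sub_comm] at this
        linarith
      linarith
    have hne : z - y' ≠ 0 := by
      intro h
      rw [sub_eq_zero.1 h, sub_self, abs_zero] at h3
      norm_num at h3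
    have hle : ‖z - y'‖ ≤ r₀ + 2 := by
      have e : z - y' = (z - x) - (y - x) - (y' - y) := by abel
      rw [e]
      have h4 := norm_sub_le ((z - x) - (y - x)) (y' - y)
      have h5 := norm_sub_le (z - x) (y - x)
      linarith
    refine mul_le_mul ?_ (K_anti hs0 hne hle) (Real.rpow_nonneg (by linarith) _) (sq_nonneg _)
    rw [← sq_abs (u z - u y')]
    exact pow_le_pow_left₀ (by norm_num) h3 2
  have hen : ∀ z ∈ Metric.ball x η, ENNReal.ofReal κ₀ * v ≤ en d s u z := by
    intro z hz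
    calc ENNReal.ofReal κ₀ * v = ∫⁻ _ in Metric.ball y η, ENNReal.ofReal κ₀ := by
          rw [setLIntegral_const, Measure.addHaar_ball_center]
      _ ≤ ∫⁻ y' in Metric.ball y η, ENNReal.ofReal ((u z - u y') ^ 2 * K d s (z - y')) :=
          setLIntegral_mono' measurableSet_ball fun y' hy' => ENNReal.ofReal_le_ofReal (hpt z hz y' hy')
      _ ≤ en d s u z := setLIntegral_le_lintegral _ _
  calc ENNReal.ofReal (κ₀ * v.toReal * v.toReal) = ENNReal.ofReal κ₀ * v * v := by
        rw [ENNReal.ofReal_mul (by positivity), ENNReal.ofReal_mul hκ₀0.le,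
          ENNReal.ofReal_toReal measure_ball_lt_top.ne]
    _ = ∫⁻ _ in Metric.ball x η, ENNReal.ofReal κ₀ * v := by
        rw [setLIntegral_const, Measure.addHaar_ball_center volume x]
    _ ≤ ∫⁻ z in Metric.ball x η, en d s u z := setLIntegral_mono' measurableSet_ball hen
    _ ≤ ∫⁻ z in Metric.ball x (r₀ + 1), en d s u z :=
        lintegral_mono_set (Metric.ball_subset_ball (by linarith))

/-- MODULE qc. `ball_large`, `en_lower` for every `x` of the set, integrate over `x`, Tonelli; `B_r(x) ⊆ Cyl V (R + r) (ρ + r)` for `x ∈ Cyl V R ρ` (`proj_le`). -/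
theorem thin (hd : 1 ≤ d) (hs0 : 0 < s) (hs1 : s < 1) (hc : 0 < c) (C : ℝ) {a : ℝ} (ha : 0 < a) : ∃ C' r : ℝ, 0 ≤ C' ∧ 1 ≤ r ∧
    ∀ u : E d → ℝ, HolC C a u → Stable d s c u → ∀ (V : Submodule ℝ (E d)) (R ρ : ℝ),
      volume (Cyl V R ρ ∩ {x | |u x| ≤ 1 / 2}) ≤ ENNReal.ofReal C' * ∫⁻ x in Cyl V (R + r) (ρ + r), en d s u x := by
  obtain ⟨r₀, hr₀, hball⟩ := ball_large hd hs0 hs1 hc
  obtain ⟨κ, hκ, hlow⟩ := en_lower (d := d) hs0 C ha r₀ hr₀
  set r : ℝ := r₀ + 1 with hr
  refine ⟨(volume (Metric.ball (0 : E d) r)).toReal / κ, r, by positivity, by linarith, fun u hu hst V R ρ => ?_⟩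
  have huc : Continuous u := by
    refine continuous_iff_continuousAt.2 fun x => ?_
    rw [ContinuousAt, tendsto_iff_norm_sub_tendsto_zero]
    have h1 : Tendsto (fun y : E d => C * ‖y - x‖ ^ a) (𝓝 x) (𝓝 (C * ‖x - x‖ ^ a)) := by
      have hcont : Continuous (fun y : E d => C * ‖y - x‖ ^ a) :=
        continuous_const.mul ((continuous_id.sub continuous_const).norm.rpow_const fun _ => Or.inr ha.le)
      exact hcont.continuousAt.tendsto
    rw [sub_self, norm_zero, Real.zero_rpow ha.ne', mul_zero] at h1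
    exact squeeze_zero (fun y => norm_nonneg _) (fun y => hu.2 y x) h1
  set S : Set (E d) := Cyl V R ρ ∩ {x | |u x| ≤ 1 / 2} with hS
  have hSm : MeasurableSet S := (cyl_meas R ρ).inter (measurableSet_le huc.abs.measurable measurable_const)
  have hen : Measurable (en d s u) := en_meas huc
  have h1 : ENNReal.ofReal κ * volume S ≤ ∫⁻ x in S, ∫⁻ z, (Metric.ball x r).indicator (en d s u) z := by
    rw [← setLIntegral_const]
    refine setLIntegral_mono' hSm fun x hx => ?_
    obtain ⟨y, hy1, hy2⟩ := hball u huc hu.1 hst x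
    rw [lintegral_indicator measurableSet_ball]
    exact hlow u hu x y hy1 hx.2 hy2
  have hswap : ∫⁻ x in S, ∫⁻ z, (Metric.ball x r).indicator (en d s u) z =
      ∫⁻ z, ∫⁻ x in S, (Metric.ball x r).indicator (en d s u) z := by
    refine lintegral_lintegral_swap (Measurable.aemeasurable ?_)
    have e : (Function.uncurry fun x z : E d => (Metric.ball x r).indicator (en d s u) z) =
        {p : E d × E d | dist p.2 p.1 < r}.indicator (fun p => en d s u p.2) := by
      ext p
      by_cases hp : dist p.2 p.1 < r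
      · rw [indicator_of_mem (show p ∈ {p : E d × E d | dist p.2 p.1 < r} from hp)]
        exact indicator_of_mem (show p.2 ∈ Metric.ball p.1 r from hp) _
      · rw [indicator_of_notMem (show p ∉ {p : E d × E d | dist p.2 p.1 < r} from hp)]
        exact indicator_of_notMem (show p.2 ∉ Metric.ball p.1 r from hp) _
    rw [e]
    exact (hen.comp measurable_snd).indicator
      (measurableSet_lt (measurable_snd.dist measurable_fst) measurable_const)
  have h2 : ∫⁻ z, ∫⁻ x in S, (Metric.ball x r).indicator (en d s u) z ≤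
      volume (Metric.ball (0 : E d) r) * ∫⁻ x in Cyl V (R + r) (ρ + r), en d s u x := by
    rw [← lintegral_indicator (cyl_meas _ _), ← lintegral_const_mul _ (hen.indicator (cyl_meas _ _))]
    refine lintegral_mono fun z => ?_
    have e : ∀ x : E d, (Metric.ball x r).indicator (en d s u) z =
        (Metric.ball z r).indicator (fun _ => en d s u z) x := by
      intro x
      by_cases hx : z ∈ Metric.ball x r
      · rw [indicator_of_mem hx, indicator_of_mem (Metric.mem_ball_comm.1 hx)]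
      · rw [indicator_of_notMem hx, indicator_of_notMem fun h => hx (Metric.mem_ball_comm.1 h)]
    simp_rw [e]
    by_cases hz : z ∈ Cyl V (R + r) (ρ + r)
    · rw [indicator_of_mem hz]
      calc ∫⁻ x in S, (Metric.ball z r).indicator (fun _ => en d s u z) x
          ≤ ∫⁻ x, (Metric.ball z r).indicator (fun _ => en d s u z) x := setLIntegral_le_lintegral _ _
        _ = volume (Metric.ball (0 : E d) r) * en d s u z := by
            rw [lintegral_indicator_const measurableSet_ball, Measure.addHaar_ball_center, mul_comm]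
    · have h3 : ∀ x ∈ S, (Metric.ball z r).indicator (fun _ => en d s u z) x = 0 := by
        intro x hx
        refine indicator_of_notMem (fun h => hz ?_) _
        rw [Metric.mem_ball, dist_comm, dist_eq_norm] at h
        have h4 := proj_le (V := V) z x
        have h5 := norm_sub_norm_le (V.starProjection z) (V.starProjection x)
        have h6 := norm_sub_norm_le (z - V.starProjection z) (x - V.starProjection x)
        exact ⟨by linarith [hx.1.1], by linarith [hx.1.2]⟩
      rw [setLIntegral_congr_fun hSm h3, lintegral_zero]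
      exact zero_le
  have h3 : ENNReal.ofReal κ * volume S ≤
      volume (Metric.ball (0 : E d) r) * ∫⁻ x in Cyl V (R + r) (ρ + r), en d s u x :=
    h1.trans (hswap.trans_le h2)
  have hκ' : ENNReal.ofReal κ ≠ 0 := by
    rw [ne_eq, ENNReal.ofReal_eq_zero, not_le]
    exact hκ
  rw [ENNReal.ofReal_div_of_pos hκ, ENNReal.ofReal_toReal measure_ball_lt_top.ne]
  calc volume S = (ENNReal.ofReal κ)⁻¹ * (ENNReal.ofReal κ * volume S) := by
        rw [← mul_assoc, ENNReal.inv_mul_cancel hκ' ENNReal.ofReal_ne_top, one_mul]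
    _ ≤ (ENNReal.ofReal κ)⁻¹ * (volume (Metric.ball (0 : E d) r) *
          ∫⁻ x in Cyl V (R + r) (ρ + r), en d s u x) := mul_le_mul_right h3 _
    _ = _ := by
        rw [ENNReal.div_eq_inv_mul, mul_assoc]

/-- the cutoff of the cylinders -/
def cc {d : ℕ} (V : Submodule ℝ (E d)) (R ρ : ℝ) (x : E d) : ℝ :=
  min (clp (2 - ‖V.starProjection x‖ / R)) (clp (2 - ‖x - V.starProjection x‖ / ρ))

/-- MODULE qd. -/
theorem cc_basic {V : Submodule ℝ (E d)} {R ρ : ℝ} (hρ : 0 < ρ) (hR : ρ ≤ R) : Test (cc V R ρ) ∧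
    (∀ x, 0 ≤ cc V R ρ x ∧ cc V R ρ x ≤ 1) ∧ (∀ x ∈ Cyl V R ρ, cc V R ρ x = 1) ∧
    (∀ x, x ∉ Cyl V (2 * R) (2 * ρ) → cc V R ρ x = 0) ∧ ∀ x y, |cc V R ρ x - cc V R ρ y| ≤ ‖x - y‖ / ρ := by
  have hR0 : 0 < R := by linarith
  have hlip : ∀ x y, |cc V R ρ x - cc V R ρ y| ≤ ‖x - y‖ / ρ := by
    intro x y
    have hpr := proj_le (V := V) x y
    unfold cc
    refine (abs_min_sub_min_le_max _ _ _ _).trans (max_le ?_ ?_)
    · refine (qa_clp_lip _ _).trans ?_
      have e : 2 - ‖V.starProjection x‖ / R - (2 - ‖V.starProjection y‖ / R) =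
          -((‖V.starProjection x‖ - ‖V.starProjection y‖) / R) := by ring
      rw [e, abs_neg, abs_div, abs_of_pos hR0]
      exact div_le_div₀ (norm_nonneg _) ((abs_norm_sub_norm_le _ _).trans hpr.1) hρ hR
    · refine (qa_clp_lip _ _).trans ?_
      have e : 2 - ‖x - V.starProjection x‖ / ρ - (2 - ‖y - V.starProjection y‖ / ρ) =
          -((‖x - V.starProjection x‖ - ‖y - V.starProjection y‖) / ρ) := by ring
      rw [e, abs_neg, abs_div, abs_of_pos hρ]
      exact div_le_div_of_nonneg_right ((abs_norm_sub_norm_le _ _).trans hpr.2) hρ.le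
  have h0 : ∀ x, x ∉ Cyl V (2 * R) (2 * ρ) → cc V R ρ x = 0 := by
    intro x hx
    have h5 : 2 * R < ‖V.starProjection x‖ ∨ 2 * ρ < ‖x - V.starProjection x‖ := by
      by_contra h
      push Not at h
      exact hx h
    unfold cc
    rcases h5 with h | h
    · rw [qa_clp0 (t := 2 - ‖V.starProjection x‖ / R)]
      · exact min_eq_left (qa_clp_nonneg _)
      · rw [sub_nonpos, le_div_iff₀ hR0]
        exact h.le
    · rw [qa_clp0 (t := 2 - ‖x - V.starProjection x‖ / ρ)]
      · exact min_eq_right (qa_clp_nonneg _)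
      · rw [sub_nonpos, le_div_iff₀ hρ]
        exact h.le
  refine ⟨⟨⟨Real.toNNReal (1 / ρ), ?_⟩, ?_⟩, fun x => ⟨le_min (qa_clp_nonneg _) (qa_clp_nonneg _),
    (min_le_left _ _).trans (qa_clp_le _)⟩, ?_, h0, hlip⟩
  · refine LipschitzWith.of_dist_le_mul fun x y => ?_
    rw [Real.dist_eq, dist_eq_norm, Real.coe_toNNReal _ (by positivity)]
    refine (hlip x y).trans (le_of_eq ?_)
    ring
  · refine HasCompactSupport.intro (isCompact_closedBall (0 : E d) (2 * R + 2 * ρ)) fun x hx => ?_
    refine h0 x fun h => hx ?_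
    rw [Metric.mem_closedBall, dist_zero_right]
    exact cyl_norm h
  · intro x hx
    unfold cc
    rw [qa_clp1, qa_clp1, min_self]
    · have := (div_le_one hρ).2 hx.2
      linarith
    · have := (div_le_one hR0).2 hx.1
      linarith

/-- MODULE qe. The integrand is at most `min 1 (‖z‖ / ρ)` and vanishes unless `x` or `x + z` is in `Cyl V (2 R) (2 ρ)`; `cyl_vol`. -/
theorem cc_trans (d : ℕ) : ∃ C : ℝ, 0 ≤ C ∧ ∀ (V : Submodule ℝ (E d)) (R ρ : ℝ), 0 < ρ → ρ ≤ R → ∀ z : E d,
    ∫ x, |cc V R ρ (x + z) - cc V R ρ x| ≤ C * (R ^ Module.finrank ℝ V * ρ ^ (d - Module.finrank ℝ V)) * min 1 (‖z‖ / ρ) := by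
  obtain ⟨C, hC, hvol⟩ := cyl_vol d
  refine ⟨2 * (C * 2 ^ d), by positivity, fun V R ρ hρ hR z => ?_⟩
  obtain ⟨hT, h01, h1, h0, hlip⟩ := cc_basic (V := V) hρ hR
  have hR0 : 0 < R := by linarith
  set k := Module.finrank ℝ V with hk
  have hkd : k ≤ d := by
    have h2 := Submodule.finrank_le V
    rw [finrank_euclideanSpace, Fintype.card_fin] at h2
    exact h2
  set A : Set (E d) := Cyl V (2 * R) (2 * ρ) with hA
  have hAm : MeasurableSet A := cyl_meas _ _
  have hAf : volume A < ⊤ := lt_of_le_of_lt (hvol V (2 * R) (2 * ρ) (by positivity) (by positivity)) ENNReal.ofReal_lt_top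
  have hAv : (volume A).toReal ≤ C * ((2 * R) ^ k * (2 * ρ) ^ (d - k)) := by
    refine ENNReal.toReal_le_of_le_ofReal (by positivity) (hvol V (2 * R) (2 * ρ) (by positivity) (by positivity))
  set I : E d → ℝ := A.indicator (fun _ => (1 : ℝ)) with hI
  have hIi : Integrable I := (integrable_indicator_iff hAm).2 (integrableOn_const hAf.ne)
  have hIe : ∫ x, I x = (volume A).toReal := by
    rw [hI, integral_indicator_const _ hAm, smul_eq_mul, mul_one]
    rfl
  have hI0 : ∀ x, 0 ≤ I x := fun x => indicator_nonneg (fun _ _ => zero_le_one) x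
  have hm0 : 0 ≤ min 1 (‖z‖ / ρ) := le_min zero_le_one (by positivity)
  calc ∫ x, |cc V R ρ (x + z) - cc V R ρ x|
      ≤ ∫ x, (I (x + z) * min 1 (‖z‖ / ρ) + I x * min 1 (‖z‖ / ρ)) := by
        refine integral_mono_of_nonneg (Filter.Eventually.of_forall fun x => abs_nonneg _)
          (((hIi.comp_add_right z).mul_const _).add (hIi.mul_const _)) (Filter.Eventually.of_forall fun x => ?_)
        show |cc V R ρ (x + z) - cc V R ρ x| ≤ I (x + z) * min 1 (‖z‖ / ρ) + I x * min 1 (‖z‖ / ρ)
        have hm : |cc V R ρ (x + z) - cc V R ρ x| ≤ min 1 (‖z‖ / ρ) := by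
          refine le_min ?_ ?_
          · have ha := h01 (x + z)
            have hb := h01 x
            rw [abs_le]
            constructor <;> linarith [ha.1, ha.2, hb.1, hb.2]
          · have := hlip (x + z) x
            rwa [add_sub_cancel_left] at this
        by_cases ha : x + z ∈ A
        · have e : I (x + z) = 1 := indicator_of_mem ha _
          rw [e, one_mul]
          have := mul_nonneg (hI0 x) hm0
          linarith
        · by_cases hb : x ∈ A
          · have e : I x = 1 := indicator_of_mem hb _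
            rw [e, one_mul]
            have := mul_nonneg (hI0 (x + z)) hm0
            linarith
          · rw [h0 _ ha, h0 _ hb, sub_self, abs_zero]
            have h2 := mul_nonneg (hI0 (x + z)) hm0
            have h3 := mul_nonneg (hI0 x) hm0
            linarith
    _ = 2 * (volume A).toReal * min 1 (‖z‖ / ρ) := by
        rw [integral_add ((hIi.comp_add_right z).mul_const _) (hIi.mul_const _), integral_mul_const,
          integral_mul_const, integral_add_right_eq_self I z, hIe]
        ring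
    _ ≤ 2 * (C * ((2 * R) ^ k * (2 * ρ) ^ (d - k))) * min 1 (‖z‖ / ρ) := by
        refine mul_le_mul_of_nonneg_right ?_ hm0
        linarith
    _ = 2 * (C * 2 ^ d) * (R ^ k * ρ ^ (d - k)) * min 1 (‖z‖ / ρ) := by
        have e : (2 : ℝ) ^ d = 2 ^ k * 2 ^ (d - k) := by
          rw [← pow_add]
          congr 1
          omega
        rw [mul_pow, mul_pow, e]
        ring

/-- the interaction across the boundary of the cutoff -/
def Ph (d : ℕ) (s C a : ℝ) (η : E d → ℝ) : ℝ := ∫ p : E d × E d, mm C a (p.1 - p.2) * |η p.1 - η p.2| * K d s (p.1 - p.2)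

/-- MODULE qf. Dominated by `L (1_ρ x + 1_ρ y) mm z min 1 ‖z‖ K z` (`Test.bd`, `mm_int`, `prod_int`). -/
theorem Ph_int (hd : 1 ≤ d) (hs0 : 0 < s) (hs1 : s < 1) {C a : ℝ} (hC : 0 ≤ C) (ha : s < a) {η : E d → ℝ} (hη : Test η) :
    Integrable (fun p : E d × E d => mm C a (p.1 - p.2) * |η p.1 - η p.2| * K d s (p.1 - p.2)) := by
  obtain ⟨ρ₀, L, hρ₀, hL, h0, hbd, hlip⟩ := hη.bd
  set W : E d → ℝ := (Metric.closedBall (0 : E d) ρ₀).indicator (fun _ => (1 : ℝ)) with hW
  have hWi : Integrable W := (integrable_indicator_iff measurableSet_closedBall).2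
    (integrableOn_const (isCompact_closedBall _ _).measure_lt_top.ne)
  have hgi := (mm_int (d := d) hd hs0 hs1 hC ha).2
  obtain ⟨hp1, hp2⟩ := prod_int hWi hgi
  have hηc : Continuous η := by
    obtain ⟨L', hL'⟩ := hη.lip
    exact hL'.continuous
  have hmmm : Measurable (mm (d := d) C a) :=
    measurable_const.min (measurable_const.mul (measurable_norm.pow_const a))
  have hW0 : ∀ x, 0 ≤ W x := fun x => indicator_nonneg (fun _ _ => zero_le_one) x
  refine Integrable.mono' ((hp1.add hp2).const_mul L) ?_ (Filter.Eventually.of_forall fun p => ?_)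
  · refine Measurable.aestronglyMeasurable ?_
    have h1 : Measurable (fun p : E d × E d => p.1 - p.2) := measurable_fst.sub measurable_snd
    exact ((hmmm.comp h1).mul ((hηc.measurable.comp measurable_fst).sub
      (hηc.measurable.comp measurable_snd)).abs).mul (K_meas.comp h1)
  · have hmm0 : 0 ≤ mm C a (p.1 - p.2) :=
      le_min (by norm_num) (mul_nonneg hC (Real.rpow_nonneg (norm_nonneg _) _))
    have hK0 := K_nonneg (d := d) (s := s) (p.1 - p.2)
    have hm0 : 0 ≤ min 1 ‖p.1 - p.2‖ := le_min zero_le_one (norm_nonneg _)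
    rw [Real.norm_eq_abs, abs_of_nonneg (mul_nonneg (mul_nonneg hmm0 (abs_nonneg _)) hK0)]
    show mm C a (p.1 - p.2) * |η p.1 - η p.2| * K d s (p.1 - p.2) ≤
      L * (W p.1 * (mm C a (p.1 - p.2) * min 1 ‖p.1 - p.2‖ * K d s (p.1 - p.2)) +
        W p.2 * (mm C a (p.1 - p.2) * min 1 ‖p.1 - p.2‖ * K d s (p.1 - p.2)))
    have h1 : |η p.1 - η p.2| ≤ (W p.1 + W p.2) * (L * min 1 ‖p.1 - p.2‖) := by
      have hLm : 0 ≤ L * min 1 ‖p.1 - p.2‖ := mul_nonneg hL hm0
      by_cases hx : p.1 ∈ Metric.closedBall (0 : E d) ρ₀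
      · have e : W p.1 = 1 := indicator_of_mem hx _
        have h2 := hlip p.1 p.2
        have h3 := hW0 p.2
        rw [e]
        nlinarith [mul_nonneg h3 hLm]
      · by_cases hy : p.2 ∈ Metric.closedBall (0 : E d) ρ₀
        · have e : W p.2 = 1 := indicator_of_mem hy _
          have h2 := hlip p.1 p.2
          have h3 := hW0 p.1
          rw [e]
          nlinarith [mul_nonneg h3 hLm]
        · rw [Metric.mem_closedBall, dist_zero_right, not_le] at hx hy
          rw [h0 _ hx, h0 _ hy, sub_zero, abs_zero]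
          exact mul_nonneg (add_nonneg (hW0 _) (hW0 _)) hLm
    calc mm C a (p.1 - p.2) * |η p.1 - η p.2| * K d s (p.1 - p.2)
        ≤ mm C a (p.1 - p.2) * ((W p.1 + W p.2) * (L * min 1 ‖p.1 - p.2‖)) * K d s (p.1 - p.2) :=
          mul_le_mul_of_nonneg_right (mul_le_mul_of_nonneg_left h1 hmm0) hK0
      _ = _ := by ring

/-- MODULE qg. Variables `x`, `z = y - x` and Fubini: `Ph = ∫_z mm z K z ∫_x |cc (x + z) - cc x|`; `cc_trans`, `mm_log`; `ρ ^ (d - k) / ρ ≤ ρ ^ 2`. -/
theorem Ph_cc (hd : 1 ≤ d) (hs : 1 / 2 ≤ s) (hs1 : s < 1) {C a : ℝ} (hC : 0 ≤ C) (ha : s < a) : ∃ C' : ℝ, 0 ≤ C' ∧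
    ∀ V : Submodule ℝ (E d), Module.finrank ℝ V + 1 ≤ d → d ≤ Module.finrank ℝ V + 3 → ∀ R ρ : ℝ, 1 ≤ ρ → ρ ≤ R →
      Ph d s C a (cc V R ρ) ≤ C' * (R ^ Module.finrank ℝ V * (ρ ^ 2 * (1 + Real.log ρ))) := by
  have hs0 : 0 < s := by linarith
  obtain ⟨C₁, hC₁, htr⟩ := cc_trans d
  obtain ⟨C₂, hC₂, hlog⟩ := mm_log (d := d) hd hs hs1 hC ha
  refine ⟨C₁ * C₂, by positivity, fun V hV hV' R ρ hρ hR => ?_⟩
  set k := Module.finrank ℝ V with hk
  have hρ0 : 0 < ρ := by linarith
  have hR0 : 0 < R := by linarith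
  obtain ⟨hT, -, -, -, -⟩ := cc_basic (V := V) hρ0 hR
  obtain ⟨hi, hle⟩ := hlog ρ hρ
  set η : E d → ℝ := cc V R ρ with hη
  set F : E d × E d → ℝ := fun p => mm C a (p.1 - p.2) * |η p.1 - η p.2| * K d s (p.1 - p.2) with hF
  have hFi : Integrable F := Ph_int hd hs0 hs1 hC ha hT
  have hmm0 : ∀ z : E d, 0 ≤ mm C a z := fun z =>
    le_min (by norm_num) (mul_nonneg hC (Real.rpow_nonneg (norm_nonneg _) _))
  have hint2 : Integrable (Function.uncurry fun y z : E d => F (y + z, y)) := by
    have h1 : Integrable (F ∘ Prod.swap) := hFi.swap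
    have h2 := (measurePreserving_prod_add (volume : Measure (E d)) (volume : Measure (E d)))
    have h3 := h2.integrable_comp_of_integrable (g := F ∘ Prod.swap) h1
    refine h3.congr (Filter.Eventually.of_forall fun p => ?_)
    rfl
  have e1 : Ph d s C a η = ∫ z : E d, mm C a z * K d s z * ∫ y, |η (y + z) - η y| := by
    calc Ph d s C a η = ∫ p, F p := rfl
      _ = ∫ y, ∫ x, F (x, y) := integral_prod_symm F hFi
      _ = ∫ y, ∫ z, F (y + z, y) := by
          refine integral_congr_ae (Filter.Eventually.of_forall fun y => ?_)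
          exact (integral_add_left_eq_self (fun x => F (x, y)) y).symm
      _ = ∫ z, ∫ y, F (y + z, y) := integral_integral_swap hint2
      _ = ∫ z : E d, mm C a z * K d s z * ∫ y, |η (y + z) - η y| := by
          refine integral_congr_ae (Filter.Eventually.of_forall fun z => ?_)
          show ∫ y, F (y + z, y) = mm C a z * K d s z * ∫ y, |η (y + z) - η y|
          rw [← integral_const_mul]
          refine integral_congr_ae (Filter.Eventually.of_forall fun y => ?_)
          show mm C a (y + z - y) * |η (y + z) - η y| * K d s (y + z - y) =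
            mm C a z * K d s z * |η (y + z) - η y|
          rw [add_sub_cancel_left]
          ring
  rw [e1]
  calc ∫ z : E d, mm C a z * K d s z * ∫ y, |η (y + z) - η y|
      ≤ ∫ z : E d, C₁ * (R ^ k * ρ ^ (d - k)) * (mm C a z * min 1 (‖z‖ / ρ) * K d s z) := by
        refine integral_mono_of_nonneg (Filter.Eventually.of_forall fun z => ?_) (hi.const_mul _)
          (Filter.Eventually.of_forall fun z => ?_)
        · exact mul_nonneg (mul_nonneg (hmm0 z) (K_nonneg z)) (integral_nonneg fun y => abs_nonneg _)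
        · show mm C a z * K d s z * (∫ y, |η (y + z) - η y|) ≤
            C₁ * (R ^ k * ρ ^ (d - k)) * (mm C a z * min 1 (‖z‖ / ρ) * K d s z)
          calc mm C a z * K d s z * (∫ y, |η (y + z) - η y|)
              ≤ mm C a z * K d s z * (C₁ * (R ^ k * ρ ^ (d - k)) * min 1 (‖z‖ / ρ)) :=
                mul_le_mul_of_nonneg_left (htr V R ρ hρ0 hR z) (mul_nonneg (hmm0 z) (K_nonneg z))
            _ = _ := by ring
    _ = C₁ * (R ^ k * ρ ^ (d - k)) * ∫ z : E d, mm C a z * min 1 (‖z‖ / ρ) * K d s z := integral_const_mul _ _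
    _ ≤ C₁ * (R ^ k * ρ ^ (d - k)) * (C₂ * ((1 + Real.log ρ) / ρ)) :=
        mul_le_mul_of_nonneg_left hle (by positivity)
    _ ≤ C₁ * C₂ * (R ^ k * (ρ ^ 2 * (1 + Real.log ρ))) := by
        have hl : 0 ≤ Real.log ρ := Real.log_nonneg hρ
        have e2 : ρ ^ (d - k) = ρ ^ (d - k - 1) * ρ := by
          rw [← pow_succ]
          congr 1
          omega
        have h3 : ρ ^ (d - k - 1) ≤ ρ ^ 2 := pow_le_pow_right₀ hρ (by omega)
        have e3 : C₁ * (R ^ k * ρ ^ (d - k)) * (C₂ * ((1 + Real.log ρ) / ρ)) =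
            C₁ * C₂ * (R ^ k * (ρ ^ (d - k - 1) * (1 + Real.log ρ))) := by
          rw [e2]
          field_simp
        rw [e3]
        refine mul_le_mul_of_nonneg_left ?_ (by positivity)
        refine mul_le_mul_of_nonneg_left ?_ (by positivity)
        exact mul_le_mul_of_nonneg_right h3 (by linarith)

end NDG
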