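import Pool.Agent.NDG.Pot

/-! # Sliding: energy of a monotone solution and of its limit -/

open MeasureTheory Filter Topology Set

noncomputable section

namespace NDG

variable {d : ℕ} {s c : ℝ}

/-- the kinetic energy with weight `η` -/
def Ie (d : ℕ) (s : ℝ) (u η : E d → ℝ) : ℝ := ∫ p : E d × E d, (u p.1 - u p.2) ^ 2 * (η p.1 * K d s (p.1 - p.2))

/-- the potential energy with weight `η` -/
def Fe {d : ℕ} (u η : E d → ℝ) : ℝ := ∫ x, (1 - u x ^ 2) ^ 2 / 4 * η x

/-- MODULE sa. `(u x - u y) ^ 2 ≤ mm ^ 2` (`mm_le`, `mm_int`, `prod_int`); the symmetric form. -/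
theorem Ie_int (hd : 1 ≤ d) (hs0 : 0 < s) (hs1 : s < 1) {C a : ℝ} (hC : 0 ≤ C) (ha : s < a) {u : E d → ℝ} (hu : HolC C a u)
    (huc : Continuous u) {η : E d → ℝ} (hη : Test η) :
    Integrable (fun p : E d × E d => (u p.1 - u p.2) ^ 2 * (η p.1 * K d s (p.1 - p.2))) ∧
    Integrable (fun p : E d × E d => (u p.1 - u p.2) ^ 2 * (η p.2 * K d s (p.1 - p.2))) ∧
    ∫ p : E d × E d, (u p.1 - u p.2) ^ 2 * (η p.2 * K d s (p.1 - p.2)) = Ie d s u η := by
  have hηc : Continuous η := by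
    obtain ⟨L, hL⟩ := hη.lip
    exact hL.continuous
  obtain ⟨h1, h2⟩ := prod_int hη.integrable (mm_int (s := s) hd hs0 hs1 hC ha).1
  have hK : Measurable (fun p : E d × E d => K d s (p.1 - p.2)) := K_meas.comp (measurable_fst.sub measurable_snd)
  have hu1 : Measurable (fun p : E d × E d => (u p.1 - u p.2) ^ 2) :=
    (((huc.comp continuous_fst).sub (huc.comp continuous_snd)).pow 2).measurable
  have hb : ∀ p : E d × E d, (u p.1 - u p.2) ^ 2 ≤ mm C a (p.1 - p.2) ^ 2 := by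
    intro p
    rw [← sq_abs (u p.1 - u p.2)]
    exact pow_le_pow_left₀ (abs_nonneg _) (mm_le hu p.1 p.2) 2
  have i1 : Integrable (fun p : E d × E d => (u p.1 - u p.2) ^ 2 * (η p.1 * K d s (p.1 - p.2))) := by
    refine h1.mono (hu1.mul (((hηc.comp continuous_fst).measurable).mul hK)).aestronglyMeasurable (ae_of_all _ ?_)
    intro p
    have e : η p.1 * (mm C a (p.1 - p.2) ^ 2 * K d s (p.1 - p.2)) = mm C a (p.1 - p.2) ^ 2 * (η p.1 * K d s (p.1 - p.2)) := by ring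
    show ‖(u p.1 - u p.2) ^ 2 * (η p.1 * K d s (p.1 - p.2))‖ ≤ ‖η p.1 * (mm C a (p.1 - p.2) ^ 2 * K d s (p.1 - p.2))‖
    rw [e, norm_mul, norm_mul (mm C a (p.1 - p.2) ^ 2), Real.norm_of_nonneg (sq_nonneg _), Real.norm_of_nonneg (sq_nonneg _)]
    exact mul_le_mul_of_nonneg_right (hb p) (norm_nonneg _)
  have i2 : Integrable (fun p : E d × E d => (u p.1 - u p.2) ^ 2 * (η p.2 * K d s (p.1 - p.2))) := by
    refine h2.mono (hu1.mul (((hηc.comp continuous_snd).measurable).mul hK)).aestronglyMeasurable (ae_of_all _ ?_)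
    intro p
    have e : η p.2 * (mm C a (p.1 - p.2) ^ 2 * K d s (p.1 - p.2)) = mm C a (p.1 - p.2) ^ 2 * (η p.2 * K d s (p.1 - p.2)) := by ring
    show ‖(u p.1 - u p.2) ^ 2 * (η p.2 * K d s (p.1 - p.2))‖ ≤ ‖η p.2 * (mm C a (p.1 - p.2) ^ 2 * K d s (p.1 - p.2))‖
    rw [e, norm_mul, norm_mul (mm C a (p.1 - p.2) ^ 2), Real.norm_of_nonneg (sq_nonneg _), Real.norm_of_nonneg (sq_nonneg _)]
    exact mul_le_mul_of_nonneg_right (hb p) (norm_nonneg _)
  refine ⟨i1, i2, ?_⟩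
  unfold Ie
  have h := MeasureTheory.integral_prod_swap (μ := (volume : Measure (E d))) (ν := (volume : Measure (E d)))
    (fun p : E d × E d => (u p.1 - u p.2) ^ 2 * (η p.1 * K d s (p.1 - p.2)))
  rw [Measure.volume_eq_prod, ← h]
  refine integral_congr_ae (ae_of_all _ fun p => ?_)
  simp only [Prod.fst_swap, Prod.snd_swap]
  rw [K_sub_comm p.2 p.1]
  ring

/-- MODULE sa. -/
theorem Ie_en (hd : 1 ≤ d) (hs0 : 0 < s) (hs1 : s < 1) {C a : ℝ} (hC : 0 ≤ C) (ha : s < a) {u : E d → ℝ} (hu : HolC C a u)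
    (huc : Continuous u) {η : E d → ℝ} (hη : Test η) (hη0 : ∀ x, 0 ≤ η x) :
    ENNReal.ofReal (Ie d s u η) = ∫⁻ x, ENNReal.ofReal (η x) * en d s u x := by
  have hηc : Continuous η := by
    obtain ⟨L, hL⟩ := hη.lip
    exact hL.continuous
  have hK : Measurable (fun p : E d × E d => K d s (p.1 - p.2)) := K_meas.comp (measurable_fst.sub measurable_snd)
  have hu1 : Measurable (fun p : E d × E d => (u p.1 - u p.2) ^ 2) :=
    (((huc.comp continuous_fst).sub (huc.comp continuous_snd)).pow 2).measurable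
  have hm : Measurable (fun p : E d × E d => (u p.1 - u p.2) ^ 2 * (η p.1 * K d s (p.1 - p.2))) :=
    hu1.mul (((hηc.comp continuous_fst).measurable).mul hK)
  unfold Ie
  rw [ofReal_integral_eq_lintegral_ofReal (Ie_int hd hs0 hs1 hC ha hu huc hη).1
    (ae_of_all _ fun p => mul_nonneg (sq_nonneg _) (mul_nonneg (hη0 _) (K_nonneg _))), Measure.volume_eq_prod,
    lintegral_prod _ (hm.ennreal_ofReal).aemeasurable]
  refine lintegral_congr fun x => ?_
  unfold en
  rw [← lintegral_const_mul' _ _ ENNReal.ofReal_ne_top]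
  refine lintegral_congr fun y => ?_
  rw [← ENNReal.ofReal_mul (hη0 x)]
  congr 1
  show (u x - u y) ^ 2 * (η x * K d s (x - y)) = η x * ((u x - u y) ^ 2 * K d s (x - y))
  ring

/-- MODULE sb. `F b - F a = -(1/2) (f a + f b) (b - a) - (1/4) (b - a) ^ 3 (a + b)` for `F t = (1 - t ^ 2) ^ 2 / 4`, `f t = t - t ^ 3`. -/
theorem trap (a b : ℝ) : (1 - b ^ 2) ^ 2 / 4 - (1 - a ^ 2) ^ 2 / 4 =
    -(1 / 2) * ((a - a ^ 3) + (b - b ^ 3)) * (b - a) - 1 / 4 * (b - a) ^ 3 * (a + b) := by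
  ring

private theorem sc_hol {C a : ℝ} {u : E d → ℝ} (hu : HolC C a u) (h : E d) : HolC C a (fun x => u (x + h)) := by
  refine ⟨fun x => hu.1 _, fun x y => ?_⟩
  have h1 := hu.2 (x + h) (y + h)
  have h2 : x + h - (y + h) = x - y := by abel
  rwa [h2] at h1

private theorem sc_bdd {η : E d → ℝ} (hη : Test η) {g : E d → ℝ} (hg : Continuous g) {B : ℝ} (hB : ∀ x, |g x| ≤ B) :
    Integrable (fun x => g x * η x) :=
  hη.integrable.bdd_mul hg.aestronglyMeasurable (Filter.Eventually.of_forall fun x => by simpa using hB x)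

private theorem sc_mm_cont {C a : ℝ} (ha : 0 < a) : Continuous (fun z : E d => mm C a z) := by
  unfold mm
  exact continuous_const.min (continuous_const.mul (continuous_norm.rpow_const fun x => Or.inr ha.le))

private theorem sc_mm_nonneg {C a : ℝ} (hC : 0 ≤ C) (z : E d) : 0 ≤ mm C a z := by
  unfold mm
  exact le_min (by norm_num) (by positivity)

private theorem sc_mm_comm {C a : ℝ} (x y : E d) : mm C a (x - y) = mm C a (y - x) := by
  unfold mm
  rw [norm_sub_rev]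

private theorem sc_q (hd : 1 ≤ d) (hs0 : 0 < s) (hs1 : s < 1) {C a : ℝ} (hC : 0 ≤ C) (ha : s < a) {η : E d → ℝ} (hη : Test η)
    {D : E d → ℝ} (hD : Continuous D) (hD2 : ∀ x, |D x| ≤ 2) :
    Integrable (fun p : E d × E d => mm C a (p.1 - p.2) * D p.1 * |η p.1 - η p.2| * K d s (p.1 - p.2)) ∧
    Integrable (fun p : E d × E d => mm C a (p.1 - p.2) * D p.2 * |η p.1 - η p.2| * K d s (p.1 - p.2)) ∧
    ∫ p : E d × E d, mm C a (p.1 - p.2) * D p.2 * |η p.1 - η p.2| * K d s (p.1 - p.2) =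
      ∫ p : E d × E d, mm C a (p.1 - p.2) * D p.1 * |η p.1 - η p.2| * K d s (p.1 - p.2) := by
  have hP := Ph_int hd hs0 hs1 hC ha hη
  have e1 : (fun p : E d × E d => mm C a (p.1 - p.2) * D p.1 * |η p.1 - η p.2| * K d s (p.1 - p.2)) =
      fun p : E d × E d => D p.1 * (mm C a (p.1 - p.2) * |η p.1 - η p.2| * K d s (p.1 - p.2)) := by
    funext p; ring
  have e2 : (fun p : E d × E d => mm C a (p.1 - p.2) * D p.2 * |η p.1 - η p.2| * K d s (p.1 - p.2)) =
      fun p : E d × E d => D p.2 * (mm C a (p.1 - p.2) * |η p.1 - η p.2| * K d s (p.1 - p.2)) := by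
    funext p; ring
  refine ⟨?_, ?_, ?_⟩
  · rw [e1]
    exact hP.bdd_mul (hD.comp continuous_fst).aestronglyMeasurable
      (Filter.Eventually.of_forall fun p => by simpa using hD2 p.1)
  · rw [e2]
    exact hP.bdd_mul (hD.comp continuous_snd).aestronglyMeasurable
      (Filter.Eventually.of_forall fun p => by simpa using hD2 p.2)
  · have h1 := integral_prod_swap (μ := (volume : Measure (E d))) (ν := (volume : Measure (E d)))
      (fun p : E d × E d => mm C a (p.1 - p.2) * D p.1 * |η p.1 - η p.2| * K d s (p.1 - p.2))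
    have h2 : ∀ p : E d × E d, mm C a (p.swap.1 - p.swap.2) * D p.swap.1 * |η p.swap.1 - η p.swap.2| * K d s (p.swap.1 - p.swap.2) =
        mm C a (p.1 - p.2) * D p.2 * |η p.1 - η p.2| * K d s (p.1 - p.2) := by
      intro p
      show mm C a (p.2 - p.1) * D p.2 * |η p.2 - η p.1| * K d s (p.2 - p.1) = _
      rw [sc_mm_comm p.2 p.1, K_sub_comm p.2 p.1, abs_sub_comm (η p.2)]
    rw [← Measure.volume_eq_prod] at h1
    rw [← h1]
    exact integral_congr_ae (Filter.Eventually.of_forall fun p => (h2 p).symm)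

/-- MODULE sc. ONE STEP.  `u₁ = u (· + h)`, `D = u₁ - u ≥ 0`, `δu = u x - u y` etc.  `weak` for `u` and for `u₁` (`Entire.shift`) with the test function `D η` (`Test.mul_left`), mean value of the two:
`(c/4) ∫ (δu + δu₁) ((1/2) δD (η + η') + (1/2) (D + D') δη) K = (1/2) ∫ (f u + f u₁) D η`, and `(c/8) ∫ (δu₁ ^ 2 - δu ^ 2) (η + η') K = (c/8) ∫ (δu + δu₁) δD (η + η') K` is the difference of the kinetic energies `(c/4) Ie`; with `trap` the sum of the energies
changes by `-(c/8) ∫ (δu + δu₁) (D + D') δη K - (1/4) ∫ D ^ 3 (u + u₁) η ≥ -(c/2) ∫ mm D |δη| K - (1/2) ∫ D ^ 3 η`. -/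
theorem one_step (hd : 1 ≤ d) (hs0 : 0 < s) (hs1 : s < 1) (hc : 0 < c) {C a : ℝ} (hC : 0 ≤ C) (ha : s < a) {u : E d → ℝ}
    (hu : Entire d s c u) (hH : HolC C a u) {h : E d} (hinc : ∀ x, u x ≤ u (x + h)) {η : E d → ℝ} (hη : Test η) (hη0 : ∀ x, 0 ≤ η x) :
    c / 4 * Ie d s u η + Fe u η ≤ c / 4 * Ie d s (fun x => u (x + h)) η + Fe (fun x => u (x + h)) η +
      c / 2 * (∫ p : E d × E d, mm C a (p.1 - p.2) * (u (p.1 + h) - u p.1) * |η p.1 - η p.2| * K d s (p.1 - p.2)) +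
      1 / 2 * ∫ x, (u (x + h) - u x) ^ 3 * η x := by
  have hu1 : Entire d s c (fun x => u (x + h)) := hu.shift h
  have hH1 : HolC C a (fun x => u (x + h)) := sc_hol hH h
  have hL : LocLip u := hu.locLip
  have hL1 : LocLip (fun x => u (x + h)) := hu1.locLip
  have hLD : LocLip (fun x => u (x + h) - u x) := hL1.sub hL
  have hψ : Test (fun x => (u (x + h) - u x) * η x) := Test.mul_left hLD hη
  have huc : Continuous u := hL.continuous
  have huc1 : Continuous (fun x => u (x + h)) := hL1.continuous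
  have w0 := weak hd hs0 hs1 hu hψ
  have w1 := weak hd hs0 hs1 hu1 hψ
  have iA1 := form_int hd hs0 hs1 hL hH.1 hψ
  have iA2 := form_int hd hs0 hs1 hL1 hH1.1 hψ
  obtain ⟨iB1, iB1', eB1⟩ := Ie_int hd hs0 hs1 hC ha hH huc hη
  obtain ⟨iB2, iB2', eB2⟩ := Ie_int hd hs0 hs1 hC ha hH1 huc1 hη
  have hD2 : ∀ x, |u (x + h) - u x| ≤ 2 := by
    intro x
    have h1 := abs_le.1 (hH.1 (x + h))
    have h2 := abs_le.1 (hH.1 x)
    rw [abs_le]; constructor <;> linarith [h1.1, h1.2, h2.1, h2.2]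
  have hDc : Continuous (fun x => u (x + h) - u x) := huc1.sub huc
  obtain ⟨iQ, iQ', eQ⟩ := sc_q hd hs0 hs1 hC ha hη hDc hD2
  set Q : ℝ := ∫ p : E d × E d, mm C a (p.1 - p.2) * (u (p.1 + h) - u p.1) * |η p.1 - η p.2| * K d s (p.1 - p.2) with hQ
  -- the error term
  have hE : ∫ p : E d × E d, (2 * ((u p.1 - u p.2) * ((u (p.1 + h) - u p.1) * η p.1 - (u (p.2 + h) - u p.2) * η p.2) * K d s (p.1 - p.2) +
        (u (p.1 + h) - u (p.2 + h)) * ((u (p.1 + h) - u p.1) * η p.1 - (u (p.2 + h) - u p.2) * η p.2) * K d s (p.1 - p.2)) -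
        (((u (p.1 + h) - u (p.2 + h)) ^ 2 * (η p.1 * K d s (p.1 - p.2)) + (u (p.1 + h) - u (p.2 + h)) ^ 2 * (η p.2 * K d s (p.1 - p.2))) -
        ((u p.1 - u p.2) ^ 2 * (η p.1 * K d s (p.1 - p.2)) + (u p.1 - u p.2) ^ 2 * (η p.2 * K d s (p.1 - p.2))))) ≤ 4 * Q := by
    have e4 : 4 * Q = ∫ p : E d × E d, (2 * (mm C a (p.1 - p.2) * (u (p.1 + h) - u p.1) * |η p.1 - η p.2| * K d s (p.1 - p.2)) +
        2 * (mm C a (p.1 - p.2) * (u (p.2 + h) - u p.2) * |η p.1 - η p.2| * K d s (p.1 - p.2))) := by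
      rw [integral_add (iQ.const_mul 2) (iQ'.const_mul 2), integral_const_mul, integral_const_mul, eQ, ← hQ]
      ring
    rw [e4]
    refine integral_mono (((iA1.add iA2).const_mul 2).sub ((iB2.add iB2').sub (iB1.add iB1'))) ((iQ.const_mul 2).add (iQ'.const_mul 2)) ?_
    intro p
    show 2 * ((u p.1 - u p.2) * ((u (p.1 + h) - u p.1) * η p.1 - (u (p.2 + h) - u p.2) * η p.2) * K d s (p.1 - p.2) +
        (u (p.1 + h) - u (p.2 + h)) * ((u (p.1 + h) - u p.1) * η p.1 - (u (p.2 + h) - u p.2) * η p.2) * K d s (p.1 - p.2)) -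
        (((u (p.1 + h) - u (p.2 + h)) ^ 2 * (η p.1 * K d s (p.1 - p.2)) + (u (p.1 + h) - u (p.2 + h)) ^ 2 * (η p.2 * K d s (p.1 - p.2))) -
        ((u p.1 - u p.2) ^ 2 * (η p.1 * K d s (p.1 - p.2)) + (u p.1 - u p.2) ^ 2 * (η p.2 * K d s (p.1 - p.2)))) ≤
      2 * (mm C a (p.1 - p.2) * (u (p.1 + h) - u p.1) * |η p.1 - η p.2| * K d s (p.1 - p.2)) +
        2 * (mm C a (p.1 - p.2) * (u (p.2 + h) - u p.2) * |η p.1 - η p.2| * K d s (p.1 - p.2))
    have hK := K_nonneg (d := d) (s := s) (p.1 - p.2)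
    have hm0 := mm_le hH p.1 p.2
    have hm1 : |u (p.1 + h) - u (p.2 + h)| ≤ mm C a (p.1 - p.2) := mm_le hH1 p.1 p.2
    have hd1 := hinc p.1
    have hd2 := hinc p.2
    set A := u p.1 - u p.2 with hA
    set B := u (p.1 + h) - u (p.2 + h) with hB
    set D1 := u (p.1 + h) - u p.1 with hD1
    set D2 := u (p.2 + h) - u p.2 with hD2
    have hBA : B - A = D1 - D2 := by rw [hA, hB, hD1, hD2]; ring
    have hd1' : 0 ≤ D1 := by rw [hD1]; linarith
    have hd2' : 0 ≤ D2 := by rw [hD2]; linarith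
    set k := K d s (p.1 - p.2) with hk
    set m := mm C a (p.1 - p.2) with hm
    have e5 : 2 * (A * (D1 * η p.1 - D2 * η p.2) * k + B * (D1 * η p.1 - D2 * η p.2) * k) -
        ((B ^ 2 * (η p.1 * k) + B ^ 2 * (η p.2 * k)) - (A ^ 2 * (η p.1 * k) + A ^ 2 * (η p.2 * k))) =
        (A + B) * (D1 + D2) * (η p.1 - η p.2) * k := by
      have hB' : B = A + D1 - D2 := by linarith
      rw [hB']; ring
    rw [e5]
    have h6 : (A + B) * (η p.1 - η p.2) ≤ 2 * m * |η p.1 - η p.2| := by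
      refine (le_abs_self _).trans ?_
      rw [abs_mul]
      have h7 : |A + B| ≤ 2 * m := (abs_add_le _ _).trans (by linarith)
      exact mul_le_mul_of_nonneg_right h7 (abs_nonneg _)
    calc (A + B) * (D1 + D2) * (η p.1 - η p.2) * k = ((A + B) * (η p.1 - η p.2)) * ((D1 + D2) * k) := by ring
      _ ≤ (2 * m * |η p.1 - η p.2|) * ((D1 + D2) * k) := mul_le_mul_of_nonneg_right h6 (by positivity)
      _ = _ := by ring
  have hEv : ∫ p : E d × E d, (2 * ((u p.1 - u p.2) * ((u (p.1 + h) - u p.1) * η p.1 - (u (p.2 + h) - u p.2) * η p.2) * K d s (p.1 - p.2) +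
        (u (p.1 + h) - u (p.2 + h)) * ((u (p.1 + h) - u p.1) * η p.1 - (u (p.2 + h) - u p.2) * η p.2) * K d s (p.1 - p.2)) -
        (((u (p.1 + h) - u (p.2 + h)) ^ 2 * (η p.1 * K d s (p.1 - p.2)) + (u (p.1 + h) - u (p.2 + h)) ^ 2 * (η p.2 * K d s (p.1 - p.2))) -
        ((u p.1 - u p.2) ^ 2 * (η p.1 * K d s (p.1 - p.2)) + (u p.1 - u p.2) ^ 2 * (η p.2 * K d s (p.1 - p.2))))) =
      2 * ((∫ p : E d × E d, (u p.1 - u p.2) * ((u (p.1 + h) - u p.1) * η p.1 - (u (p.2 + h) - u p.2) * η p.2) * K d s (p.1 - p.2)) +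
        ∫ p : E d × E d, (u (p.1 + h) - u (p.2 + h)) * ((u (p.1 + h) - u p.1) * η p.1 - (u (p.2 + h) - u p.2) * η p.2) * K d s (p.1 - p.2)) -
        (2 * Ie d s (fun x => u (x + h)) η - 2 * Ie d s u η) := by
    have i1 := (iA1.add iA2).const_mul 2
    have i2 := (iB2.add iB2').sub (iB1.add iB1')
    have h1 := integral_sub i1 i2
    have h2 := integral_const_mul (μ := (volume : Measure (E d × E d))) 2 (fun p : E d × E d =>
      (u p.1 - u p.2) * ((u (p.1 + h) - u p.1) * η p.1 - (u (p.2 + h) - u p.2) * η p.2) * K d s (p.1 - p.2) +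
        (u (p.1 + h) - u (p.2 + h)) * ((u (p.1 + h) - u p.1) * η p.1 - (u (p.2 + h) - u p.2) * η p.2) * K d s (p.1 - p.2))
    have h3 := integral_add iA1 iA2
    have h4 := integral_sub (iB2.add iB2') (iB1.add iB1')
    have h5 := integral_add iB2 iB2'
    have h6 := integral_add iB1 iB1'
    have h7 : ∫ p : E d × E d, (u (p.1 + h) - u (p.2 + h)) ^ 2 * (η p.1 * K d s (p.1 - p.2)) = Ie d s (fun x => u (x + h)) η := rfl
    have h8 : ∫ p : E d × E d, (u p.1 - u p.2) ^ 2 * (η p.1 * K d s (p.1 - p.2)) = Ie d s u η := rfl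
    simp only [Pi.add_apply, Pi.sub_apply] at h1 h2 h3 h4 h5 h6
    rw [h1, h2, h3, h4, h5, h6, h7, h8, eB1, eB2]
    ring
  -- potential
  have hcF : ∀ v : E d → ℝ, (∀ x, |v x| ≤ 1) → ∀ x, |(1 - v x ^ 2) ^ 2 / 4| ≤ 1 := by
    intro v hv x
    have h1 : v x ^ 2 ≤ 1 := by rw [← sq_abs]; exact pow_le_one₀ (abs_nonneg _) (hv x)
    have h2 : 0 ≤ v x ^ 2 := sq_nonneg _
    rw [abs_of_nonneg (by positivity)]
    nlinarith
  have iF0 : Integrable (fun x => (1 - u x ^ 2) ^ 2 / 4 * η x) :=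
    sc_bdd hη (((continuous_const.sub (huc.pow 2)).pow 2).div_const 4) (hcF u hH.1)
  have iF1 : Integrable (fun x => (1 - u (x + h) ^ 2) ^ 2 / 4 * η x) :=
    sc_bdd hη (((continuous_const.sub (huc1.pow 2)).pow 2).div_const 4) (hcF (fun x => u (x + h)) hH1.1)
  have hcf : ∀ v : E d → ℝ, Continuous v → (∀ x, |v x| ≤ 1) → Integrable (fun x => (v x - v x ^ 3) * ((u (x + h) - u x) * η x)) := by
    intro v hv hv1
    have h1 := sc_bdd hη ((hv.sub (hv.pow 3)).mul hDc) (B := 4) (by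
      intro x
      have h2 := hD2 x
      have h3 := hv1 x
      rw [Pi.mul_apply, abs_mul]
      have h4 : |v x - v x ^ 3| ≤ 2 := by
        refine (abs_sub _ _).trans ?_
        rw [abs_pow]
        have : |v x| ^ 3 ≤ 1 := pow_le_one₀ (abs_nonneg _) h3
        linarith
      calc |v x - v x ^ 3| * |u (x + h) - u x| ≤ 2 * 2 := mul_le_mul h4 h2 (abs_nonneg _) (by norm_num)
        _ = 4 := by norm_num)
    refine h1.congr (Filter.Eventually.of_forall fun x => ?_)
    show (v x - v x ^ 3) * (u (x + h) - u x) * η x = _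
    ring
  have if0 := hcf u huc hH.1
  have if1 := hcf (fun x => u (x + h)) huc1 hH1.1
  have iD3 : Integrable (fun x => (u (x + h) - u x) ^ 3 * η x) := by
    refine sc_bdd hη (hDc.pow 3) (B := 8) fun x => ?_
    show |(u (x + h) - u x) ^ 3| ≤ 8
    rw [abs_pow]
    calc |u (x + h) - u x| ^ 3 ≤ 2 ^ 3 := pow_le_pow_left₀ (abs_nonneg _) (hD2 x) 3
      _ = 8 := by norm_num
  have iD3' : Integrable (fun x => (u (x + h) - u x) ^ 3 * (u x + u (x + h)) * η x) := by
    refine sc_bdd hη ((hDc.pow 3).mul (huc.add huc1)) (B := 16) fun x => ?_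
    show |(u (x + h) - u x) ^ 3 * (u x + u (x + h))| ≤ 16
    rw [abs_mul, abs_pow]
    have h1 : |u (x + h) - u x| ^ 3 ≤ 2 ^ 3 := pow_le_pow_left₀ (abs_nonneg _) (hD2 x) 3
    have h2 : |u x + u (x + h)| ≤ 2 := (abs_add_le _ _).trans (by linarith [hH.1 x, hH.1 (x + h)])
    calc |u (x + h) - u x| ^ 3 * |u x + u (x + h)| ≤ 2 ^ 3 * 2 := mul_le_mul h1 h2 (abs_nonneg _) (by norm_num)
      _ = 16 := by norm_num
  have hF : Fe (fun x => u (x + h)) η - Fe u η = -(1 / 2) * ((∫ x, (u x - u x ^ 3) * ((u (x + h) - u x) * η x)) +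
      ∫ x, (u (x + h) - u (x + h) ^ 3) * ((u (x + h) - u x) * η x)) - 1 / 4 * ∫ x, (u (x + h) - u x) ^ 3 * (u x + u (x + h)) * η x := by
    have ifs : Integrable (fun x => (u x - u x ^ 3) * ((u (x + h) - u x) * η x) +
      (u (x + h) - u (x + h) ^ 3) * ((u (x + h) - u x) * η x)) := if0.add if1
    unfold Fe
    rw [← integral_sub iF1 iF0, ← integral_add if0 if1, ← integral_const_mul, ← integral_const_mul,
      ← integral_sub (ifs.const_mul _) (iD3'.const_mul _)]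
    refine integral_congr_ae (Filter.Eventually.of_forall fun x => ?_)
    show (1 - u (x + h) ^ 2) ^ 2 / 4 * η x - (1 - u x ^ 2) ^ 2 / 4 * η x = _
    have h1 := trap (u x) (u (x + h))
    rw [← sub_mul, h1]
    ring
  have hlast : ∫ x, (u (x + h) - u x) ^ 3 * (u x + u (x + h)) * η x ≤ 2 * ∫ x, (u (x + h) - u x) ^ 3 * η x := by
    rw [← integral_const_mul]
    refine integral_mono iD3' (iD3.const_mul 2) fun x => ?_
    show (u (x + h) - u x) ^ 3 * (u x + u (x + h)) * η x ≤ 2 * ((u (x + h) - u x) ^ 3 * η x)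
    have h1 : 0 ≤ (u (x + h) - u x) ^ 3 := pow_nonneg (by linarith [hinc x]) 3
    have h2 : u x + u (x + h) ≤ 2 := by linarith [(abs_le.1 (hH.1 x)).2, (abs_le.1 (hH.1 (x + h))).2]
    nlinarith [mul_nonneg h1 (hη0 x)]
  rw [hEv] at hE
  -- combine
  set I0 := ∫ p : E d × E d, (u p.1 - u p.2) * ((u (p.1 + h) - u p.1) * η p.1 - (u (p.2 + h) - u p.2) * η p.2) * K d s (p.1 - p.2) with hI0
  set I1 := ∫ p : E d × E d, (u (p.1 + h) - u (p.2 + h)) * ((u (p.1 + h) - u p.1) * η p.1 - (u (p.2 + h) - u p.2) * η p.2) * K d s (p.1 - p.2) with hI1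
  have w0' : c / 2 * I0 = ∫ x, (u x - u x ^ 3) * ((u (x + h) - u x) * η x) := w0
  have w1' : c / 2 * I1 = ∫ x, (u (x + h) - u (x + h) ^ 3) * ((u (x + h) - u x) * η x) := w1
  rw [← w0', ← w1'] at hF
  nlinarith [mul_le_mul_of_nonneg_left hE (by positivity : 0 ≤ c / 8)]

/-- MODULE sd. SLIDING.  `one_step` for `u (· + (i / n) e)`, `i < n`, step `h = (1 / n) e` (`e` arbitrary long: here `T e`); sum up: the sum of the `D_i` is `u (x + e) - u x ≤ 2`, `D_i ≤ C (‖e‖ / n) ^ a`, so the errors are at most `c Ph` and `(C (‖e‖ / n) ^ a) ^ 2 ∫ η → 0`. -/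
theorem slide (hd : 1 ≤ d) (hs0 : 0 < s) (hs1 : s < 1) (hc : 0 < c) {C a : ℝ} (hC : 0 ≤ C) (ha : s < a) {u : E d → ℝ}
    (hu : Entire d s c u) (hH : HolC C a u) {e : E d} (hinc : Inc u e) {η : E d → ℝ} (hη : Test η) (hη0 : ∀ x, 0 ≤ η x)
    {T : ℝ} (hT : 0 ≤ T) :
    c / 4 * Ie d s u η + Fe u η ≤ c / 4 * Ie d s (fun x => u (x + T • e)) η + Fe (fun x => u (x + T • e)) η + c * Ph d s C a η := by
  have hu1 : ∀ h : E d, Entire d s c (fun x => u (x + h)) := fun h => hu.shift h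
  have huc : ∀ h : E d, Continuous (fun x => u (x + h)) := fun h => (hu1 h).locLip.continuous
  have ha0 : 0 < a := hs0.trans ha
  have hb : ∀ h h' : E d, ∀ x, |u (x + h') - u (x + h)| ≤ 2 := by
    intro h h' x
    have h1 := abs_le.1 (hH.1 (x + h'))
    have h2 := abs_le.1 (hH.1 (x + h))
    rw [abs_le]; constructor <;> linarith [h1.1, h1.2, h2.1, h2.2]
  have iη : Integrable η := hη.integrable
  -- n steps
  have key : ∀ n : ℕ, 0 < n → c / 4 * Ie d s u η + Fe u η ≤ c / 4 * Ie d s (fun x => u (x + T • e)) η + Fe (fun x => u (x + T • e)) η +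
      c * Ph d s C a η + (C * ((T * ‖e‖) / n) ^ a) ^ 2 * ∫ x, η x := by
    intro n hn
    have hn' : (0:ℝ) < n := by exact_mod_cast hn
    set h : E d := (T / n) • e with hh
    have hhn : ‖h‖ = (T * ‖e‖) / n := by
      rw [hh, norm_smul, Real.norm_eq_abs, abs_of_nonneg (by positivity)]; ring
    have hstep : ∀ x (i : ℕ), x + (i : ℝ) • h + h = x + ((i + 1 : ℕ) : ℝ) • h := by
      intro x i
      push_cast
      rw [add_smul, one_smul, add_assoc]
    have hincr : ∀ (i : ℕ) x, u (x + (i : ℝ) • h) ≤ u (x + ((i + 1 : ℕ) : ℝ) • h) := by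
      intro i x
      rw [← hstep x i]
      exact hinc _ _ (by positivity)
    set m := (C * ((T * ‖e‖) / n) ^ a) with hm
    have hm0 : 0 ≤ m := by positivity
    have hDm : ∀ (i : ℕ) x, u (x + ((i + 1 : ℕ) : ℝ) • h) - u (x + (i : ℝ) • h) ≤ m := by
      intro i x
      have h1 := (le_abs_self _).trans (hH.2 (x + ((i + 1 : ℕ) : ℝ) • h) (x + (i : ℝ) • h))
      have h2 : x + ((i + 1 : ℕ) : ℝ) • h - (x + (i : ℝ) • h) = h := by
        rw [← hstep x i]; abel
      rw [h2, hhn] at h1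
      exact h1
    -- induction over the number of steps
    have hind : ∀ k : ℕ, c / 4 * Ie d s u η + Fe u η ≤ c / 4 * Ie d s (fun x => u (x + (k : ℝ) • h)) η + Fe (fun x => u (x + (k : ℝ) • h)) η +
        c / 2 * (∫ p : E d × E d, mm C a (p.1 - p.2) * (u (p.1 + (k : ℝ) • h) - u p.1) * |η p.1 - η p.2| * K d s (p.1 - p.2)) +
        1 / 2 * (m ^ 2 * ∫ x, (u (x + (k : ℝ) • h) - u x) * η x) := by
      intro k
      induction k with
      | zero => simp
      | succ k ih =>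
        have h1 := one_step hd hs0 hs1 hc hC ha (hu1 ((k : ℝ) • h)) (sc_hol hH ((k : ℝ) • h)) (h := h)
          (fun x => by
            have := hincr k x
            rw [← hstep x k] at this
            have e1 : x + h + (k : ℝ) • h = x + (k : ℝ) • h + h := by abel
            show u (x + (k : ℝ) • h) ≤ u (x + h + (k : ℝ) • h)
            rw [e1]; exact this) hη hη0
        have e1 : ∀ x : E d, x + h + (k : ℝ) • h = x + ((k + 1 : ℕ) : ℝ) • h := by
          intro x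
          rw [← hstep x k]; abel
        simp only [e1] at h1
        -- first error
        have q1 := (sc_q hd hs0 hs1 hC ha hη (D := fun x => u (x + ((k + 1 : ℕ) : ℝ) • h) - u (x + (k : ℝ) • h)) ((huc (((k + 1 : ℕ) : ℝ) • h)).sub (huc ((k : ℝ) • h))) (fun x => hb _ _ x)).1
        have q0 := (sc_q hd hs0 hs1 hC ha hη (D := fun x => u (x + (k : ℝ) • h) - u x) ((huc ((k : ℝ) • h)).sub (hu.locLip.continuous)) (fun x => by
          have := hb 0 ((k : ℝ) • h) x
          rw [add_zero] at this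
          exact this)).1
        have e2 : (∫ p : E d × E d, mm C a (p.1 - p.2) * (u (p.1 + ((k + 1 : ℕ) : ℝ) • h) - u p.1) * |η p.1 - η p.2| * K d s (p.1 - p.2)) =
            (∫ p : E d × E d, mm C a (p.1 - p.2) * (u (p.1 + ((k + 1 : ℕ) : ℝ) • h) - u (p.1 + (k : ℝ) • h)) * |η p.1 - η p.2| * K d s (p.1 - p.2)) +
            ∫ p : E d × E d, mm C a (p.1 - p.2) * (u (p.1 + (k : ℝ) • h) - u p.1) * |η p.1 - η p.2| * K d s (p.1 - p.2) := by
          rw [← integral_add q1 q0]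
          refine integral_congr_ae (Filter.Eventually.of_forall fun p => ?_)
          show mm C a (p.1 - p.2) * (u (p.1 + ((k + 1 : ℕ) : ℝ) • h) - u p.1) * |η p.1 - η p.2| * K d s (p.1 - p.2) = _
          ring
        -- second error
        have r1 : Integrable (fun x => (u (x + ((k + 1 : ℕ) : ℝ) • h) - u (x + (k : ℝ) • h)) * η x) :=
          sc_bdd hη ((huc (((k + 1 : ℕ) : ℝ) • h)).sub (huc ((k : ℝ) • h))) (fun x => hb _ _ x)
        have r0 : Integrable (fun x => (u (x + (k : ℝ) • h) - u x) * η x) :=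
          sc_bdd hη ((huc ((k : ℝ) • h)).sub (hu.locLip.continuous)) (B := 2) (fun x => by
            have := hb 0 ((k : ℝ) • h) x
            rw [add_zero] at this
            exact this)
        have r3 : Integrable (fun x => (u (x + ((k + 1 : ℕ) : ℝ) • h) - u (x + (k : ℝ) • h)) ^ 3 * η x) := by
          refine sc_bdd hη (((huc (((k + 1 : ℕ) : ℝ) • h)).sub (huc ((k : ℝ) • h))).pow 3) (B := 8) fun x => ?_
          show |(u (x + ((k + 1 : ℕ) : ℝ) • h) - u (x + (k : ℝ) • h)) ^ 3| ≤ 8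
          rw [abs_pow]
          calc _ ≤ (2:ℝ) ^ 3 := pow_le_pow_left₀ (abs_nonneg _) (hb _ _ x) 3
            _ = 8 := by norm_num
        have e3 : ∫ x, (u (x + ((k + 1 : ℕ) : ℝ) • h) - u x) * η x =
            (∫ x, (u (x + ((k + 1 : ℕ) : ℝ) • h) - u (x + (k : ℝ) • h)) * η x) + ∫ x, (u (x + (k : ℝ) • h) - u x) * η x := by
          rw [← integral_add r1 r0]
          refine integral_congr_ae (Filter.Eventually.of_forall fun x => ?_)
          show (u (x + ((k + 1 : ℕ) : ℝ) • h) - u x) * η x = _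
          ring
        have e4 : ∫ x, (u (x + ((k + 1 : ℕ) : ℝ) • h) - u (x + (k : ℝ) • h)) ^ 3 * η x ≤
            m ^ 2 * ∫ x, (u (x + ((k + 1 : ℕ) : ℝ) • h) - u (x + (k : ℝ) • h)) * η x := by
          rw [← integral_const_mul]
          refine integral_mono r3 (r1.const_mul _) fun x => ?_
          show (u (x + ((k + 1 : ℕ) : ℝ) • h) - u (x + (k : ℝ) • h)) ^ 3 * η x ≤
            m ^ 2 * ((u (x + ((k + 1 : ℕ) : ℝ) • h) - u (x + (k : ℝ) • h)) * η x)
          have h2 := hDm k x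
          have h3 := hincr k x
          set D := u (x + ((k + 1 : ℕ) : ℝ) • h) - u (x + (k : ℝ) • h) with hD
          have h4 : 0 ≤ D := by rw [hD]; linarith
          have h5 : D ^ 2 ≤ m ^ 2 := pow_le_pow_left₀ h4 h2 2
          calc D ^ 3 * η x = D ^ 2 * (D * η x) := by ring
            _ ≤ m ^ 2 * (D * η x) := mul_le_mul_of_nonneg_right h5 (mul_nonneg h4 (hη0 x))
        rw [e2, e3]
        linarith
    have hfin := hind n
    have e5 : (n : ℝ) • h = T • e := by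
      rw [hh, smul_smul]; congr 1; field_simp
    rw [e5] at hfin
    have hP := Ph_int hd hs0 hs1 hC ha hη
    have qn := (sc_q hd hs0 hs1 hC ha hη (D := fun x => u (x + T • e) - u x) ((huc (T • e)).sub (hu.locLip.continuous)) (fun x => by
          have := hb 0 (T • e) x
          rw [add_zero] at this
          exact this)).1
    have g1 : ∫ p : E d × E d, mm C a (p.1 - p.2) * (u (p.1 + T • e) - u p.1) * |η p.1 - η p.2| * K d s (p.1 - p.2) ≤ 2 * Ph d s C a η := by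
      unfold Ph
      rw [← integral_const_mul]
      refine integral_mono qn (hP.const_mul 2) fun p => ?_
      show mm C a (p.1 - p.2) * (u (p.1 + T • e) - u p.1) * |η p.1 - η p.2| * K d s (p.1 - p.2) ≤
        2 * (mm C a (p.1 - p.2) * |η p.1 - η p.2| * K d s (p.1 - p.2))
      have h1 : u (p.1 + T • e) - u p.1 ≤ 2 := by
        have := hb 0 (T • e) p.1
        rw [add_zero] at this
        exact (le_abs_self _).trans this
      have h2 : 0 ≤ mm C a (p.1 - p.2) * |η p.1 - η p.2| * K d s (p.1 - p.2) :=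
        mul_nonneg (mul_nonneg (sc_mm_nonneg hC _) (abs_nonneg _)) (K_nonneg _)
      calc _ = (u (p.1 + T • e) - u p.1) * (mm C a (p.1 - p.2) * |η p.1 - η p.2| * K d s (p.1 - p.2)) := by ring
        _ ≤ _ := mul_le_mul_of_nonneg_right h1 h2
    have g2 : ∫ x, (u (x + T • e) - u x) * η x ≤ 2 * ∫ x, η x := by
      rw [← integral_const_mul]
      refine integral_mono (sc_bdd hη ((huc (T • e)).sub (hu.locLip.continuous)) (B := 2) (fun x => by
            have := hb 0 (T • e) x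
            rw [add_zero] at this
            exact this)) (iη.const_mul 2) fun x => ?_
      show (u (x + T • e) - u x) * η x ≤ 2 * η x
      have h1 : u (x + T • e) - u x ≤ 2 := by
        have := hb 0 (T • e) x
        rw [add_zero] at this
        exact (le_abs_self _).trans this
      exact mul_le_mul_of_nonneg_right h1 (hη0 x)
    have g3 : m ^ 2 * ∫ x, (u (x + T • e) - u x) * η x ≤ m ^ 2 * (2 * ∫ x, η x) := mul_le_mul_of_nonneg_left g2 (by positivity)
    have g4 := mul_le_mul_of_nonneg_left g1 (by positivity : 0 ≤ c / 2)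
    linarith
  -- limit
  have hlim : Tendsto (fun n : ℕ => c / 4 * Ie d s (fun x => u (x + T • e)) η + Fe (fun x => u (x + T • e)) η +
      c * Ph d s C a η + (C * ((T * ‖e‖) / n) ^ a) ^ 2 * ∫ x, η x) atTop
      (𝓝 (c / 4 * Ie d s (fun x => u (x + T • e)) η + Fe (fun x => u (x + T • e)) η + c * Ph d s C a η + (C * 0 ^ a) ^ 2 * ∫ x, η x)) := by
    have h1 : Tendsto (fun n : ℕ => (T * ‖e‖) / (n : ℝ)) atTop (𝓝 0) := tendsto_const_div_atTop_nhds_zero_nat _
    have h2 : Tendsto (fun n : ℕ => ((T * ‖e‖) / (n : ℝ)) ^ a) atTop (𝓝 (0 ^ a)) :=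
      h1.rpow_const (Or.inr ha0.le)
    exact (((h2.const_mul C).pow 2).mul_const _).const_add _
  rw [Real.zero_rpow ha0.ne', mul_zero, zero_pow (by norm_num), zero_mul, add_zero] at hlim
  exact ge_of_tendsto hlim (Filter.eventually_atTop.2 ⟨1, fun n hn => key n hn⟩)

/-- MODULE se. `weak` with the test function `u η`: `∫ (u ^ 2 - u ^ 4) η = (c/2) ∫ (u - u') (u η - u' η') K ≤ (c/2) Ie + (c/2) Ph`
(`u η - u' η' = (1/2) (u - u') (η + η') + (1/2) (u + u') (η - η')`); and `(1 - t ^ 2) ^ 2 / 4 ≤ t ^ 2 - t ^ 4` for `1 / 2 ≤ |t| ≤ 1`, `≤ 1 / 4` always, `0 ≤ t ^ 2 - t ^ 4`. -/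
theorem pot_bd (hd : 1 ≤ d) (hs0 : 0 < s) (hs1 : s < 1) (hc : 0 < c) {C a : ℝ} (hC : 0 ≤ C) (ha : s < a) {u : E d → ℝ}
    (hu : Entire d s c u) (hH : HolC C a u) {η : E d → ℝ} (hη : Test η) (hη0 : ∀ x, 0 ≤ η x ∧ η x ≤ 1) {A : Set (E d)}
    (hA : MeasurableSet A) (hA' : volume A < ⊤) (hηA : ∀ x, x ∉ A → η x = 0) :
    Fe u η ≤ c / 2 * Ie d s u η + c / 2 * Ph d s C a η + (volume (A ∩ {x | |u x| ≤ 1 / 2})).toReal := by
  have hηc : Continuous η := by
    obtain ⟨L, hL⟩ := hη.lip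
    exact hL.continuous
  have huc : Continuous u := hu.smooth.continuous
  have hψ : Test (fun x => u x * η x) := Test.mul_left hu.locLip hη
  have hw := weak hd hs0 hs1 hu hψ
  obtain ⟨i1, i2, i3⟩ := Ie_int hd hs0 hs1 hC ha hH huc hη
  have i4 := Ph_int (s := s) hd hs0 hs1 hC ha hη
  have hB : ∀ x, |u x| ≤ 1 := fun x => (hu.bound x).le
  have i5 := form_int hd hs0 hs1 hu.locLip hB hψ
  -- the form
  have key : ∫ p : E d × E d, (u p.1 - u p.2) * (u p.1 * η p.1 - u p.2 * η p.2) * K d s (p.1 - p.2) ≤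
      Ie d s u η + Ph d s C a η := by
    have e1 : ∫ p : E d × E d, (1 / 2 * ((u p.1 - u p.2) ^ 2 * (η p.1 * K d s (p.1 - p.2))) +
        1 / 2 * ((u p.1 - u p.2) ^ 2 * (η p.2 * K d s (p.1 - p.2))) + mm C a (p.1 - p.2) * |η p.1 - η p.2| * K d s (p.1 - p.2)) =
        Ie d s u η + Ph d s C a η := by
      have j12 : Integrable (fun p : E d × E d => 1 / 2 * ((u p.1 - u p.2) ^ 2 * (η p.1 * K d s (p.1 - p.2))) +
          1 / 2 * ((u p.1 - u p.2) ^ 2 * (η p.2 * K d s (p.1 - p.2)))) := (i1.const_mul (1 / 2)).add (i2.const_mul (1 / 2))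
      rw [integral_add j12 i4,
        integral_add (i1.const_mul (1 / 2)) (i2.const_mul (1 / 2)), integral_const_mul, integral_const_mul, i3]
      show 1 / 2 * Ie d s u η + 1 / 2 * Ie d s u η + Ph d s C a η = Ie d s u η + Ph d s C a η
      ring
    rw [← e1]
    refine integral_mono i5 (((i1.const_mul (1 / 2)).add (i2.const_mul (1 / 2))).add i4) fun p => ?_
    show (u p.1 - u p.2) * (u p.1 * η p.1 - u p.2 * η p.2) * K d s (p.1 - p.2) ≤
      1 / 2 * ((u p.1 - u p.2) ^ 2 * (η p.1 * K d s (p.1 - p.2))) +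
        1 / 2 * ((u p.1 - u p.2) ^ 2 * (η p.2 * K d s (p.1 - p.2))) + mm C a (p.1 - p.2) * |η p.1 - η p.2| * K d s (p.1 - p.2)
    have h1 : (u p.1 - u p.2) * (u p.1 * η p.1 - u p.2 * η p.2) =
        1 / 2 * (u p.1 - u p.2) ^ 2 * (η p.1 + η p.2) + 1 / 2 * ((u p.1 + u p.2) * ((u p.1 - u p.2) * (η p.1 - η p.2))) := by ring
    have h2 : (u p.1 + u p.2) * ((u p.1 - u p.2) * (η p.1 - η p.2)) ≤ 2 * (mm C a (p.1 - p.2) * |η p.1 - η p.2|) := by
      refine (le_abs_self _).trans ?_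
      rw [abs_mul, abs_mul]
      refine mul_le_mul ?_ (mul_le_mul_of_nonneg_right (mm_le hH _ _) (abs_nonneg _)) (by positivity) (by norm_num)
      exact (abs_add_le _ _).trans (by linarith [hB p.1, hB p.2])
    have h3 : (u p.1 - u p.2) * (u p.1 * η p.1 - u p.2 * η p.2) ≤
        1 / 2 * (u p.1 - u p.2) ^ 2 * (η p.1 + η p.2) + mm C a (p.1 - p.2) * |η p.1 - η p.2| := by linarith
    have h4 := mul_le_mul_of_nonneg_right h3 (K_nonneg (s := s) (p.1 - p.2))
    refine h4.trans (le_of_eq ?_)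
    ring
  have hK2 : ∫ x, (u x - u x ^ 3) * (u x * η x) ≤ c / 2 * Ie d s u η + c / 2 * Ph d s C a η := by
    rw [← hw]
    have := mul_le_mul_of_nonneg_left key (by positivity : (0:ℝ) ≤ c / 2)
    linarith
  -- the potential
  have hS : MeasurableSet {x : E d | |u x| ≤ 1 / 2} := (isClosed_le huc.abs continuous_const).measurableSet
  have hAS : MeasurableSet (A ∩ {x | |u x| ≤ 1 / 2}) := hA.inter hS
  have hfin : volume (A ∩ {x | |u x| ≤ 1 / 2}) < ⊤ := lt_of_le_of_lt (measure_mono inter_subset_left) hA'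
  have i6 : Integrable (indicator (A ∩ {x : E d | |u x| ≤ 1 / 2}) (fun _ => (1:ℝ))) := by
    rw [integrable_indicator_iff hAS]
    exact integrableOn_const hfin.ne
  have i7 : Integrable (fun x => (u x - u x ^ 3) * (u x * η x)) := by
    refine hψ.integrable.mono (((huc.sub (huc.pow 3)).mul (huc.mul hηc)).aestronglyMeasurable) (ae_of_all _ fun x => ?_)
    show ‖(u x - u x ^ 3) * (u x * η x)‖ ≤ ‖u x * η x‖
    rw [norm_mul]
    refine mul_le_of_le_one_left (norm_nonneg _) ?_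
    rw [Real.norm_eq_abs, abs_le]
    have h := abs_le.mp (hB x)
    constructor <;> nlinarith [sq_nonneg (u x), sq_nonneg (u x - 1), sq_nonneg (u x + 1), sq_nonneg (u x ^ 2),
      mul_nonneg (sub_nonneg.2 h.2) (sq_nonneg (u x)), mul_nonneg (by linarith [h.1] : (0:ℝ) ≤ u x + 1) (sq_nonneg (u x))]
  have i8 : Integrable (fun x => (1 - u x ^ 2) ^ 2 / 4 * η x) := by
    refine hη.integrable.mono ((((continuous_const.sub (huc.pow 2)).pow 2).div_const 4).mul hηc).aestronglyMeasurable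
      (ae_of_all _ fun x => ?_)
    show ‖(1 - u x ^ 2) ^ 2 / 4 * η x‖ ≤ ‖η x‖
    rw [norm_mul]
    refine mul_le_of_le_one_left (norm_nonneg _) ?_
    rw [Real.norm_of_nonneg (by positivity)]
    have h := abs_le.mp (hB x)
    have h5 : u x ^ 2 ≤ 1 := by nlinarith
    nlinarith [sq_nonneg (u x)]
  have last : Fe u η ≤ ∫ x, ((u x - u x ^ 3) * (u x * η x) + indicator (A ∩ {x : E d | |u x| ≤ 1 / 2}) (fun _ => (1:ℝ)) x) := by
    unfold Fe
    refine integral_mono i8 (i7.add i6) fun x => ?_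
    show (1 - u x ^ 2) ^ 2 / 4 * η x ≤ (u x - u x ^ 3) * (u x * η x) + indicator (A ∩ {x : E d | |u x| ≤ 1 / 2}) (fun _ => (1:ℝ)) x
    have h5 : u x ^ 2 ≤ 1 := by
      have h := abs_le.mp (hB x)
      nlinarith
    by_cases hxA : x ∈ A
    · by_cases hx : |u x| ≤ 1 / 2
      · have hmem : x ∈ A ∩ {x : E d | |u x| ≤ 1 / 2} := ⟨hxA, hx⟩
        rw [indicator_of_mem hmem]
        have h6 : 0 ≤ (u x - u x ^ 3) * (u x * η x) := by
          have : (u x - u x ^ 3) * (u x * η x) = u x ^ 2 * (1 - u x ^ 2) * η x := by ring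
          rw [this]
          exact mul_nonneg (mul_nonneg (sq_nonneg _) (by linarith)) (hη0 x).1
        have h7 : (1 - u x ^ 2) ^ 2 / 4 * η x ≤ 1 * 1 :=
          mul_le_mul (by nlinarith [sq_nonneg (u x)]) (hη0 x).2 (hη0 x).1 (by norm_num)
        linarith
      · rw [indicator_of_notMem (fun h => hx h.2)]
        push Not at hx
        have h8 : 1 / 4 ≤ u x ^ 2 := by
          rw [← sq_abs]
          nlinarith
        have h9 : (u x - u x ^ 3) * (u x * η x) = u x ^ 2 * (1 - u x ^ 2) * η x := by ring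
        rw [h9, add_zero]
        refine mul_le_mul_of_nonneg_right ?_ (hη0 x).1
        nlinarith
    · rw [hηA x hxA, indicator_of_notMem (fun h => hxA h.1)]
      simp
  rw [integral_add i7 i6, integral_indicator hAS, setIntegral_const, smul_eq_mul, mul_one] at last
  have h10 : (volume : Measure (E d)).real (A ∩ {x | |u x| ≤ 1 / 2}) = (volume (A ∩ {x | |u x| ≤ 1 / 2})).toReal := rfl
  rw [h10] at last
  linarith

/-- MODULE sf. `pot_bd` for `cc V R ρ`, `A = Cyl V (2 R) (2 ρ)`, `thin`, `Ie_en`. -/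
theorem energy_cc (hd : 1 ≤ d) (hs0 : 0 < s) (hs1 : s < 1) (hc : 0 < c) {C a : ℝ} (hC : 0 ≤ C) (ha : s < a) : ∃ C' r : ℝ, 0 ≤ C' ∧ 1 ≤ r ∧
    ∀ u : E d → ℝ, Entire d s c u → HolC C a u → Stable d s c u → ∀ (V : Submodule ℝ (E d)) (R ρ : ℝ), 1 ≤ ρ → ρ ≤ R →
      ENNReal.ofReal (c / 4 * Ie d s u (cc V R ρ) + Fe u (cc V R ρ)) ≤
        ENNReal.ofReal C' * (∫⁻ x in Cyl V (2 * R + r) (2 * ρ + r), en d s u x) + ENNReal.ofReal (c / 2 * Ph d s C a (cc V R ρ)) := by
  obtain ⟨C₁, r, hC₁, hr, hthin⟩ := thin (c := c) hd hs0 hs1 hc C (hs0.trans ha)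
  obtain ⟨Cv, hCv, hvol⟩ := cyl_vol d
  refine ⟨3 * c / 4 + C₁, r, by positivity, hr, ?_⟩
  intro u hu hH hst V R ρ hρ hR
  have hρ0 : 0 < ρ := by linarith
  have hR0 : 0 < R := by linarith
  obtain ⟨hT, h01, hone, hzero, hlip⟩ := cc_basic (V := V) hρ0 hR
  have hA : MeasurableSet (Cyl V (2 * R) (2 * ρ)) := cyl_meas _ _
  have hA' : volume (Cyl V (2 * R) (2 * ρ)) < ⊤ :=
    (hvol V (2 * R) (2 * ρ) (by positivity) (by positivity)).trans_lt ENNReal.ofReal_lt_top
  have hp := pot_bd hd hs0 hs1 hc hC ha hu hH hT h01 hA hA' hzero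
  set I := Ie d s u (cc V R ρ) with hI
  set P := Ph d s C a (cc V R ρ) with hP
  set v := volume (Cyl V (2 * R) (2 * ρ) ∩ {x | |u x| ≤ 1 / 2}) with hv
  have hvt : v ≠ ⊤ := ((measure_mono inter_subset_left).trans_lt hA').ne
  have h1 : c / 4 * I + Fe u (cc V R ρ) ≤ 3 * c / 4 * I + c / 2 * P + v.toReal := by linarith
  have h2 : ENNReal.ofReal I ≤ ∫⁻ x in Cyl V (2 * R + r) (2 * ρ + r), en d s u x := by
    rw [hI, Ie_en hd hs0 hs1 hC ha hH hu.locLip.continuous hT (fun x => (h01 x).1), ← lintegral_indicator (cyl_meas _ _)]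
    refine lintegral_mono fun x => ?_
    by_cases hx : x ∈ Cyl V (2 * R) (2 * ρ)
    · have hx' : x ∈ Cyl V (2 * R + r) (2 * ρ + r) := cyl_mono (by linarith) (by linarith) hx
      show ENNReal.ofReal (cc V R ρ x) * en d s u x ≤ (Cyl V (2 * R + r) (2 * ρ + r)).indicator (fun x => en d s u x) x
      rw [indicator_of_mem hx']
      calc ENNReal.ofReal (cc V R ρ x) * en d s u x ≤ 1 * en d s u x := by
            gcongr
            exact ENNReal.ofReal_le_one.2 (h01 x).2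
        _ = en d s u x := one_mul _
    · show ENNReal.ofReal (cc V R ρ x) * en d s u x ≤ _
      rw [hzero x hx, ENNReal.ofReal_zero, zero_mul]
      exact bot_le
  have h3 : v ≤ ENNReal.ofReal C₁ * ∫⁻ x in Cyl V (2 * R + r) (2 * ρ + r), en d s u x := by
    have := hthin u hH hst V (2 * R) (2 * ρ)
    exact this
  calc ENNReal.ofReal (c / 4 * I + Fe u (cc V R ρ)) ≤ ENNReal.ofReal (3 * c / 4 * I + c / 2 * P + v.toReal) := ENNReal.ofReal_le_ofReal h1
    _ ≤ ENNReal.ofReal (3 * c / 4 * I + c / 2 * P) + ENNReal.ofReal v.toReal := ENNReal.ofReal_add_le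
    _ ≤ (ENNReal.ofReal (3 * c / 4 * I) + ENNReal.ofReal (c / 2 * P)) + ENNReal.ofReal v.toReal := by
        gcongr
        exact ENNReal.ofReal_add_le
    _ = (ENNReal.ofReal (3 * c / 4) * ENNReal.ofReal I + ENNReal.ofReal (c / 2 * P)) + v := by
        rw [ENNReal.ofReal_toReal hvt, ENNReal.ofReal_mul (by positivity : 0 ≤ 3 * c / 4)]
    _ ≤ (ENNReal.ofReal (3 * c / 4) * (∫⁻ x in Cyl V (2 * R + r) (2 * ρ + r), en d s u x) + ENNReal.ofReal (c / 2 * P)) +
        ENNReal.ofReal C₁ * ∫⁻ x in Cyl V (2 * R + r) (2 * ρ + r), en d s u x := by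
        gcongr
    _ = ENNReal.ofReal (3 * c / 4 + C₁) * (∫⁻ x in Cyl V (2 * R + r) (2 * ρ + r), en d s u x) + ENNReal.ofReal (c / 2 * P) := by
        rw [ENNReal.ofReal_add (by positivity) hC₁]
        ring

private theorem sg_fe {u η : E d → ℝ} (hη : ∀ x, 0 ≤ η x) : 0 ≤ Fe u η := by
  unfold Fe
  exact integral_nonneg fun x => mul_nonneg (by positivity) (hη x)

private theorem sg_num {r : ℝ} (hr : 1 ≤ r) (k : ℕ) {R ρ : ℝ} (hρ : 1 ≤ ρ) (hR : ρ ≤ R) :
    (2 * R + r) ^ k * ((2 * ρ + r) ^ 2 * (1 + Real.log (2 * ρ + r))) ≤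
      ((2 + r) ^ k * ((2 + r) ^ 2 * (1 + Real.log (2 + r)))) * (R ^ k * (ρ ^ 2 * (1 + Real.log ρ))) := by
  have hR1 : 1 ≤ R := hρ.trans hR
  have hl0 : 0 ≤ Real.log ρ := Real.log_nonneg hρ
  have hl1 : 0 ≤ Real.log (2 + r) := Real.log_nonneg (by linarith)
  have hl2 : 0 ≤ Real.log (2 * ρ + r) := Real.log_nonneg (by linarith)
  have h1 : 2 * R + r ≤ (2 + r) * R := by nlinarith
  have h2 : 2 * ρ + r ≤ (2 + r) * ρ := by nlinarith
  have h3 : (2 * R + r) ^ k ≤ (2 + r) ^ k * R ^ k := by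
    rw [← mul_pow]; exact pow_le_pow_left₀ (by linarith) h1 k
  have h4 : (2 * ρ + r) ^ 2 ≤ (2 + r) ^ 2 * ρ ^ 2 := by
    rw [← mul_pow]; exact pow_le_pow_left₀ (by linarith) h2 2
  have h5 : 1 + Real.log (2 * ρ + r) ≤ (1 + Real.log (2 + r)) * (1 + Real.log ρ) := by
    have h6 : Real.log (2 * ρ + r) ≤ Real.log (2 + r) + Real.log ρ := by
      rw [← Real.log_mul (by linarith) (by linarith)]
      exact Real.log_le_log (by linarith) h2
    nlinarith [mul_nonneg hl0 hl1]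
  calc (2 * R + r) ^ k * ((2 * ρ + r) ^ 2 * (1 + Real.log (2 * ρ + r)))
      ≤ ((2 + r) ^ k * R ^ k) * (((2 + r) ^ 2 * ρ ^ 2) * ((1 + Real.log (2 + r)) * (1 + Real.log ρ))) := by
        gcongr
    _ = _ := by ring

/-- MODULE sg. THE ENERGY IN CODIMENSION THREE.  `holder` with `a = 2 s / (1 + s)` gives `HolC C a` for all entire solutions.  `kin_cyl` for the family of all `Up u e` (`up_hol`, `up_gain`).  For `u` as in the statement and every `T ≥ 0`: `slide` and `energy_cc` for `u (· + T e)`; let `T → ∞`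
(`en_lim` for the cylinder) and use `EG` for `Up u e` with `2 ρ + r`, `2 R + r`; `Ph_cc`; finally `∫_{Cyl V R ρ} en u ≤ ofReal (Ie u (cc V R ρ))` (`Ie_en`).  `(2 R + r) ^ k (2 ρ + r) ^ 2 (1 + log (2 ρ + r)) ≤ C R ^ k ρ ^ 2 (1 + log ρ)`. -/
theorem eg_three (hd : 1 ≤ d) (hs : 1 / 2 ≤ s) (hs1 : s < 1) (hc : 0 < c) {V : Submodule ℝ (E d)} {e : E d} (he : e ∉ V)
    (hV : d ≤ Module.finrank ℝ V + 3) : ∃ C₀ : ℝ, 0 ≤ C₀ ∧ ∃ R₀ : ℝ → ℝ, ∀ u : E d → ℝ, Entire d s c u →
      (∀ x, 0 < fderiv ℝ u x e) → EG V s C₀ R₀ u := by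
  have hs0 : 0 < s := by linarith
  set a : ℝ := 2 * s / (1 + s) with hadef
  have h1s : 0 < 1 + s := by linarith
  have ha0 : 0 < a := by rw [hadef]; positivity
  have ha1 : a < 1 := by rw [hadef, div_lt_one h1s]; linarith
  have ha2 : a < 2 * s := by
    rw [hadef, div_lt_iff₀ h1s]; nlinarith
  have ha : s < a := by
    rw [hadef, lt_div_iff₀ h1s]; nlinarith
  obtain ⟨C, hC, hHol⟩ := holder (d := d) hd hs0 hs1 hc ha0 ha1 ha2
  have hH : ∀ u : E d → ℝ, Entire d s c u → HolC C a u := fun u hu => ⟨fun x => (hu.bound x).le, hHol u hu⟩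
  -- dimension
  have hdim : Module.finrank ℝ (E d) = d := by simp [E]
  have hVd : Module.finrank ℝ V + 1 ≤ d := by
    have hne : V ≠ ⊤ := by
      rintro rfl
      exact he Submodule.mem_top
    have := Submodule.finrank_lt (lt_top_iff_ne_top.2 hne).ne
    rw [hdim] at this
    omega
  set F : Set (E d → ℝ) := {U | ∃ u : E d → ℝ, Entire d s c u ∧ (∀ x, 0 < fderiv ℝ u x e) ∧ U = Up u e} with hF
  have hinc : ∀ u : E d → ℝ, Entire d s c u → (∀ x, 0 < fderiv ℝ u x e) → Inc u e := fun u hu hue =>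
    inc_of (hu.smooth.of_le (by norm_num)) hue
  obtain ⟨C₁, hC₁, R₂, hkin⟩ := kin_cyl (d := d) hd hs hs1 hC ha hVd hV F
    (by
      rintro U ⟨u, hu, hue, rfl⟩
      exact up_hol (hH u hu) (hinc u hu hue))
    (by
      intro L ε hL hε
      obtain ⟨R₁, hR₁⟩ := up_gain (c := c) hd hs0 hs1 hc he hV hL hε
      refine ⟨R₁, ?_⟩
      rintro U ⟨u, hu, hue, rfl⟩ R hR P hP hPV
      exact hR₁ u hu hue R hR P hP hPV)
  obtain ⟨C', r, hC', hr, hcc⟩ := energy_cc (c := c) hd hs0 hs1 hc hC ha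
  obtain ⟨C'', hC'', hPh⟩ := Ph_cc (d := d) hd hs hs1 hC ha
  obtain ⟨Cv, hCv, hvol⟩ := cyl_vol d
  set k := Module.finrank ℝ V with hk
  set M : ℝ := (2 + r) ^ k * ((2 + r) ^ 2 * (1 + Real.log (2 + r))) with hM
  have hl1 : 0 ≤ Real.log (2 + r) := Real.log_nonneg (by linarith)
  have hM0 : 0 ≤ M := by rw [hM]; positivity
  refine ⟨4 / c * (C' * (C₁ * M) + c / 2 * C'' + c * C''), by positivity, fun ρ => max ρ (R₂ (2 * ρ + r)), ?_⟩
  intro u hu hue ρ R hρ hR
  have hρR : ρ ≤ R := (le_max_left _ _).trans hR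
  have hR₂ : R₂ (2 * ρ + r) ≤ R := (le_max_right _ _).trans hR
  have hρ0 : 0 < ρ := by linarith
  have hR0 : 0 < R := by linarith
  obtain ⟨hT, h01, hone, hzero, hlip⟩ := cc_basic (V := V) hρ0 hρR
  have huH := hH u hu
  have huI := hinc u hu hue
  have hlρ : 0 ≤ Real.log ρ := Real.log_nonneg hρ
  set X : ℝ := R ^ k * (ρ ^ 2 * (1 + Real.log ρ)) with hX
  have hX0 : 0 ≤ X := by rw [hX]; positivity
  have hPhX : Ph d s C a (cc V R ρ) ≤ C'' * X := hPh V hVd hV R ρ hρ hρR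
  set η := cc V R ρ with hη
  set A : Set (E d) := Cyl V (2 * R + r) (2 * ρ + r) with hAdef
  have hA : MeasurableSet A := cyl_meas _ _
  have hA' : volume A < ⊤ := (hvol V (2 * R + r) (2 * ρ + r) (by positivity) (by positivity)).trans_lt ENNReal.ofReal_lt_top
  -- every T
  have hTT : ∀ T : ℝ, 0 ≤ T → ENNReal.ofReal (c / 4 * Ie d s u η) ≤
      ENNReal.ofReal C' * (∫⁻ x in A, en d s (fun y => u (y + T • e)) x) +
        (ENNReal.ofReal (c / 2 * Ph d s C a η) + ENNReal.ofReal (c * Ph d s C a η)) := by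
    intro T hT0
    have h1 := slide hd hs0 hs1 hc hC ha hu huH huI hT (fun x => (h01 x).1) hT0
    have huT : Entire d s c (fun x => u (x + T • e)) := hu.shift _
    have h2 := hcc (fun x => u (x + T • e)) huT (sc_hol huH _) (mono_stable hd hs0 hs1 hc huT ⟨e, fun x => by
      have h3 : fderiv ℝ (fun x => u (x + T • e)) x = fderiv ℝ u (x + T • e) := fderiv_comp_add_right _
      rw [h3]; exact hue _⟩) V R ρ hρ hρR
    have h4 : 0 ≤ Fe u η := sg_fe fun x => (h01 x).1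
    calc ENNReal.ofReal (c / 4 * Ie d s u η) ≤ ENNReal.ofReal ((c / 4 * Ie d s (fun x => u (x + T • e)) η + Fe (fun x => u (x + T • e)) η) + c * Ph d s C a η) :=
          ENNReal.ofReal_le_ofReal (by linarith)
      _ ≤ ENNReal.ofReal (c / 4 * Ie d s (fun x => u (x + T • e)) η + Fe (fun x => u (x + T • e)) η) + ENNReal.ofReal (c * Ph d s C a η) :=
          ENNReal.ofReal_add_le
      _ ≤ (ENNReal.ofReal C' * (∫⁻ x in A, en d s (fun y => u (y + T • e)) x) + ENNReal.ofReal (c / 2 * Ph d s C a η)) + ENNReal.ofReal (c * Ph d s C a η) := by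
          gcongr
      _ = _ := by rw [add_assoc]
  have hlim : Tendsto (fun T : ℝ => ENNReal.ofReal C' * (∫⁻ x in A, en d s (fun y => u (y + T • e)) x) +
        (ENNReal.ofReal (c / 2 * Ph d s C a η) + ENNReal.ofReal (c * Ph d s C a η))) atTop
      (𝓝 (ENNReal.ofReal C' * (∫⁻ x in A, en d s (Up u e) x) +
        (ENNReal.ofReal (c / 2 * Ph d s C a η) + ENNReal.ofReal (c * Ph d s C a η)))) :=
    (ENNReal.Tendsto.const_mul (en_lim hd hs0 hs1 ha huH huI hA hA') (Or.inr ENNReal.ofReal_ne_top)).add tendsto_const_nhds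
  have hfin := ge_of_tendsto hlim (Filter.eventually_atTop.2 ⟨0, fun T hT => hTT T hT⟩)
  -- the limit function
  have hUp : ∫⁻ x in A, en d s (Up u e) x ≤ ENNReal.ofReal (C₁ * (M * X)) := by
    have h1 := hkin (Up u e) ⟨u, hu, hue, rfl⟩ (2 * ρ + r) (2 * R + r) (by linarith) (by linarith)
    refine h1.trans (ENNReal.ofReal_le_ofReal ?_)
    exact mul_le_mul_of_nonneg_left (sg_num hr k hρ hρR) hC₁
  have hIe : ∫⁻ x in Cyl V R ρ, en d s u x ≤ ENNReal.ofReal (Ie d s u η) := by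
    rw [Ie_en hd hs0 hs1 hC ha huH hu.locLip.continuous hT (fun x => (h01 x).1), ← lintegral_indicator (cyl_meas _ _)]
    refine lintegral_mono fun x => ?_
    by_cases hx : x ∈ Cyl V R ρ
    · show (Cyl V R ρ).indicator (fun x => en d s u x) x ≤ ENNReal.ofReal (η x) * en d s u x
      rw [indicator_of_mem hx, hone x hx, ENNReal.ofReal_one, one_mul]
    · show (Cyl V R ρ).indicator (fun x => en d s u x) x ≤ _
      rw [indicator_of_notMem hx]; exact bot_le
  have h4c : Ie d s u η = 4 / c * (c / 4 * Ie d s u η) := by field_simp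
  calc ∫⁻ x in Cyl V R ρ, en d s u x ≤ ENNReal.ofReal (Ie d s u η) := hIe
    _ = ENNReal.ofReal (4 / c) * ENNReal.ofReal (c / 4 * Ie d s u η) := by
        rw [← ENNReal.ofReal_mul (by positivity), ← h4c]
    _ ≤ ENNReal.ofReal (4 / c) * (ENNReal.ofReal C' * ENNReal.ofReal (C₁ * (M * X)) +
        (ENNReal.ofReal (c / 2 * (C'' * X)) + ENNReal.ofReal (c * (C'' * X)))) := by
        refine mul_le_mul_right (hfin.trans ?_) _
        gcongr
    _ = ENNReal.ofReal (4 / c * (C' * (C₁ * M) + c / 2 * C'' + c * C'') * X) := by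
        rw [← ENNReal.ofReal_mul hC', ← ENNReal.ofReal_add (by positivity) (by positivity),
          ← ENNReal.ofReal_add (by positivity) (by positivity), ← ENNReal.ofReal_mul (by positivity)]
        congr 1
        ring

/-- MODULE sh. `bad_count` for `u (· + q)` with `eg_three`. -/
theorem codim_three (hd : 1 ≤ d) (hs : 1 / 2 ≤ s) (hs1 : s < 1) (hc : 0 < c) {V : Submodule ℝ (E d)} {e : E d} (he : e ∉ V)
    (hV : d ≤ Module.finrank ℝ V + 3) (L : ℝ) {δ ε : ℝ} (hδ : 0 < δ) (hε : 0 < ε) : ∃ R₁ : ℝ, ∀ u : E d → ℝ, Entire d s c u →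
      (∀ x, 0 < fderiv ℝ u x e) → ∀ q : E d, ∀ R : ℝ, R₁ ≤ R → ∀ P : Finset (E d), Sep P →
        (∀ p ∈ P, p - q ∈ V ∧ ‖p - q‖ ≤ R ∧ ¬ Near u p L δ) → (P.card : ℝ) ≤ ε * R ^ Module.finrank ℝ V := by
  classical
  have hs0 : 0 < s := by linarith
  obtain ⟨C₀, hC₀, R₀, hEG⟩ := eg_three (c := c) hd hs hs1 hc he hV
  obtain ⟨R₁, hR₁⟩ := bad_count (c := c) hd hs0 hs1 hc hC₀ R₀ L hδ hε
  refine ⟨R₁, ?_⟩
  intro u hu hue q R hR P hP hPV
  have huq : Entire d s c (fun x => u (x + q)) := hu.shift q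
  have hueq : ∀ x, 0 < fderiv ℝ (fun x => u (x + q)) x e := by
    intro x
    have h3 : fderiv ℝ (fun x => u (x + q)) x = fderiv ℝ u (x + q) := fderiv_comp_add_right _
    rw [h3]; exact hue _
  have hst : Stable d s c (fun x => u (x + q)) := mono_stable hd hs0 hs1 hc huq ⟨e, hueq⟩
  set P' : Finset (E d) := P.image (fun p => p - q) with hP'
  have hinj : Function.Injective (fun p : E d => p - q) := fun x y h => by simpa using h
  have hcard : P'.card = P.card := Finset.card_image_of_injective P hinj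
  have hsep : Sep P' := by
    intro p hp p' hp' hne
    obtain ⟨x, hx, rfl⟩ := Finset.mem_image.1 hp
    obtain ⟨y, hy, rfl⟩ := Finset.mem_image.1 hp'
    have h1 : x - q - (y - q) = x - y := by abel
    rw [h1]
    exact hP x hx y hy (fun h => hne (by rw [h]))
  have := hR₁ (fun x => u (x + q)) huq hst V (hEG _ huq hueq) R hR P' hsep (by
    intro p hp
    obtain ⟨x, hx, rfl⟩ := Finset.mem_image.1 hp
    obtain ⟨h1, h2, h3⟩ := hPV x hx
    refine ⟨h1, h2, ?_⟩
    rw [near_shift, sub_add_cancel]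
    exact h3)
  rwa [hcard] at this

end NDG
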