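import Pool.Agent.NDG.Loc

/-! # Weak form of the equation, stability -/

open MeasureTheory Filter Topology Set

noncomputable section

namespace NDG

variable {d : ℕ} {s c : ℝ}

/-- MODULE da. -/
theorem Entire.locLip {u : E d → ℝ} (hu : Entire d s c u) : LocLip u := by
  exact LocLip.of_contDiff (hu.smooth.of_le (by norm_num))

/-- MODULE da. Symmetrize the integral over `ε < ‖z‖` (`y = x ± z`): `trunc u ε x = c / 2 ∫_{ε < ‖z‖} (2 u x - u (x + z) - u (x - z)) K z dz` (absolutely convergent, `K_far`), and use `loc_snd` and `minK_int`. -/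
theorem trunc_bd (hd : 1 ≤ d) (hs0 : 0 < s) (hs1 : s < 1) {u : E d → ℝ} (hu : Entire d s c u) (ρ : ℝ) :
    ∃ C : ℝ, ∀ ε : ℝ, 0 < ε → ∀ x : E d, ‖x‖ ≤ ρ → |trunc d s c u ε x| ≤ C := by
  obtain ⟨L, hL0, hL⟩ := loc_snd hu.smooth (B := 1) (fun x => (hu.bound x).le) ρ
  refine ⟨|c| * (1 / 2 * ∫ z : E d, L * (min 1 (‖z‖ ^ 2) * K d s z)), fun ε hε x hx => ?_⟩
  have hms : MeasurableSet {z : E d | ε < ‖z‖} := measurableSet_lt measurable_const measurable_norm
  have hms' : MeasurableSet {y : E d | ε < ‖x - y‖} :=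
    measurableSet_lt measurable_const (by fun_prop)
  have huc : Continuous u := hu.smooth.continuous
  set G : E d → ℝ := {z : E d | ε < ‖z‖}.indicator (fun z => (u x - u (x - z)) * K d s z) with hG
  have hGi : Integrable G := by
    rw [hG, integrable_indicator_iff hms]
    have hsub : {z : E d | ε < ‖z‖} ⊆ {z : E d | ε ≤ ‖z‖} := fun z hz => by
      simp only [Set.mem_ofPred_eq] at hz ⊢
      exact hz.le
    have h1 : IntegrableOn (fun z : E d => 2 * K d s z) {z : E d | ε < ‖z‖} :=
      Integrable.const_mul ((K_far hs0 hε).mono_set hsub) 2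
    refine Integrable.mono' h1 ?_ (Eventually.of_forall fun z => ?_)
    · refine AEStronglyMeasurable.mul ?_ (K_meas.aestronglyMeasurable)
      exact (continuous_const.sub (huc.comp (continuous_const.sub continuous_id))).aestronglyMeasurable
    · rw [norm_mul, Real.norm_eq_abs, Real.norm_eq_abs, abs_of_nonneg (K_nonneg z)]
      refine mul_le_mul_of_nonneg_right ?_ (K_nonneg z)
      have e1 := abs_le.1 (hu.bound x).le
      have e2 := abs_le.1 (hu.bound (x - z)).le
      rw [abs_le]
      constructor <;> linarith [e1.1, e1.2, e2.1, e2.2]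
  have h1 : trunc d s c u ε x = c * ∫ z, G z := by
    unfold trunc
    congr 1
    rw [← integral_indicator hms', ← integral_sub_left_eq_self G volume x]
    refine integral_congr_ae (Eventually.of_forall fun y => ?_)
    simp only [hG, Set.indicator_apply, Set.mem_ofPred_eq, sub_sub_cancel]
  have h2 : ∫ z, G z = 1 / 2 * ∫ z, (G z + G (-z)) := by
    rw [integral_add hGi hGi.comp_neg, integral_neg_eq_self]
    ring
  have hI : Integrable (fun z : E d => L * (min 1 (‖z‖ ^ 2) * K d s z)) :=
    (minK_int hd hs0 hs1).const_mul L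
  have h3 : |∫ z, (G z + G (-z))| ≤ ∫ z : E d, L * (min 1 (‖z‖ ^ 2) * K d s z) := by
    rw [← Real.norm_eq_abs]
    refine norm_integral_le_of_norm_le hI (Eventually.of_forall fun z => ?_)
    simp only [hG, Set.indicator_apply, Set.mem_ofPred_eq, norm_neg]
    split_ifs with hz
    · rw [K_neg, sub_neg_eq_add, ← add_mul, norm_mul, Real.norm_eq_abs, Real.norm_eq_abs,
        abs_of_nonneg (K_nonneg z), ← mul_assoc]
      refine mul_le_mul_of_nonneg_right ?_ (K_nonneg z)
      have := hL x z hx
      have e : u x - u (x - z) + (u x - u (x + z)) = 2 * u x - u (x + z) - u (x - z) := by ring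
      rw [e]
      exact this
    · rw [add_zero, norm_zero]
      exact mul_nonneg hL0 (mul_nonneg (le_min zero_le_one (by positivity)) (K_nonneg z))
  rw [h1, h2, abs_mul, abs_mul, abs_of_nonneg (by norm_num : (0 : ℝ) ≤ 1 / 2)]
  exact mul_le_mul_of_nonneg_left (mul_le_mul_of_nonneg_left h3 (by norm_num)) (abs_nonneg c)

private def db_F (d : ℕ) (s : ℝ) (u : E d → ℝ) (ε : ℝ) (p : E d × E d) : ℝ :=
  ({p : E d × E d | ε < ‖p.1 - p.2‖}).indicator (fun p => (u p.1 - u p.2) * K d s (p.1 - p.2)) p

private theorem db_set (ε : ℝ) : MeasurableSet {p : E d × E d | ε < ‖p.1 - p.2‖} :=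
  measurableSet_lt measurable_const (continuous_fst.sub continuous_snd).norm.measurable

private theorem db_Km : Measurable (fun p : E d × E d => K d s (p.1 - p.2)) :=
  K_meas.comp (measurable_fst.sub measurable_snd)

private theorem db_Fm {u : E d → ℝ} (hu : Continuous u) (ε : ℝ) : Measurable (db_F d s u ε) := by
  refine Measurable.indicator ?_ (db_set ε)
  exact ((hu.measurable.comp measurable_fst).sub (hu.measurable.comp measurable_snd)).mul db_Km

private theorem db_tr (u : E d → ℝ) (ε : ℝ) (x : E d) :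
    trunc d s c u ε x = c * ∫ y, db_F d s u ε (x, y) := by
  have hm : MeasurableSet {y : E d | ε < ‖x - y‖} :=
    measurableSet_lt measurable_const (continuous_const.sub continuous_id).norm.measurable
  unfold trunc
  rw [← integral_indicator hm]
  rfl

/-- MODULE db. Fubini and the symmetry `x ↔ y`; everything is absolutely integrable on `ε < ‖x - y‖` (`K_far`, `ψ` integrable, `u` bounded). -/
theorem trunc_form (hs0 : 0 < s) {u : E d → ℝ} (hu : Continuous u) (hB : ∀ x, |u x| ≤ 1) {ψ : E d → ℝ} (hψ : Test ψ)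
    {ε : ℝ} (hε : 0 < ε) : ∫ x, trunc d s c u ε x * ψ x =
      c / 2 * ∫ p in {p : E d × E d | ε < ‖p.1 - p.2‖}, (u p.1 - u p.2) * (ψ p.1 - ψ p.2) * K d s (p.1 - p.2) := by
  obtain ⟨L, hL⟩ := hψ.lip
  have hψc : Continuous ψ := hL.continuous
  have hψi : Integrable ψ := hψ.integrable
  have hg : Integrable (({z : E d | ε ≤ ‖z‖}).indicator (K d s)) :=
    (K_far hs0 hε).integrable_indicator (measurableSet_le measurable_const continuous_norm.measurable)
  obtain ⟨i1, i2⟩ := prod_int hψi.abs hg
  have hbd : ∀ p : E d × E d, |db_F d s u ε p| ≤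
      2 * ({z : E d | ε ≤ ‖z‖}).indicator (K d s) (p.1 - p.2) := by
    intro p
    unfold db_F
    by_cases hp : ε < ‖p.1 - p.2‖
    · rw [indicator_of_mem (show p ∈ {p : E d × E d | ε < ‖p.1 - p.2‖} from hp),
        indicator_of_mem (show p.1 - p.2 ∈ {z : E d | ε ≤ ‖z‖} from hp.le), abs_mul,
        abs_of_nonneg (K_nonneg _)]
      refine mul_le_mul_of_nonneg_right ?_ (K_nonneg _)
      exact (abs_sub _ _).trans (by linarith [hB p.1, hB p.2])
    · rw [indicator_of_notMem (show p ∉ {p : E d × E d | ε < ‖p.1 - p.2‖} from hp), abs_zero]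
      exact mul_nonneg (by norm_num) (indicator_nonneg (fun z _ => K_nonneg z) _)
  have I1 : Integrable (fun p : E d × E d => db_F d s u ε p * ψ p.1) := by
    refine Integrable.mono' (i1.const_mul 2) ?_ (Eventually.of_forall fun p => ?_)
    · exact ((db_Fm hu ε).mul (hψc.measurable.comp measurable_fst)).aestronglyMeasurable
    · rw [Real.norm_eq_abs, abs_mul]
      have := mul_le_mul_of_nonneg_right (hbd p) (abs_nonneg (ψ p.1))
      linarith
  have I2 : Integrable (fun p : E d × E d => db_F d s u ε p * ψ p.2) := by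
    refine Integrable.mono' (i2.const_mul 2) ?_ (Eventually.of_forall fun p => ?_)
    · exact ((db_Fm hu ε).mul (hψc.measurable.comp measurable_snd)).aestronglyMeasurable
    · rw [Real.norm_eq_abs, abs_mul]
      have := mul_le_mul_of_nonneg_right (hbd p) (abs_nonneg (ψ p.2))
      linarith
  have e1 : ∫ x, trunc d s c u ε x * ψ x = c * ∫ p : E d × E d, db_F d s u ε p * ψ p.1 := by
    rw [Measure.volume_eq_prod, integral_prod _ (by rw [← Measure.volume_eq_prod]; exact I1),
      ← integral_const_mul]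
    refine integral_congr_ae (Eventually.of_forall fun x => ?_)
    show trunc d s c u ε x * ψ x = c * ∫ y, db_F d s u ε (x, y) * ψ x
    rw [db_tr, integral_mul_const]
    ring
  have hanti : ∀ p : E d × E d, db_F d s u ε p.swap = - db_F d s u ε p := by
    intro p
    unfold db_F
    by_cases hp : ε < ‖p.1 - p.2‖
    · have hp' : ε < ‖p.2 - p.1‖ := by rwa [norm_sub_rev]
      rw [indicator_of_mem (show p ∈ {p : E d × E d | ε < ‖p.1 - p.2‖} from hp),
        indicator_of_mem (show p.swap ∈ {p : E d × E d | ε < ‖p.1 - p.2‖} from hp')]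
      simp only [Prod.fst_swap, Prod.snd_swap]
      rw [K_sub_comm p.2 p.1]
      ring
    · have hp' : ¬ ε < ‖p.2 - p.1‖ := by rwa [norm_sub_rev]
      rw [indicator_of_notMem (show p ∉ {p : E d × E d | ε < ‖p.1 - p.2‖} from hp),
        indicator_of_notMem (show p.swap ∉ {p : E d × E d | ε < ‖p.1 - p.2‖} from hp'), neg_zero]
  have e2 : ∫ p : E d × E d, db_F d s u ε p * ψ p.2 = - ∫ p : E d × E d, db_F d s u ε p * ψ p.1 := by
    have h1 := integral_prod_swap (μ := (volume : Measure (E d))) (ν := (volume : Measure (E d)))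
      (fun p : E d × E d => db_F d s u ε p * ψ p.2)
    rw [← Measure.volume_eq_prod] at h1
    rw [← h1, ← integral_neg]
    refine integral_congr_ae (Eventually.of_forall fun p => ?_)
    show db_F d s u ε p.swap * ψ p.swap.2 = - (db_F d s u ε p * ψ p.1)
    rw [hanti, Prod.snd_swap]
    ring
  have e3 : ∫ p in {p : E d × E d | ε < ‖p.1 - p.2‖},
      (u p.1 - u p.2) * (ψ p.1 - ψ p.2) * K d s (p.1 - p.2) =
      ∫ p : E d × E d, (db_F d s u ε p * ψ p.1 - db_F d s u ε p * ψ p.2) := by
    rw [← integral_indicator (db_set ε)]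
    refine integral_congr_ae (Eventually.of_forall fun p => ?_)
    unfold db_F
    by_cases hp : ε < ‖p.1 - p.2‖
    · simp only [indicator_of_mem (show p ∈ {p : E d × E d | ε < ‖p.1 - p.2‖} from hp)]
      ring
    · simp only [indicator_of_notMem (show p ∉ {p : E d × E d | ε < ‖p.1 - p.2‖} from hp)]
      ring
  rw [e1, e3, integral_sub I1 I2, e2]
  ring

/-- MODULE db. Measurability of the truncated integral (`StronglyMeasurable.integral_prod_right'` for the indicator of `{(x, y) | ε < ‖x - y‖}`). -/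
theorem trunc_meas {u : E d → ℝ} (hu : Continuous u) (ε : ℝ) : Measurable (fun x => trunc d s c u ε x) := by
  have h1 : StronglyMeasurable (fun x => ∫ y, db_F d s u ε (x, y)) :=
    (db_Fm hu ε).stronglyMeasurable.integral_prod_right'
  have h2 : (fun x => trunc d s c u ε x) = fun x => c * ∫ y, db_F d s u ε (x, y) :=
    funext fun x => db_tr u ε x
  rw [h2]
  exact h1.measurable.const_mul c

/-- MODULE dc. The weak form: `ε → 0` in `trunc_form`; dominated convergence on both sides (`trunc_bd`, `form_int`). -/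
theorem weak (hd : 1 ≤ d) (hs0 : 0 < s) (hs1 : s < 1) {u : E d → ℝ} (hu : Entire d s c u) {ψ : E d → ℝ} (hψ : Test ψ) :
    c / 2 * ∫ p : E d × E d, (u p.1 - u p.2) * (ψ p.1 - ψ p.2) * K d s (p.1 - p.2) = ∫ x, (u x - u x ^ 3) * ψ x := by
  obtain ⟨L, hL⟩ := hψ.lip
  have hψc : Continuous ψ := hL.continuous
  have huc : Continuous u := hu.smooth.continuous
  have hB : ∀ x, |u x| ≤ 1 := fun x => (hu.bound x).le
  obtain ⟨ρ, L', -, -, hρ, -, -⟩ := hψ.bd
  obtain ⟨C, hC⟩ := trunc_bd hd hs0 hs1 hu ρ
  have hI := form_int (s := s) hd hs0 hs1 hu.locLip hB hψ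
  set f : E d × E d → ℝ := fun p => (u p.1 - u p.2) * (ψ p.1 - ψ p.2) * K d s (p.1 - p.2) with hf
  have hset : ∀ ε : ℝ, MeasurableSet {p : E d × E d | ε < ‖p.1 - p.2‖} := fun ε =>
    measurableSet_lt measurable_const (continuous_fst.sub continuous_snd).norm.measurable
  have T1 : Tendsto (fun ε => ∫ x, trunc d s c u ε x * ψ x) (𝓝[>] (0 : ℝ))
      (𝓝 (∫ x, (u x - u x ^ 3) * ψ x)) := by
    refine tendsto_integral_filter_of_dominated_convergence (fun x => C * |ψ x|) ?_ ?_ ?_ ?_
    · exact Eventually.of_forall fun ε =>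
        ((trunc_meas huc ε).mul hψc.measurable).aestronglyMeasurable
    · filter_upwards [self_mem_nhdsWithin] with ε hε
      refine Eventually.of_forall fun x => ?_
      rw [Real.norm_eq_abs, abs_mul]
      by_cases hx : ‖x‖ ≤ ρ
      · exact mul_le_mul_of_nonneg_right (hC ε hε x hx) (abs_nonneg _)
      · rw [hρ x (not_le.1 hx), abs_zero, mul_zero, mul_zero]
    · exact hψ.integrable.abs.const_mul C
    · exact Eventually.of_forall fun x => (hu.eq x).mul_const (ψ x)
  have T2 : Tendsto (fun ε => c / 2 * ∫ p in {p : E d × E d | ε < ‖p.1 - p.2‖}, f p) (𝓝[>] (0 : ℝ))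
      (𝓝 (c / 2 * ∫ p, f p)) := by
    refine Tendsto.const_mul _ ?_
    have e : (fun ε : ℝ => ∫ p in {p : E d × E d | ε < ‖p.1 - p.2‖}, f p) =
        fun ε : ℝ => ∫ p, ({p : E d × E d | ε < ‖p.1 - p.2‖}).indicator f p :=
      funext fun ε => (integral_indicator (hset ε)).symm
    rw [e]
    refine tendsto_integral_filter_of_dominated_convergence (fun p => |f p|) ?_ ?_ hI.abs ?_
    · exact Eventually.of_forall fun ε => hI.aestronglyMeasurable.indicator (hset ε)
    · refine Eventually.of_forall fun ε => Eventually.of_forall fun p => ?_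
      rw [norm_indicator_eq_indicator_norm]
      exact indicator_le_self' (fun _ _ => norm_nonneg _) p
    · refine Eventually.of_forall fun p => ?_
      by_cases hp : p.1 = p.2
      · have h0 : f p = 0 := by
          simp only [hf, hp, sub_self, zero_mul]
        have h1 : (fun ε : ℝ => ({p : E d × E d | ε < ‖p.1 - p.2‖}).indicator f p) = fun _ => 0 := by
          funext ε
          by_cases hq : p ∈ {p : E d × E d | ε < ‖p.1 - p.2‖}
          · rw [indicator_of_mem hq, h0]
          · rw [indicator_of_notMem hq]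
        rw [h1, h0]
        exact tendsto_const_nhds
      · have hpos : 0 < ‖p.1 - p.2‖ := norm_pos_iff.2 (sub_ne_zero.2 hp)
        refine tendsto_const_nhds.congr' ?_
        have : ∀ᶠ ε in 𝓝[>] (0 : ℝ), ε < ‖p.1 - p.2‖ :=
          (eventually_lt_nhds hpos).filter_mono nhdsWithin_le_nhds
        filter_upwards [this] with ε hε
        exact (indicator_of_mem (show p ∈ {p : E d × E d | ε < ‖p.1 - p.2‖} from hε) f).symm
  refine tendsto_nhds_unique T2 (T1.congr' ?_)
  filter_upwards [self_mem_nhdsWithin] with ε hε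
  exact trunc_form hs0 huc hB hψ hε

/-- MODULE dd. Translation of the variable of integration. -/
theorem Entire.shift {u : E d → ℝ} (hu : Entire d s c u) (h : E d) : Entire d s c (fun x => u (x + h)) := by
  have key : ∀ ε x, trunc d s c (fun x => u (x + h)) ε x = trunc d s c u ε (x + h) := by
    intro ε x
    unfold trunc
    congr 1
    have hm1 : MeasurableSet {y : E d | ε < ‖x - y‖} :=
      measurableSet_lt measurable_const (by fun_prop)
    have hm2 : MeasurableSet {y : E d | ε < ‖x + h - y‖} :=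
      measurableSet_lt measurable_const (by fun_prop)
    rw [← integral_indicator hm1, ← integral_indicator hm2]
    rw [← integral_add_right_eq_self
      ({y : E d | ε < ‖x + h - y‖}.indicator fun y => (u (x + h) - u y) * K d s (x + h - y)) h]
    refine integral_congr_ae (Eventually.of_forall fun y => ?_)
    simp only [Set.indicator_apply, Set.mem_ofPred_eq, add_sub_add_right_eq_sub]
  refine ⟨hu.smooth.comp (contDiff_id.add contDiff_const), fun x => hu.bound _, fun x => ?_⟩
  have := hu.eq (x + h)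
  refine this.congr (fun ε => ?_)
  exact (key ε x).symm

/-- MODULE dd. The difference of `weak` for `u (· + h)` and `u`; `f b - f a = (b - a) (1 - (b ^ 2 + b a + a ^ 2))`. -/
theorem weak_diff (hd : 1 ≤ d) (hs0 : 0 < s) (hs1 : s < 1) {u : E d → ℝ} (hu : Entire d s c u) (h : E d) {ψ : E d → ℝ} (hψ : Test ψ) :
    c / 2 * ∫ p : E d × E d, ((u (p.1 + h) - u p.1) - (u (p.2 + h) - u p.2)) * (ψ p.1 - ψ p.2) * K d s (p.1 - p.2) =
      ∫ x, (u (x + h) - u x) * (1 - (u (x + h) ^ 2 + u (x + h) * u x + u x ^ 2)) * ψ x := by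
  have hv := hu.shift h
  have hψc : Continuous ψ := by
    obtain ⟨L, hL⟩ := hψ.lip
    exact hL.continuous
  have i1 : Integrable (fun p : E d × E d => (u (p.1 + h) - u (p.2 + h)) * (ψ p.1 - ψ p.2) * K d s (p.1 - p.2)) :=
    form_int hd hs0 hs1 hv.locLip (B := 1) (fun x => (hv.bound x).le) hψ
  have i2 : Integrable (fun p : E d × E d => (u p.1 - u p.2) * (ψ p.1 - ψ p.2) * K d s (p.1 - p.2)) :=
    form_int hd hs0 hs1 hu.locLip (B := 1) (fun x => (hu.bound x).le) hψ
  have hc : ∀ v : E d → ℝ, Continuous v → Integrable (fun x => (v x - v x ^ 3) * ψ x) := by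
    intro v hv
    refine Continuous.integrable_of_hasCompactSupport ((hv.sub (hv.pow 3)).mul hψc) ?_
    exact hψ.supp.mul_left
  have w1 := weak hd hs0 hs1 hv hψ
  have w2 := weak hd hs0 hs1 hu hψ
  have e1 : ∫ p : E d × E d, ((u (p.1 + h) - u p.1) - (u (p.2 + h) - u p.2)) * (ψ p.1 - ψ p.2) * K d s (p.1 - p.2) =
      (∫ p : E d × E d, (u (p.1 + h) - u (p.2 + h)) * (ψ p.1 - ψ p.2) * K d s (p.1 - p.2)) -
        ∫ p : E d × E d, (u p.1 - u p.2) * (ψ p.1 - ψ p.2) * K d s (p.1 - p.2) := by
    rw [← integral_sub i1 i2]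
    refine integral_congr_ae (Eventually.of_forall fun p => ?_)
    simp only
    ring
  have e2 : ∫ x, (u (x + h) - u x) * (1 - (u (x + h) ^ 2 + u (x + h) * u x + u x ^ 2)) * ψ x =
      (∫ x, (u (x + h) - u (x + h) ^ 3) * ψ x) - ∫ x, (u x - u x ^ 3) * ψ x := by
    rw [← integral_sub (hc _ hv.smooth.continuous) (hc _ hu.smooth.continuous)]
    refine integral_congr_ae (Eventually.of_forall fun x => ?_)
    simp only
    ring
  rw [e1, e2, mul_sub, w2, w1]

/-- MODULE de. -/
theorem pt_ineq {A B : ℝ} (hA : 0 < A) (hB : 0 < B) (a b : ℝ) : (A - B) * (a ^ 2 / A - b ^ 2 / B) ≤ (a - b) ^ 2 := by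
  have e : (a - b) ^ 2 - (A - B) * (a ^ 2 / A - b ^ 2 / B) = (B * a - A * b) ^ 2 / (A * B) := by
    field_simp
    ring
  have : 0 ≤ (B * a - A * b) ^ 2 / (A * B) := by positivity
  linarith

/-- MODULE de. `fderiv ℝ u x e > 0` everywhere gives `u x < u (x + t e)`. -/
theorem mono_lt {u : E d → ℝ} (hu : ContDiff ℝ 1 u) {e : E d} (he : ∀ x, 0 < fderiv ℝ u x e) {t : ℝ} (ht : 0 < t) (x : E d) :
    u x < u (x + t • e) := by
  have hd : ∀ τ : ℝ, HasDerivAt (fun τ : ℝ => u (x + τ • e)) (fderiv ℝ u (x + τ • e) e) τ := by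
    intro τ
    have h1 : HasDerivAt (fun τ : ℝ => x + τ • e) e τ := by
      have := ((hasDerivAt_id τ).smul_const e).const_add x
      simpa using this
    exact ((hu.differentiable (by norm_num)) (x + τ • e)).hasFDerivAt.comp_hasDerivAt τ h1
  have hm : StrictMono (fun τ : ℝ => u (x + τ • e)) :=
    strictMono_of_deriv_pos (fun τ => by rw [(hd τ).deriv]; exact he _)
  have := hm ht
  simpa using this

/-- MODULE df. `weak_diff` for `h = t e` with the test function `ψ ^ 2 / Φ`, `Φ = u (· + t e) - u > 0` (`mono_lt`, `LocLip.inv`, `Test.mul_left` twice), and `pt_ineq` (both sides integrable: `form_int`, `form_int2`). -/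
theorem stable_t (hd : 1 ≤ d) (hs0 : 0 < s) (hs1 : s < 1) (hc : 0 < c) {u : E d → ℝ} (hu : Entire d s c u) {e : E d}
    (he : ∀ x, 0 < fderiv ℝ u x e) {ψ : E d → ℝ} (hψ : Test ψ) {t : ℝ} (ht : 0 < t) :
    ∫ x, (1 - (u (x + t • e) ^ 2 + u (x + t • e) * u x + u x ^ 2)) * ψ x ^ 2 ≤
      c / 2 * ∫ p : E d × E d, (ψ p.1 - ψ p.2) ^ 2 * K d s (p.1 - p.2) := by
  set Φ : E d → ℝ := fun x => u (x + t • e) - u x with hΦ
  have hv := hu.shift (t • e)
  have hpos : ∀ x, 0 < Φ x := fun x => by
    have := mono_lt (hu.smooth.of_le (by norm_num)) he ht x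
    simp only [hΦ]
    linarith
  have hΦl : LocLip Φ := LocLip.sub (LocLip.comp_add hu.locLip (t • e)) hu.locLip
  have hΦb : ∀ x, |Φ x| ≤ 2 := fun x => by
    have e1 := abs_le.1 (hu.bound x).le
    have e2 := abs_le.1 (hu.bound (x + t • e)).le
    simp only [hΦ]
    rw [abs_le]
    constructor <;> linarith [e1.1, e1.2, e2.1, e2.2]
  set χ : E d → ℝ := fun x => (Φ x)⁻¹ * (ψ x * ψ x) with hχ
  have hχt : Test χ := Test.mul_left (LocLip.inv hΦl hpos) (Test.mul_left hψ.locLip hψ)
  have w := weak_diff hd hs0 hs1 hu (t • e) hχt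
  have e1 : ∫ x, (u (x + t • e) - u x) * (1 - (u (x + t • e) ^ 2 + u (x + t • e) * u x + u x ^ 2)) * χ x =
      ∫ x, (1 - (u (x + t • e) ^ 2 + u (x + t • e) * u x + u x ^ 2)) * ψ x ^ 2 := by
    refine integral_congr_ae (Eventually.of_forall fun x => ?_)
    have h0 : Φ x ≠ 0 := (hpos x).ne'
    simp only [hχ]
    have h1 : u (x + t • e) - u x = Φ x := rfl
    rw [h1]
    field_simp
  rw [← e1, ← w]
  refine mul_le_mul_of_nonneg_left ?_ (by positivity)
  refine integral_mono (form_int hd hs0 hs1 hΦl hΦb hχt) ?_ (fun p => ?_)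
  · have := form_int2 hd hs0 hs1 hψ (g := fun _ => 1) continuous_const (B := 1) (fun _ => by simp)
    simpa using this
  · simp only
    refine mul_le_mul_of_nonneg_right ?_ (K_nonneg _)
    have := pt_ineq (hpos p.1) (hpos p.2) (ψ p.1) (ψ p.2)
    refine le_trans (le_of_eq ?_) this
    simp only [hχ, hΦ]
    ring

/-- MODULE dg. Stability: `t → 0` in `stable_t`, dominated convergence. -/
theorem stable (hd : 1 ≤ d) (hs0 : 0 < s) (hs1 : s < 1) (hc : 0 < c) {u : E d → ℝ} (hu : Entire d s c u) {e : E d}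
    (he : ∀ x, 0 < fderiv ℝ u x e) {ψ : E d → ℝ} (hψ : Test ψ) :
    ∫ x, (1 - 3 * u x ^ 2) * ψ x ^ 2 ≤ c / 2 * ∫ p : E d × E d, (ψ p.1 - ψ p.2) ^ 2 * K d s (p.1 - p.2) := by
  have huc := hu.smooth.continuous
  have hψc : Continuous ψ := by
    obtain ⟨L, hL⟩ := hψ.lip
    exact hL.continuous
  have hψ2 : Integrable (fun x => 4 * ψ x ^ 2) := by
    refine Continuous.integrable_of_hasCompactSupport (continuous_const.mul (hψc.pow 2)) ?_
    have : HasCompactSupport (fun x => ψ x ^ 2) := by
      have := hψ.supp.mul_right (f' := ψ)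
      simpa [pow_two, Pi.mul_def] using this
    exact this.mul_left
  have hlim : Tendsto (fun t : ℝ => ∫ x, (1 - (u (x + t • e) ^ 2 + u (x + t • e) * u x + u x ^ 2)) * ψ x ^ 2)
      (𝓝[>] 0) (𝓝 (∫ x, (1 - 3 * u x ^ 2) * ψ x ^ 2)) := by
    refine tendsto_integral_filter_of_dominated_convergence (fun x => 4 * ψ x ^ 2) ?_ ?_ hψ2 ?_
    · refine Eventually.of_forall fun t => ?_
      refine Continuous.aestronglyMeasurable ?_
      fun_prop
    · refine Eventually.of_forall fun t => Eventually.of_forall fun x => ?_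
      rw [norm_mul, Real.norm_eq_abs, Real.norm_eq_abs, abs_of_nonneg (sq_nonneg (ψ x))]
      refine mul_le_mul_of_nonneg_right ?_ (sq_nonneg _)
      have e1 := abs_le.1 (hu.bound x).le
      have e2 := abs_le.1 (hu.bound (x + t • e)).le
      rw [abs_le]
      constructor <;> nlinarith [e1.1, e1.2, e2.1, e2.2, sq_nonneg (u x), sq_nonneg (u (x + t • e)),
        sq_nonneg (u x + u (x + t • e))]
    · refine Eventually.of_forall fun x => ?_
      have h1 : Tendsto (fun t : ℝ => x + t • e) (𝓝[>] 0) (𝓝 (x + (0 : ℝ) • e)) := by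
        refine Tendsto.mono_left ?_ nhdsWithin_le_nhds
        exact Continuous.tendsto (by fun_prop) 0
      rw [zero_smul, add_zero] at h1
      have h2 := (huc.tendsto x).comp h1
      have h3 := ((((h2.pow 2).add (h2.mul_const (u x))).add_const (u x ^ 2)).const_sub 1).mul_const (ψ x ^ 2)
      refine Tendsto.congr (fun t => ?_) (h3.trans_eq ?_)
      · rfl
      · congr 1
        ring
  refine le_of_tendsto hlim ?_
  filter_upwards [self_mem_nhdsWithin] with t ht
  exact stable_t hd hs0 hs1 hc hu he hψ ht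

end NDG
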